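import Pool.Agent.H25.Kin.Conv

/-!
# The Landau flux: regularity, decay, integration by parts and symmetrisation
-/

set_option autoImplicit false

open MeasureTheory Set Filter Topology

namespace Pool.Agent.H25.Kin

variable {d : ℕ} {E : Type*} [NormedAddCommGroup E] [NormedSpace ℝ E]

lemma RD.smul_PG {h : Vec d → ℝ} {k : Vec d → E} (hh : RD h) (hk : PG k) :
    RD (fun v => h v • k v) := by
  have hk' : PG (fun v => ‖k v‖) := by
    obtain ⟨N, C, hC⟩ := hk
    exact ⟨N, C, fun v => by simpa using hC v⟩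
  refine (hh.mul_PG hk').mono 1 fun v => ?_
  rw [norm_smul, norm_mul, norm_norm, one_mul]

lemma RD.PG_smul {h : Vec d → E} {k : Vec d → ℝ} (hh : RD h) (hk : PG k) :
    RD (fun v => k v • h v) := by
  have hh' : RD (fun v => ‖h v‖) := by
    intro N
    obtain ⟨C, hC⟩ := hh N
    exact ⟨C, fun v => by simpa using hC v⟩
  refine (hh'.mul_PG hk).mono 1 fun v => ?_
  rw [norm_smul, norm_mul, norm_norm, one_mul, mul_comm]

omit [NormedSpace ℝ E] in
lemma RD.sub {h k : Vec d → E} (hh : RD h) (hk : RD k) : RD (fun v => h v - k v) := by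
  have := hh.add hk.neg
  simpa [sub_eq_add_neg] using this

omit [NormedSpace ℝ E] in
lemma RD.sum' {ι : Type*} (s : Finset ι) {h : ι → Vec d → E} (hh : ∀ i ∈ s, RD (h i)) :
    RD (fun v => ∑ i ∈ s, h i v) := by
  classical
  induction s using Finset.induction_on with
  | empty => intro N; exact ⟨0, fun v => by simp⟩
  | insert a s ha ih =>
    have h1 : RD (fun v => h a v + ∑ i ∈ s, h i v) :=
      (hh a (Finset.mem_insert_self a s)).add (ih fun i hi => hh i (Finset.mem_insert_of_mem hi))
    simpa [Finset.sum_insert ha] using h1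

variable {g : Vec d → ℝ} {γ : ℝ}

lemma landauFlux_eq (h1 : -2 < γ) (h2 : γ ≤ 0) (hg : Nice g) (i : Fin d) (v : Vec d) :
    landauFlux γ g i v = ∑ j, (pd j g v * conv (fun z => landauA γ z i j) g v -
      g v * conv (fun z => landauA γ z i j) (pd j g) v) := by
  have e1 : landauFlux γ g i v =
      ∫ z : Vec d, ∑ j, landauA γ z i j * (g (v - z) * pd j g v - g v * pd j g (v - z)) := by
    rw [← integral_sub_left_eq_self (fun z : Vec d => ∑ j, landauA γ z i j *
      (g (v - z) * pd j g v - g v * pd j g (v - z))) volume v]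
    simp only [sub_sub_cancel]
    rfl
  rw [e1]
  have hA : ∀ j, Integrable fun z => landauA γ z i j • g (v - z) := fun j =>
    (kern_landauA h1 h2 i j).integrable hg.cont hg.rd v
  have hB : ∀ j, Integrable fun z => landauA γ z i j • pd j g (v - z) := fun j =>
    (kern_landauA h1 h2 i j).integrable (hg.pd_cont j) (hg.pd_RD j) v
  have e2 : ∀ j (z : Vec d), landauA γ z i j * (g (v - z) * pd j g v - g v * pd j g (v - z)) =
      pd j g v * (landauA γ z i j • g (v - z)) - g v * (landauA γ z i j • pd j g (v - z)) := by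
    intro j z; simp only [smul_eq_mul]; ring
  simp_rw [e2]
  rw [integral_finsetSum]
  · refine Finset.sum_congr rfl fun j _ => ?_
    rw [integral_sub ((hA j).const_mul _) ((hB j).const_mul _), integral_const_mul,
      integral_const_mul]
    rfl
  · intro j _
    exact ((hA j).const_mul _).sub ((hB j).const_mul _)

lemma landauFlux_funext (h1 : -2 < γ) (h2 : γ ≤ 0) (hg : Nice g) (i : Fin d) :
    landauFlux γ g i = fun v => ∑ j, (pd j g v * conv (fun z => landauA γ z i j) g v -
      g v * conv (fun z => landauA γ z i j) (pd j g) v) :=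
  funext fun v => landauFlux_eq h1 h2 hg i v

lemma Nice.pd_smooth1 (hg : Nice g) (i : Fin d) : ContDiff ℝ 1 (pd i g) :=
  hg.smooth1.clm_apply contDiff_const

/-- derivative of the flux -/
lemma landauFlux_hasFDerivAt (h1 : -2 < γ) (h2 : γ ≤ 0) (hg : Nice g) (i : Fin d) (v : Vec d) :
    HasFDerivAt (landauFlux γ g i)
      (∑ j, ((pd j g v • conv (fun z => landauA γ z i j) (fderiv ℝ g) v +
          conv (fun z => landauA γ z i j) g v • fderiv ℝ (pd j g) v) -
        (g v • conv (fun z => landauA γ z i j) (fderiv ℝ (pd j g)) v +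
          conv (fun z => landauA γ z i j) (pd j g) v • fderiv ℝ g v))) v := by
  rw [landauFlux_funext h1 h2 hg i]
  refine HasFDerivAt.fun_sum fun j _ => ?_
  have ha : HasFDerivAt (pd j g) (fderiv ℝ (pd j g) v) v := (hg.pd_diff j v).hasFDerivAt
  have hb := (kern_landauA h1 h2 i j).conv_hasFDerivAt (hg.smooth.of_le (by norm_num)) hg.rd hg.rd1 v
  have hc : HasFDerivAt g (fderiv ℝ g v) v := (hg.diff v).hasFDerivAt
  have hd := (kern_landauA h1 h2 i j).conv_hasFDerivAt (hg.pd_smooth1 j) (hg.pd_RD j) (hg.pd_rd1 j) v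
  exact (ha.mul hb).sub (hc.mul hd)

lemma landauFlux_diff (h1 : -2 < γ) (h2 : γ ≤ 0) (hg : Nice g) (i : Fin d) :
    Differentiable ℝ (landauFlux γ g i) := fun v =>
  (landauFlux_hasFDerivAt h1 h2 hg i v).differentiableAt

lemma landauFlux_RD (h1 : -2 < γ) (h2 : γ ≤ 0) (hg : Nice g) (i : Fin d) :
    RD (landauFlux γ g i) := by
  rw [landauFlux_funext h1 h2 hg i]
  refine RD.sum' _ fun j _ => ?_
  exact ((hg.pd_RD j).mul_PG ((kern_landauA h1 h2 i j).conv_PG hg.rd)).sub
    (hg.rd.mul_PG ((kern_landauA h1 h2 i j).conv_PG (hg.pd_RD j)))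

lemma landauFlux_RD1 (h1 : -2 < γ) (h2 : γ ≤ 0) (hg : Nice g) (i : Fin d) :
    RD (fderiv ℝ (landauFlux γ g i)) := by
  have e : fderiv ℝ (landauFlux γ g i) = fun v =>
      (∑ j, ((pd j g v • conv (fun z => landauA γ z i j) (fderiv ℝ g) v +
          conv (fun z => landauA γ z i j) g v • fderiv ℝ (pd j g) v) -
        (g v • conv (fun z => landauA γ z i j) (fderiv ℝ (pd j g)) v +
          conv (fun z => landauA γ z i j) (pd j g) v • fderiv ℝ g v))) :=
    funext fun v => (landauFlux_hasFDerivAt h1 h2 hg i v).fderiv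
  rw [e]
  refine RD.sum' _ fun j _ => ?_
  have k := kern_landauA (d := d) h1 h2 i j
  exact (((hg.pd_RD j).smul_PG (k.conv_PG hg.rd1)).add ((hg.pd_rd1 j).PG_smul (k.conv_PG hg.rd))).sub
    ((hg.rd.smul_PG (k.conv_PG (hg.pd_rd1 j))).add (hg.rd1.PG_smul (k.conv_PG (hg.pd_RD j))))

/-- integration by parts against functions of polynomial growth -/
lemma ibp {J φ : Vec d → ℝ} (hJ : Differentiable ℝ J) (hJr : RD J) (hJ1 : RD (fderiv ℝ J))
    (hφ : Differentiable ℝ φ) (hφp : PG φ) (hφ1 : PG (fderiv ℝ φ)) (i : Fin d) :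
    ∫ v, pd i J v * φ v = -∫ v, J v * pd i φ v := by
  have m1 : Measurable (pd i J) := measurable_fderiv_apply_const ℝ J _
  have m2 : Measurable (pd i φ) := measurable_fderiv_apply_const ℝ φ _
  have mJ : Measurable J := hJ.continuous.measurable
  have mφ : Measurable φ := hφ.continuous.measurable
  have r1 : RD (pd i J) := hJ1.mono 1 fun v => by rw [one_mul]; exact pd_le i J v
  have r2 : PG (pd i φ) := by
    obtain ⟨N, C, hC⟩ := hφ1
    exact ⟨N, C, fun v => (pd_le i φ v).trans (hC v)⟩
  have h := integral_mul_fderiv_eq_neg_fderiv_mul_of_integrable (μ := (volume : Measure (Vec d)))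
    (f := J) (g := φ) (v := Pi.single i 1)
    ((r1.mul_PG hφp).integrable (m1.mul mφ).aestronglyMeasurable)
    ((hJr.mul_PG r2).integrable (mJ.mul m2).aestronglyMeasurable)
    ((hJr.mul_PG hφp).integrable (mJ.mul mφ).aestronglyMeasurable)
    (fun x _ => hJ x) (fun x _ => hφ x)
  unfold pd
  rw [h, neg_neg]

/-- the weak form of the Landau operator -/
lemma integral_landauQ_mul (h1 : -2 < γ) (h2 : γ ≤ 0) (hg : Nice g) {φ : Vec d → ℝ}
    (hφ : Differentiable ℝ φ) (hφp : PG φ) (hφ1 : PG (fderiv ℝ φ)) :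
    ∫ v, landauQ γ g v * φ v = -∑ i, ∫ v, landauFlux γ g i v * pd i φ v := by
  unfold landauQ
  simp_rw [Finset.sum_mul]
  have m1 : ∀ i, Measurable (pd i (landauFlux γ g i)) := fun i =>
    measurable_fderiv_apply_const ℝ _ _
  rw [integral_finsetSum]
  · rw [← Finset.sum_neg_distrib]
    refine Finset.sum_congr rfl fun i _ => ?_
    exact ibp (landauFlux_diff h1 h2 hg i) (landauFlux_RD h1 h2 hg i) (landauFlux_RD1 h1 h2 hg i)
      hφ hφp hφ1 i
  · intro i _
    have r1 : RD (pd i (landauFlux γ g i)) :=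
      (landauFlux_RD1 h1 h2 hg i).mono 1 fun v => by rw [one_mul]; exact pd_le i _ v
    exact (r1.mul_PG hφp).integrable ((m1 i).mul hφ.continuous.measurable).aestronglyMeasurable

end Pool.Agent.H25.Kin
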