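import Pool.Agent.H25.Kin.Basic

/-!
# Admissible initial data for the Landau equation, hydrodynamic bounds
-/

set_option autoImplicit false

open MeasureTheory Set Filter Topology
open scoped ContDiff

namespace Pool.Agent.H25.Kin

variable {d : ℕ}

/-- Admissible initial data for the Landau equation, with Gaussian rate `μ`: smooth, nonnegative,
periodic in `x`, bounded by a multiple of `exp (-μ |v|²)`, with mass density bounded below. -/
structure IsAdmissible (μ : ℝ) (F : Vec d → Vec d → ℝ) : Prop where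
  smooth : ContDiff ℝ ∞ (fun q : Vec d × Vec d => F q.1 q.2)
  nonneg : ∀ x v, 0 ≤ F x v
  periodic : ∀ x v i, F (x + Pi.single i 1) v = F x v
  gauss : ∃ C, ∀ x v, F x v ≤ C * Real.exp (-μ * nsq v)
  mass_pos : ∃ m > 0, ∀ x, m ≤ ∫ v, F x v

/-- The hydrodynamic bounds with constants `m, M, E, H` for a function `g` of the velocity:
`m ≤ ∫ g ≤ M`, `∫ g |v|² ≤ E`, `∫ g log g ≤ H`. -/
def HydroBounds (m M E H : ℝ) (g : Vec d → ℝ) : Prop :=
  m ≤ ∫ v, g v ∧ ∫ v, g v ≤ M ∧ ∫ v, g v * nsq v ≤ E ∧ ∫ v, g v * Real.log (g v) ≤ H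

/-- `f₀` is a perturbation of `F₀` of size `ε` and height at most `h`: `F₀ ≤ f₀ ≤ F₀ + h`, with
equality `f₀ = F₀` for `‖v‖ ≥ 4` (sup norm); the hydrodynamic bounds of `F₀` hold for `f₀` up to
`ε`, with the same lower bound for the mass density; and `f₀ - F₀` is at most `ε` in weighted
`L^∞_x L^p_v`, `1 ≤ p ≤ N`, and in weighted `W^{1,r}` on the unit cube, `1 ≤ r < d`. -/
structure IsClose (F₀ f₀ : Vec d → Vec d → ℝ) (h ε : ℝ) (N : ℕ) : Prop where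
  height : ∀ x v, F₀ x v ≤ f₀ x v ∧ f₀ x v ≤ F₀ x v + h
  support : ∀ x v, 4 ≤ ‖v‖ → f₀ x v = F₀ x v
  hydro : ∀ m M E H x, HydroBounds m M E H (F₀ x) → HydroBounds m (M + ε) (E + ε) (H + ε) (f₀ x)
  lebesgue : ∀ p ∈ Icc (1 : ℝ) N, ∀ x, ∫ v, (1 + ‖v‖) ^ N * |f₀ x v - F₀ x v| ^ p ≤ ε
  sobolev : ∀ r : ℕ, 1 ≤ r → r < d → ∫ x in Icc (0 : Vec d) 1, ∫ v, (1 + ‖v‖) ^ N *
    ‖fderiv ℝ (fun q : Vec d × Vec d => f₀ q.1 q.2 - F₀ q.1 q.2) (x, v)‖ ^ r ≤ ε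

end Pool.Agent.H25.Kin
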