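import Pool.Agent.H25.Kin.Data
import Pool.Agent.H25.Kin.Admis

/-!
# The perturbed datum is close to the given one
-/

set_option autoImplicit false

open MeasureTheory Set Filter Topology
open scoped ContDiff Real

namespace Pool.Agent.H25.Kin

variable {d : ℕ}

lemma exp_RD {μ : ℝ} (hμ : 0 < μ) : RD (fun v : Vec d => Real.exp (-μ * nsq v)) := by
  intro N
  refine ⟨N.factorial * Real.exp (1 + 1 / (4 * μ)), fun v => ?_⟩
  rw [Real.norm_eq_abs, abs_of_pos (Real.exp_pos _)]
  have h1 := Real.pow_div_factorial_le_exp (1 + ‖v‖) (w_pos v).le N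
  have hf : (0 : ℝ) < N.factorial := by exact_mod_cast N.factorial_pos
  rw [div_le_iff₀ hf] at h1
  have h2 := norm_sq_le_sq v
  have h3 : 1 + ‖v‖ + -μ * nsq v ≤ 1 + 1 / (4 * μ) := by
    have h4 : ‖v‖ ≤ μ * ‖v‖ ^ 2 + 1 / (4 * μ) := by
      have h5 : 0 ≤ μ * (‖v‖ - 1 / (2 * μ)) ^ 2 := by positivity
      have h6 : μ * (‖v‖ - 1 / (2 * μ)) ^ 2 = μ * ‖v‖ ^ 2 - ‖v‖ + 1 / (4 * μ) := by
        field_simp; ring
      linarith
    nlinarith
  calc (1 + ‖v‖) ^ N * Real.exp (-μ * nsq v)
      ≤ (Real.exp (1 + ‖v‖) * N.factorial) * Real.exp (-μ * nsq v) := by gcongr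
    _ = N.factorial * Real.exp (1 + ‖v‖ + -μ * nsq v) := by
        rw [Real.exp_add (1 + ‖v‖) (-μ * nsq v)]; ring
    _ ≤ N.factorial * Real.exp (1 + 1 / (4 * μ)) := by gcongr

lemma abs_mul_log_le {s : ℝ} (hs : 0 ≤ s) : |s * Real.log s| ≤ 2 * Real.sqrt s + s ^ 2 := by
  rcases hs.eq_or_lt with h | h
  · rw [← h]; simp
  rcases le_total s 1 with h1 | h1
  · have h2 := Real.abs_log_mul_self_rpow_lt s (1 / 2) h h1 (by norm_num)
    rw [← Real.sqrt_eq_rpow] at h2
    have h3 : s * Real.log s = Real.sqrt s * (Real.log s * Real.sqrt s) := by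
      have := Real.mul_self_sqrt hs
      calc s * Real.log s = (Real.sqrt s * Real.sqrt s) * Real.log s := by rw [this]
        _ = _ := by ring
    rw [h3, abs_mul, abs_of_nonneg (Real.sqrt_nonneg s)]
    have h4 := Real.sqrt_nonneg s
    rw [one_div_one_div] at h2
    nlinarith [sq_nonneg s]
  · have h2 := Real.log_le_sub_one_of_pos h
    have h3 := Real.log_nonneg h1
    rw [abs_of_nonneg (mul_nonneg hs h3)]
    have h4 := Real.sqrt_nonneg s
    nlinarith

variable {μ : ℝ} {F : Vec d → Vec d → ℝ}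

lemma IsAdmissible.cont (hF : IsAdmissible μ F) (x : Vec d) : Continuous (F x) :=
  hF.smooth.continuous.comp (by fun_prop : Continuous fun v : Vec d => (x, v))

lemma IsAdmissible.gauss' (hF : IsAdmissible μ F) :
    ∃ C, 0 ≤ C ∧ ∀ x v, F x v ≤ C * Real.exp (-μ * nsq v) := by
  obtain ⟨C, hC⟩ := hF.gauss
  exact ⟨|C|, abs_nonneg _, fun x v => (hC x v).trans
    (mul_le_mul_of_nonneg_right (le_abs_self C) (Real.exp_pos _).le)⟩

lemma IsAdmissible.rd (hμ : 0 < μ) (hF : IsAdmissible μ F) (x : Vec d) : RD (F x) := by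
  obtain ⟨C, hC0, hC⟩ := hF.gauss'
  refine (exp_RD hμ).mono C fun v => ?_
  rw [Real.norm_eq_abs, Real.norm_eq_abs, abs_of_nonneg (hF.nonneg x v),
    abs_of_pos (Real.exp_pos _)]
  exact hC x v

lemma IsAdmissible.rd_log (hμ : 0 < μ) (hF : IsAdmissible μ F) (x : Vec d) :
    RD (fun v => F x v * Real.log (F x v)) := by
  obtain ⟨C, hC0, hC⟩ := hF.gauss'
  have h1 : RD (fun v : Vec d => 2 * Real.sqrt (F x v)) := by
    refine (exp_RD (μ := μ / 2) (by positivity)).mono (2 * Real.sqrt C) fun v => ?_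
    rw [Real.norm_eq_abs, Real.norm_eq_abs, abs_of_nonneg (by positivity),
      abs_of_pos (Real.exp_pos _)]
    have h2 : Real.sqrt (F x v) ≤ Real.sqrt C * Real.exp (-(μ / 2) * nsq v) := by
      refine Real.sqrt_le_iff.2 ⟨by positivity, ?_⟩
      rw [mul_pow, Real.sq_sqrt hC0, ← Real.exp_nat_mul]
      refine (hC x v).trans (le_of_eq ?_)
      congr 2
      push_cast; ring
    linarith
  have h2 : RD (fun v : Vec d => F x v * F x v) := (hF.rd hμ x).mul_PG (hF.rd hμ x).toPG
  refine (h1.add h2).mono 1 fun v => ?_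
  rw [one_mul, Real.norm_eq_abs, Real.norm_eq_abs]
  refine (abs_mul_log_le (hF.nonneg x v)).trans ?_
  rw [abs_of_nonneg (by have := hF.nonneg x v; positivity), pow_two]

lemma IsAdmissible.int (hμ : 0 < μ) (hF : IsAdmissible μ F) (x : Vec d) : Integrable (F x) :=
  (hF.rd hμ x).integrable (hF.cont x).aestronglyMeasurable

lemma IsAdmissible.int_sq (hμ : 0 < μ) (hF : IsAdmissible μ F) (x : Vec d) :
    Integrable (fun v => F x v * nsq v) :=
  ((hF.rd hμ x).mul_PG PG.nsq).integrable ((hF.cont x).mul continuous_sq).aestronglyMeasurable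

lemma IsAdmissible.int_log (hμ : 0 < μ) (hF : IsAdmissible μ F) (x : Vec d) :
    Integrable (fun v => F x v * Real.log (F x v)) :=
  (hF.rd_log hμ x).integrable ((Real.continuous_mul_log.comp (hF.cont x))).aestronglyMeasurable

lemma bump_cont (δ t : ℝ) (x : Vec d) : Continuous (bump δ t x) := by
  have h : Continuous (fun q : Vec d × Vec d => bump δ t q.1 q.2) := (bump_smooth δ t).continuous
  have h2 : Continuous fun v : Vec d => (x, v) := by fun_prop
  have h3 := h.comp h2
  simp only [Function.comp_def] at h3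
  exact h3

lemma bump_compact {δ t : ℝ} (hδ : 0 < δ) (hδ1 : δ ≤ 1) (ht : 0 < t) (x : Vec d) :
    HasCompactSupport (bump δ t x) := by
  refine HasCompactSupport.intro (isCompact_closedBall (0 : Vec d) 4) fun v hv => ?_
  by_contra h0
  apply hv
  rw [mem_closedBall_zero_iff]
  exact (bump_supp_v hδ hδ1 ht h0).le

lemma bump_integrable {δ t : ℝ} (hδ : 0 < δ) (hδ1 : δ ≤ 1) (ht : 0 < t) (x : Vec d) :
    Integrable (bump δ t x) :=
  (bump_cont δ t x).integrable_of_hasCompactSupport (bump_compact hδ hδ1 ht x)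

/-- the perturbed datum is admissible, with the same Gaussian rate -/
lemma pert_admissible (hμ : 0 < μ) (hF : IsAdmissible μ F) {δ t h : ℝ} (hδ : 0 < δ) (hδ1 : δ ≤ 1)
    (ht : 0 < t) (hh : 0 ≤ h) : IsAdmissible μ (fun x v => F x v + h * bump δ t x v) := by
  refine ⟨?_, ?_, ?_, ?_, ?_⟩
  · exact hF.smooth.add (contDiff_const.mul (bump_smooth δ t))
  · intro x v
    exact add_nonneg (hF.nonneg x v) (mul_nonneg hh (bump_nonneg _ _ _ _))
  · intro x v i
    rw [hF.periodic, bump_periodic]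
  · obtain ⟨C, hC0, hC⟩ := hF.gauss'
    refine ⟨C + h * Real.exp (μ * (d * 16)), fun x v => ?_⟩
    rw [add_mul]
    refine add_le_add (hC x v) ?_
    rw [mul_assoc]
    refine mul_le_mul_of_nonneg_left ?_ hh
    by_cases h0 : bump δ t x v = 0
    · rw [h0]; positivity
    · have h1 := bump_supp_v hδ hδ1 ht h0
      have h2 := sq_le v
      have h3 : nsq v ≤ d * 16 := by
        refine h2.trans ?_
        have : ‖v‖ ^ 2 ≤ 16 := by nlinarith [norm_nonneg v]
        have hd : (0 : ℝ) ≤ d := Nat.cast_nonneg d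
        nlinarith
      rw [← Real.exp_add]
      refine (bump_le_one _ _ _ _).trans (Real.one_le_exp ?_)
      nlinarith
  · obtain ⟨m, hm, hm2⟩ := hF.mass_pos
    refine ⟨m, hm, fun x => (hm2 x).trans ?_⟩
    have hb : Integrable (fun v => h * bump δ t x v) := (bump_integrable hδ hδ1 ht x).const_mul h
    refine integral_mono (hF.int hμ x) ((hF.int hμ x).add hb) fun v => ?_
    have := mul_nonneg hh (bump_nonneg δ t x v)
    simp only [Pi.add_apply]
    linarith

/-- weighted `L^p` smallness of the perturbation -/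
lemma pert_Lp {δ t h : ℝ} (hδ : 0 < δ) (hδ1 : δ ≤ 1) (ht : 0 < t) (hh : 1 ≤ h) (N : ℕ) {p : ℝ}
    (hp : p ∈ Icc (1 : ℝ) N) (x : Vec d) :
    ∫ v, (1 + ‖v‖) ^ N * |h * bump δ t x v| ^ p ≤ 5 ^ N * h ^ N * (4 * δ) ^ d := by
  have e : (4 * δ) ^ d = (2 * (2 * δ)) ^ d := by congr 1; ring
  rw [e]
  refine (le_abs_self _).trans (int_le_ball' (G := fun v => (1 + ‖v‖) ^ N * |h * bump δ t x v| ^ p)
    (C := 5 ^ N * h ^ N) (R := 2 * δ) (-(t⁻¹ • Sx x)) (by positivity) (fun v => ?_)
    fun v hv => ?_)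
  · have hw := w_pos v
    rw [abs_of_nonneg (by positivity)]
    by_cases h0 : bump δ t x v = 0
    · rw [h0, mul_zero, abs_zero, Real.zero_rpow (by linarith [hp.1]), mul_zero]
      positivity
    · have h1 := bump_supp_v hδ hδ1 ht h0
      have h2 : |h * bump δ t x v| ≤ h := by
        rw [abs_of_nonneg (mul_nonneg (by linarith) (bump_nonneg _ _ _ _))]
        have := bump_le_one δ t x v
        nlinarith
      have h3 : |h * bump δ t x v| ^ p ≤ h ^ N := by
        refine (Real.rpow_le_rpow (abs_nonneg _) h2 (by linarith [hp.1])).trans ?_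
        rw [← Real.rpow_natCast]
        exact Real.rpow_le_rpow_of_exponent_le hh hp.2
      have h4 : (1 + ‖v‖) ^ N ≤ 5 ^ N := pow_le_pow_left₀ hw.le (by linarith) N
      exact mul_le_mul h4 h3 (by positivity) (by positivity)
  · have h0 : bump δ t x v = 0 := by
      by_contra h0
      have := (bump_supp hδ ht h0).2
      rw [sub_neg_eq_add] at hv
      linarith
    rw [h0, mul_zero, abs_zero, Real.zero_rpow (by linarith [hp.1]), mul_zero]

/-- smallness in entropy -/
lemma pert_entropy (hμ : 0 < μ) (hF : IsAdmissible μ F) {C : ℝ}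
    (hC : ∀ x v, F x v ≤ C) {δ t h : ℝ} (hδ : 0 < δ) (hδ1 : δ ≤ 1) (ht : 0 < t) (hh : 0 ≤ h)
    (x : Vec d) :
    |(∫ v, (F x v + h * bump δ t x v) * Real.log (F x v + h * bump δ t x v)) -
      ∫ v, F x v * Real.log (F x v)| ≤
      (2 * (2 * Real.sqrt (C + h) + (C + h) ^ 2)) * (4 * δ) ^ d := by
  have hA := pert_admissible hμ hF hδ hδ1 ht hh
  rw [← integral_sub (hA.int_log hμ x) (hF.int_log hμ x)]
  have e : (4 * δ) ^ d = (2 * (2 * δ)) ^ d := by congr 1; ring
  rw [e]
  have bd : ∀ s, 0 ≤ s → s ≤ C + h → |s * Real.log s| ≤ 2 * Real.sqrt (C + h) + (C + h) ^ 2 := by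
    intro s h0 h1
    refine (abs_mul_log_le h0).trans ?_
    have := Real.sqrt_le_sqrt h1
    have h2 := pow_le_pow_left₀ h0 h1 2
    linarith
  refine int_le_ball' (-(t⁻¹ • Sx x)) (by positivity) (fun v => ?_) fun v hv => ?_
  · refine (abs_sub _ _).trans ?_
    have h1 := bd (F x v + h * bump δ t x v) (hA.nonneg x v) (by
      have := bump_le_one δ t x v
      have := hC x v
      nlinarith)
    have h2 := bd (F x v) (hF.nonneg x v) (by linarith [hC x v])
    linarith
  · have h0 : bump δ t x v = 0 := by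
      by_contra h0
      have := (bump_supp hδ ht h0).2
      rw [sub_neg_eq_add] at hv
      linarith
    rw [h0, mul_zero, add_zero, sub_self]

end Pool.Agent.H25.Kin
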