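import Pool.Agent.H25.Kin.Macro
import Pool.Agent.H25.Kin.Close

/-!
# Macroscopic focusing: tails, vacuum, entropy
-/

set_option autoImplicit false

open MeasureTheory Set Filter Topology

namespace Pool.Agent.H25.Kin

variable {d : ℕ} {T : ℝ} {Q f : ℝ → Vec d → Vec d → ℝ}

/-- the Gaussian integral -/
noncomputable def zg (d : ℕ) : ℝ := ∫ v : Vec d, Real.exp (-1 * nsq v)

/-- pointwise Gibbs inequality -/
lemma gibbs_pt {a θ n : ℝ} (ha : 0 ≤ a) (hθ : 0 < θ) :
    (Real.log θ + 1) * a - n * a - θ * Real.exp (-1 * n) ≤ a * Real.log a := by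
  have he := Real.exp_pos (-1 * n)
  rcases ha.eq_or_lt with h | h
  · rw [← h]; simp; positivity
  · have hb : 0 < θ * Real.exp (-1 * n) / a := by positivity
    have h1 := Real.log_le_sub_one_of_pos hb
    rw [Real.log_div (by positivity) h.ne', Real.log_mul hθ.ne' he.ne', Real.log_exp] at h1
    have h2 := mul_le_mul_of_nonneg_left h1 ha
    have h3 : a * (θ * Real.exp (-1 * n) / a - 1) = θ * Real.exp (-1 * n) - a := by
      field_simp
    rw [h3] at h2
    linarith

lemma rd_mul_log {g : Vec d → ℝ} (hg0 : ∀ v, 0 ≤ g v) (hg : RD g) :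
    RD (fun v => g v * Real.log (g v)) := by
  have h1 : RD (fun v : Vec d => 2 * Real.sqrt (g v)) := by
    intro N
    obtain ⟨C, hC⟩ := hg (2 * N)
    refine ⟨2 * Real.sqrt C, fun v => ?_⟩
    rw [Real.norm_eq_abs, abs_of_nonneg (by positivity)]
    have e : (1 + ‖v‖) ^ N = Real.sqrt ((1 + ‖v‖) ^ (2 * N)) := by
      rw [mul_comm, pow_mul, Real.sqrt_sq (pow_nonneg (w_pos v).le N)]
    have h2 : (1 + ‖v‖) ^ N * Real.sqrt (g v) ≤ Real.sqrt C := by
      rw [e, ← Real.sqrt_mul (pow_nonneg (w_pos v).le _)]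
      refine Real.sqrt_le_sqrt ?_
      have := hC v
      rwa [Real.norm_eq_abs, abs_of_nonneg (hg0 v)] at this
    linarith
  have h2 : RD (fun v : Vec d => g v * g v) := hg.mul_PG hg.toPG
  refine (h1.add h2).mono 1 fun v => ?_
  rw [one_mul, Real.norm_eq_abs, Real.norm_eq_abs]
  refine (abs_mul_log_le (hg0 v)).trans ?_
  rw [abs_of_nonneg (by have := hg0 v; positivity), pow_two]

/-- Gibbs inequality for the entropy density -/
lemma gibbs {g : Vec d → ℝ} (hg0 : ∀ v, 0 ≤ g v) (hg : RD g) (hgc : Continuous g) {θ : ℝ}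
    (hθ : 0 < θ) :
    (Real.log θ + 1) * (∫ v, g v) - (∫ v, nsq v * g v) - θ * zg d ≤ ∫ v, g v * Real.log (g v) := by
  have i1 : Integrable g := hg.integrable hgc.aestronglyMeasurable
  have i2 : Integrable (fun v => nsq v * g v) := by
    have h := (hg.mul_PG PG.nsq).integrable (hgc.mul continuous_sq).aestronglyMeasurable
    refine h.congr (Eventually.of_forall fun v => mul_comm _ _)
  have i3 : Integrable (fun v : Vec d => Real.exp (-1 * nsq v)) :=
    (exp_RD one_pos).integrable
      (Real.continuous_exp.comp (continuous_const.mul continuous_sq)).aestronglyMeasurable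
  have i4 : Integrable (fun v => g v * Real.log (g v)) :=
    (rd_mul_log hg0 hg).integrable (Real.continuous_mul_log.comp hgc).aestronglyMeasurable
  have i5 : Integrable (fun v => (Real.log θ + 1) * g v - nsq v * g v) := (i1.const_mul _).sub i2
  unfold zg
  rw [← integral_const_mul, ← integral_const_mul, ← integral_sub (i1.const_mul _) i2,
    ← integral_sub i5 (i3.const_mul _)]
  exact integral_mono (i5.sub (i3.const_mul _)) i4 fun v => gibbs_pt (hg0 v) hθ

/-- **Macroscopic focusing**, all consequences. -/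
theorem macro_all (hd : 1 ≤ d) (hf : IsClassicalSol T Q f) (hQ : HasInvariants T Q) {η t δ A E : ℝ}
    (ht : 0 < t) (htT : t < T) (hδ : 0 < δ) (hf0 : f 0 = fd η t δ) (hη : 0 < η) (hη1 : η ≤ 1 / 8)
    (hA : d * (η / 2) + 4 * d * δ ^ 2 * t ^ 2 ≤ A)
    (hE : ∀ x : Vec d, ∫ v, nsq v * fd η t δ x v ≤ E) :
    (∀ R ∈ Ioc (0 : ℝ) (1 / 4), 1 - A / R ^ 2 ≤
      ∫ x in Metric.closedBall (fun _ => 1 / 2 : Vec d) R, ∫ v, f t x v) ∧
    (∃ x, ∫ v, f t x v ≤ 32 * A) ∧
    (∀ R ∈ Ioc (0 : ℝ) (1 / 4), A / R ^ 2 ≤ 1 / 4 →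
      (∃ x, (3 / 4) / (2 * R) ^ d ≤ ∫ v, f t x v) ∧
      ∃ x, ((3 / 4) * (1 - d * Real.log (2 * R)) - E - zg d) / (2 * R) ^ d ≤
        ∫ v, f t x v * Real.log (f t x v)) := by
  have hT : 0 < T := ht.trans htT
  have htT' : t ∈ Ico 0 T := ⟨ht.le, htT⟩
  have h1 := virial hf hQ η ht htT
  have h2 := init hf ht hδ hT hf0 hη hη1
  have h3 := sg_le (d := d)
  have hVA : ∑ i, mom (fun x : Vec d => qf η (x i)) (fun _ => 1) f t ≤ A := by
    have : sg d * δ ^ 2 * t ^ 2 ≤ 4 * d * δ ^ 2 * t ^ 2 := by
      have : 0 ≤ δ ^ 2 * t ^ 2 := by positivity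
      nlinarith
    linarith
  have hA0 : 0 ≤ A := by
    refine le_trans ?_ hA
    positivity
  have sq1 : ContDiff ℝ 1 (qf η) := (qf_smooth η).of_le (by exact_mod_cast le_top)
  set ρ : Vec d → ℝ := fun x => ∫ v, f t x v with hρ
  set e : Vec d → ℝ := fun x => ∫ v, nsq v * f t x v with he
  have hρ0 : ∀ x, 0 ≤ ρ x := fun x => integral_nonneg fun v => hf.nonneg t htT' x v
  have he0 : ∀ x, 0 ≤ e x := fun x => integral_nonneg fun v =>
    mul_nonneg (sq_nonneg' v) (hf.nonneg t htT' x v)
  have hρi : IntegrableOn ρ (Icc (0 : Vec d) 1) := by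
    have h4 := (mom_iter (d := d) pos_one.le0 continuous_const PG.one continuous_const hf htT').1
    unfold nu at h4
    have h5 := h4.integral_prod_right
    unfold muD at h5
    refine h5.congr (Eventually.of_forall fun x => ?_)
    simp [hρ]
  have hei : IntegrableOn e (Icc (0 : Vec d) 1) := by
    have h4 := (mom_iter (d := d) pos_one.le0 continuous_const PG.nsq continuous_sq hf htT').1
    unfold nu at h4
    have h5 := h4.integral_prod_right
    unfold muD at h5
    refine h5.congr (Eventually.of_forall fun x => ?_)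
    simp [he]
  have hρqi : ∀ i : Fin d, IntegrableOn (fun x => qf η (x i) * ρ x) (Icc (0 : Vec d) 1) := by
    intro i
    obtain ⟨A', hA'⟩ := pos_coord sq1 (qf_add_one η) i
    refine hρi.bdd_mul (c := A') ?_ ?_
    · exact ((qf_cont η).comp (continuous_apply i)).aestronglyMeasurable
    · exact Eventually.of_forall fun x => hA'.le0 x
  -- total mass
  have hmass : ∫ x in Icc (0 : Vec d) 1, ρ x = 1 := by
    have hQ1 : ∀ s ∈ Ioo 0 T, ∀ x, ∫ v, Q s x v * (1 : ℝ) = 0 := fun s hs x => by
      simpa using (hQ s hs x).1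
    have h4 := mom_const PG.one continuous_const hf hQ1 htT'
    rw [(mom_iter (d := d) pos_one.le0 continuous_const PG.one continuous_const hf htT').2,
      (mom_iter (d := d) pos_one.le0 continuous_const PG.one continuous_const hf ⟨le_refl _, hT⟩).2,
      hf0] at h4
    simp only [one_mul] at h4
    rw [hρ]
    simp only
    rw [h4]
    have e : ∀ x : Vec d, ∫ v, fd η t δ x v = 1 := fun x => fd_mass η t hδ x
    simp_rw [e]
    rw [setIntegral_const, Measure.real, Real.volume_Icc_pi]
    simp
  -- total energy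
  have henergy : ∫ x in Icc (0 : Vec d) 1, e x ≤ E := by
    have hQe : ∀ s ∈ Ioo 0 T, ∀ x, ∫ v, Q s x v * nsq v = 0 := fun s hs x => (hQ s hs x).2.2
    have h4 := mom_const PG.nsq continuous_sq hf hQe htT'
    rw [(mom_iter (d := d) pos_one.le0 continuous_const PG.nsq continuous_sq hf htT').2,
      (mom_iter (d := d) pos_one.le0 continuous_const PG.nsq continuous_sq hf ⟨le_refl _, hT⟩).2,
      hf0] at h4
    simp only [one_mul] at h4
    rw [he]
    simp only
    rw [h4]
    have hen : ∀ x : Vec d, ∫ v, nsq v * fd η t δ x v = nsq (uf η t x) + δ ^ 2 * sg d :=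
      fun x => fd_energy η t hδ x
    have hii : IntegrableOn (fun x : Vec d => ∫ v, nsq v * fd η t δ x v) (Icc (0 : Vec d) 1) := by
      simp_rw [hen]
      have : Continuous fun x : Vec d => nsq (uf η t x) + δ ^ 2 * sg d :=
        (continuous_sq.comp (uf_smooth η t).continuous).add continuous_const
      exact this.continuousOn.integrableOn_compact isCompact_Icc
    calc ∫ x in Icc (0 : Vec d) 1, ∫ v, nsq v * fd η t δ x v ≤ ∫ _x in Icc (0 : Vec d) 1, E := by
          refine setIntegral_mono hii ?_ fun x => hE x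
          exact integrableOn_const (by rw [Real.volume_Icc_pi]; simp)
      _ = E := by
          rw [setIntegral_const, Measure.real, Real.volume_Icc_pi]
          simp
  -- the potential
  have hpot : ∫ x in Icc (0 : Vec d) 1, ∑ i, qf η (x i) * ρ x ≤ A := by
    rw [integral_finsetSum _ fun i _ => hρqi i]
    refine le_trans (le_of_eq ?_) hVA
    refine Finset.sum_congr rfl fun i _ => ?_
    obtain ⟨A', hA'⟩ := pos_coord sq1 (qf_add_one η) i
    rw [(mom_iter hA'.le0 hA'.smooth.continuous PG.one continuous_const hf htT').2]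
    simp only [one_mul]
    rfl
  have hDm : MeasurableSet (Icc (0 : Vec d) 1) := measurableSet_Icc
  have hBsub : ∀ R ∈ Ioc (0 : ℝ) (1 / 4),
      Metric.closedBall (fun _ => 1 / 2 : Vec d) R ⊆ Icc (0 : Vec d) 1 := by
    intro R hR x hx
    rw [Metric.mem_closedBall, dist_pi_le_iff hR.1.le] at hx
    constructor
    · intro i
      have := hx i
      rw [Real.dist_eq, abs_le] at this
      simp only [Pi.zero_apply]; linarith [this.1, hR.2]
    · intro i
      have := hx i
      rw [Real.dist_eq, abs_le] at this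
      simp only [Pi.one_apply]; linarith [this.2, hR.2]
  have hBm : ∀ R : ℝ, MeasurableSet (Metric.closedBall (fun _ => 1 / 2 : Vec d) R) := fun R =>
    Metric.isClosed_closedBall.measurableSet
  have hout : ∀ R ∈ Ioc (0 : ℝ) (1 / 4),
      ∫ x in Icc (0 : Vec d) 1 \ Metric.closedBall (fun _ => 1 / 2 : Vec d) R, ρ x ≤ A / R ^ 2 := by
    intro R hR
    have hR2 : 0 < R ^ 2 := pow_pos hR.1 2
    have hsumi : IntegrableOn (fun x : Vec d => ∑ i, qf η (x i) * ρ x) (Icc (0 : Vec d) 1) :=
      integrable_finsetSum _ fun i _ => hρqi i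
    have hge0 : ∀ x ∈ Icc (0 : Vec d) 1, ∀ i, 0 ≤ qf η (x i) := by
      intro x hx i
      have := qf_ge hη hη1 (s := x i) (R := 0) ⟨hx.1 i, hx.2 i⟩ (le_refl _) (by norm_num)
        (abs_nonneg _)
      simpa using this
    rw [le_div_iff₀ hR2, mul_comm]
    calc R ^ 2 * ∫ x in Icc (0 : Vec d) 1 \ Metric.closedBall (fun _ => 1 / 2 : Vec d) R, ρ x =
          ∫ x in Icc (0 : Vec d) 1 \ Metric.closedBall (fun _ => 1 / 2 : Vec d) R, R ^ 2 * ρ x := by
          rw [integral_const_mul]
      _ ≤ ∫ x in Icc (0 : Vec d) 1 \ Metric.closedBall (fun _ => 1 / 2 : Vec d) R,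
            ∑ i, qf η (x i) * ρ x := by
          refine setIntegral_mono_on ((hρi.mono_set sdiff_subset).const_mul _)
            (hsumi.mono_set sdiff_subset) (hDm.diff (hBm R)) fun x hx => ?_
          obtain ⟨hxD, hxB⟩ := hx
          have hex : ∃ i, R < |x i - 1 / 2| := by
            by_contra hcon
            push Not at hcon
            apply hxB
            rw [Metric.mem_closedBall, dist_pi_le_iff hR.1.le]
            intro i
            rw [Real.dist_eq]; exact hcon i
          obtain ⟨i, hi⟩ := hex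
          have h5 := qf_ge hη hη1 (s := x i) ⟨hxD.1 i, hxD.2 i⟩ hR.1.le hR.2 hi.le
          calc R ^ 2 * ρ x ≤ qf η (x i) * ρ x := mul_le_mul_of_nonneg_right h5 (hρ0 x)
            _ ≤ ∑ i, qf η (x i) * ρ x :=
                Finset.single_le_sum (f := fun i => qf η (x i) * ρ x)
                  (fun j _ => mul_nonneg (hge0 x hxD j) (hρ0 x)) (Finset.mem_univ i)
      _ ≤ ∫ x in Icc (0 : Vec d) 1, ∑ i, qf η (x i) * ρ x := by
          refine setIntegral_mono_set hsumi ?_ (Eventually.of_forall sdiff_subset)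
          filter_upwards [ae_restrict_mem hDm] with x hx
          exact Finset.sum_nonneg fun i _ => mul_nonneg (hge0 x hx i) (hρ0 x)
      _ ≤ A := hpot
  have hin : ∀ R ∈ Ioc (0 : ℝ) (1 / 4), 1 - A / R ^ 2 ≤
      ∫ x in Metric.closedBall (fun _ => 1 / 2 : Vec d) R, ρ x := by
    intro R hR
    have h5 := setIntegral_union (μ := (volume : Measure (Vec d))) (f := ρ)
      (disjoint_sdiff_right (s := Metric.closedBall (fun _ => 1 / 2 : Vec d) R)
        (t := Icc (0 : Vec d) 1)) (hDm.diff (hBm R))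
      (hρi.mono_set (hBsub R hR)) (hρi.mono_set sdiff_subset)
    rw [union_sdiff_cancel (hBsub R hR), hmass] at h5
    linarith [hout R hR]
  have hvol : ∀ R : ℝ, 0 ≤ R → (volume : Measure (Vec d)).real
      (Metric.closedBall (fun _ => 1 / 2 : Vec d) R) = (2 * R) ^ d := fun R hR => vol_ball hR _
  refine ⟨hin, ?_, fun R hR hAR => ?_⟩
  · -- vacuum
    have h4 : (1 / 4 : ℝ) ∈ Ioc (0 : ℝ) (1 / 4) := ⟨by norm_num, le_refl _⟩
    set S := Icc (0 : Vec d) 1 \ Metric.closedBall (fun _ => 1 / 2 : Vec d) (1 / 4) with hS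
    have hD1 : (volume : Measure (Vec d)).real (Icc (0 : Vec d) 1) = 1 := by
      rw [Measure.real, Real.volume_Icc_pi]; simp
    have hDfin : (volume : Measure (Vec d)) (Icc (0 : Vec d) 1) ≠ ⊤ := by
      rw [Real.volume_Icc_pi]; simp
    have hSreal : (volume : Measure (Vec d)).real S = 1 - (1 / 2) ^ d := by
      have hBf : (volume : Measure (Vec d)) (Metric.closedBall (fun _ => 1 / 2 : Vec d) (1 / 4)) ≠ ⊤ :=
        (isCompact_closedBall _ _).measure_lt_top.ne
      rw [hS, measureReal_sdiff' (hBm _) hDfin hBf, union_eq_self_of_subset_right (hBsub _ h4), hD1,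
        hvol _ (by norm_num)]
      norm_num
    have hhalf : (1 / 2 : ℝ) ≤ 1 - (1 / 2) ^ d := by
      have : (1 / 2 : ℝ) ^ d ≤ (1 / 2) ^ 1 :=
        pow_le_pow_of_le_one (by norm_num) (by norm_num) hd
      rw [pow_one] at this
      linarith
    have hSne : (volume : Measure (Vec d)) S ≠ 0 := by
      intro h0
      rw [Measure.real, h0] at hSreal
      simp only [ENNReal.toReal_zero] at hSreal
      linarith
    have hSfin : (volume : Measure (Vec d)) S ≠ ⊤ :=
      ((measure_mono sdiff_subset).trans_lt hDfin.lt_top).ne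
    obtain ⟨x, _, hx⟩ := exists_le_setAverage hSne hSfin (hρi.mono_set sdiff_subset)
    refine ⟨x, hx.trans ?_⟩
    rw [setAverage_eq, smul_eq_mul, hSreal]
    have h5 := hout _ h4
    rw [← hS] at h5
    have h6 : A / (1 / 4) ^ 2 = 16 * A := by ring
    rw [h6] at h5
    rw [inv_mul_le_iff₀ (by linarith)]
    nlinarith
  · have hR0 := hR.1
    have h2R : 0 < (2 * R) ^ d := by positivity
    set B := Metric.closedBall (fun _ => 1 / 2 : Vec d) R with hB
    have hBfin : (volume : Measure (Vec d)) B ≠ ⊤ := (isCompact_closedBall _ _).measure_lt_top.ne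
    have hBne : (volume : Measure (Vec d)) B ≠ 0 := by
      intro h0
      have := hvol R hR0.le
      rw [← hB, Measure.real, h0] at this
      simp only [ENNReal.toReal_zero] at this
      linarith
    have hρB := hρi.mono_set (hBsub R hR)
    have heB := hei.mono_set (hBsub R hR)
    have hm : 3 / 4 ≤ ∫ x in B, ρ x := by linarith [hin R hR]
    constructor
    · obtain ⟨x, _, hx⟩ := exists_setAverage_le hBne hBfin hρB
      refine ⟨x, le_trans ?_ hx⟩
      rw [setAverage_eq, smul_eq_mul, hvol R hR0.le, div_eq_inv_mul]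
      gcongr
    · set θ : ℝ := ((2 * R) ^ d)⁻¹ with hθ
      have hθ0 : 0 < θ := inv_pos.2 h2R
      have hlog : Real.log θ = -(d * Real.log (2 * R)) := by
        rw [hθ, Real.log_inv, Real.log_pow]
      have hlog0 : 0 ≤ Real.log θ := by
        refine Real.log_nonneg ?_
        rw [hθ]
        exact (one_le_inv₀ h2R).2 (pow_le_one₀ (by positivity) (by linarith [hR.2]))
      have hψ : IntegrableOn (fun x => (Real.log θ + 1) * ρ x - e x) B :=
        (hρB.const_mul _).sub heB
      obtain ⟨x, _, hx⟩ := exists_setAverage_le hBne hBfin hψ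
      refine ⟨x, ?_⟩
      have hrd : RD (f t x) := by
        intro N
        obtain ⟨C, hC⟩ := hf.decay t htT N
        refine ⟨C, fun v => ?_⟩
        rw [Real.norm_eq_abs, abs_of_nonneg (hf.nonneg t htT' x v)]
        exact hC t ⟨ht.le, le_refl _⟩ x v
      have hcs : Continuous (f t x) :=
        (hf.cont_slice htT').comp (by fun_prop : Continuous fun v : Vec d => (x, v))
      have hg := gibbs (hf.nonneg t htT' x) hrd hcs hθ0
      have hav : θ * ((Real.log θ + 1) * (3 / 4) - E) ≤ (Real.log θ + 1) * ρ x - e x := by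
        refine le_trans ?_ hx
        rw [setAverage_eq, smul_eq_mul, hvol R hR0.le, ← hθ,
          integral_sub (hρB.const_mul _) heB, integral_const_mul]
        have heE : ∫ x in B, e x ≤ E := by
          refine le_trans ?_ henergy
          exact setIntegral_mono_set hei (Eventually.of_forall fun x => he0 x)
            (Eventually.of_forall (hBsub R hR))
        have : (Real.log θ + 1) * (3 / 4) ≤ (Real.log θ + 1) * ∫ x in B, ρ x := by gcongr
        gcongr
      have hfin : ((3 / 4) * (1 - d * Real.log (2 * R)) - E - zg d) / (2 * R) ^ d =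
          θ * ((Real.log θ + 1) * (3 / 4) - E) - θ * zg d := by
        rw [hlog, div_eq_mul_inv, ← hθ]; ring
      rw [hfin]
      exact (sub_le_sub_right hav _).trans hg

end Pool.Agent.H25.Kin
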