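import Pool.Agent.H25.Kin.Per

/-!
# Transport identity: `d/dt ∫∫ c(x) p(v) f = ∫∫ (v·∇c)(x) p(v) f` for collision invariants `p`
-/

set_option autoImplicit false

open MeasureTheory Set Filter Topology

namespace Pool.Agent.H25.Kin

variable {d : ℕ} {T : ℝ} {Q f : ℝ → Vec d → Vec d → ℝ}

/-- multipliers in the position -/
structure Pos (c : Vec d → ℝ) (A : ℝ) : Prop where
  per : Per c
  smooth : ContDiff ℝ 1 c
  le0 : ∀ x, |c x| ≤ A
  le1 : ∀ x, ‖fderiv ℝ c x‖ ≤ A

lemma Pos.nonneg {c : Vec d → ℝ} {A : ℝ} (h : Pos c A) : 0 ≤ A := (abs_nonneg _).trans (h.le0 0)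

lemma Pos.fderiv_cont {c : Vec d → ℝ} {A : ℝ} (h : Pos c A) : Continuous (fderiv ℝ c) :=
  h.smooth.continuous_fderiv (by norm_num)

lemma Pos.fderiv_per {c : Vec d → ℝ} {A : ℝ} (h : Pos c A) (v : Vec d) :
    Per fun x => fderiv ℝ c x v := by
  intro x i
  have e : (fun x => c (x + Pi.single i 1)) = c := funext fun x => h.per x i
  have h2 := fderiv_comp_add_right (𝕜 := ℝ) (f := c) (x := x) (Pi.single i 1)
  rw [e] at h2
  simp only
  rw [← h2]

/-- decay bounds for the slices, in the weight form -/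
lemma IsClassicalSol.f_le (hf : IsClassicalSol T Q f) {T₁ : ℝ} (h1 : T₁ < T) (N : ℕ) :
    ∃ C, 0 ≤ C ∧ ∀ t ∈ Icc 0 T₁, ∀ x v, |f t x v| ≤ C * ((1 + ‖v‖) ^ N)⁻¹ := by
  obtain ⟨C, hC⟩ := hf.decay T₁ h1 N
  refine ⟨|C|, abs_nonneg _, fun t ht x v => ?_⟩
  rw [abs_of_nonneg (hf.nonneg t ⟨ht.1, ht.2.trans_lt h1⟩ x v), ← div_eq_mul_inv,
    le_div_iff₀ (pow_pos (w_pos v) _), mul_comm]
  exact (hC t ht x v).trans (le_abs_self C)

lemma wt_bound {a b : ℝ} (ha : 0 ≤ a) (hb : 0 ≤ b) (v : Vec d) (m : ℕ) :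
    (a * (1 + ‖v‖) ^ m) * (b * ((1 + ‖v‖) ^ (m + (d + 1)))⁻¹) = a * b * wt d v := by
  unfold wt
  have hv := w_pos v
  rw [pow_add]
  field_simp

section
variable {c p : Vec d → ℝ} {A : ℝ}

/-- the moment `∫∫ c(x) p(v) f(t,x,v) dv dx` -/
noncomputable def mom (c p : Vec d → ℝ) (f : ℝ → Vec d → Vec d → ℝ) (t : ℝ) : ℝ :=
  ∫ q, c q.2 * p q.1 * f t q.2 q.1 ∂(nu d)

lemma mom_bound (hc : ∀ x, |c x| ≤ A) (hp : PG p) (hf : IsClassicalSol T Q f) {T₁ : ℝ}
    (h1 : T₁ < T) : ∃ C, 0 ≤ C ∧ ∀ t ∈ Icc 0 T₁, ∀ x v y, |c y * p v * f t x v| ≤ C * wt d v := by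
  have hA : 0 ≤ A := (abs_nonneg _).trans (hc 0)
  obtain ⟨m, P, hP0, hP⟩ := hp.pos
  obtain ⟨C, hC0, hC⟩ := hf.f_le h1 (m + (d + 1))
  refine ⟨A * P * C, by positivity, fun t ht x v y => ?_⟩
  rw [abs_mul, abs_mul]
  have h2 := hC t ht x v
  have h3 := hP v
  rw [Real.norm_eq_abs] at h3
  have hv := w_pos v
  calc |c y| * |p v| * |f t x v| ≤ A * (P * (1 + ‖v‖) ^ m) * (C * ((1 + ‖v‖) ^ (m + (d + 1)))⁻¹) := by
        gcongr
        exact hc y
    _ = A * ((P * (1 + ‖v‖) ^ m) * (C * ((1 + ‖v‖) ^ (m + (d + 1)))⁻¹)) := by ring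
    _ = A * P * C * wt d v := by rw [wt_bound hP0 hC0]; ring

lemma mom_eq_shear (hc : Pos c A) (hp : PG p) (hpc : Continuous p) (hf : IsClassicalSol T Q f)
    {t : ℝ} (ht : t ∈ Ico 0 T) :
    mom c p f t = ∫ q, c (q.2 + t • q.1) * p q.1 * f t (q.2 + t • q.1) q.1 ∂(nu d) := by
  unfold mom
  obtain ⟨C, hC0, hC⟩ := mom_bound (T₁ := t) hc.le0 hp hf ht.2
  have hcont : Continuous fun q : Vec d × Vec d => c q.2 * p q.1 * f t q.2 q.1 := by
    have h1 : Continuous fun q : Vec d × Vec d => f t q.2 q.1 :=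
      (hf.cont_slice ht).comp (by fun_prop : Continuous fun q : Vec d × Vec d => (q.2, q.1))
    exact ((hc.smooth.continuous.comp continuous_snd).mul (hpc.comp continuous_fst)).mul h1
  rw [← shear_nu (G := fun q => c q.2 * p q.1 * f t q.2 q.1) hcont (C := C) ?_ ?_ t]
  · intro q
    exact hC t ⟨ht.1, le_refl _⟩ q.2 q.1 q.2
  · intro v x i
    simp only
    rw [hc.per, hf.periodic t ht]

lemma mom_cont (hc : Pos c A) (hp : PG p) (hpc : Continuous p) (hf : IsClassicalSol T Q f)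
    {t : ℝ} (ht : t < T) : ContinuousOn (mom c p f) (Icc 0 t) := by
  obtain ⟨C, hC0, hC⟩ := mom_bound (T₁ := t) hc.le0 hp hf ht
  unfold mom
  refine continuousOn_of_dominated (bound := fun q => C * wt d q.1) ?_ ?_ ?_ ?_
  · intro s hs
    have hs' : s ∈ Ico 0 T := ⟨hs.1, hs.2.trans_lt ht⟩
    have h1 : Continuous fun q : Vec d × Vec d => f s q.2 q.1 :=
      (hf.cont_slice hs').comp (by fun_prop : Continuous fun q : Vec d × Vec d => (q.2, q.1))
    exact (((hc.smooth.continuous.comp continuous_snd).mul (hpc.comp continuous_fst)).mul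
      h1).aestronglyMeasurable
  · intro s hs
    exact Eventually.of_forall fun q => hC s hs q.2 q.1 q.2
  · exact ((integrable_wt (d := d)).comp_fst (muD d)).const_mul C
  · refine Eventually.of_forall fun q => ?_
    refine continuousOn_const.mul ?_
    have h1 : Continuous fun s : ℝ => (s, q.2, q.1) := by fun_prop
    exact hf.cont.comp h1.continuousOn fun s hs => ⟨⟨hs.1, hs.2.trans_lt ht⟩, mem_univ _⟩

/-- **Transport identity**. -/
theorem mom_hasDerivAt (hc : Pos c A) (hp : PG p) (hpc : Continuous p) (hf : IsClassicalSol T Q f)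
    {s : ℝ} (hs : s ∈ Ioo 0 T) (hQ : ∀ x, ∫ v, Q s x v * p v = 0) :
    HasDerivAt (mom c p f)
      (∫ q, fderiv ℝ c q.2 q.1 * p q.1 * f s q.2 q.1 ∂(nu d)) s := by
  have hA := hc.nonneg
  obtain ⟨m, P, hP0, hP⟩ := hp.pos
  have hT1 : (s + T) / 2 < T := by linarith [hs.2]
  have hT0 : 0 < s / 2 := by linarith [hs.1]
  obtain ⟨C, hC0, hC⟩ := hf.f_le hT1 ((m + 1) + (d + 1))
  obtain ⟨D, hD0, hD⟩ := hf.Q_le hT0 hT1 (m + (d + 1))
  obtain ⟨C2, hC20, hC2⟩ := mom_bound (T₁ := s) hc.le0 hp hf hs.2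
  have hnhds : Ioo (s / 2) ((s + T) / 2) ∈ 𝓝 s :=
    Ioo_mem_nhds (by linarith [hs.1]) (by linarith [hs.2])
  have hsub : ∀ r ∈ Ioo (s / 2) ((s + T) / 2), r ∈ Ioo 0 T := fun r hr =>
    ⟨by linarith [hr.1, hs.1], by linarith [hr.2, hs.2]⟩
  have hpm : ∀ v : Vec d, |p v| ≤ P * (1 + ‖v‖) ^ m := fun v => by
    have := hP v; rwa [Real.norm_eq_abs] at this
  -- the integrand along characteristics
  set F : ℝ → Vec d × Vec d → ℝ := fun t q =>
    c (q.2 + t • q.1) * p q.1 * f t (q.2 + t • q.1) q.1 with hF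
  set F' : ℝ → Vec d × Vec d → ℝ := fun t q =>
    fderiv ℝ c (q.2 + t • q.1) q.1 * p q.1 * f t (q.2 + t • q.1) q.1 +
      c (q.2 + t • q.1) * p q.1 * Q t (q.2 + t • q.1) q.1 with hF'
  have b1 : ∀ t ∈ Icc (s / 2) ((s + T) / 2), ∀ x y v : Vec d,
      |fderiv ℝ c y v * p v * f t x v| ≤ A * P * C * wt d v := by
    intro t ht x y v
    have hv := w_pos v
    have e1 : |fderiv ℝ c y v| ≤ A * (1 + ‖v‖) := by
      have := (fderiv ℝ c y).le_opNorm v
      rw [Real.norm_eq_abs] at this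
      refine this.trans ?_
      have h2 := hc.le1 y
      have h3 := norm_nonneg v
      calc ‖fderiv ℝ c y‖ * ‖v‖ ≤ A * ‖v‖ := by gcongr
        _ ≤ A * (1 + ‖v‖) := by nlinarith
    rw [abs_mul, abs_mul]
    calc |fderiv ℝ c y v| * |p v| * |f t x v|
        ≤ (A * (1 + ‖v‖)) * (P * (1 + ‖v‖) ^ m) * (C * ((1 + ‖v‖) ^ ((m + 1) + (d + 1)))⁻¹) := by
          gcongr
          · exact hpm v
          · exact hC t ⟨by linarith [ht.1, hs.1], ht.2⟩ x v
      _ = ((A * P) * (1 + ‖v‖) ^ (m + 1)) * (C * ((1 + ‖v‖) ^ ((m + 1) + (d + 1)))⁻¹) := by ring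
      _ = A * P * C * wt d v := by rw [wt_bound (by positivity) hC0]
  have b2 : ∀ t ∈ Icc (s / 2) ((s + T) / 2), ∀ x y v : Vec d,
      |c y * p v * Q t x v| ≤ A * P * D * wt d v := by
    intro t ht x y v
    have hv := w_pos v
    rw [abs_mul, abs_mul]
    calc |c y| * |p v| * |Q t x v|
        ≤ A * (P * (1 + ‖v‖) ^ m) * (D * ((1 + ‖v‖) ^ (m + (d + 1)))⁻¹) := by
          gcongr
          · exact hc.le0 y
          · exact hpm v
          · exact hD t ht x v
      _ = ((A * P) * (1 + ‖v‖) ^ m) * (D * ((1 + ‖v‖) ^ (m + (d + 1)))⁻¹) := by ring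
      _ = A * P * D * wt d v := by rw [wt_bound (by positivity) hD0]
  have contF : ∀ t ∈ Ico 0 T, Continuous (F t) := by
    intro t ht
    have h1 : Continuous fun q : Vec d × Vec d => f t (q.2 + t • q.1) q.1 :=
      (hf.cont_slice ht).comp (shear_cont t)
    have h2 : Continuous fun q : Vec d × Vec d => c (q.2 + t • q.1) :=
      hc.smooth.continuous.comp (by fun_prop)
    exact (h2.mul (hpc.comp continuous_fst)).mul h1
  have contG1 : Continuous fun q : Vec d × Vec d => fderiv ℝ c q.2 q.1 * p q.1 * f s q.2 q.1 := by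
    have h1 : Continuous fun q : Vec d × Vec d => f s q.2 q.1 :=
      (hf.cont_slice ⟨hs.1.le, hs.2⟩).comp (by fun_prop : Continuous fun q : Vec d × Vec d => (q.2, q.1))
    have h2 : Continuous fun q : Vec d × Vec d => fderiv ℝ c q.2 q.1 :=
      (hc.fderiv_cont.comp continuous_snd).clm_apply continuous_fst
    exact (h2.mul (hpc.comp continuous_fst)).mul h1
  have contG2 : Continuous fun q : Vec d × Vec d => c q.2 * p q.1 * Q s q.2 q.1 := by
    have h1 : Continuous fun q : Vec d × Vec d => Q s q.2 q.1 :=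
      (hf.cont_Q hs).comp (by fun_prop : Continuous fun q : Vec d × Vec d => (q.2, q.1))
    exact ((hc.smooth.continuous.comp continuous_snd).mul (hpc.comp continuous_fst)).mul h1
  have hs' : s ∈ Icc (s / 2) ((s + T) / 2) := ⟨by linarith [hs.1], by linarith [hs.2]⟩
  have main := (hasDerivAt_integral_of_dominated_loc_of_deriv_le (μ := nu d)
    (F := F) (F' := F') (bound := fun q => (A * P * C + A * P * D) * wt d q.1) (x₀ := s)
    hnhds ?_ ?_ ?_ ?_ ?_ ?_).2
  · -- identify
    have e1 : mom c p f =ᶠ[𝓝 s] fun t => ∫ q, F t q ∂(nu d) := by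
      filter_upwards [hnhds] with t ht
      have ht' := hsub t ht
      exact mom_eq_shear hc hp hpc hf ⟨ht'.1.le, ht'.2⟩
    have main2 := main.congr_of_eventuallyEq e1
    refine main2.congr_deriv ?_
    -- value of the derivative
    have i1 : Integrable (fun q : Vec d × Vec d => fderiv ℝ c q.2 q.1 * p q.1 * f s q.2 q.1) (nu d) :=
      integrable_nu contG1.aestronglyMeasurable fun q => b1 s hs' q.2 q.2 q.1
    have i2 : Integrable (fun q : Vec d × Vec d => c q.2 * p q.1 * Q s q.2 q.1) (nu d) :=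
      integrable_nu contG2.aestronglyMeasurable fun q => b2 s hs' q.2 q.2 q.1
    have e2 : ∫ q, F' s q ∂(nu d) = ∫ q, (fderiv ℝ c q.2 q.1 * p q.1 * f s q.2 q.1 +
        c q.2 * p q.1 * Q s q.2 q.1) ∂(nu d) := by
      refine shear_nu (G := fun q => fderiv ℝ c q.2 q.1 * p q.1 * f s q.2 q.1 +
        c q.2 * p q.1 * Q s q.2 q.1) (contG1.add contG2) (C := A * P * C + A * P * D) ?_ ?_ s
      · intro q
        have a1 := b1 s hs' q.2 q.2 q.1
        have a2 := b2 s hs' q.2 q.2 q.1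
        refine (abs_add_le _ _).trans ?_
        rw [add_mul]; exact add_le_add a1 a2
      · intro v x i
        have e3 : Q s (x + Pi.single i 1) v = Q s x v := by
          have hd : ∀ y, Q s y v = fderiv ℝ (unc f) (s, y, v) (1, v, 0) := fun y =>
            (hf.eqn s hs y v).symm
          rw [hd, hd]
          congr 1
          have e4 : (fun z : ℝ × Vec d × Vec d => unc f (z + (0, Pi.single i 1, 0))) =ᶠ[𝓝 (s, x, v)]
              unc f := by
            have hop : {z : ℝ × Vec d × Vec d | z.1 ∈ Ioo 0 T} ∈ 𝓝 (s, x, v) :=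
              (isOpen_Ioo.preimage continuous_fst).mem_nhds hs
            filter_upwards [hop] with z hz
            have := hf.periodic z.1 ⟨hz.1.le, hz.2⟩ z.2.1 z.2.2 i
            simpa [unc] using this
          have e5 := e4.fderiv_eq (𝕜 := ℝ)
          rw [fderiv_comp_add_right] at e5
          have e6 : (s, x, v) + ((0 : ℝ), (Pi.single i 1 : Vec d), (0 : Vec d)) =
              (s, x + Pi.single i 1, v) := by simp
          rw [e6] at e5
          exact e5
        simp only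
        rw [hc.per, hf.periodic s ⟨hs.1.le, hs.2⟩, e3]
        have := hc.fderiv_per v x i
        simp only at this
        rw [this]
    rw [e2, integral_add i1 i2]
    have e3 : ∫ q, c q.2 * p q.1 * Q s q.2 q.1 ∂(nu d) = 0 := by
      unfold nu
      rw [integral_prod_symm _ (by exact i2)]
      have : ∀ x : Vec d, ∫ v, c x * p v * Q s x v = 0 := by
        intro x
        have h := hQ x
        calc ∫ v, c x * p v * Q s x v = c x * ∫ v, Q s x v * p v := by
              rw [← integral_const_mul]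
              refine integral_congr_ae (Eventually.of_forall fun v => ?_)
              simp only; ring
          _ = 0 := by rw [h, mul_zero]
      simp [this]
    rw [e3, add_zero]
  · filter_upwards [hnhds] with t ht
    have ht' := hsub t ht
    exact (contF t ⟨ht'.1.le, ht'.2⟩).aestronglyMeasurable
  · refine integrable_nu (C := C2) (contF s ⟨hs.1.le, hs.2⟩).aestronglyMeasurable fun q => ?_
    exact hC2 s ⟨hs.1.le, le_refl _⟩ _ _ _
  · have h1 : Continuous fun q : Vec d × Vec d => (q.1, q.2 + s • q.1) := by fun_prop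
    exact ((contG1.add contG2).comp h1).aestronglyMeasurable
  · refine Eventually.of_forall fun q t ht => ?_
    have ht' : t ∈ Icc (s / 2) ((s + T) / 2) := ⟨ht.1.le, ht.2.le⟩
    rw [Real.norm_eq_abs, hF']
    refine (abs_add_le _ _).trans ?_
    rw [add_mul]
    exact add_le_add (b1 t ht' _ _ _) (b2 t ht' _ _ _)
  · exact ((integrable_wt (d := d)).comp_fst (muD d)).const_mul _
  · refine Eventually.of_forall fun q t ht => ?_
    have ht' := hsub t ht
    have h1 : HasDerivAt (fun t : ℝ => q.2 + t • q.1) q.1 t := by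
      have := ((hasDerivAt_id t).smul_const q.1).const_add q.2
      simpa using this
    have h2 : HasDerivAt (fun t : ℝ => c (q.2 + t • q.1)) (fderiv ℝ c (q.2 + t • q.1) q.1) t :=
      ((hc.smooth.differentiable (by norm_num)) _).hasFDerivAt.comp_hasDerivAt t h1
    have h3 := hf.hasDerivAt_char ht' q.2 q.1
    have h4 := (h2.mul_const (p q.1)).mul h3
    exact h4

end

end Pool.Agent.H25.Kin
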