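import Pool.Agent.H25.Kin.Flux

/-!
# Symmetrised weak form of the Landau operator and its collision invariants
-/

set_option autoImplicit false

open MeasureTheory Set Filter Topology

namespace Pool.Agent.H25.Kin

variable {d : ℕ}

lemma wt_prod_integrable :
    Integrable (fun p : Vec d × Vec d => wt d p.1 * wt d p.2) (volume.prod volume) :=
  integrable_wt.mul_prod integrable_wt

lemma Kern.integrable_prod {k : Vec d → ℝ} {A : ℝ} (hk : Kern k A) {h₁ h₂ : Vec d → ℝ}
    (r₁ : RD h₁) (r₂ : RD h₂) (m₁ : Measurable h₁) (m₂ : Measurable h₂) :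
    Integrable (fun p : Vec d × Vec d => k (p.1 - p.2) * (h₁ p.1 * h₂ p.2))
      (volume.prod volume) := by
  obtain ⟨C, hC0, hC⟩ := r₁.bound (d + 3)
  obtain ⟨D, hD0, hD⟩ := r₂.bound (d + 3)
  refine (wt_prod_integrable.const_mul (A * C * D)).mono' ?_ (Eventually.of_forall fun p => ?_)
  · exact (((hk.meas.comp (measurable_fst.sub measurable_snd))).mul
      ((m₁.comp measurable_fst).mul (m₂.comp measurable_snd))).aestronglyMeasurable
  · obtain ⟨v, w⟩ := p
    simp only [norm_mul]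
    have h1 := hk.bound (v - w)
    have h2 := w_sub_le v w
    have h3 : (1 + ‖v - w‖) ^ 2 ≤ (1 + ‖v‖) ^ 2 * (1 + ‖w‖) ^ 2 := by
      rw [← mul_pow]; exact pow_le_pow_left₀ (w_pos _).le h2 2
    have hA := hk.nonneg
    have hv := w_pos v
    have hw := w_pos w
    calc ‖k (v - w)‖ * (‖h₁ v‖ * ‖h₂ w‖)
        ≤ (A * ((1 + ‖v‖) ^ 2 * (1 + ‖w‖) ^ 2)) *
          ((C * ((1 + ‖v‖) ^ (d + 3))⁻¹) * (D * ((1 + ‖w‖) ^ (d + 3))⁻¹)) := by
          refine mul_le_mul ?_ ?_ (by positivity) (by positivity)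
          · rw [Real.norm_eq_abs]
            exact h1.trans (mul_le_mul_of_nonneg_left h3 hA)
          · exact mul_le_mul (hC v) (hD w) (norm_nonneg _) (by positivity)
      _ = A * C * D * (wt d v * wt d w) := by
          unfold wt
          have e1 : (1 + ‖v‖) ^ (d + 3) = (1 + ‖v‖) ^ 2 * (1 + ‖v‖) ^ (d + 1) := by ring
          have e2 : (1 + ‖w‖) ^ (d + 3) = (1 + ‖w‖) ^ 2 * (1 + ‖w‖) ^ (d + 1) := by ring
          rw [e1, e2]
          field_simp

/-- the bilinear form -/
noncomputable def bil (k : Vec d → ℝ) (h₁ h₂ : Vec d → ℝ) : ℝ :=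
  ∫ p : Vec d × Vec d, k (p.1 - p.2) * (h₁ p.1 * h₂ p.2) ∂(volume.prod volume)

lemma bil_symm {k : Vec d → ℝ} (hk : ∀ z, k (-z) = k z) (h₁ h₂ : Vec d → ℝ) :
    bil k h₁ h₂ = bil k h₂ h₁ := by
  unfold bil
  rw [← integral_prod_swap]
  refine integral_congr_ae (Eventually.of_forall fun p => ?_)
  simp only [Prod.fst_swap, Prod.snd_swap]
  rw [← hk, neg_sub]
  ring

lemma Kern.integral_conv_mul {k : Vec d → ℝ} {A : ℝ} (hk : Kern k A) {h₁ h₂ : Vec d → ℝ}
    (r₁ : RD h₁) (r₂ : RD h₂) (m₁ : Measurable h₁) (m₂ : Measurable h₂) :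
    ∫ v, h₁ v * conv k h₂ v = bil k h₁ h₂ := by
  unfold bil
  rw [integral_prod _ (hk.integrable_prod r₁ r₂ m₁ m₂)]
  refine integral_congr_ae (Eventually.of_forall fun v => ?_)
  simp only
  unfold conv
  rw [← integral_sub_left_eq_self (fun z : Vec d => k z • h₂ (v - z)) volume v,
    ← integral_const_mul]
  refine integral_congr_ae (Eventually.of_forall fun w => ?_)
  simp only [sub_sub_cancel, smul_eq_mul]
  ring

variable {g : Vec d → ℝ} {γ : ℝ}

/-- half symmetrised form of `∫ flux_i P` -/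
lemma integral_flux_mul (h1 : -2 < γ) (h2 : γ ≤ 0) (hg : Nice g) (i : Fin d) {P : Vec d → ℝ}
    (hP : PG P) (hPm : Measurable P) :
    ∫ v, landauFlux γ g i v * P v = ∑ j, ∫ p : Vec d × Vec d,
      landauA γ (p.1 - p.2) i j * (P p.1 - P p.2) * (pd j g p.1 * g p.2) ∂(volume.prod volume) := by
  rw [landauFlux_funext h1 h2 hg i]
  have k := fun j => kern_landauA (d := d) h1 h2 i j
  have mg := hg.cont.measurable
  have mp := fun j => (hg.pd_cont j).measurable
  have ra : ∀ j, RD (fun v => P v * pd j g v) := fun j => by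
    simpa [mul_comm] using (hg.pd_RD j).mul_PG hP
  have rb : RD (fun v => P v * g v) := by simpa [mul_comm] using hg.rd.mul_PG hP
  have ca : ∀ j, Continuous (conv (fun z => landauA γ z i j) g) := fun j =>
    continuous_iff_continuousAt.2 fun v =>
      ((k j).conv_hasFDerivAt (hg.smooth.of_le (by norm_num)) hg.rd hg.rd1 v).continuousAt
  have cb : ∀ j, Continuous (conv (fun z => landauA γ z i j) (pd j g)) := fun j =>
    continuous_iff_continuousAt.2 fun v =>
      ((k j).conv_hasFDerivAt (hg.pd_smooth1 j) (hg.pd_RD j) (hg.pd_rd1 j) v).continuousAt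
  have i1 : ∀ j, Integrable (fun v => (P v * pd j g v) * conv (fun z => landauA γ z i j) g v) :=
    fun j => ((ra j).mul_PG ((k j).conv_PG hg.rd)).integrable
      ((hPm.mul (mp j)).mul (ca j).measurable).aestronglyMeasurable
  have i2 : ∀ j, Integrable (fun v => (P v * g v) * conv (fun z => landauA γ z i j) (pd j g) v) :=
    fun j => (rb.mul_PG ((k j).conv_PG (hg.pd_RD j))).integrable
      ((hPm.mul mg).mul (cb j).measurable).aestronglyMeasurable
  have e : ∀ v, (∑ j, (pd j g v * conv (fun z => landauA γ z i j) g v -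
      g v * conv (fun z => landauA γ z i j) (pd j g) v)) * P v =
      ∑ j, ((P v * pd j g v) * conv (fun z => landauA γ z i j) g v -
        (P v * g v) * conv (fun z => landauA γ z i j) (pd j g) v) := by
    intro v
    rw [Finset.sum_mul]
    refine Finset.sum_congr rfl fun j _ => ?_
    ring
  simp_rw [e]
  rw [integral_finsetSum]
  swap
  · intro j _; exact (i1 j).sub (i2 j)
  refine Finset.sum_congr rfl fun j _ => ?_
  rw [integral_sub (i1 j) (i2 j), (k j).integral_conv_mul (ra j) hg.rd (hPm.mul (mp j)) mg,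
    (k j).integral_conv_mul rb (hg.pd_RD j) (hPm.mul mg) (mp j),
    bil_symm (fun z => landauA_neg γ z i j) (fun v => P v * g v)]
  unfold bil
  rw [← integral_sub ((k j).integrable_prod (ra j) hg.rd (hPm.mul (mp j)) mg)
    ((k j).integrable_prod (hg.pd_RD j) rb (mp j) (hPm.mul mg))]
  refine integral_congr_ae (Eventually.of_forall fun p => ?_)
  simp only
  ring

lemma integrable_flux_kernel (h1 : -2 < γ) (h2 : γ ≤ 0) (hg : Nice g) (i j : Fin d)
    {P : Vec d → ℝ} (hP : PG P) (hPm : Measurable P) :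
    Integrable (fun p : Vec d × Vec d =>
      landauA γ (p.1 - p.2) i j * (P p.1 - P p.2) * (pd j g p.1 * g p.2))
      (volume.prod volume) := by
  have k := kern_landauA (d := d) h1 h2 i j
  have mg := hg.cont.measurable
  have mp := (hg.pd_cont j).measurable
  have ra : RD (fun v => P v * pd j g v) := by
    simpa [mul_comm] using (hg.pd_RD j).mul_PG hP
  have rb : RD (fun v => P v * g v) := by simpa [mul_comm] using hg.rd.mul_PG hP
  have := (k.integrable_prod ra hg.rd (hPm.mul mp) mg).sub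
    (k.integrable_prod (hg.pd_RD j) rb mp (hPm.mul mg))
  refine this.congr (Eventually.of_forall fun p => ?_)
  simp only [Pi.sub_apply]
  ring

/-- **Weak form**: `∫ Q(g,g) φ = - ∫∫ ∑_{i,j} a_ij(v-w) (∂_i φ(v) - ∂_i φ(w)) ∂_j g(v) g(w)`. -/
lemma weak_form (h1 : -2 < γ) (h2 : γ ≤ 0) (hg : Nice g) {φ : Vec d → ℝ}
    (hφ : Differentiable ℝ φ) (hφp : PG φ) (hφ1 : PG (fderiv ℝ φ)) :
    ∫ v, landauQ γ g v * φ v = -∑ i, ∑ j, ∫ p : Vec d × Vec d,
      landauA γ (p.1 - p.2) i j * (pd i φ p.1 - pd i φ p.2) * (pd j g p.1 * g p.2)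
        ∂(volume.prod volume) := by
  rw [integral_landauQ_mul h1 h2 hg hφ hφp hφ1]
  congr 1
  refine Finset.sum_congr rfl fun i _ => ?_
  refine integral_flux_mul h1 h2 hg i ?_ (measurable_fderiv_apply_const ℝ φ _)
  obtain ⟨N, C, hC⟩ := hφ1
  exact ⟨N, C, fun v => (pd_le i φ v).trans (hC v)⟩

lemma landauQ_mass (h1 : -2 < γ) (h2 : γ ≤ 0) (hg : Nice g) : ∫ v, landauQ γ g v = 0 := by
  have h := weak_form h1 h2 hg (φ := fun _ => (1 : ℝ)) (differentiable_const _) (PG.const _)
    (by rw [fderiv_fun_const]; exact PG.const (0 : Vec d →L[ℝ] ℝ))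
  have e : ∀ i (v : Vec d), pd i (fun _ : Vec d => (1 : ℝ)) v = 0 := fun i v => by simp [pd]
  simpa [e] using h

lemma pd_coord (i k : Fin d) (v : Vec d) : pd i (fun v : Vec d => v k) v = if i = k then 1 else 0 := by
  unfold pd
  have h : HasFDerivAt (fun v : Vec d => v k) (ContinuousLinearMap.proj (R := ℝ) k) v :=
    (ContinuousLinearMap.proj (R := ℝ) (φ := fun _ : Fin d => ℝ) k).hasFDerivAt
  rw [h.fderiv]
  simp [Pi.single_apply, eq_comm]

lemma fderiv_coord (k : Fin d) :
    fderiv ℝ (fun v : Vec d => v k) = fun _ => ContinuousLinearMap.proj (R := ℝ) k := by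
  funext v
  have h : HasFDerivAt (fun v : Vec d => v k) (ContinuousLinearMap.proj (R := ℝ) k) v :=
    (ContinuousLinearMap.proj (R := ℝ) (φ := fun _ : Fin d => ℝ) k).hasFDerivAt
  exact h.fderiv

lemma landauQ_momentum (h1 : -2 < γ) (h2 : γ ≤ 0) (hg : Nice g) (k : Fin d) :
    ∫ v, landauQ γ g v * v k = 0 := by
  have h := weak_form h1 h2 hg (φ := fun v => v k) (by fun_prop) (PG.coord k)
    (by rw [fderiv_coord]; exact PG.const _)
  simpa [pd_coord] using h

lemma hasFDerivAt_sq (v : Vec d) : HasFDerivAt (nsq : Vec d → ℝ)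
    (∑ i, (2 * v i) • ContinuousLinearMap.proj (R := ℝ) (φ := fun _ : Fin d => ℝ) i) v := by
  unfold nsq
  refine HasFDerivAt.fun_sum fun i _ => ?_
  have h : HasFDerivAt (fun v : Vec d => v i) (ContinuousLinearMap.proj (R := ℝ) i) v :=
    (ContinuousLinearMap.proj (R := ℝ) (φ := fun _ : Fin d => ℝ) i).hasFDerivAt
  simpa using h.pow 2

lemma pd_sq (i : Fin d) (v : Vec d) : pd i nsq v = 2 * v i := by
  unfold pd
  rw [(hasFDerivAt_sq v).fderiv]
  simp [Pi.single_apply, Finset.sum_ite_eq']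

lemma landauQ_energy (h1 : -2 < γ) (h2 : γ ≤ 0) (hg : Nice g) :
    ∫ v, landauQ γ g v * nsq v = 0 := by
  have hd : Differentiable ℝ (nsq : Vec d → ℝ) := fun v => (hasFDerivAt_sq v).differentiableAt
  have h := weak_form h1 h2 hg (φ := nsq) hd PG.nsq (by
    refine ⟨1, 2 * d, fun v => ?_⟩
    rw [(hasFDerivAt_sq v).fderiv]
    refine (norm_sum_le _ _).trans ?_
    have : ∀ i ∈ (Finset.univ : Finset (Fin d)),
        ‖(2 * v i) • ContinuousLinearMap.proj (R := ℝ) (φ := fun _ : Fin d => ℝ) i‖ ≤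
          2 * (1 + ‖v‖) := by
      intro i _
      rw [norm_smul, norm_mul, Real.norm_eq_abs 2, abs_two]
      have h3 : ‖ContinuousLinearMap.proj (R := ℝ) (φ := fun _ : Fin d => ℝ) i‖ ≤ 1 := by
        refine ContinuousLinearMap.opNorm_le_bound _ zero_le_one fun w => ?_
        rw [one_mul]
        exact norm_le_pi_norm w i
      have h4 := norm_le_pi_norm v i
      have h5 := norm_nonneg (v i)
      have h6 := norm_nonneg v
      calc 2 * ‖v i‖ * ‖ContinuousLinearMap.proj (R := ℝ) (φ := fun _ : Fin d => ℝ) i‖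
          ≤ 2 * ‖v i‖ * 1 := by gcongr
        _ ≤ 2 * (1 + ‖v‖) := by linarith
    refine (Finset.sum_le_sum this).trans ?_
    simp only [Finset.sum_const, Finset.card_univ, Fintype.card_fin, nsmul_eq_mul, pow_one]
    apply le_of_eq; ring)
  rw [h, neg_eq_zero, Finset.sum_comm]
  refine Finset.sum_eq_zero fun j _ => ?_
  rw [← integral_finsetSum]
  · rw [← integral_zero (Vec d × Vec d) ℝ (μ := volume.prod volume)]
    refine integral_congr_ae (Eventually.of_forall fun p => ?_)
    simp only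
    have h3 := landauA_contract γ (p.1 - p.2) j
    calc ∑ i, landauA γ (p.1 - p.2) i j * (pd i nsq p.1 - pd i nsq p.2) * (pd j g p.1 * g p.2)
        = 2 * (pd j g p.1 * g p.2) * ∑ i, (p.1 - p.2) i * landauA γ (p.1 - p.2) i j := by
          rw [Finset.mul_sum]
          refine Finset.sum_congr rfl fun i _ => ?_
          rw [pd_sq, pd_sq, Pi.sub_apply]
          ring
      _ = 0 := by rw [h3, mul_zero]
  · intro i _
    have e : (pd i nsq : Vec d → ℝ) = fun v => 2 * v i := funext fun v => pd_sq i v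
    refine integrable_flux_kernel h1 h2 hg i j ?_ ?_
    · rw [e]; exact (PG.const (2 : ℝ)).mul (PG.coord i)
    · rw [e]; fun_prop

end Pool.Agent.H25.Kin
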