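import Pool.Agent.H25.Kin.TestFun

/-!
# Focusing along characteristics: the core inequality
-/

set_option autoImplicit false

open MeasureTheory Set Filter Topology
open scoped ContDiff

namespace Pool.Agent.H25.Kin

variable {d : ℕ} {T : ℝ} {Q f : ℝ → Vec d → Vec d → ℝ}

lemma vol_ball {R : ℝ} (hR : 0 ≤ R) (x : Vec d) :
    (volume : Measure (Vec d)).real (Metric.closedBall x R) = (2 * R) ^ d := by
  rw [Measure.real, Real.volume_pi_closedBall x hR, Fintype.card_fin,
    ENNReal.toReal_ofReal (by positivity)]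

lemma int_le_ball {G : Vec d → ℝ} {C R : ℝ} (hR : 0 ≤ R) (hG : ∀ x, |G x| ≤ C)
    (h0 : ∀ x, R < ‖x‖ → G x = 0) : |∫ x, G x| ≤ C * (2 * R) ^ d := by
  have e : ∫ x, G x = ∫ x in Metric.closedBall (0 : Vec d) R, G x := by
    rw [setIntegral_eq_integral_of_forall_compl_eq_zero]
    intro x hx
    exact h0 x (by simpa using hx)
  rw [e, ← vol_ball hR (0 : Vec d), ← Real.norm_eq_abs]
  refine norm_setIntegral_le_of_norm_le_const ?_ fun x _ => ?_
  · rw [Real.volume_pi_closedBall _ hR]; exact ENNReal.ofReal_lt_top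
  · rw [Real.norm_eq_abs]; exact hG x

/-- the focusing test function, in the variables `(v,x)` -/
noncomputable def foc (δ t : ℝ) (q : Vec d × Vec d) : ℝ :=
  bp d ((δ * t)⁻¹ • (q.2 + t • q.1)) * bp d q.1

lemma foc_cont (δ t : ℝ) : Continuous (foc (d := d) δ t) := by
  unfold foc
  have := (bp d).continuous
  fun_prop

lemma foc_nonneg (δ t : ℝ) (q : Vec d × Vec d) : 0 ≤ foc δ t q :=
  mul_nonneg (bp_nonneg _) (bp_nonneg _)

lemma foc_le_one (δ t : ℝ) (q : Vec d × Vec d) : foc δ t q ≤ 1 :=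
  mul_le_one₀ (bp_le_one _) (bp_nonneg _) (bp_le_one _)

lemma foc_shift (δ t s : ℝ) (v x : Vec d) : foc δ t (v, x - s • v) =
    bp d ((δ * t)⁻¹ • x + ((t - s) / (δ * t)) • v) * bp d v := by
  unfold foc
  simp only
  congr 2
  rw [div_eq_inv_mul, mul_smul, ← smul_add]
  congr 1
  rw [sub_smul]
  abel

lemma foc_supp {δ t s : ℝ} (hδ : 0 < δ) (hδ1 : δ ≤ 1) (ht : 0 < t) (hs : s ∈ Icc 0 t) {v x : Vec d}
    (h : foc δ t (v, x - s • v) ≠ 0) : ‖v‖ < 2 ∧ ‖x‖ ≤ 2 * (t - s) + 2 * δ * t := by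
  have h1 : bp d v ≠ 0 := fun h0 => h (by unfold foc; simp only; rw [h0, mul_zero])
  have h2 : bp d ((δ * t)⁻¹ • (x - s • v + t • v)) ≠ 0 := fun h0 => h (by
    unfold foc; simp only; rw [h0, zero_mul])
  have hv := bp_pos_iff h1
  have hx := bp_pos_iff h2
  refine ⟨hv, ?_⟩
  have hpos : 0 < δ * t := mul_pos hδ ht
  rw [norm_smul, norm_inv, Real.norm_eq_abs, abs_of_pos hpos, inv_mul_lt_iff₀ hpos] at hx
  have e : x = (x - s • v + t • v) - (t - s) • v := by
    rw [sub_smul]; abel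
  calc ‖x‖ = ‖(x - s • v + t • v) - (t - s) • v‖ := by rw [← e]
    _ ≤ ‖x - s • v + t • v‖ + ‖(t - s) • v‖ := norm_sub_le _ _
    _ ≤ δ * t * 2 + (t - s) * 2 := by
        rw [norm_smul, Real.norm_eq_abs, abs_of_nonneg (sub_nonneg.2 hs.2)]
        have := sub_nonneg.2 hs.2
        gcongr
    _ = 2 * (t - s) + 2 * δ * t := by ring

lemma foc_compact {δ t : ℝ} (hδ : 0 < δ) (hδ1 : δ ≤ 1) (ht : 0 < t) :
    HasCompactSupport (foc (d := d) δ t) := by
  refine HasCompactSupport.intro (isCompact_closedBall (0 : Vec d × Vec d) (2 + 4 * t)) fun q hq => ?_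
  by_contra h
  apply hq
  obtain ⟨v, x⟩ := q
  have h' : foc δ t (v, x - (0 : ℝ) • v) ≠ 0 := by simpa using h
  have := foc_supp hδ hδ1 ht ⟨le_refl _, ht.le⟩ h'
  rw [mem_closedBall_zero_iff, Prod.norm_def]
  refine max_le ?_ ?_
  · simp only; linarith [this.1]
  · simp only; nlinarith [this.2]

lemma foc_test {B : ℝ} (hB : Test (bp d) B) {δ t s : ℝ} (hδ : 0 < δ) (ht : 0 < t)
    (hs : s ∈ Icc 0 t) (x : Vec d) :
    Test (fun v => foc δ t (v, x - s • v)) (4 * ((B * (1 + δ⁻¹) ^ 2) * B)) := by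
  have e : (fun v => foc δ t (v, x - s • v)) = fun v =>
      bp d ((δ * t)⁻¹ • x + ((t - s) / (δ * t)) • v) * bp d v := by
    funext v; exact foc_shift δ t s v x
  rw [e]
  refine Test.mul ?_ hB
  refine (hB.comp_affine _ _).mono ?_
  have hB0 := hB.nonneg
  have h1 : |(t - s) / (δ * t)| ≤ δ⁻¹ := by
    rw [abs_of_nonneg (div_nonneg (sub_nonneg.2 hs.2) (by positivity)), div_le_iff₀ (by positivity)]
    have : δ⁻¹ * (δ * t) = t := by field_simp
    rw [this]; linarith [hs.1]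
  gcongr

/-- the collision term satisfies the weak bound with constant `C₀` -/
def WeakBound (T C₀ : ℝ) (Q f : ℝ → Vec d → Vec d → ℝ) : Prop :=
  ∀ t ∈ Ioo 0 T, ∀ (x : Vec d) (φ : Vec d → ℝ) (M : ℝ), Test φ M → HasCompactSupport φ →
    |∫ v, Q t x v * φ v| ≤ C₀ * M * (∫ v, f t x v * (1 + nsq v)) ^ 2

lemma IsClassicalSol.integrable_slice (hf : IsClassicalSol T Q f) {t : ℝ} (ht : t ∈ Ico 0 T)
    (x : Vec d) : Integrable (fun v => f t x v * (1 + nsq v)) := by
  have hr : RD (fun v => f t x v) := by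
    intro N
    obtain ⟨C, hC⟩ := hf.decay t ht.2 N
    refine ⟨C, fun v => ?_⟩
    rw [Real.norm_eq_abs, abs_of_nonneg (hf.nonneg t ht x v)]
    exact hC t ⟨ht.1, le_refl _⟩ x v
  have hc : Continuous fun v => f t x v :=
    (hf.cont_slice ht).comp (by fun_prop : Continuous fun v : Vec d => (x, v))
  exact (hr.mul_PG ((PG.const (1 : ℝ)).add PG.nsq)).integrable
    (hc.mul (continuous_const.add continuous_sq)).aestronglyMeasurable

lemma IsClassicalSol.integrable_slice0 (hf : IsClassicalSol T Q f) {t : ℝ} (ht : t ∈ Ico 0 T)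
    (x : Vec d) : Integrable (fun v => f t x v) := by
  have hc : Continuous fun v => f t x v :=
    (hf.cont_slice ht).comp (by fun_prop : Continuous fun v : Vec d => (x, v))
  refine (hf.integrable_slice ht x).mono' hc.aestronglyMeasurable (Eventually.of_forall fun v => ?_)
  have h1 := hf.nonneg t ht x v
  rw [Real.norm_eq_abs, abs_of_nonneg h1]
  nlinarith [sq_nonneg' v]

lemma IsClassicalSol.mass_le (hf : IsClassicalSol T Q f) {t : ℝ} (ht : t ∈ Ico 0 T)
    (x : Vec d) : ∫ v, f t x v ≤ ∫ v, f t x v * (1 + nsq v) := by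
  refine integral_mono (hf.integrable_slice0 ht x) (hf.integrable_slice ht x) fun v => ?_
  have h1 := hf.nonneg t ht x v
  simp only
  nlinarith [sq_nonneg' v]

/-- lower bound of the initial tested quantity -/
lemma lower (hf : IsClassicalSol T Q f) {δ t h : ℝ} (hδ : 0 < δ) (hδ1 : δ ≤ 1) (ht : 0 < t)
    (htT : t < T) (hh : 0 ≤ h)
    (hlow : ∀ x v : Vec d, ‖x‖ ≤ t / 2 → ‖v + t⁻¹ • x‖ ≤ δ / 2 → h ≤ f 0 x v) :
    h * (δ ^ d * t ^ d) ≤ testA f (foc (d := d) δ t) 0 := by
  set E : Set (Vec d × Vec d) := {q | ‖q.2‖ ≤ t / 2 ∧ ‖q.1 + t⁻¹ • q.2‖ ≤ δ / 2} with hE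
  have hEc : IsClosed E := by
    have c1 : Continuous fun q : Vec d × Vec d => ‖q.2‖ := by fun_prop
    have c2 : Continuous fun q : Vec d × Vec d => ‖q.1 + t⁻¹ • q.2‖ := by fun_prop
    exact (isClosed_le c1 continuous_const).inter (isClosed_le c2 continuous_const)
  have hEm : MeasurableSet E := hEc.measurableSet
  have hT : (0 : ℝ) ∈ Ico 0 T := ⟨le_refl _, ht.trans htT⟩
  have hvol : (volume.prod volume : Measure (Vec d × Vec d)) E = ENNReal.ofReal (δ ^ d * t ^ d) := by
    rw [Measure.prod_apply_symm hEm]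
    have e : ∀ x : Vec d, volume ((fun v => (v, x)) ⁻¹' E) =
        (Metric.closedBall (0 : Vec d) (t / 2)).indicator (fun _ => ENNReal.ofReal (δ ^ d)) x := by
      intro x
      by_cases hx : ‖x‖ ≤ t / 2
      · rw [indicator_of_mem (by simpa using hx)]
        have : (fun v => (v, x)) ⁻¹' E = Metric.closedBall (-(t⁻¹ • x)) (δ / 2) := by
          ext v
          simp [hE, hx, dist_eq_norm]
        rw [this, Real.volume_pi_closedBall _ (by positivity), Fintype.card_fin]
        congr 2; ring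
      · rw [indicator_of_notMem (by simpa using hx)]
        have : (fun v => (v, x)) ⁻¹' E = ∅ := by
          ext v; simp [hE, hx]
        rw [this, measure_empty]
    simp_rw [e]
    rw [lintegral_indicator Metric.isClosed_closedBall.measurableSet, lintegral_const,
      Measure.restrict_apply MeasurableSet.univ, univ_inter,
      Real.volume_pi_closedBall _ (by positivity), Fintype.card_fin,
      ← ENNReal.ofReal_mul (by positivity)]
    congr 2; ring
  have hint : Integrable (fun q : Vec d × Vec d => foc δ t q * f 0 (q.2 + (0 : ℝ) • q.1) q.1)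
      (volume.prod volume) := by
    obtain ⟨D, hD⟩ := hf.decay 0 hT.2 0
    have hI2 : Integrable (fun q => ‖foc (d := d) δ t q‖ * D) :=
      (((foc_cont δ t).integrable_of_hasCompactSupport (foc_compact hδ hδ1 ht)).norm).mul_const D
    refine hI2.mono' ?_ (Eventually.of_forall fun q => ?_)
    · exact ((foc_cont δ t).mul ((hf.cont_slice hT).comp (shear_cont 0))).aestronglyMeasurable
    · rw [norm_mul]
      refine mul_le_mul_of_nonneg_left ?_ (norm_nonneg _)
      rw [Real.norm_eq_abs, abs_of_nonneg (hf.nonneg 0 hT _ _)]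
      simpa using hD 0 ⟨le_refl _, le_refl _⟩ (q.2 + (0 : ℝ) • q.1) q.1
  have hreal : (volume.prod volume : Measure (Vec d × Vec d)).real E = δ ^ d * t ^ d := by
    rw [Measure.real, hvol, ENNReal.toReal_ofReal (by positivity)]
  calc h * (δ ^ d * t ^ d) = ∫ _q in E, h ∂(volume.prod volume) := by
        rw [setIntegral_const, hreal, smul_eq_mul, mul_comm]
    _ ≤ ∫ q in E, foc δ t q * f 0 (q.2 + (0 : ℝ) • q.1) q.1 ∂(volume.prod volume) := by
        refine setIntegral_mono_on ?_ hint.integrableOn hEm ?_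
        · refine integrableOn_const ?_
          rw [hvol]; exact ENNReal.ofReal_ne_top
        · rintro ⟨v, x⟩ ⟨hx, hv⟩
          simp only at hx hv ⊢
          rw [zero_smul, add_zero]
          have h1 : foc δ t (v, x) = 1 := by
            unfold foc
            simp only
            have n1 : ‖v‖ ≤ 1 := by
              have e : v = (v + t⁻¹ • x) - t⁻¹ • x := by abel
              calc ‖v‖ = ‖(v + t⁻¹ • x) - t⁻¹ • x‖ := by rw [← e]
                _ ≤ ‖v + t⁻¹ • x‖ + ‖t⁻¹ • x‖ := norm_sub_le _ _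
                _ ≤ δ / 2 + t⁻¹ * (t / 2) := by
                    rw [norm_smul, norm_inv, Real.norm_eq_abs, abs_of_pos ht]
                    have := inv_nonneg.2 ht.le
                    gcongr
                _ ≤ 1 := by
                    have : t⁻¹ * (t / 2) = 1 / 2 := by field_simp
                    rw [this]; linarith
            have n2 : ‖(δ * t)⁻¹ • (x + t • v)‖ ≤ 1 := by
              have e : (δ * t)⁻¹ • (x + t • v) = δ⁻¹ • (v + t⁻¹ • x) := by
                rw [mul_inv, mul_smul, smul_add t⁻¹, smul_smul t⁻¹ t, inv_mul_cancel₀ ht.ne',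
                  one_smul, add_comm (t⁻¹ • x)]
              rw [e, norm_smul, norm_inv, Real.norm_eq_abs, abs_of_pos hδ,
                inv_mul_le_iff₀ hδ]
              linarith
            rw [bp_one n1, bp_one n2, one_mul]
          rw [h1, one_mul]
          exact hlow x v hx hv
    _ ≤ ∫ q, foc δ t q * f 0 (q.2 + (0 : ℝ) • q.1) q.1 ∂(volume.prod volume) :=
        setIntegral_le_integral hint (Eventually.of_forall fun q =>
          mul_nonneg (foc_nonneg _ _ _) (hf.nonneg 0 hT _ _))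
    _ = testA f (foc (d := d) δ t) 0 := rfl

lemma integrable_foc_mul {δ t s : ℝ} (hδ : 0 < δ) (hδ1 : δ ≤ 1) (ht : 0 < t) {G : Vec d × Vec d → ℝ}
    (hG : Continuous G) : Integrable
      (fun q : Vec d × Vec d => foc δ t (q.1, q.2 - s • q.1) * G (q.2, q.1))
      (volume.prod volume) := by
  have h1 : Continuous fun q : Vec d × Vec d => foc δ t (q.1, q.2 - s • q.1) :=
    (foc_cont δ t).comp (by fun_prop)
  have h2 : Continuous fun q : Vec d × Vec d => G (q.2, q.1) := hG.comp (by fun_prop)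
  let e : (Vec d × Vec d) ≃ₜ (Vec d × Vec d) :=
      { toFun := fun q => (q.1, q.2 - s • q.1)
        invFun := fun q => (q.1, q.2 + s • q.1)
        left_inv := fun q => by simp
        right_inv := fun q => by simp
        continuous_toFun := by fun_prop
        continuous_invFun := by fun_prop }
  have h3 : HasCompactSupport fun q : Vec d × Vec d => foc δ t (q.1, q.2 - s • q.1) :=
    (foc_compact hδ hδ1 ht).comp_homeomorph e
  exact (h1.mul h2).integrable_of_hasCompactSupport h3.mul_right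

/-- upper bound at the focusing time -/
lemma upper (hf : IsClassicalSol T Q f) {δ t K : ℝ} (hδ : 0 < δ) (hδ1 : δ ≤ 1) (ht : 0 < t)
    (htT : t < T) (hK : ∀ x, ∫ v, f t x v * (1 + nsq v) ≤ K) :
    testA f (foc (d := d) δ t) t ≤ K * (4 * δ * t) ^ d := by
  have htT' : t ∈ Ico 0 T := ⟨ht.le, htT⟩
  have hK0 : 0 ≤ K := le_trans (integral_nonneg fun v =>
    mul_nonneg (hf.nonneg t htT' 0 v) (by linarith [sq_nonneg' v])) (hK 0)
  rw [testA_eq, integral_prod_symm]
  swap
  · exact integrable_foc_mul (G := fun q => f t q.1 q.2) hδ hδ1 ht (hf.cont_slice htT')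
  have e : (4 * δ * t) ^ d = (2 * (2 * δ * t)) ^ d := by congr 1; ring
  rw [e]
  refine (le_abs_self _).trans (int_le_ball (by positivity) (fun x => ?_) fun x hx => ?_)
  · rw [← Real.norm_eq_abs]
    refine (norm_integral_le_of_norm_le (hf.integrable_slice0 htT' x)
      (Eventually.of_forall fun v => ?_)).trans ((hf.mass_le htT' x).trans (hK x))
    simp only
    rw [norm_mul, Real.norm_eq_abs, Real.norm_eq_abs, abs_of_nonneg (foc_nonneg _ _ _),
      abs_of_nonneg (hf.nonneg t htT' x v)]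
    have := mul_le_mul_of_nonneg_right (foc_le_one δ t (v, x - t • v)) (hf.nonneg t htT' x v)
    linarith
  · have : ∀ v, foc δ t (v, x - t • v) * f t x v = 0 := by
      intro v
      by_cases h0 : foc δ t (v, x - t • v) = 0
      · rw [h0, zero_mul]
      · exfalso
        have := (foc_supp hδ hδ1 ht ⟨ht.le, le_refl _⟩ h0).2
        linarith
    simp [this]

/-- the collision contribution -/
lemma middle (hf : IsClassicalSol T Q f) {C₀ : ℝ} (hC₀ : 0 ≤ C₀) (hw : WeakBound T C₀ Q f)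
    {B : ℝ} (hB : Test (bp d) B) {δ t s K : ℝ} (hδ : 0 < δ) (hδ1 : δ ≤ 1) (ht : 0 < t)
    (hs : s ∈ Ioo 0 t) (htT : t < T) (hK : ∀ x, ∫ v, f s x v * (1 + nsq v) ≤ K) :
    |∫ q : Vec d × Vec d, foc δ t (q.1, q.2 - s • q.1) * Q s q.2 q.1 ∂(volume.prod volume)| ≤
      C₀ * (4 * ((B * (1 + δ⁻¹) ^ 2) * B)) * K ^ 2 * (8 * t) ^ d := by
  have hsT : s ∈ Ioo 0 T := ⟨hs.1, hs.2.trans htT⟩
  have hsT' : s ∈ Ico 0 T := ⟨hs.1.le, hs.2.trans htT⟩
  have hB0 := hB.nonneg
  rw [integral_prod_symm]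
  swap
  · exact integrable_foc_mul (G := fun q => Q s q.1 q.2) hδ hδ1 ht (hf.cont_Q hsT)
  have e : (8 * t) ^ d = (2 * (4 * t)) ^ d := by congr 1; ring
  rw [e]
  have key : ∀ x v : Vec d, 4 * t < ‖x‖ → foc δ t (v, x - s • v) = 0 := by
    intro x v hx
    by_contra h0
    have := (foc_supp hδ hδ1 ht ⟨hs.1.le, hs.2.le⟩ h0).2
    nlinarith [hs.1]
  refine int_le_ball (by positivity) (fun x => ?_) fun x hx => ?_
  · simp only
    have h1 : HasCompactSupport fun v => foc δ t (v, x - s • v) := by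
      refine HasCompactSupport.intro (isCompact_closedBall (0 : Vec d) 2) fun v hv => ?_
      by_contra h0
      apply hv
      have := (foc_supp hδ hδ1 ht ⟨hs.1.le, hs.2.le⟩ h0).1
      simpa using this.le
    have h2 := hw s hsT x _ _ (foc_test hB hδ ht ⟨hs.1.le, hs.2.le⟩ x) h1
    simp_rw [mul_comm (Q s x _)] at h2
    refine h2.trans ?_
    have h3 : 0 ≤ ∫ v, f s x v * (1 + nsq v) := integral_nonneg fun v =>
      mul_nonneg (hf.nonneg s hsT' x v) (by linarith [sq_nonneg' v])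
    have h4 := hK x
    gcongr
  · simp [key x _ hx]

/-- **Core inequality**: if the mass plus energy density stays below `K` up to the focusing time `t`,
then `h δ^d ≤ 4^d K δ^d + C₀ M_δ K² 8^d t`. -/
theorem core (hf : IsClassicalSol T Q f) {C₀ : ℝ} (hC₀ : 0 ≤ C₀) (hw : WeakBound T C₀ Q f)
    {B : ℝ} (hB : Test (bp d) B) {δ t h K : ℝ} (hδ : 0 < δ) (hδ1 : δ ≤ 1) (ht : 0 < t)
    (htT : t < T) (hh : 0 ≤ h)
    (hlow : ∀ x v : Vec d, ‖x‖ ≤ t / 2 → ‖v + t⁻¹ • x‖ ≤ δ / 2 → h ≤ f 0 x v)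
    (hK : ∀ s ∈ Ioc 0 t, ∀ x, ∫ v, f s x v * (1 + nsq v) ≤ K) :
    h * δ ^ d ≤ 4 ^ d * K * δ ^ d +
      t * (C₀ * (4 * ((B * (1 + δ⁻¹) ^ 2) * B)) * K ^ 2 * 8 ^ d) := by
  obtain ⟨s, hs, hmvt⟩ := hf.testA_mvt (foc_cont δ t) (foc_compact hδ hδ1 ht) ht htT
  have h1 := lower hf hδ hδ1 ht htT hh hlow
  have h2 := upper hf hδ hδ1 ht htT (hK t ⟨ht, le_refl _⟩)
  have h3 := middle hf hC₀ hw hB hδ hδ1 ht hs htT (hK s ⟨hs.1, hs.2.le⟩)
  have h4 := neg_abs_le (∫ q : Vec d × Vec d, foc δ t (q.1, q.2 - s • q.1) * Q s q.2 q.1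
    ∂(volume.prod volume))
  have htd : 0 < t ^ d := pow_pos ht d
  have h5 : h * (δ ^ d * t ^ d) ≤ K * (4 * δ * t) ^ d +
      t * (C₀ * (4 * ((B * (1 + δ⁻¹) ^ 2) * B)) * K ^ 2 * (8 * t) ^ d) := by
    nlinarith
  have e1 : K * (4 * δ * t) ^ d = (4 ^ d * K * δ ^ d) * t ^ d := by
    rw [mul_pow, mul_pow]; ring
  have e2 : t * (C₀ * (4 * ((B * (1 + δ⁻¹) ^ 2) * B)) * K ^ 2 * (8 * t) ^ d) =
      (t * (C₀ * (4 * ((B * (1 + δ⁻¹) ^ 2) * B)) * K ^ 2 * 8 ^ d)) * t ^ d := by
    rw [mul_pow]; ring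
  rw [e1, e2, ← add_mul] at h5
  have h6 : (h * δ ^ d) * t ^ d ≤ (4 ^ d * K * δ ^ d +
      t * (C₀ * (4 * ((B * (1 + δ⁻¹) ^ 2) * B)) * K ^ 2 * 8 ^ d)) * t ^ d := by linarith
  exact le_of_mul_le_mul_right h6 htd

end Pool.Agent.H25.Kin
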