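import Pool.Agent.H25.Kin.BLim
import Pool.Agent.H25.Kin.Core

/-!
# Collision invariants and the weak bound for the Boltzmann operator
-/

set_option autoImplicit false

open MeasureTheory Set Filter Topology
open scoped ENNReal

namespace Pool.Agent.H25.Kin

variable {d : ℕ} {γ s C Ca : ℝ} {b : ℝ → ℝ} {g : Vec d → ℝ}

lemma boltz_inv (H : Hyp d γ s b C Ca) (hg : Nice g) {φ : Vec d → ℝ} (hφ : PG φ)
    (hφm : Measurable φ)
    (hc : ∀ v w σ, nsq σ = 1 → φ (post v w σ) + φ (post' v w σ) = φ v + φ w) :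
    ∫ v, boltzQ γ b g v * φ v = 0 := by
  refine tendsto_nhds_unique (boltz_weak_tendsto H hg hφ hφm) ?_
  refine tendsto_const_nhds.congr' ?_
  filter_upwards [self_mem_nhdsWithin] with ε hε
  rw [weak_cut H.hd H.g1 H.g2 H.bm H.bd H.β0 hε hg.rd hg.cont hφ hφm]
  have : ∫ p : Vec d × Vec d × Vec d, kerB γ b ε p.1 p.2.1 p.2.2 * (g p.2.1 * g p.1) *
        (φ (post p.1 p.2.1 p.2.2) + φ (post' p.1 p.2.1 p.2.2) - φ p.1 - φ p.2.1) ∂(mu3 d) = 0 := by
    refine integral_eq_zero_of_ae ?_
    filter_upwards [ae_good H.hd1] with p hp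
    rw [hc _ _ _ hp.2]
    simp
  rw [this, mul_zero]

lemma boltzQ_mass (H : Hyp d γ s b C Ca) (hg : Nice g) : ∫ v, boltzQ γ b g v = 0 := by
  have h := boltz_inv H hg (φ := fun _ => 1) (PG.const 1) measurable_const (fun v w σ _ => rfl)
  simpa using h

lemma boltzQ_momentum (H : Hyp d γ s b C Ca) (hg : Nice g) (i : Fin d) :
    ∫ v, boltzQ γ b g v * v i = 0 := by
  refine boltz_inv H hg (φ := fun v => v i) (PG.coord i) (measurable_pi_apply i) (fun v w σ _ => ?_)
  have h := congrFun (post_add_post' v w σ) i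
  simpa using h

lemma boltzQ_energy (H : Hyp d γ s b C Ca) (hg : Nice g) : ∫ v, boltzQ γ b g v * nsq v = 0 :=
  boltz_inv H hg (φ := fun v => nsq v) PG.nsq continuous_sq.measurable (fun v w σ hσ => energy_post hσ)

lemma len_rpow_add (H : Hyp d γ s b C Ca) {v w : Vec d} (hvw : v ≠ w) :
    len (v - w) ^ γ * len (v - w) ^ (2 * s) ≤ 1 + nsq (v - w) := by
  have hl := len_pos (sub_ne_zero.2 hvw)
  rw [← Real.rpow_add hl]
  have h0 := sq_nonneg' (v - w)
  rcases le_total (len (v - w)) 1 with h | h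
  · have := Real.rpow_le_one hl.le h H.h0
    linarith
  · have := Real.rpow_le_rpow_of_exponent_le h H.h2
    rw [Real.rpow_two, len_sq] at this
    linarith

/-- **weak bound** for the cut-off operators, uniform in the cut-off -/
lemma cut_weak_bound (H : Hyp d γ s b C Ca) (hg : Nice g) (hg0 : ∀ v, 0 ≤ g v) {φ : Vec d → ℝ}
    {M : ℝ} (h : Test φ M) {ε : ℝ} (hε : 0 < ε) :
    |∫ v, boltzCut γ b ε g v * φ v| ≤ 4 * C * Ca * M * (∫ v, g v * (1 + nsq v)) ^ 2 := by
  have hM := h.nonneg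
  have hC0 := H.bd.1
  have hCa0 := H.an.1
  have hφc : Continuous φ := h.smooth.continuous
  have hφ : PG φ := ⟨0, M, fun v => by simpa using h.le0 v⟩
  have hφm := hφc.measurable
  rw [weak_cut H.hd H.g1 H.g2 H.bm H.bd H.β0 hε hg.rd hg.cont hφ hφm]
  set W := ∫ v, g v * (1 + nsq v) with hW
  have hgs : RD (fun v => g v * (1 + nsq v)) := hg.rd.mul_PG ((PG.const (1 : ℝ)).add PG.nsq)
  have mgs : Measurable (fun v => g v * (1 + nsq v)) :=
    hg.cont.measurable.mul (measurable_const.add continuous_sq.measurable)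
  have igs : Integrable (fun v => g v * (1 + nsq v)) := hgs.integrable mgs.aestronglyMeasurable
  -- the angular increment
  set Φ : Vec d → Vec d → Vec d → ℝ := fun v w σ =>
    φ (post v w σ) + φ (post' v w σ) - φ v - φ w with hΦ
  have mΦ3 : Measurable fun p : Vec d × Vec d × Vec d => Φ p.1 p.2.1 p.2.2 := by
    have c1 := hφc.comp (continuous_post (d := d))
    have c2 := hφc.comp (continuous_post' (d := d))
    have c3 : Continuous fun p : Vec d × Vec d × Vec d => φ p.1 := hφc.comp continuous_fst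
    have c4 : Continuous fun p : Vec d × Vec d × Vec d => φ p.2.1 :=
      hφc.comp (continuous_fst.comp continuous_snd)
    exact (((c1.add c2).sub c3).sub c4).measurable
  have mΦ : ∀ v w, Measurable fun σ : Vec d => Φ v w σ := fun v w =>
    mΦ3.comp (measurable_const.prodMk (measurable_const.prodMk measurable_id))
  have bΦ : ∀ v w σ, |Φ v w σ| ≤ 4 * M := by
    intro v w σ
    have a : ∀ u, -M ≤ φ u ∧ φ u ≤ M := fun u => abs_le.1 (h.le0 u)
    rw [hΦ, abs_le]
    constructor
    · linarith [(a (post v w σ)).1, (a (post' v w σ)).1, (a v).2, (a w).2]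
    · linarith [(a (post v w σ)).2, (a (post' v w σ)).2, (a v).1, (a w).1]
  -- integrability
  obtain ⟨A2, hA2, hA2'⟩ := prod_le' hg.rd (d + 1 + (d + 5) + 0)
  have mv : Measurable fun p : Vec d × Vec d × Vec d => p.1 := measurable_fst
  have mw : Measurable fun p : Vec d × Vec d × Vec d => p.2.1 := measurable_fst.comp measurable_snd
  have iX : Integrable (fun p : Vec d × Vec d × Vec d =>
      kerB γ b ε p.1 p.2.1 p.2.2 * (g p.2.1 * g p.1) * Φ p.1 p.2.1 p.2.2) (mu3 d) :=
    int_piece (P := fun p => g p.2.1 * g p.1) (Φ := fun p => Φ p.1 p.2.1 p.2.2)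
      (K := 0) (A := A2) (B := 4 * M) H.hd H.g1 H.g2 H.bm H.bd H.β0 hε
      ((hg.cont.measurable.comp mw).mul (hg.cont.measurable.comp mv)) mΦ3 hA2 (by positivity)
      (fun v w σ _ => by have := hA2' v w; rw [mul_comm] at this; exact this)
      (fun v w σ _ => by rw [pow_zero, mul_one]; exact bΦ v w σ)
  -- inner integral
  have inner : ∀ v w : Vec d, v ≠ w →
      |∫ σ, kerB γ b ε v w σ * (g w * g v) * Φ v w σ ∂(surf d)| ≤
        (8 * C * Ca * M * (g v * (1 + nsq v))) * (g w * (1 + nsq w)) := by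
    intro v w hvw
    have e1 : ∫ σ, kerB γ b ε v w σ * (g w * g v) * Φ v w σ ∂(surf d) =
        (g w * g v) * ∫ σ, kerB γ b ε v w σ * Φ v w σ ∂(surf d) := by
      rw [← integral_const_mul]
      refine integral_congr_ae (Eventually.of_forall fun σ => ?_)
      simp only; ring
    have hsd : ∀ σ, nsq σ = 1 → |Φ v w σ + Φ v w (refl (dirk v w) σ)| ≤
        (8 * M) * min (len (v - w) ^ 2 * (1 - cosTh v w σ)) 1 := by
      intro σ hσ
      exact second_diff_test h hvw hσ
    have h1 := inner_bound (γ := γ) H.hd1 H.an H.bm H.bd H.β0 hε hvw (mΦ v w)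
      (fun σ _ => bΦ v w σ) (len_pos (sub_ne_zero.2 hvw)) (by positivity) hsd
    have h2 := len_rpow_add H hvw
    have h3 := one_add_sq_sub_le v w
    have gv := hg0 v
    have gw := hg0 w
    rw [e1, abs_mul, abs_of_nonneg (mul_nonneg gw gv)]
    calc g w * g v * |∫ σ, kerB γ b ε v w σ * Φ v w σ ∂(surf d)|
        ≤ g w * g v * ((1 / 2 * C * len (v - w) ^ γ * (8 * M)) * (Ca * len (v - w) ^ (2 * s))) := by
          gcongr
      _ = g w * g v * (4 * C * Ca * M * (len (v - w) ^ γ * len (v - w) ^ (2 * s))) := by ring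
      _ ≤ g w * g v * (4 * C * Ca * M * (2 * ((1 + nsq v) * (1 + nsq w)))) :=
          mul_le_mul_of_nonneg_left (mul_le_mul_of_nonneg_left (h2.trans h3) (by positivity))
            (mul_nonneg gw gv)
      _ = _ := by ring
  have total : |∫ p : Vec d × Vec d × Vec d,
      kerB γ b ε p.1 p.2.1 p.2.2 * (g p.2.1 * g p.1) * Φ p.1 p.2.1 p.2.2 ∂(mu3 d)| ≤
      8 * C * Ca * M * W ^ 2 := by
    rw [integral_prod _ iX, ← Real.norm_eq_abs]
    have hb : ∀ᵐ v ∂(volume : Measure (Vec d)), ‖∫ q : Vec d × Vec d,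
        kerB γ b ε v q.1 q.2 * (g q.1 * g v) * Φ v q.1 q.2 ∂(volume.prod (surf d))‖ ≤
        (8 * C * Ca * M * W) * (g v * (1 + nsq v)) := by
      filter_upwards [iX.prod_right_ae] with v hv
      rw [integral_prod _ hv]
      calc ‖∫ w, ∫ σ, kerB γ b ε v w σ * (g w * g v) * Φ v w σ ∂(surf d)‖
          ≤ ∫ w, (8 * C * Ca * M * (g v * (1 + nsq v))) * (g w * (1 + nsq w)) := by
            refine norm_integral_le_of_norm_le (igs.const_mul _) ?_
            filter_upwards [ae_ne H.hd1 v] with w hw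
            exact inner v w hw
        _ = _ := by rw [integral_const_mul]; ring
    refine (norm_integral_le_of_norm_le (igs.const_mul _) hb).trans ?_
    rw [integral_const_mul, ← hW]
    apply le_of_eq; ring
  rw [abs_mul, abs_of_nonneg (by norm_num : (0 : ℝ) ≤ 1 / 2)]
  linarith [total]

/-- **weak bound** for the Boltzmann operator -/
theorem boltz_weak_bound (H : Hyp d γ s b C Ca) (hg : Nice g) (hg0 : ∀ v, 0 ≤ g v) {φ : Vec d → ℝ}
    {M : ℝ} (h : Test φ M) :
    |∫ v, boltzQ γ b g v * φ v| ≤ 4 * C * Ca * M * (∫ v, g v * (1 + nsq v)) ^ 2 := by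
  have hφ : PG φ := ⟨0, M, fun v => by simpa using h.le0 v⟩
  refine le_of_tendsto (boltz_weak_tendsto H hg hφ h.smooth.continuous.measurable).abs ?_
  filter_upwards [self_mem_nhdsWithin] with ε hε
  exact cut_weak_bound H hg hg0 h hε

/-- existence of the constants -/
lemma exists_hyp (hd : 2 ≤ d) (hs : 0 < s) (hs1 : s < 1) (h0 : 0 ≤ γ + 2 * s) (h2 : γ + 2 * s ≤ 2)
    (hb : IsKernel d s b) : ∃ C Ca, Hyp d γ s b C Ca := by
  obtain ⟨C, hC⟩ := hb.bound (by omega) hs
  obtain ⟨Ca, hCa⟩ := exists_angInt (d := d) (by omega) hs hs1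
  exact ⟨C, Ca, hd, hs, hs1, h0, h2, hb.meas, hC, hCa⟩

/-- classical solutions of the Boltzmann equation satisfy the weak bound -/
lemma boltz_WeakBound (H : Hyp d γ s b C Ca) {T : ℝ} {f : ℝ → Vec d → Vec d → ℝ}
    (hf : IsBoltzmannSol γ b T f) :
    WeakBound T (4 * C * Ca) (fun t x => boltzQ γ b (f t x)) f := by
  intro t ht x φ M hφ _
  have htT : t ∈ Ico 0 T := ⟨ht.1.le, ht.2⟩
  exact boltz_weak_bound H (IsClassicalSol.nice hf ht x) (hf.nonneg t htT x) hφ

/-- classical solutions of the Boltzmann equation have the collision invariants -/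
lemma boltz_HasInvariants (H : Hyp d γ s b C Ca) {T : ℝ} {f : ℝ → Vec d → Vec d → ℝ}
    (hf : IsBoltzmannSol γ b T f) :
    HasInvariants T (fun t x => boltzQ γ b (f t x)) := by
  intro t ht x
  have hn := IsClassicalSol.nice hf ht x
  exact ⟨boltzQ_mass H hn, boltzQ_momentum H hn, boltzQ_energy H hn⟩

end Pool.Agent.H25.Kin
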