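import Pool.Agent.H25.Kin.Admis

/-!
# Admissible initial data for the Boltzmann equation
-/

set_option autoImplicit false

open MeasureTheory Set
open scoped ContDiff

namespace Pool.Agent.H25.Kin

variable {d : ℕ}

/-- Admissible initial data for the Boltzmann equation: smooth, nonnegative, periodic in `x`,
bounded by a multiple of `(1 + |v|)^(-N)` for every `N`, with mass density bounded below. -/
structure IsAdmissibleB (F : Vec d → Vec d → ℝ) : Prop where
  smooth : ContDiff ℝ ∞ (fun q : Vec d × Vec d => F q.1 q.2)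
  nonneg : ∀ x v, 0 ≤ F x v
  periodic : ∀ x v i, F (x + Pi.single i 1) v = F x v
  decay : ∀ N : ℕ, ∃ C, ∀ x v, (1 + ‖v‖) ^ N * F x v ≤ C
  mass_pos : ∃ m > 0, ∀ x, m ≤ ∫ v, F x v

end Pool.Agent.H25.Kin
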