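import Pool.Agent.H25.Kin.BInner

/-!
# The Boltzmann operator as a limit; uniform decay; weak form
-/

set_option autoImplicit false

open MeasureTheory Set Filter Topology
open scoped ENNReal

namespace Pool.Agent.H25.Kin

variable {d : ℕ} {γ s C Ca : ℝ} {b : ℝ → ℝ} {g : Vec d → ℝ}

/-- standing hypotheses -/
structure Hyp (d : ℕ) (γ s : ℝ) (b : ℝ → ℝ) (C Ca : ℝ) : Prop where
  hd : 2 ≤ d
  hs : 0 < s
  hs1 : s < 1
  h0 : 0 ≤ γ + 2 * s
  h2 : γ + 2 * s ≤ 2
  bm : Measurable b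
  bd : AngBound b C (((d : ℝ) - 1) / 2 + s)
  an : AngInt d s Ca

lemma Hyp.g1 (H : Hyp d γ s b C Ca) : -2 < γ := by have := H.h0; have := H.hs1; linarith
lemma Hyp.g2 (H : Hyp d γ s b C Ca) : γ ≤ 2 := by have := H.h2; have := H.hs; linarith
lemma Hyp.hd1 (H : Hyp d γ s b C Ca) : 1 ≤ d := by have := H.hd; omega
lemma Hyp.β0 (H : Hyp d γ s b C Ca) : 0 ≤ ((d : ℝ) - 1) / 2 + s := by
  have h1 := H.hs
  have h2 : (2 : ℝ) ≤ d := by exact_mod_cast H.hd
  linarith

/-- `g(w') g(v') - g(w) g(v)` -/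
noncomputable def Dl (g : Vec d → ℝ) (v w σ : Vec d) : ℝ :=
  g (post' v w σ) * g (post v w σ) - g w * g v

lemma Dl_meas3 (hg : Continuous g) : Measurable fun p : Vec d × Vec d × Vec d => Dl g p.1 p.2.1 p.2.2 := by
  unfold Dl
  have h1 := (hg.comp (continuous_post' (d := d))).mul (hg.comp (continuous_post (d := d)))
  have h2 : Continuous fun p : Vec d × Vec d × Vec d => g p.2.1 * g p.1 :=
    (hg.comp (continuous_fst.comp continuous_snd)).mul (hg.comp continuous_fst)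
  exact (h1.sub h2).measurable

lemma Dl_meas (hg : Continuous g) (v w : Vec d) : Measurable fun σ : Vec d => Dl g v w σ :=
  (Dl_meas3 hg).comp (measurable_const.prodMk (measurable_const.prodMk measurable_id))

lemma Dl_bdd (hg : RD g) (v w : Vec d) : ∃ F0, ∀ σ, nsq σ = 1 → |Dl g v w σ| ≤ F0 := by
  obtain ⟨K, hK⟩ := hg 0
  have hK' : ∀ u, |g u| ≤ K := fun u => by simpa using hK u
  have hK0 : 0 ≤ K := (abs_nonneg _).trans (hK' 0)
  refine ⟨K * K + K * K, fun σ _ => ?_⟩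
  unfold Dl
  refine (abs_sub _ _).trans ?_
  rw [abs_mul, abs_mul]
  exact add_le_add (mul_le_mul (hK' _) (hK' _) (abs_nonneg _) hK0)
    (mul_le_mul (hK' _) (hK' _) (abs_nonneg _) hK0)

/-- bound of the inner integral -/
lemma inner_Dl (H : Hyp d γ s b C Ca) (hg : Nice g) (M : ℕ) : ∃ A, 0 ≤ A ∧
    ∀ ε > 0, ∀ v w : Vec d, v ≠ w → |∫ σ, kerB γ b ε v w σ * Dl g v w σ ∂(surf d)| ≤
      A * (((1 + ‖v‖) ^ M)⁻¹ * kg γ (v - w)) := by
  obtain ⟨Cs, hCs, hs⟩ := second_diff_prod hg (M + (d + 5))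
  have hC0 := H.bd.1
  have hCa0 := H.an.1
  refine ⟨1 / 2 * C * Cs * Ca, by positivity, fun ε hε v w hvw => ?_⟩
  obtain ⟨F0, hF0⟩ := Dl_bdd hg.rd v w
  have hl := Real.rpow_nonneg (len_nonneg (v - w)) γ
  have hn := sq_nonneg' (v - w)
  have hp := pw_nonneg (M + (d + 5)) v w
  have h1 := inner_bound (γ := γ) H.hd1 H.an H.bm H.bd H.β0 hε hvw (Dl_meas hg.cont v w) hF0
    (r := 1) (D := Cs * (1 + nsq (v - w)) * pw (M + (d + 5)) v w) one_pos (by positivity)
    (fun σ hσ => by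
      rw [one_pow, one_mul]
      exact hs v w σ hvw hσ)
  rw [Real.one_rpow, mul_one] at h1
  refine h1.trans ?_
  have h2 := kg_bound γ M v w
  calc 1 / 2 * C * len (v - w) ^ γ * (Cs * (1 + nsq (v - w)) * pw (M + (d + 5)) v w) * Ca
      = 1 / 2 * C * Cs * Ca * (len (v - w) ^ γ * (1 + nsq (v - w)) * pw (M + (d + 5)) v w) := by ring
    _ ≤ 1 / 2 * C * Cs * Ca * (((1 + ‖v‖) ^ M)⁻¹ * kg γ (v - w)) := by gcongr

lemma ae_ne (hd : 1 ≤ d) (v : Vec d) : ∀ᵐ w ∂(volume : Measure (Vec d)), v ≠ w := by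
  have hne : Nonempty (Fin d) := ⟨⟨0, by omega⟩⟩
  have : (volume : Measure (Vec d)) {v} = 0 := measure_singleton v
  filter_upwards [compl_mem_ae_iff.2 this] with w hw h
  exact hw h.symm

lemma boltzCut_eq (γ : ℝ) (b : ℝ → ℝ) (ε : ℝ) (g : Vec d → ℝ) (v : Vec d) :
    boltzCut γ b ε g v = ∫ w, ∫ σ, kerB γ b ε v w σ * Dl g v w σ ∂(surf d) := rfl

/-- **uniform decay of the cut-off operators** -/
lemma boltzCut_decay (H : Hyp d γ s b C Ca) (hg : Nice g) (M : ℕ) : ∃ A, 0 ≤ A ∧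
    ∀ ε > 0, ∀ v : Vec d, |boltzCut γ b ε g v| ≤ A * ((1 + ‖v‖) ^ M)⁻¹ := by
  obtain ⟨A, hA0, hA⟩ := inner_Dl H hg M
  have hki := kg_integrable H.hd H.g1 H.g2
  have hk0 : 0 ≤ ∫ z, kg (d := d) γ z := integral_nonneg fun z => kg_nonneg γ z
  refine ⟨A * ∫ z, kg (d := d) γ z, by positivity, fun ε hε v => ?_⟩
  rw [boltzCut_eq, ← Real.norm_eq_abs]
  calc ‖∫ w, ∫ σ, kerB γ b ε v w σ * Dl g v w σ ∂(surf d)‖
      ≤ ∫ w, A * (((1 + ‖v‖) ^ M)⁻¹ * kg γ (v - w)) := by
        refine norm_integral_le_of_norm_le (((hki.comp_sub_left v).const_mul _).const_mul _) ?_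
        filter_upwards [ae_ne H.hd1 v] with w hw
        exact hA ε hε v w hw
    _ = A * (∫ z, kg (d := d) γ z) * ((1 + ‖v‖) ^ M)⁻¹ := by
        rw [integral_const_mul, integral_const_mul, integral_sub_left_eq_self (fun z => kg (d := d) γ z)]
        ring

lemma inner_meas (hbm : Measurable b) (hg : Continuous g) (ε : ℝ) : StronglyMeasurable
    fun q : Vec d × Vec d => ∫ σ, kerB γ b ε q.1 q.2 σ * Dl g q.1 q.2 σ ∂(surf d) := by
  have h : Measurable fun p : (Vec d × Vec d) × Vec d =>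
      kerB γ b ε p.1.1 p.1.2 p.2 * Dl g p.1.1 p.1.2 p.2 := by
    have hm : Measurable fun p : (Vec d × Vec d) × Vec d => ((p.1.1, p.1.2, p.2) : Vec d × Vec d × Vec d) :=
      (measurable_fst.comp measurable_fst).prodMk
        ((measurable_snd.comp measurable_fst).prodMk measurable_snd)
    exact ((measurable_kerB γ hbm ε).mul (Dl_meas3 hg)).comp hm
  exact h.stronglyMeasurable.integral_prod_right'

lemma boltzCut_meas (hbm : Measurable b) (hg : Continuous g) (ε : ℝ) :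
    StronglyMeasurable fun v : Vec d => boltzCut γ b ε g v := by
  have h := (inner_meas (γ := γ) hbm hg ε).integral_prod_right' (ν := (volume : Measure (Vec d)))
  exact h

/-- **the principal value exists** -/
theorem boltz_tendsto (H : Hyp d γ s b C Ca) (hg : Nice g) (v : Vec d) :
    Tendsto (fun ε => boltzCut γ b ε g v) (𝓝[>] 0) (𝓝 (boltzQ γ b g v)) := by
  obtain ⟨A, hA0, hA⟩ := inner_Dl H hg 0
  obtain ⟨Cs, hCs, hs⟩ := second_diff_prod hg (0 + (d + 5))
  have hki := kg_integrable H.hd H.g1 H.g2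
  have key : Tendsto (fun ε => boltzCut γ b ε g v) (𝓝[>] 0)
      (𝓝 (∫ w, ∫ σ, (1 / 2) * (ker0 γ b v w σ * (Dl g v w σ + Dl g v w (refl (dirk v w) σ)))
        ∂(surf d))) := by
    simp_rw [boltzCut_eq]
    refine tendsto_integral_filter_of_dominated_convergence
      (fun w => A * (((1 + ‖v‖) ^ 0)⁻¹ * kg γ (v - w))) ?_ ?_
      (((hki.comp_sub_left v).const_mul _).const_mul _) ?_
    · refine Eventually.of_forall fun ε => ?_
      exact ((inner_meas (γ := γ) H.bm hg.cont ε).comp_measurable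
        (measurable_const.prodMk measurable_id)).aestronglyMeasurable
    · filter_upwards [self_mem_nhdsWithin] with ε hε
      filter_upwards [ae_ne H.hd1 v] with w hw
      exact hA ε hε v w hw
    · filter_upwards [ae_ne H.hd1 v] with w hw
      obtain ⟨F0, hF0⟩ := Dl_bdd hg.rd v w
      exact inner_tendsto (γ := γ) H.hd1 H.an H.bm H.bd H.β0 hw (Dl_meas hg.cont v w) hF0
        (r := 1) (D := Cs * (1 + nsq (v - w)) * pw (0 + (d + 5)) v w) one_pos
        (fun σ hσ => by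
          rw [one_pow, one_mul]
          exact hs v w σ hw hσ)
  have e : boltzQ γ b g v = ∫ w, ∫ σ, (1 / 2) * (ker0 γ b v w σ *
      (Dl g v w σ + Dl g v w (refl (dirk v w) σ))) ∂(surf d) := key.limUnder_eq
  rw [e]
  exact key

/-- decay of the Boltzmann operator -/
lemma boltzQ_decay (H : Hyp d γ s b C Ca) (hg : Nice g) (M : ℕ) : ∃ A, 0 ≤ A ∧
    ∀ v : Vec d, |boltzQ γ b g v| ≤ A * ((1 + ‖v‖) ^ M)⁻¹ := by
  obtain ⟨A, hA0, hA⟩ := boltzCut_decay H hg M
  refine ⟨A, hA0, fun v => ?_⟩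
  refine le_of_tendsto (boltz_tendsto H hg v).abs ?_
  filter_upwards [self_mem_nhdsWithin] with ε hε
  exact hA ε hε v

/-- the weak form passes to the limit -/
lemma boltz_weak_tendsto (H : Hyp d γ s b C Ca) (hg : Nice g) {φ : Vec d → ℝ} (hφ : PG φ)
    (hφm : Measurable φ) :
    Tendsto (fun ε => ∫ v, boltzCut γ b ε g v * φ v) (𝓝[>] 0) (𝓝 (∫ v, boltzQ γ b g v * φ v)) := by
  obtain ⟨K, D, hD0, hD⟩ := hφ.pos
  obtain ⟨A, hA0, hA⟩ := boltzCut_decay H hg (d + 1 + K)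
  refine tendsto_integral_filter_of_dominated_convergence (fun v => A * D * wt d v) ?_ ?_
    (integrable_wt.const_mul _) ?_
  · refine Eventually.of_forall fun ε => ?_
    exact (boltzCut_meas H.bm hg.cont ε).aestronglyMeasurable.mul hφm.aestronglyMeasurable
  · filter_upwards [self_mem_nhdsWithin] with ε hε
    refine Eventually.of_forall fun v => ?_
    rw [norm_mul, Real.norm_eq_abs]
    have hw := w_pos v
    calc |boltzCut γ b ε g v| * ‖φ v‖ ≤ (A * ((1 + ‖v‖) ^ (d + 1 + K))⁻¹) * (D * (1 + ‖v‖) ^ K) :=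
          mul_le_mul (hA ε hε v) (hD v) (norm_nonneg _) (by positivity)
      _ = A * D * wt d v := by
          unfold wt
          rw [pow_add (1 + ‖v‖) (d + 1) K]
          field_simp
  · refine Eventually.of_forall fun v => ?_
    exact (boltz_tendsto H hg v).mul_const _

end Pool.Agent.H25.Kin
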