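import Pool.Agent.H25.Kin.Defs

/-!
# The non-cutoff Boltzmann collision operator
-/

set_option autoImplicit false

open MeasureTheory Set Filter Topology

namespace Pool.Agent.H25.Kin

variable {d : ℕ}

/-- The scalar product `v · w`. -/
def dot (v w : Vec d) : ℝ := ∑ i, v i * w i

/-- The Euclidean length `|z|`. -/
noncomputable def len (z : Vec d) : ℝ := Real.sqrt (nsq z)

/-- The surface measure of the unit sphere `{σ : |σ| = 1}`, as a measure on `Vec d`. -/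
noncomputable def surf (d : ℕ) : Measure (Vec d) :=
  (volume : Measure (EuclideanSpace ℝ (Fin d))).toSphere.map fun σ => WithLp.ofLp σ.1

/-- The post-collisional velocity `v' = (v + w)/2 + (|v - w|/2) σ`. -/
noncomputable def post (v w σ : Vec d) : Vec d :=
  (1 / 2 : ℝ) • (v + w) + (len (v - w) / 2) • σ

/-- The post-collisional velocity `w' = (v + w)/2 - (|v - w|/2) σ`. -/
noncomputable def post' (v w σ : Vec d) : Vec d :=
  (1 / 2 : ℝ) • (v + w) - (len (v - w) / 2) • σ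

/-- `cos θ = σ · (v - w) / |v - w|`. -/
noncomputable def cosTh (v w σ : Vec d) : ℝ := dot σ (v - w) / len (v - w)

/-- The collision kernel `B = |v - w|^γ b(cos θ)`, cut off to `cos θ ≤ 1 - ε`. -/
noncomputable def kerB (γ : ℝ) (b : ℝ → ℝ) (ε : ℝ) (v w σ : Vec d) : ℝ :=
  if cosTh v w σ ≤ 1 - ε then len (v - w) ^ γ * b (cosTh v w σ) else 0

/-- The Boltzmann collision operator with the grazing collisions `cos θ > 1 - ε` cut off,
`∫ ∫_{S^{d-1}} (g(w') g(v') - g(w) g(v)) B dσ dw`. -/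
noncomputable def boltzCut (γ : ℝ) (b : ℝ → ℝ) (ε : ℝ) (g : Vec d → ℝ) (v : Vec d) : ℝ :=
  ∫ w : Vec d, ∫ σ : Vec d,
    kerB γ b ε v w σ * (g (post' v w σ) * g (post v w σ) - g w * g v) ∂(surf d)

/-- The non-cutoff Boltzmann collision operator `Q(g,g)(v)`; as usual the integral over the angles
is understood as a principal value at `θ = 0`. -/
noncomputable def boltzQ (γ : ℝ) (b : ℝ → ℝ) (g : Vec d → ℝ) (v : Vec d) : ℝ :=
  limUnder (𝓝[>] (0 : ℝ)) fun ε => boltzCut γ b ε g v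

/-- Non-cutoff angular kernels in dimension `d` with singularity `s`:
`c⁻¹ θ^(-(d-1)-2s) ≤ b(cos θ) ≤ c θ^(-(d-1)-2s)` on `(0, π/2]`, and `0 ≤ b(cos θ) ≤ c` on
`[π/2, π]`. -/
structure IsKernel (d : ℕ) (s : ℝ) (b : ℝ → ℝ) : Prop where
  meas : Measurable b
  grazing : ∃ c > 0, ∀ θ ∈ Ioc 0 (Real.pi / 2),
    c⁻¹ * θ ^ (-((d : ℝ) - 1) - 2 * s) ≤ b (Real.cos θ) ∧
      b (Real.cos θ) ≤ c * θ ^ (-((d : ℝ) - 1) - 2 * s)
  large : ∃ c, ∀ x ∈ Icc (-1 : ℝ) 0, 0 ≤ b x ∧ b x ≤ c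

/-- Classical solutions of the inhomogeneous Boltzmann equation with kernel `|v-w|^γ b(cos θ)`. -/
def IsBoltzmannSol (γ : ℝ) (b : ℝ → ℝ) (T : ℝ) (f : ℝ → Vec d → Vec d → ℝ) : Prop :=
  IsClassicalSol T (fun t x => boltzQ γ b (f t x)) f

end Pool.Agent.H25.Kin
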