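import Pool.Agent.H25.Kin.Char

/-!
# Periodic integrals and the transport identity on the torus
-/

set_option autoImplicit false

open MeasureTheory Set Filter Topology
open scoped Pointwise

namespace Pool.Agent.H25.Kin

variable {d : ℕ}

/-- periodic functions of the position -/
def Per (F : Vec d → ℝ) : Prop := ∀ x i, F (x + Pi.single i 1) = F x

lemma Per.span {F : Vec d → ℝ} (hF : Per F) {l : Vec d}
    (hl : l ∈ Submodule.span ℤ (Set.range (Pi.basisFun ℝ (Fin d)))) (x : Vec d) : F (l + x) = F x := by
  induction hl using Submodule.span_induction generalizing x with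
  | mem y hy =>
    obtain ⟨i, rfl⟩ := hy
    rw [Pi.basisFun_apply, add_comm]
    exact hF x i
  | zero => rw [zero_add]
  | add y z _ _ hy hz => rw [add_assoc, hy, hz]
  | smul n y _ hy =>
    have key : ∀ m : ℕ, ∀ x, F ((m : ℤ) • y + x) = F x := by
      intro m
      induction m with
      | zero => intro x; simp
      | succ m ih =>
        intro x
        have e : ((m + 1 : ℕ) : ℤ) • y + x = (m : ℤ) • y + (y + x) := by
          push_cast
          rw [add_smul, one_smul, add_assoc]
        rw [e, ih, hy]
    rcases Int.eq_nat_or_neg n with ⟨m, rfl | rfl⟩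
    · exact key m x
    · have h := key m (-(m : ℤ) • y + x)
      rw [← h]
      congr 1
      rw [neg_smul]; abel

lemma Icc_ae : (Set.univ.pi fun _ : Fin d => Set.Ico (0 : ℝ) 1) =ᵐ[volume] Icc (0 : Vec d) 1 :=
  Measure.univ_pi_Ico_ae_eq_Icc (μ := fun _ : Fin d => (volume : Measure ℝ)) (f := 0) (g := 1)

/-- translation invariance of the integral of a periodic function over the unit cube -/
lemma Per.integral {F : Vec d → ℝ} (hF : Per F) (a : Vec d) :
    ∫ x in Icc (0 : Vec d) 1, F (x + a) = ∫ x in Icc (0 : Vec d) 1, F x := by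
  rw [← setIntegral_congr_set Icc_ae, ← setIntegral_congr_set Icc_ae]
  set D0 : Set (Vec d) := Set.univ.pi fun _ : Fin d => Set.Ico (0 : ℝ) 1 with hD0
  have hfd : IsAddFundamentalDomain
      (↥(Submodule.span ℤ (Set.range (Pi.basisFun ℝ (Fin d)))).toAddSubgroup) D0
      (volume : Measure (Vec d)) := by
    have := ZSpan.isAddFundamentalDomain' (Pi.basisFun ℝ (Fin d)) (volume : Measure (Vec d))
    rwa [ZSpan.fundamentalDomain_pi_basisFun] at this
  have hcnt : Countable ↥(Submodule.span ℤ (Set.range (Pi.basisFun ℝ (Fin d)))).toAddSubgroup := by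
    have h : Countable ↥(Submodule.span ℤ (Set.range (Pi.basisFun ℝ (Fin d)))) := inferInstance
    exact h
  have hfd2 := hfd.vadd_of_comm a
  have hinv : ∀ (g : ↥(Submodule.span ℤ (Set.range (Pi.basisFun ℝ (Fin d)))).toAddSubgroup)
      (x : Vec d), F (g +ᵥ x) = F x := fun g x => hF.span g.2 x
  have h := IsAddFundamentalDomain.setIntegral_eq hfd2 hfd hinv
  rw [← h]
  have hm : MeasurableSet D0 := MeasurableSet.univ_pi fun _ => measurableSet_Ico
  have hm2 : MeasurableSet (a +ᵥ D0) := hm.const_vadd a
  rw [← integral_indicator hm, ← integral_indicator hm2,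
    ← integral_add_right_eq_self ((a +ᵥ D0).indicator F) a]
  congr 1
  funext x
  have e : x + a ∈ a +ᵥ D0 ↔ x ∈ D0 := by
    rw [add_comm]
    exact Set.vadd_mem_vadd_set_iff
  by_cases hx : x ∈ D0
  · rw [indicator_of_mem hx, indicator_of_mem (e.2 hx)]
  · rw [indicator_of_notMem hx, indicator_of_notMem (fun h => hx (e.1 h))]

/-- Lebesgue measure on the unit cube -/
noncomputable def muD (d : ℕ) : Measure (Vec d) := volume.restrict (Icc (0 : Vec d) 1)

instance : IsFiniteMeasure (muD d) :=
  ⟨by unfold muD; rw [Measure.restrict_apply_univ]; exact isCompact_Icc.measure_lt_top⟩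

/-- the measure on phase space `(v,x)` -/
noncomputable def nu (d : ℕ) : Measure (Vec d × Vec d) := (volume : Measure (Vec d)).prod (muD d)

lemma integrable_nu {G : Vec d × Vec d → ℝ} {C : ℝ} (hm : AEStronglyMeasurable G (nu d))
    (hG : ∀ q, |G q| ≤ C * wt d q.1) : Integrable G (nu d) := by
  have h := (integrable_wt (d := d)).comp_fst (muD d)
  exact (h.const_mul C).mono' hm (Eventually.of_forall hG)

/-- shear invariance on the torus -/
lemma shear_nu {G : Vec d × Vec d → ℝ} (hG : Continuous G) {C : ℝ} (hb : ∀ q, |G q| ≤ C * wt d q.1)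
    (hper : ∀ v, Per fun x => G (v, x)) (t : ℝ) :
    ∫ q, G (q.1, q.2 + t • q.1) ∂(nu d) = ∫ q, G q ∂(nu d) := by
  have c2 : Continuous fun q : Vec d × Vec d => G (q.1, q.2 + t • q.1) := hG.comp (by fun_prop)
  unfold nu
  rw [integral_prod _ (integrable_nu c2.aestronglyMeasurable fun q => hb (q.1, q.2 + t • q.1)),
    integral_prod _ (integrable_nu hG.aestronglyMeasurable hb)]
  refine integral_congr_ae (Eventually.of_forall fun v => ?_)
  exact (hper v).integral (t • v)

end Pool.Agent.H25.Kin
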