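import Pool.Agent.H25.Kin.Slice

/-!
# Testing a classical solution along free transport with a compactly supported function
-/

set_option autoImplicit false

open MeasureTheory Set Filter Topology

namespace Pool.Agent.H25.Kin

variable {d : ℕ} {T : ℝ} {Q f : ℝ → Vec d → Vec d → ℝ}

lemma IsClassicalSol.cont_slice (hf : IsClassicalSol T Q f) {s : ℝ} (hs : s ∈ Ico 0 T) :
    Continuous fun q : Vec d × Vec d => f s q.1 q.2 := by
  have h1 : Continuous fun q : Vec d × Vec d => (s, q.1, q.2) := by fun_prop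
  exact hf.cont.comp_continuous h1 fun q => ⟨hs, mem_univ _⟩

lemma IsClassicalSol.cont_fderiv (hf : IsClassicalSol T Q f) :
    ContinuousOn (fderiv ℝ (unc f)) (Ioo 0 T ×ˢ univ) :=
  hf.smooth.continuousOn_fderiv_of_isOpen (isOpen_Ioo.prod isOpen_univ) (by norm_num)

lemma IsClassicalSol.cont_Q (hf : IsClassicalSol T Q f) {s : ℝ} (hs : s ∈ Ioo 0 T) :
    Continuous fun q : Vec d × Vec d => Q s q.1 q.2 := by
  have h1 : Continuous fun q : Vec d × Vec d => (s, q.1, q.2) := by fun_prop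
  have h2 := hf.cont_fderiv.comp_continuous h1 fun q => ⟨hs, mem_univ _⟩
  have h3 : (fun q : Vec d × Vec d => Q s q.1 q.2) =
      fun q => fderiv ℝ (unc f) (s, q.1, q.2) (1, q.2, 0) := by
    funext q; exact (hf.eqn s hs q.1 q.2).symm
  rw [h3]
  exact h2.clm_apply (by fun_prop)

lemma shear_cont (s : ℝ) : Continuous fun q : Vec d × Vec d => (q.2 + s • q.1, q.1) := by fun_prop

/-- the tested solution -/
noncomputable def testA (f : ℝ → Vec d → Vec d → ℝ) (Φ : Vec d × Vec d → ℝ) (s : ℝ) : ℝ :=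
  ∫ q : Vec d × Vec d, Φ q * f s (q.2 + s • q.1) q.1

lemma IsClassicalSol.testA_cont (hf : IsClassicalSol T Q f) {Φ : Vec d × Vec d → ℝ}
    (hΦ : Continuous Φ) (hc : HasCompactSupport Φ) {t : ℝ} (ht : t < T) :
    ContinuousOn (testA f Φ) (Icc 0 t) := by
  obtain ⟨C, hC⟩ := hf.decay t ht 0
  unfold testA
  have hI : Integrable (fun q => ‖Φ q‖ * C) := ((hΦ.integrable_of_hasCompactSupport hc).norm).mul_const C
  refine continuousOn_of_dominated (bound := fun q => ‖Φ q‖ * C) ?_ ?_ hI ?_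
  · intro s hs
    have hs' : s ∈ Ico 0 T := ⟨hs.1, hs.2.trans_lt ht⟩
    exact (hΦ.mul ((hf.cont_slice hs').comp (shear_cont s))).aestronglyMeasurable
  · intro s hs
    refine Eventually.of_forall fun q => ?_
    rw [norm_mul]
    refine mul_le_mul_of_nonneg_left ?_ (norm_nonneg _)
    rw [Real.norm_eq_abs, abs_of_nonneg (hf.nonneg s ⟨hs.1, hs.2.trans_lt ht⟩ _ _)]
    simpa using hC s hs (q.2 + s • q.1) q.1
  · refine Eventually.of_forall fun q => ?_
    refine continuousOn_const.mul ?_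
    have h1 : Continuous fun s : ℝ => (s, q.2 + s • q.1, q.1) := by fun_prop
    exact hf.cont.comp h1.continuousOn fun s hs => ⟨⟨hs.1, hs.2.trans_lt ht⟩, mem_univ _⟩

lemma IsClassicalSol.testA_hasDerivAt (hf : IsClassicalSol T Q f) {Φ : Vec d × Vec d → ℝ}
    (hΦ : Continuous Φ) (hc : HasCompactSupport Φ) {s : ℝ} (hs : s ∈ Ioo 0 T) :
    HasDerivAt (testA f Φ) (∫ q : Vec d × Vec d, Φ q * Q s (q.2 + s • q.1) q.1) s := by
  obtain ⟨C, hC0, hC⟩ := hf.Q_le (T₀ := s / 2) (T₁ := (s + T) / 2) (by linarith [hs.1])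
    (by linarith [hs.2]) 0
  obtain ⟨D, hD⟩ := hf.decay s hs.2 0
  have hI : Integrable (fun q => ‖Φ q‖ * C) := ((hΦ.integrable_of_hasCompactSupport hc).norm).mul_const C
  have hnhds : Ioo (s / 2) ((s + T) / 2) ∈ 𝓝 s :=
    Ioo_mem_nhds (by linarith [hs.1]) (by linarith [hs.2])
  have hsub : ∀ r ∈ Ioo (s / 2) ((s + T) / 2), r ∈ Ioo 0 T := fun r hr =>
    ⟨by linarith [hr.1, hs.1], by linarith [hr.2, hs.2]⟩
  unfold testA
  refine (hasDerivAt_integral_of_dominated_loc_of_deriv_le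
    (F := fun s (q : Vec d × Vec d) => Φ q * f s (q.2 + s • q.1) q.1)
    (F' := fun s q => Φ q * Q s (q.2 + s • q.1) q.1) (bound := fun q => ‖Φ q‖ * C)
    hnhds ?_ ?_ ?_ ?_ hI ?_).2
  · filter_upwards [hnhds] with r hr
    have hr' := hsub r hr
    exact (hΦ.mul ((hf.cont_slice ⟨hr'.1.le, hr'.2⟩).comp (shear_cont r))).aestronglyMeasurable
  · have hI2 : Integrable (fun q => ‖Φ q‖ * D) :=
      ((hΦ.integrable_of_hasCompactSupport hc).norm).mul_const D
    refine hI2.mono' ?_ (Eventually.of_forall fun q => ?_)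
    · exact (hΦ.mul ((hf.cont_slice ⟨hs.1.le, hs.2⟩).comp (shear_cont s))).aestronglyMeasurable
    · rw [norm_mul]
      refine mul_le_mul_of_nonneg_left ?_ (norm_nonneg _)
      rw [Real.norm_eq_abs, abs_of_nonneg (hf.nonneg s ⟨hs.1.le, hs.2⟩ _ _)]
      simpa using hD s ⟨hs.1.le, le_refl _⟩ (q.2 + s • q.1) q.1
  · exact (hΦ.mul ((hf.cont_Q hs).comp (shear_cont s))).aestronglyMeasurable
  · refine Eventually.of_forall fun q r hr => ?_
    rw [norm_mul]
    refine mul_le_mul_of_nonneg_left ?_ (norm_nonneg _)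
    have := hC r ⟨hr.1.le, hr.2.le⟩ (q.2 + r • q.1) q.1
    simpa using this
  · refine Eventually.of_forall fun q r hr => ?_
    exact (hf.hasDerivAt_char (hsub r hr) q.2 q.1).const_mul (Φ q)

/-- the shear `(v,x) ↦ (v, x + s v)` preserves the measure -/
lemma measurePreserving_shear (s : ℝ) : MeasurePreserving
    (fun q : Vec d × Vec d => (q.1, q.2 + s • q.1)) (volume.prod volume) (volume.prod volume) := by
  refine (MeasurePreserving.id (volume : Measure (Vec d))).skew_product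
    (g := fun v x => x + s • v) ?_ ?_
  · exact (by fun_prop : Continuous fun p : Vec d × Vec d => p.2 + s • p.1).measurable
  · refine Eventually.of_forall fun v => ?_
    exact (measurePreserving_add_right volume (s • v)).map_eq

/-- change of variables `x ↦ x + s v` -/
lemma integral_shear (s : ℝ) (F : Vec d × Vec d → ℝ) :
    ∫ q : Vec d × Vec d, F (q.1, q.2 + s • q.1) ∂(volume.prod volume) =
      ∫ q, F q ∂(volume.prod volume) := by
  have e : MeasurableEmbedding fun q : Vec d × Vec d => (q.1, q.2 + s • q.1) := by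
    let h : (Vec d × Vec d) ≃ₜ (Vec d × Vec d) :=
      { toFun := fun q => (q.1, q.2 + s • q.1)
        invFun := fun q => (q.1, q.2 - s • q.1)
        left_inv := fun q => by simp
        right_inv := fun q => by simp
        continuous_toFun := by fun_prop
        continuous_invFun := by fun_prop }
    exact h.measurableEmbedding
  exact (measurePreserving_shear s).integral_comp e F

/-- **Mean value form**: for `0 < t < T` there is `s ∈ (0,t)` with
`A(t) - A(0) = t ∫∫ Φ(v, x - s v) Q(s,x,v)`. -/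
lemma IsClassicalSol.testA_mvt (hf : IsClassicalSol T Q f) {Φ : Vec d × Vec d → ℝ}
    (hΦ : Continuous Φ) (hc : HasCompactSupport Φ) {t : ℝ} (ht0 : 0 < t) (ht : t < T) :
    ∃ s ∈ Ioo 0 t, testA f Φ t - testA f Φ 0 =
      t * ∫ q : Vec d × Vec d, Φ (q.1, q.2 - s • q.1) * Q s q.2 q.1 ∂(volume.prod volume) := by
  obtain ⟨s, hs, h⟩ := exists_hasDerivAt_eq_slope (testA f Φ)
    (fun s => ∫ q : Vec d × Vec d, Φ q * Q s (q.2 + s • q.1) q.1) ht0
    (hf.testA_cont hΦ hc ht) (fun s hs => hf.testA_hasDerivAt hΦ hc ⟨hs.1, hs.2.trans ht⟩)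
  refine ⟨s, hs, ?_⟩
  rw [← integral_shear s (fun q => Φ (q.1, q.2 - s • q.1) * Q s q.2 q.1)]
  simp only [add_sub_cancel_right]
  have h2 : (∫ q : Vec d × Vec d, Φ q * Q s (q.2 + s • q.1) q.1) * t = testA f Φ t - testA f Φ 0 := by
    rw [h, sub_zero, div_mul_cancel₀ _ ht0.ne']
  rw [← h2, mul_comm]
  rfl

lemma testA_eq (f : ℝ → Vec d → Vec d → ℝ) (Φ : Vec d × Vec d → ℝ) (s : ℝ) :
    testA f Φ s = ∫ q : Vec d × Vec d, Φ (q.1, q.2 - s • q.1) * f s q.2 q.1
      ∂(volume.prod volume) := by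
  unfold testA
  rw [← integral_shear s (fun q => Φ (q.1, q.2 - s • q.1) * f s q.2 q.1)]
  simp only [add_sub_cancel_right]
  rfl

end Pool.Agent.H25.Kin
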