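import Mathlib

/-!
# Classical solutions of inhomogeneous kinetic equations on the torus; the Landau operator

Positions and velocities are vectors `Vec d = Fin d → ℝ`; functions on the torus `𝕋^d` are functions
of the position which are periodic with period `1` in each coordinate. `nsq z = |z|²` is the squared
Euclidean length.
-/

set_option autoImplicit false

open MeasureTheory Set

namespace Pool.Agent.H25.Kin

/-- Position and velocity vectors. -/
abbrev Vec (d : ℕ) : Type := Fin d → ℝ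

variable {d : ℕ}

/-- The squared Euclidean length `|z|²`. -/
def nsq (z : Vec d) : ℝ := ∑ i, z i ^ 2

/-- The `i`-th partial derivative of `g` at `v`. -/
noncomputable def pd (i : Fin d) (g : Vec d → ℝ) (v : Vec d) : ℝ :=
  fderiv ℝ g v (Pi.single i 1)

/-- The Landau matrix `a_ij(z) = (|z|² δ_ij - z_i z_j) |z|^γ`. -/
noncomputable def landauA (γ : ℝ) (z : Vec d) (i j : Fin d) : ℝ :=
  ((if i = j then nsq z else 0) - z i * z j) * nsq z ^ (γ / 2)

/-- The `i`-th component of the Landau flux,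
`∫ ∑_j a_ij(v - w) (g(w) ∂_j g(v) - g(v) ∂_j g(w)) dw`. -/
noncomputable def landauFlux (γ : ℝ) (g : Vec d → ℝ) (i : Fin d) (v : Vec d) : ℝ :=
  ∫ w : Vec d, ∑ j, landauA γ (v - w) i j * (g w * pd j g v - g v * pd j g w)

/-- The Landau collision operator `Q(g,g) = ∑_i ∂_i (flux_i)`. -/
noncomputable def landauQ (γ : ℝ) (g : Vec d → ℝ) (v : Vec d) : ℝ :=
  ∑ i, pd i (landauFlux γ g i) v

/-- `f(t,x,v)` as a function on `ℝ × Vec d × Vec d`. -/
def unc (f : ℝ → Vec d → Vec d → ℝ) : ℝ × Vec d × Vec d → ℝ := fun p => f p.1 p.2.1 p.2.2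

/-- `‖F'(p)‖ + ‖F''(p)‖`, the sum of the norms of the first and second derivatives. -/
noncomputable def derivs {E : Type*} [NormedAddCommGroup E] [NormedSpace ℝ E] (F : E → ℝ) (p : E) :
    ℝ := ‖fderiv ℝ F p‖ + ‖fderiv ℝ (fderiv ℝ F) p‖

/-- The size of the derivatives of order `1` and `2` of `f` at `(t,x,v)`. -/
noncomputable def derivs12 (f : ℝ → Vec d → Vec d → ℝ) (t : ℝ) (x v : Vec d) : ℝ :=
  derivs (unc f) (t, x, v)

/-- `(∂_t + v · ∇_x) f` at `(t,x,v)`: the derivative of `f` in the direction `(1, v, 0)`. -/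
noncomputable def transport (f : ℝ → Vec d → Vec d → ℝ) (t : ℝ) (x v : Vec d) : ℝ :=
  fderiv ℝ (unc f) (t, x, v) (1, v, 0)

/-- `f` is continuous on `[0,T) × ℝ^d × ℝ^d`. -/
def ContOn (T : ℝ) (f : ℝ → Vec d → Vec d → ℝ) : Prop :=
  ContinuousOn (unc f) (Ico 0 T ×ˢ univ)

/-- `f` is of class `C²` on `(0,T) × ℝ^d × ℝ^d`. -/
def C2On (T : ℝ) (f : ℝ → Vec d → Vec d → ℝ) : Prop :=
  ContDiffOn ℝ 2 (unc f) (Ioo 0 T ×ˢ univ)

/-- `f` is a classical solution on `[0,T) × 𝕋^d × ℝ^d` of the kinetic equation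
`∂_t f + v · ∇_x f = Q` : it is nonnegative, periodic in `x`, continuous on `[0,T)`, of class `C²`
on `(0,T)`, and it decays rapidly in `v` (locally uniformly in `t ∈ [0,T)`, together with its
derivatives of order `≤ 2` locally uniformly in `t ∈ (0,T)`). -/
structure IsClassicalSol (T : ℝ) (Q f : ℝ → Vec d → Vec d → ℝ) : Prop where
  nonneg : ∀ t ∈ Ico 0 T, ∀ x v, 0 ≤ f t x v
  periodic : ∀ t ∈ Ico 0 T, ∀ x v i, f t (x + Pi.single i 1) v = f t x v
  isCont : ContOn T f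
  isC2 : C2On T f
  decay : ∀ T₁ < T, ∀ N : ℕ, ∃ C, ∀ t ∈ Icc 0 T₁, ∀ x v, (1 + ‖v‖) ^ N * f t x v ≤ C
  decay12 : ∀ T₀ > 0, ∀ T₁ < T, ∀ N : ℕ, ∃ C, ∀ t ∈ Icc T₀ T₁, ∀ x v,
    (1 + ‖v‖) ^ N * derivs12 f t x v ≤ C
  solves : ∀ t ∈ Ioo 0 T, ∀ x v, transport f t x v = Q t x v

/-- `Q` has the collision invariants `1, v_1, ..., v_d, |v|²` (conservation of mass, momentum and
energy in collisions), for all `t ∈ (0,T)` and all `x`. -/
def HasInvariants (T : ℝ) (Q : ℝ → Vec d → Vec d → ℝ) : Prop :=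
  ∀ t ∈ Ioo 0 T, ∀ x, (∫ v, Q t x v = 0) ∧ (∀ i, ∫ v, Q t x v * v i = 0) ∧
    ∫ v, Q t x v * nsq v = 0

/-- Classical solutions of the inhomogeneous Landau equation with exponent `γ`. -/
def IsLandauSol (γ T : ℝ) (f : ℝ → Vec d → Vec d → ℝ) : Prop :=
  IsClassicalSol T (fun t x => landauQ γ (f t x)) f

end Pool.Agent.H25.Kin
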