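import Pool.Agent.H25.Kin.Cap2

/-!
# Geometry of the collisions; the angular kernel
-/

set_option autoImplicit false

open MeasureTheory Set Filter Topology
open scoped ENNReal

namespace Pool.Agent.H25.Kin

variable {d : ℕ}

/-- the singularity of the angular kernel -/
lemma IsKernel.bound {s : ℝ} {b : ℝ → ℝ} (hd : 1 ≤ d) (hs : 0 < s) (hb : IsKernel d s b) :
    ∃ C, 0 ≤ C ∧ ∀ x, -1 ≤ x → x < 1 → 0 ≤ b x ∧ b x ≤ C * (1 - x) ^ (-(((d : ℝ) - 1) / 2 + s)) := by
  obtain ⟨c, hc, h1⟩ := hb.grazing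
  obtain ⟨c', h2⟩ := hb.large
  have hd1 : (0 : ℝ) ≤ (d : ℝ) - 1 := by
    have : (1 : ℝ) ≤ d := by exact_mod_cast hd
    linarith
  set β : ℝ := ((d : ℝ) - 1) / 2 + s with hβ
  have hβ0 : 0 < β := by positivity
  have hc' : 0 ≤ c' := by
    have := h2 0 ⟨by norm_num, le_refl _⟩
    linarith
  refine ⟨c + c' * 2 ^ β, by positivity, fun x hx hx1 => ?_⟩
  have hp : 0 < 1 - x := by linarith
  have hq : 0 < (1 - x) ^ (-β) := Real.rpow_pos_of_pos hp _
  rcases le_total x 0 with h | h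
  · obtain ⟨a1, a2⟩ := h2 x ⟨hx, h⟩
    refine ⟨a1, a2.trans ?_⟩
    have h3 : (2 : ℝ) ^ (-β) ≤ (1 - x) ^ (-β) :=
      Real.rpow_le_rpow_of_nonpos hp (by linarith) (by linarith)
    have h4 : (2 : ℝ) ^ β * 2 ^ (-β) = 1 := by
      rw [← Real.rpow_add (by norm_num)]; simp
    calc c' = c' * ((2 : ℝ) ^ β * 2 ^ (-β)) := by rw [h4, mul_one]
      _ = c' * 2 ^ β * 2 ^ (-β) := by ring
      _ ≤ c' * 2 ^ β * (1 - x) ^ (-β) := by gcongr
      _ ≤ (c + c' * 2 ^ β) * (1 - x) ^ (-β) := by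
          have : 0 ≤ c * (1 - x) ^ (-β) := by positivity
          linarith
  · set θ := Real.arccos x with hθ
    have hcos : Real.cos θ = x := Real.cos_arccos hx hx1.le
    have hθ0 : 0 < θ := Real.arccos_pos.2 hx1
    have hθ1 : θ ≤ Real.pi / 2 := Real.arccos_le_pi_div_two.2 h
    obtain ⟨a1, a2⟩ := h1 θ ⟨hθ0, hθ1⟩
    rw [hcos] at a1 a2
    have hθp := Real.rpow_pos_of_pos hθ0 (-((d : ℝ) - 1) - 2 * s)
    refine ⟨le_trans (by positivity) a1, a2.trans ?_⟩
    have h3 : 1 - x ≤ θ ^ 2 := by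
      have := Real.one_sub_sq_div_two_le_cos (x := θ)
      rw [hcos] at this
      nlinarith [sq_nonneg θ]
    have h4 : θ ^ (-((d : ℝ) - 1) - 2 * s) = (θ ^ 2) ^ (-β) := by
      rw [← Real.rpow_natCast, ← Real.rpow_mul hθ0.le]
      congr 1
      rw [hβ]; push_cast; ring
    rw [h4]
    have h5 : (θ ^ 2) ^ (-β) ≤ (1 - x) ^ (-β) := Real.rpow_le_rpow_of_nonpos hp h3 (by linarith)
    calc c * (θ ^ 2) ^ (-β) ≤ c * (1 - x) ^ (-β) := by gcongr
      _ ≤ (c + c' * 2 ^ β) * (1 - x) ^ (-β) := by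
          have : 0 ≤ c' * 2 ^ β * (1 - x) ^ (-β) := by positivity
          linarith

lemma len_pos {z : Vec d} (hz : z ≠ 0) : 0 < len z := Real.sqrt_pos.2 (sq_pos_of_ne hz)

lemma len_neg (z : Vec d) : len (-z) = len z := by unfold len; rw [sq_neg]

lemma len_zero : len (0 : Vec d) = 0 := by unfold len nsq; simp

lemma norm_le_len (z : Vec d) : ‖z‖ ≤ len z := by
  unfold len
  exact Real.le_sqrt_of_sq_le (norm_sq_le_sq z)

lemma len_comm (v w : Vec d) : len (v - w) = len (w - v) := by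
  rw [← len_neg, neg_sub]

/-- direction of the relative velocity -/
noncomputable def dirk (v w : Vec d) : Vec d := (len (v - w))⁻¹ • (v - w)

lemma nsq_dirk {v w : Vec d} (h : v ≠ w) : nsq (dirk v w) = 1 := by
  unfold dirk
  have hp := len_pos (sub_ne_zero.2 h)
  rw [nsq_smul, ← len_sq]
  field_simp

lemma len_smul_dirk (v w : Vec d) : len (v - w) • dirk v w = v - w := by
  unfold dirk
  by_cases h : v = w
  · rw [h, sub_self, smul_zero, smul_zero]
  · rw [smul_inv_smul₀ (len_pos (sub_ne_zero.2 h)).ne']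

lemma cosTh_eq (v w σ : Vec d) : cosTh v w σ = dot (dirk v w) σ := by
  unfold cosTh dirk
  rw [smul_dot, dot_comm, div_eq_inv_mul]

lemma half_add (v w : Vec d) : (1 / 2 : ℝ) • (v + w) + (1 / 2 : ℝ) • (v - w) = v := by
  ext i; simp; ring

lemma half_sub (v w : Vec d) : (1 / 2 : ℝ) • (v + w) - (1 / 2 : ℝ) • (v - w) = w := by
  ext i; simp; ring

/-- `v' = v + ρ (σ - k)` -/
lemma post_eq (v w σ : Vec d) : post v w σ = v + (len (v - w) / 2) • (σ - dirk v w) := by
  unfold post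
  have h1 := len_smul_dirk v w
  have h2 : (len (v - w) / 2) • dirk v w = (1 / 2 : ℝ) • (v - w) := by
    rw [← h1, smul_smul, h1]; congr 1; ring
  rw [smul_sub, h2]
  nth_rewrite 3 [← half_add v w]
  abel

lemma post'_eq (v w σ : Vec d) : post' v w σ = w - (len (v - w) / 2) • (σ - dirk v w) := by
  unfold post'
  have h1 := len_smul_dirk v w
  have h2 : (len (v - w) / 2) • dirk v w = (1 / 2 : ℝ) • (v - w) := by
    rw [← h1, smul_smul, h1]; congr 1; ring
  rw [smul_sub, h2]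
  nth_rewrite 3 [← half_sub v w]
  abel

lemma post_dirk (v w : Vec d) : post v w (dirk v w) = v := by
  rw [post_eq, sub_self, smul_zero, add_zero]

lemma post'_dirk (v w : Vec d) : post' v w (dirk v w) = w := by
  rw [post'_eq, sub_self, smul_zero, sub_zero]

lemma post_add_post' (v w σ : Vec d) : post v w σ + post' v w σ = v + w := by
  rw [post_eq, post'_eq]; abel

lemma post_sub_post' (v w σ : Vec d) : post v w σ - post' v w σ = len (v - w) • σ := by
  unfold post post'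
  ext i; simp; ring

lemma len_post {v w σ : Vec d} (hσ : nsq σ = 1) :
    len (post v w σ - post' v w σ) = len (v - w) := by
  rw [post_sub_post', len_smul (len_nonneg _)]
  have : len σ = 1 := by unfold len; rw [hσ, Real.sqrt_one]
  rw [this, mul_one]

/-- parallelogram law -/
lemma nsq_par (a b : Vec d) : nsq (a + b) + nsq (a - b) = 2 * (nsq a + nsq b) := by
  rw [nsq_add, nsq_sub]; ring

/-- conservation of energy -/
lemma energy_post {v w σ : Vec d} (hσ : nsq σ = 1) :
    nsq (post v w σ) + nsq (post' v w σ) = nsq v + nsq w := by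
  have h1 := nsq_par (post v w σ) (post' v w σ)
  have h2 := nsq_par v w
  rw [post_add_post'] at h1
  have h3 : nsq (post v w σ - post' v w σ) = nsq (v - w) := by
    rw [← len_sq, ← len_sq, len_post hσ]
  rw [h3] at h1
  linarith

lemma post_swap (v w σ : Vec d) : post w v (-σ) = post' v w σ := by
  unfold post post'
  rw [add_comm w v, len_comm w v, smul_neg, ← sub_eq_add_neg]

lemma post'_swap (v w σ : Vec d) : post' w v (-σ) = post v w σ := by
  unfold post post'
  rw [add_comm w v, len_comm w v, smul_neg, sub_neg_eq_add]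

lemma cosTh_swap (v w σ : Vec d) : cosTh w v (-σ) = cosTh v w σ := by
  unfold cosTh
  rw [len_comm w v, ← neg_sub v w, dot_neg, neg_dot, neg_neg]

lemma kerB_swap (γ : ℝ) (b : ℝ → ℝ) (ε : ℝ) (v w σ : Vec d) :
    kerB γ b ε w v (-σ) = kerB γ b ε v w σ := by
  unfold kerB
  rw [cosTh_swap, len_comm w v]

lemma dirk_post {v w σ : Vec d} (h : v ≠ w) (hσ : nsq σ = 1) :
    dirk (post v w σ) (post' v w σ) = σ := by
  unfold dirk
  rw [len_post hσ, post_sub_post', inv_smul_smul₀ (len_pos (sub_ne_zero.2 h)).ne']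

lemma cosTh_post {v w σ : Vec d} (h : v ≠ w) (hσ : nsq σ = 1) :
    cosTh (post v w σ) (post' v w σ) (dirk v w) = cosTh v w σ := by
  rw [cosTh_eq, dirk_post h hσ, cosTh_eq, dot_comm]

lemma kerB_post (γ : ℝ) (b : ℝ → ℝ) (ε : ℝ) {v w σ : Vec d} (h : v ≠ w) (hσ : nsq σ = 1) :
    kerB γ b ε (post v w σ) (post' v w σ) (dirk v w) = kerB γ b ε v w σ := by
  unfold kerB
  rw [cosTh_post h hσ, len_post hσ]

lemma post_post {v w σ : Vec d} (h : v ≠ w) (hσ : nsq σ = 1) :
    post (post v w σ) (post' v w σ) (dirk v w) = v := by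
  unfold post
  have e : (1 / 2 : ℝ) • (v + w) + (len (v - w) / 2) • σ = post v w σ := rfl
  rw [e, post_add_post', len_post hσ]
  exact post_dirk v w

lemma post'_post {v w σ : Vec d} (h : v ≠ w) (hσ : nsq σ = 1) :
    post' (post v w σ) (post' v w σ) (dirk v w) = w := by
  have h1 := post_add_post' (post v w σ) (post' v w σ) (dirk v w)
  rw [post_post h hσ, post_add_post'] at h1
  exact add_left_cancel h1

lemma abs_cosTh_le {v w σ : Vec d} (hσ : nsq σ = 1) : |cosTh v w σ| ≤ 1 := by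
  by_cases h : v = w
  · unfold cosTh
    rw [h, sub_self, len_zero, div_zero, abs_zero]; norm_num
  · rw [cosTh_eq]
    exact dot_le_one (nsq_dirk h) hσ

/-- reflection of `σ` about the axis `k` -/
lemma cosTh_refl {v w σ : Vec d} (h : v ≠ w) : cosTh v w (refl (dirk v w) σ) = cosTh v w σ := by
  rw [cosTh_eq, cosTh_eq, dot_refl (nsq_dirk h)]

lemma kerB_refl (γ : ℝ) (b : ℝ → ℝ) (ε : ℝ) {v w σ : Vec d} (h : v ≠ w) :
    kerB γ b ε v w (refl (dirk v w) σ) = kerB γ b ε v w σ := by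
  unfold kerB
  rw [cosTh_refl h]

lemma nsq_sub_dirk {v w σ : Vec d} (h : v ≠ w) (hσ : nsq σ = 1) :
    nsq (σ - dirk v w) = 2 * (1 - cosTh v w σ) := by
  rw [nsq_sub, hσ, nsq_dirk h, cosTh_eq, dot_comm]; ring

lemma refl_sub_add {v w σ : Vec d} :
    (σ - dirk v w) + (refl (dirk v w) σ - dirk v w) = (-(2 * (1 - cosTh v w σ))) • dirk v w := by
  rw [refl_apply, cosTh_eq]
  ext i; simp; ring

end Pool.Agent.H25.Kin
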