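import Pool.Agent.H25.Kin.Sym

/-!
# `|∫ Q(g,g) φ| ≤ C ‖φ‖_{C²} (∫ g (1+|v|²))²` for the Landau operator
-/

set_option autoImplicit false

open MeasureTheory Set Filter Topology

namespace Pool.Agent.H25.Kin

variable {d : ℕ}

lemma norm_sq_le_sq (z : Vec d) : ‖z‖ ^ 2 ≤ nsq z := by
  have h : ‖z‖ ≤ Real.sqrt (nsq z) := by
    refine (pi_norm_le_iff_of_nonneg (Real.sqrt_nonneg _)).2 fun i => ?_
    rw [Real.norm_eq_abs]
    refine Real.abs_le_sqrt ?_
    exact Finset.single_le_sum (f := fun i => z i ^ 2) (fun i _ => sq_nonneg _) (Finset.mem_univ i)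
  calc ‖z‖ ^ 2 ≤ Real.sqrt (nsq z) ^ 2 := pow_le_pow_left₀ (norm_nonneg _) h 2
    _ = nsq z := Real.sq_sqrt (sq_nonneg' z)

lemma sq_pos_of_ne {z : Vec d} (hz : z ≠ 0) : 0 < nsq z :=
  lt_of_lt_of_le (pow_pos (norm_pos_iff.2 hz) 2) (norm_sq_le_sq z)

lemma norm_proj_le (i : Fin d) :
    ‖ContinuousLinearMap.proj (R := ℝ) (φ := fun _ : Fin d => ℝ) i‖ ≤ 1 := by
  refine ContinuousLinearMap.opNorm_le_bound _ zero_le_one fun w => ?_
  rw [one_mul]
  exact norm_le_pi_norm w i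

lemma norm_fderiv_sq_le (z : Vec d) : ‖fderiv ℝ (nsq : Vec d → ℝ) z‖ ≤ 2 * d * ‖z‖ := by
  rw [(hasFDerivAt_sq z).fderiv]
  refine (norm_sum_le _ _).trans ?_
  have : ∀ i ∈ (Finset.univ : Finset (Fin d)),
      ‖(2 * z i) • ContinuousLinearMap.proj (R := ℝ) (φ := fun _ : Fin d => ℝ) i‖ ≤
        2 * ‖z‖ := by
    intro i _
    rw [norm_smul, norm_mul, Real.norm_eq_abs 2, abs_two]
    have h3 := norm_proj_le i
    have h4 := norm_le_pi_norm z i
    calc 2 * ‖z i‖ * ‖ContinuousLinearMap.proj (R := ℝ) (φ := fun _ : Fin d => ℝ) i‖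
        ≤ 2 * ‖z‖ * 1 := by gcongr
      _ = 2 * ‖z‖ := by ring
  refine (Finset.sum_le_sum this).trans ?_
  simp only [Finset.sum_const, Finset.card_univ, Fintype.card_fin, nsmul_eq_mul]
  apply le_of_eq; ring

/-- the quadratic part of the Landau matrix -/
noncomputable def lb (z : Vec d) (i j : Fin d) : ℝ := (if i = j then nsq z else 0) - z i * z j

lemma lb_hasFDerivAt (z : Vec d) (i j : Fin d) : ∃ B : Vec d →L[ℝ] ℝ,
    HasFDerivAt (fun z => lb z i j) B z ∧ ‖B‖ ≤ (2 * d + 2) * ‖z‖ := by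
  have h1 : HasFDerivAt (fun z : Vec d => z i) (ContinuousLinearMap.proj (R := ℝ) i) z :=
    (ContinuousLinearMap.proj (R := ℝ) (φ := fun _ : Fin d => ℝ) i).hasFDerivAt
  have h2 : HasFDerivAt (fun z : Vec d => z j) (ContinuousLinearMap.proj (R := ℝ) j) z :=
    (ContinuousLinearMap.proj (R := ℝ) (φ := fun _ : Fin d => ℝ) j).hasFDerivAt
  have h3 := h1.mul h2
  have hn : ‖z i • ContinuousLinearMap.proj (R := ℝ) (φ := fun _ : Fin d => ℝ) j +
      z j • ContinuousLinearMap.proj (R := ℝ) (φ := fun _ : Fin d => ℝ) i‖ ≤ 2 * ‖z‖ := by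
    refine (norm_add_le _ _).trans ?_
    rw [norm_smul, norm_smul]
    have a1 := norm_proj_le i
    have a2 := norm_proj_le j
    have b1 := norm_le_pi_norm z i
    have b2 := norm_le_pi_norm z j
    calc ‖z i‖ * ‖ContinuousLinearMap.proj (R := ℝ) (φ := fun _ : Fin d => ℝ) j‖ +
        ‖z j‖ * ‖ContinuousLinearMap.proj (R := ℝ) (φ := fun _ : Fin d => ℝ) i‖
        ≤ ‖z‖ * 1 + ‖z‖ * 1 := by gcongr
      _ = 2 * ‖z‖ := by ring
  by_cases hij : i = j
  · refine ⟨fderiv ℝ (nsq : Vec d → ℝ) z - (z i • ContinuousLinearMap.proj (R := ℝ) (φ := fun _ : Fin d => ℝ) j +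
      z j • ContinuousLinearMap.proj (R := ℝ) (φ := fun _ : Fin d => ℝ) i), ?_, ?_⟩
    · have h0 : HasFDerivAt (nsq : Vec d → ℝ) (fderiv ℝ (nsq : Vec d → ℝ) z) z :=
        (hasFDerivAt_sq z).differentiableAt.hasFDerivAt
      have := h0.sub h3
      unfold lb
      simp only [hij, if_true] at this ⊢
      exact this
    · refine (norm_sub_le _ _).trans ?_
      have := norm_fderiv_sq_le z
      linarith
  · refine ⟨- (z i • ContinuousLinearMap.proj (R := ℝ) (φ := fun _ : Fin d => ℝ) j +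
      z j • ContinuousLinearMap.proj (R := ℝ) (φ := fun _ : Fin d => ℝ) i), ?_, ?_⟩
    · have := h3.neg
      unfold lb
      simp only [hij, if_false, zero_sub]
      exact this
    · rw [norm_neg]
      refine hn.trans ?_
      have := norm_nonneg z
      have hd : (0 : ℝ) ≤ d := Nat.cast_nonneg d
      nlinarith [mul_nonneg hd this]

lemma lb_le (z : Vec d) (i j : Fin d) : |lb z i j| ≤ 2 * nsq z := by
  unfold lb
  have h2 := coord_mul_le z i j
  have h3 : |(if i = j then nsq z else 0)| ≤ nsq z := by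
    split_ifs
    · rw [abs_of_nonneg (sq_nonneg' z)]
    · simpa using sq_nonneg' z
  calc |(if i = j then nsq z else 0) - z i * z j| ≤ |(if i = j then nsq z else 0)| + |z i * z j| :=
        abs_sub _ _
    _ ≤ 2 * nsq z := by linarith

/-- derivative of the Landau matrix away from the origin -/
lemma landauA_hasFDerivAt (γ : ℝ) {z : Vec d} (hz : z ≠ 0) (i j : Fin d) : ∃ B : Vec d →L[ℝ] ℝ,
    HasFDerivAt (fun z => landauA γ z i j) B z ∧
      ‖B‖ ≤ (2 * d * |γ| + 2 * d + 2) * (‖z‖ * nsq z ^ (γ / 2)) := by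
  obtain ⟨B, hB, hBn⟩ := lb_hasFDerivAt z i j
  have hp := sq_pos_of_ne hz
  have h0 : HasFDerivAt (nsq : Vec d → ℝ) (fderiv ℝ (nsq : Vec d → ℝ) z) z :=
    (hasFDerivAt_sq z).differentiableAt.hasFDerivAt
  have h1 := h0.rpow_const (p := γ / 2) (Or.inl hp.ne')
  refine ⟨_, hB.mul h1, ?_⟩
  have hn := norm_fderiv_sq_le z
  have hb := lb_le z i j
  have hr := Real.rpow_nonneg hp.le (γ / 2)
  have hr1 := Real.rpow_nonneg hp.le (γ / 2 - 1)
  have e1 : nsq z * nsq z ^ (γ / 2 - 1) = nsq z ^ (γ / 2) := by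
    rw [Real.rpow_sub_one hp.ne']
    field_simp
  refine (norm_add_le _ _).trans ?_
  rw [norm_smul, norm_smul, norm_smul, norm_mul, Real.norm_eq_abs (γ / 2), Real.norm_eq_abs (lb z i j),
    Real.norm_eq_abs (nsq z ^ (γ / 2 - 1)), Real.norm_eq_abs (nsq z ^ (γ / 2)), abs_of_nonneg hr,
    abs_of_nonneg hr1, abs_div, abs_two]
  have hz0 := norm_nonneg z
  have hsq := sq_nonneg' z
  calc |lb z i j| * (|γ| / 2 * nsq z ^ (γ / 2 - 1) * ‖fderiv ℝ (nsq : Vec d → ℝ) z‖) +
        nsq z ^ (γ / 2) * ‖B‖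
      ≤ (2 * nsq z) * (|γ| / 2 * nsq z ^ (γ / 2 - 1) * (2 * d * ‖z‖)) +
        nsq z ^ (γ / 2) * ((2 * d + 2) * ‖z‖) := by gcongr
    _ = (2 * d * |γ|) * ‖z‖ * (nsq z * nsq z ^ (γ / 2 - 1)) + (2 * d + 2) * (‖z‖ * nsq z ^ (γ / 2)) := by
        ring
    _ = (2 * d * |γ| + 2 * d + 2) * (‖z‖ * nsq z ^ (γ / 2)) := by rw [e1]; ring

/-- test functions with `C²` norm at most `M` -/
structure Test (φ : Vec d → ℝ) (M : ℝ) : Prop where
  smooth : ContDiff ℝ 2 φ
  le0 : ∀ v, |φ v| ≤ M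
  le1 : ∀ v, ‖fderiv ℝ φ v‖ ≤ M
  le2 : ∀ v, ‖fderiv ℝ (fderiv ℝ φ) v‖ ≤ M

lemma Test.nonneg {φ : Vec d → ℝ} {M : ℝ} (h : Test φ M) : 0 ≤ M := (abs_nonneg _).trans (h.le0 0)

lemma Test.diff1 {φ : Vec d → ℝ} {M : ℝ} (h : Test φ M) : Differentiable ℝ (fderiv ℝ φ) :=
  (h.smooth.fderiv_right (m := 1) (by norm_num)).differentiable (by norm_num)

lemma Test.pd_lip {φ : Vec d → ℝ} {M : ℝ} (h : Test φ M) (i : Fin d) (v w : Vec d) :
    |pd i φ v - pd i φ w| ≤ M * ‖v - w‖ := by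
  have h1 : ‖fderiv ℝ φ v - fderiv ℝ φ w‖ ≤ M * ‖v - w‖ :=
    Convex.norm_image_sub_le_of_norm_fderiv_le (s := univ) (fun x _ => h.diff1 x)
      (fun x _ => h.le2 x) convex_univ (mem_univ w) (mem_univ v)
  have h2 := (fderiv ℝ φ v - fderiv ℝ φ w).le_opNorm (Pi.single i 1)
  rw [norm_single_one, mul_one] at h2
  exact h2.trans h1

lemma Test.pd_hasFDerivAt {φ : Vec d → ℝ} {M : ℝ} (h : Test φ M) (i : Fin d) (v : Vec d) :
    HasFDerivAt (pd i φ) ((ContinuousLinearMap.apply ℝ ℝ (Pi.single i 1 : Vec d)).comp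
      (fderiv ℝ (fderiv ℝ φ) v)) v :=
  (ContinuousLinearMap.apply ℝ ℝ (Pi.single i 1 : Vec d)).hasFDerivAt.comp v
    (h.diff1 v).hasFDerivAt

lemma Test.pd_norm {φ : Vec d → ℝ} {M : ℝ} (h : Test φ M) (i : Fin d) (v : Vec d) :
    ‖(ContinuousLinearMap.apply ℝ ℝ (Pi.single i 1 : Vec d)).comp
      (fderiv ℝ (fderiv ℝ φ) v)‖ ≤ M := by
  refine le_trans ?_ (h.le2 v)
  refine ContinuousLinearMap.opNorm_le_bound _ (norm_nonneg (fderiv ℝ (fderiv ℝ φ) v)) fun w => ?_
  simp only [ContinuousLinearMap.comp_apply, ContinuousLinearMap.apply_apply]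
  have h1 := (fderiv ℝ (fderiv ℝ φ) v w).le_opNorm (Pi.single i 1)
  rw [norm_single_one, mul_one] at h1
  exact h1.trans ((fderiv ℝ (fderiv ℝ φ) v).le_opNorm w)

lemma tendsto_sq_rpow {γ : ℝ} (h1 : -2 < γ) (w : Vec d) :
    Tendsto (fun v : Vec d => nsq (v - w) * nsq (v - w) ^ (γ / 2)) (𝓝 w) (𝓝 0) := by
  have h2 : Continuous fun v : Vec d => nsq (v - w) ^ (1 + γ / 2) :=
    (continuous_sq.comp (continuous_id.sub continuous_const)).rpow_const
      fun v => Or.inr (by linarith)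
  have h3 := h2.tendsto w
  have e0 : nsq (w - w) ^ (1 + γ / 2) = 0 := by
    rw [sub_self]
    have : nsq (0 : Vec d) = 0 := by simp [nsq]
    rw [this, Real.zero_rpow (by linarith)]
  rw [e0] at h3
  refine h3.congr fun v => ?_
  rcases (sq_nonneg' (v - w)).eq_or_lt with h | h
  · rw [← h, Real.zero_rpow (by linarith), zero_mul]
  · rw [Real.rpow_add h, Real.rpow_one]

/-- the vector field of the weak form is differentiable, with a bound on the derivative -/
lemma field_hasFDerivAt {γ : ℝ} (h1 : -2 < γ) (h2 : γ ≤ 0) {φ : Vec d → ℝ} {M : ℝ}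
    (h : Test φ M) (i j : Fin d) (w v : Vec d) : ∃ B : Vec d →L[ℝ] ℝ,
    HasFDerivAt (fun v => landauA γ (v - w) i j * (pd i φ v - pd i φ w)) B v ∧
      ‖B‖ ≤ (2 * d * |γ| + 2 * d + 4) * M * (1 + nsq (v - w)) := by
  have hM := h.nonneg
  have hs := sq_nonneg' (v - w)
  have hd : (0 : ℝ) ≤ d := Nat.cast_nonneg d
  by_cases hv : v = w
  · subst hv
    refine ⟨0, ?_, by rw [norm_zero]; positivity⟩
    rw [hasFDerivAt_iff_isLittleO, Asymptotics.isLittleO_iff]
    intro c hc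
    have ht := tendsto_sq_rpow h1 v
    have h3 : ∀ᶠ x in 𝓝 v, nsq (x - v) * nsq (x - v) ^ (γ / 2) < c / (2 * M + 1) :=
      ht.eventually_lt_const (by positivity)
    filter_upwards [h3] with x hx
    simp only [sub_self, mul_zero, sub_zero, _root_.zero_apply, norm_mul]
    have h4 := landauA_le γ (x - v) i j
    have h5 := h.pd_lip i x v
    have h6 : 0 ≤ nsq (x - v) * nsq (x - v) ^ (γ / 2) :=
      mul_nonneg (sq_nonneg' _) (Real.rpow_nonneg (sq_nonneg' _) _)
    have h7 := norm_nonneg (x - v)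
    calc ‖landauA γ (x - v) i j‖ * ‖pd i φ x - pd i φ v‖
        ≤ (2 * (nsq (x - v) * nsq (x - v) ^ (γ / 2))) * (M * ‖x - v‖) :=
          mul_le_mul h4 h5 (norm_nonneg _) (by positivity)
      _ = (2 * M * (nsq (x - v) * nsq (x - v) ^ (γ / 2))) * ‖x - v‖ := by ring
      _ ≤ c * ‖x - v‖ := by
          refine mul_le_mul_of_nonneg_right ?_ h7
          have h8 : 2 * M * (nsq (x - v) * nsq (x - v) ^ (γ / 2)) ≤ (2 * M + 1) * (c / (2 * M + 1)) := by
            refine mul_le_mul (by linarith) hx.le h6 (by positivity)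
          rwa [mul_div_cancel₀ _ (by positivity)] at h8
  · have hz : v - w ≠ 0 := sub_ne_zero.2 hv
    obtain ⟨A, hA, hAn⟩ := landauA_hasFDerivAt γ hz i j
    have hA' : HasFDerivAt (fun v => landauA γ (v - w) i j) A v := by
      have h4 := hA.comp v ((hasFDerivAt_id v).sub_const w)
      simpa [Function.comp_def] using h4
    have hP := (h.pd_hasFDerivAt i v).sub_const (pd i φ w)
    refine ⟨_, hA'.mul hP, ?_⟩
    refine (norm_add_le _ _).trans ?_
    rw [norm_smul, norm_smul]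
    have h3 := h.pd_norm i v
    have h4 := landauA_le γ (v - w) i j
    have h5 := h.pd_lip i v w
    have h6 := sq_rpow_le h1 h2 (v - w)
    have h7 := norm_sq_le_sq (v - w)
    have h8 := Real.rpow_nonneg hs (γ / 2)
    have h9 := norm_nonneg (v - w)
    have h10 := abs_nonneg γ
    calc ‖landauA γ (v - w) i j‖ * ‖(ContinuousLinearMap.apply ℝ ℝ (Pi.single i 1 : Vec d)).comp
          (fderiv ℝ (fderiv ℝ φ) v)‖ + ‖pd i φ v - pd i φ w‖ * ‖A‖
        ≤ (2 * (nsq (v - w) * nsq (v - w) ^ (γ / 2))) * M + (M * ‖v - w‖) *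
          ((2 * d * |γ| + 2 * d + 2) * (‖v - w‖ * nsq (v - w) ^ (γ / 2))) := by
          refine add_le_add (mul_le_mul h4 h3 (norm_nonneg _) (by positivity))
            (mul_le_mul h5 hAn (norm_nonneg _) (by positivity))
      _ = M * (2 * (nsq (v - w) * nsq (v - w) ^ (γ / 2)) + (2 * d * |γ| + 2 * d + 2) *
          (‖v - w‖ ^ 2 * nsq (v - w) ^ (γ / 2))) := by ring
      _ ≤ M * (2 * (nsq (v - w) * nsq (v - w) ^ (γ / 2)) + (2 * d * |γ| + 2 * d + 2) *
          (nsq (v - w) * nsq (v - w) ^ (γ / 2))) := by gcongr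
      _ = (2 * d * |γ| + 2 * d + 4) * M * (nsq (v - w) * nsq (v - w) ^ (γ / 2)) := by ring
      _ ≤ (2 * d * |γ| + 2 * d + 4) * M * (1 + nsq (v - w)) := by gcongr

lemma one_add_sq_sub_le (v w : Vec d) : 1 + nsq (v - w) ≤ 2 * ((1 + nsq v) * (1 + nsq w)) := by
  have h1 : nsq (v - w) ≤ 2 * nsq v + 2 * nsq w := by
    unfold nsq
    rw [Finset.mul_sum, Finset.mul_sum, ← Finset.sum_add_distrib]
    refine Finset.sum_le_sum fun i _ => ?_
    rw [Pi.sub_apply]
    nlinarith [sq_nonneg (v i + w i)]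
  nlinarith [sq_nonneg' v, sq_nonneg' w, mul_nonneg (sq_nonneg' v) (sq_nonneg' w)]

/-- **bound of the weak form** -/
theorem weak_bound {γ : ℝ} (h1 : -2 < γ) (h2 : γ ≤ 0) {g : Vec d → ℝ} (hg : Nice g)
    (hg0 : ∀ v, 0 ≤ g v) {φ : Vec d → ℝ} {M : ℝ} (h : Test φ M) :
    |∫ v, landauQ γ g v * φ v| ≤
      2 * d ^ 2 * (2 * d * |γ| + 2 * d + 4) * M * (∫ v, g v * (1 + nsq v)) ^ 2 := by
  have hM := h.nonneg
  have hd : (0 : ℝ) ≤ d := Nat.cast_nonneg d
  set C : ℝ := (2 * d * |γ| + 2 * d + 4) with hC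
  have hC0 : 0 ≤ C := by positivity
  rw [weak_form h1 h2 hg (h.smooth.differentiable (by norm_num)) ⟨0, M, fun v => by simpa using h.le0 v⟩
    ⟨0, M, fun v => by simpa using h.le1 v⟩, abs_neg]
  have hPm : ∀ i, PG (pd i φ) := fun i => ⟨0, M, fun v => by simpa using (pd_le i φ v).trans (h.le1 v)⟩
  have hPmm : ∀ i, Measurable (pd i φ) := fun i => measurable_fderiv_apply_const ℝ φ _
  set W := ∫ v, g v * (1 + nsq v) with hW
  have hgs : RD (fun v => g v * (1 + nsq v)) := hg.rd.mul_PG ((PG.const (1 : ℝ)).add PG.nsq)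
  have mgs : Measurable (fun v => g v * (1 + nsq v)) :=
    hg.cont.measurable.mul (measurable_const.add continuous_sq.measurable)
  have igs : Integrable (fun v => g v * (1 + nsq v)) := hgs.integrable mgs.aestronglyMeasurable
  have hgs0 : ∀ v, 0 ≤ g v * (1 + nsq v) := fun v => mul_nonneg (hg0 v) (by linarith [sq_nonneg' v])
  -- each term
  have key : ∀ i j, |∫ p : Vec d × Vec d,
      landauA γ (p.1 - p.2) i j * (pd i φ p.1 - pd i φ p.2) * (pd j g p.1 * g p.2)
        ∂(volume.prod volume)| ≤ 2 * C * M * W ^ 2 := by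
    intro i j
    rw [integral_prod_symm _ (integrable_flux_kernel h1 h2 hg i j (hPm i) (hPmm i))]
    -- inner integral
    have inner : ∀ w : Vec d, |∫ v, landauA γ (v - w) i j * (pd i φ v - pd i φ w) *
        (pd j g v * g w)| ≤ (2 * C * M * W) * (g w * (1 + nsq w)) := by
      intro w
      set H : Vec d → ℝ := fun v => landauA γ (v - w) i j * (pd i φ v - pd i φ w) with hH
      have hHd : ∀ v, ∃ B : Vec d →L[ℝ] ℝ, HasFDerivAt H B v ∧ ‖B‖ ≤ C * M * (1 + nsq (v - w)) :=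
        fun v => field_hasFDerivAt h1 h2 h i j w v
      have hHdiff : Differentiable ℝ H := fun v => by
        obtain ⟨B, hB, _⟩ := hHd v; exact hB.differentiableAt
      have hHf : ∀ v, ‖fderiv ℝ H v‖ ≤ C * M * (1 + nsq (v - w)) := fun v => by
        obtain ⟨B, hB, hBn⟩ := hHd v
        rwa [hB.fderiv]
      have hsqPG : PG (fun v : Vec d => C * M * (1 + nsq (v - w))) := by
        refine ⟨2, C * M * (2 * ((d + 1) * (1 + nsq w))), fun v => ?_⟩
        have a1 := one_add_sq_sub_le v w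
        have a2 := one_add_sq_le v
        have a3 := sq_nonneg' w
        have a4 := sq_nonneg' (v - w)
        rw [Real.norm_eq_abs, abs_of_nonneg (by positivity)]
        calc C * M * (1 + nsq (v - w)) ≤ C * M * (2 * ((1 + nsq v) * (1 + nsq w))) := by gcongr
          _ ≤ C * M * (2 * (((d + 1) * (1 + ‖v‖) ^ 2) * (1 + nsq w))) := by gcongr
          _ = C * M * (2 * ((d + 1) * (1 + nsq w))) * (1 + ‖v‖) ^ 2 := by ring
      have hH1 : PG (fderiv ℝ H) := by
        obtain ⟨N, D, hD⟩ := hsqPG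
        refine ⟨N, D, fun v => (hHf v).trans ?_⟩
        have := hD v
        rw [Real.norm_eq_abs] at this
        exact (le_abs_self _).trans this
      have hH0 : PG H := by
        refine ⟨2, 2 * (d + 1) * (1 + ‖w‖) ^ 2 * (2 * M), fun v => ?_⟩
        rw [hH]
        simp only [norm_mul]
        have a1 := landauA_PG h1 h2 (v - w) i j
        have a2 := w_sub_le v w
        have a3 : (1 + ‖v - w‖) ^ 2 ≤ (1 + ‖v‖) ^ 2 * (1 + ‖w‖) ^ 2 := by
          rw [← mul_pow]; exact pow_le_pow_left₀ (w_pos _).le a2 2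
        have a4 : |pd i φ v - pd i φ w| ≤ 2 * M := by
          have b1 := (pd_le i φ v).trans (h.le1 v)
          have b2 := (pd_le i φ w).trans (h.le1 w)
          exact (abs_sub _ _).trans (by linarith)
        have hw := w_pos w
        have hv := w_pos v
        calc ‖landauA γ (v - w) i j‖ * ‖pd i φ v - pd i φ w‖
            ≤ (2 * (d + 1) * ((1 + ‖v‖) ^ 2 * (1 + ‖w‖) ^ 2)) * (2 * M) := by
              refine mul_le_mul (a1.trans ?_) a4 (norm_nonneg _) (by positivity)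
              gcongr
          _ = 2 * (d + 1) * (1 + ‖w‖) ^ 2 * (2 * M) * (1 + ‖v‖) ^ 2 := by ring
      have e1 : ∫ v, landauA γ (v - w) i j * (pd i φ v - pd i φ w) * (pd j g v * g w) =
          g w * ∫ v, pd j g v * H v := by
        rw [← integral_const_mul]
        refine integral_congr_ae (Eventually.of_forall fun v => ?_)
        simp only [hH]; ring
      rw [e1, ibp hg.diff hg.rd hg.rd1 hHdiff hH0 hH1 j, mul_neg, abs_neg, abs_mul,
        abs_of_nonneg (hg0 w)]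
      have e2 : |∫ v, g v * pd j H v| ≤ ∫ v, (2 * C * M * (1 + nsq w)) * (g v * (1 + nsq v)) := by
        rw [← Real.norm_eq_abs]
        refine norm_integral_le_of_norm_le (igs.const_mul _) (Eventually.of_forall fun v => ?_)
        rw [norm_mul, Real.norm_eq_abs, abs_of_nonneg (hg0 v)]
        have a1 := (pd_le j H v).trans (hHf v)
        have a2 := one_add_sq_sub_le v w
        calc g v * ‖pd j H v‖ ≤ g v * (C * M * (1 + nsq (v - w))) :=
              mul_le_mul_of_nonneg_left a1 (hg0 v)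
          _ ≤ g v * (C * M * (2 * ((1 + nsq v) * (1 + nsq w)))) := by
              have := hg0 v
              gcongr
          _ = (2 * C * M * (1 + nsq w)) * (g v * (1 + nsq v)) := by ring
      rw [integral_const_mul] at e2
      calc g w * |∫ v, g v * pd j H v| ≤ g w * ((2 * C * M * (1 + nsq w)) * W) :=
            mul_le_mul_of_nonneg_left e2 (hg0 w)
        _ = (2 * C * M * W) * (g w * (1 + nsq w)) := by ring
    rw [← Real.norm_eq_abs]
    refine (norm_integral_le_of_norm_le (igs.const_mul (2 * C * M * W))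
      (Eventually.of_forall fun w => ?_)).trans ?_
    · rw [Real.norm_eq_abs]; exact inner w
    · rw [integral_const_mul, ← hW]
      apply le_of_eq; ring
  calc |∑ i, ∑ j, ∫ p : Vec d × Vec d,
      landauA γ (p.1 - p.2) i j * (pd i φ p.1 - pd i φ p.2) * (pd j g p.1 * g p.2)
        ∂(volume.prod volume)| ≤ ∑ _i : Fin d, ∑ _j : Fin d, 2 * C * M * W ^ 2 := by
        refine (Finset.abs_sum_le_sum_abs _ _).trans (Finset.sum_le_sum fun i _ => ?_)
        exact (Finset.abs_sum_le_sum_abs _ _).trans (Finset.sum_le_sum fun j _ => key i j)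
    _ = 2 * d ^ 2 * C * M * W ^ 2 := by
        simp only [Finset.sum_const, Finset.card_univ, Fintype.card_fin, nsmul_eq_mul]
        ring

end Pool.Agent.H25.Kin
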