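import Pool.Agent.H25.Kin.Sph
import Pool.Agent.H25.Kin.Bound

/-!
# Orthogonal invariance of the surface measure; measure of spherical caps
-/

set_option autoImplicit false

open MeasureTheory Set Filter Topology
open scoped ENNReal

namespace Pool.Agent.H25.Kin

variable {d : ℕ}

lemma dot_self (v : Vec d) : dot v v = nsq v := by
  unfold dot nsq; exact Finset.sum_congr rfl fun i _ => by ring

lemma dot_comm (v w : Vec d) : dot v w = dot w v := by
  unfold dot; exact Finset.sum_congr rfl fun i _ => mul_comm _ _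

lemma dot_add (u v w : Vec d) : dot u (v + w) = dot u v + dot u w := by
  unfold dot; rw [← Finset.sum_add_distrib]; exact Finset.sum_congr rfl fun i _ => by simp; ring

lemma dot_sub (u v w : Vec d) : dot u (v - w) = dot u v - dot u w := by
  unfold dot; rw [← Finset.sum_sub_distrib]; exact Finset.sum_congr rfl fun i _ => by simp; ring

lemma dot_smul (a : ℝ) (u v : Vec d) : dot u (a • v) = a * dot u v := by
  unfold dot; rw [Finset.mul_sum]; exact Finset.sum_congr rfl fun i _ => by simp; ring

lemma dot_neg (u v : Vec d) : dot u (-v) = -dot u v := by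
  unfold dot; rw [← Finset.sum_neg_distrib]; exact Finset.sum_congr rfl fun i _ => by simp

lemma smul_dot (a : ℝ) (u v : Vec d) : dot (a • u) v = a * dot u v := by
  rw [dot_comm, dot_smul, dot_comm]

lemma neg_dot (u v : Vec d) : dot (-u) v = -dot u v := by rw [dot_comm, dot_neg, dot_comm]

lemma nsq_add (u v : Vec d) : nsq (u + v) = nsq u + 2 * dot u v + nsq v := by
  unfold nsq dot
  rw [Finset.mul_sum, ← Finset.sum_add_distrib, ← Finset.sum_add_distrib]
  exact Finset.sum_congr rfl fun i _ => by simp; ring

lemma nsq_sub (u v : Vec d) : nsq (u - v) = nsq u - 2 * dot u v + nsq v := by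
  rw [sub_eq_add_neg, nsq_add, dot_neg, sq_neg]; ring

lemma dot_cont (k : Vec d) : Continuous fun z : Vec d => dot k z := by unfold dot; fun_prop

/-- Cauchy-Schwarz -/
lemma dot_sq_le (u v : Vec d) : dot u v ^ 2 ≤ nsq u * nsq v := by
  unfold dot nsq
  exact Finset.sum_mul_sq_le_sq_mul_sq _ _ _

lemma dot_le_one {u v : Vec d} (hu : nsq u = 1) (hv : nsq v = 1) : |dot u v| ≤ 1 := by
  have := dot_sq_le u v
  rw [hu, hv, one_mul] at this
  exact (sq_le_one_iff_abs_le_one _).1 this

/-- linear isometries preserve the surface measure -/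
theorem surf_preserving (hd : 1 ≤ d) {A : Vec d →ₗ[ℝ] Vec d} (hA : ∀ z, nsq (A z) = nsq z)
    (hdet : |LinearMap.det A| = 1) : MeasurePreserving A (surf d) (surf d) := by
  have hAm : Measurable A := A.continuous_of_finiteDimensional.measurable
  have hdet0 : LinearMap.det A ≠ 0 := fun h => by rw [h, abs_zero] at hdet; exact zero_ne_one hdet
  have hAv : MeasurePreserving A (volume : Measure (Vec d)) volume := by
    refine ⟨hAm, ?_⟩
    rw [Measure.map_linearMap_addHaar_eq_smul_addHaar _ hdet0, abs_inv, hdet, inv_one,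
      ENNReal.ofReal_one, one_smul]
  refine ⟨hAm, Measure.ext_of_lintegral _ fun F hF => ?_⟩
  rw [lintegral_map hF hAm]
  have hFA : Measurable fun z : Vec d => F (A z) := hF.comp hAm
  rw [surf_formula hd hFA, surf_formula hd hF]
  congr 1
  have hbm : MeasurableSet {z : Vec d | nsq z < 1} :=
    (isOpen_lt continuous_sq continuous_const).measurableSet
  have hum : Measurable fun z : Vec d => (len z)⁻¹ • z :=
    (continuous_len.measurable.inv).smul measurable_id
  have hFu : Measurable fun z : Vec d => F ((len z)⁻¹ • z) := hF.comp hum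
  rw [← lintegral_indicator hbm, ← lintegral_indicator hbm,
    ← hAv.lintegral_comp (hFu.indicator hbm)]
  refine lintegral_congr fun z => ?_
  have hl : len (A z) = len z := by unfold len; rw [hA]
  by_cases h : nsq z < 1
  · rw [indicator_of_mem (by exact h), indicator_of_mem (by simpa [hA] using h), hl, map_smul]
  · rw [indicator_of_notMem (by exact h), indicator_of_notMem (by simpa [hA] using h)]

/-- reflection about the axis `k` -/
noncomputable def refl (k : Vec d) : Vec d →ₗ[ℝ] Vec d where
  toFun z := (2 * dot k z) • k - z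
  map_add' x y := by rw [dot_add, mul_add, add_smul]; abel
  map_smul' a x := by
    simp only [RingHom.id_apply]
    rw [dot_smul, smul_sub, smul_smul]
    congr 2; ring

lemma refl_apply (k z : Vec d) : refl k z = (2 * dot k z) • k - z := rfl

lemma dot_refl {k : Vec d} (hk : nsq k = 1) (z : Vec d) : dot k (refl k z) = dot k z := by
  rw [refl_apply, dot_sub, dot_smul, dot_self, hk]; ring

lemma nsq_refl {k : Vec d} (hk : nsq k = 1) (z : Vec d) : nsq (refl k z) = nsq z := by
  rw [refl_apply, nsq_sub, nsq_smul, smul_dot, hk]; ring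

lemma refl_refl {k : Vec d} (hk : nsq k = 1) (z : Vec d) : refl k (refl k z) = z := by
  rw [refl_apply, dot_refl hk, refl_apply]; abel

lemma refl_preserving (hd : 1 ≤ d) {k : Vec d} (hk : nsq k = 1) :
    MeasurePreserving (refl k) (surf d) (surf d) := by
  refine surf_preserving hd (nsq_refl hk) ?_
  have h1 : (refl k) ∘ₗ (refl k) = LinearMap.id := LinearMap.ext fun z => refl_refl hk z
  have h2 : LinearMap.det (refl k) * LinearMap.det (refl k) = 1 := by
    rw [← LinearMap.det_comp, h1, LinearMap.det_id]
  have h3 : |LinearMap.det (refl k)| ^ 2 = 1 := by rw [sq_abs, pow_two, h2]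
  nlinarith [abs_nonneg (LinearMap.det (refl k))]

lemma neg_preserving (hd : 1 ≤ d) :
    MeasurePreserving (fun σ : Vec d => -σ) (surf d) (surf d) := by
  have h := surf_preserving hd (A := -LinearMap.id) (fun z => by simp [sq_neg]) (by
    have h1 : (-LinearMap.id : Vec d →ₗ[ℝ] Vec d) ∘ₗ (-LinearMap.id) = LinearMap.id :=
      LinearMap.ext fun z => by simp
    have h2 : LinearMap.det (-LinearMap.id : Vec d →ₗ[ℝ] Vec d) *
        LinearMap.det (-LinearMap.id : Vec d →ₗ[ℝ] Vec d) = 1 := by
      rw [← LinearMap.det_comp, h1, LinearMap.det_id]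
    have h3 : |LinearMap.det (-LinearMap.id : Vec d →ₗ[ℝ] Vec d)| ^ 2 = 1 := by
      rw [sq_abs, pow_two, h2]
    nlinarith [abs_nonneg (LinearMap.det (-LinearMap.id : Vec d →ₗ[ℝ] Vec d))])
  exact h

/-- anisotropic dilation: `1` along `k`, `a` orthogonally -/
noncomputable def dil (k : Vec d) (a : ℝ) : Vec d →ₗ[ℝ] Vec d :=
  Matrix.toLin' (a • (1 : Matrix (Fin d) (Fin d) ℝ) + (1 - a) • Matrix.vecMulVec k k)

lemma dil_apply (k : Vec d) (a : ℝ) (z : Vec d) : dil k a z = a • z + ((1 - a) * dot k z) • k := by
  unfold dil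
  rw [Matrix.toLin'_apply, Matrix.add_mulVec, Matrix.smul_mulVec, Matrix.smul_mulVec,
    Matrix.one_mulVec, Matrix.vecMulVec_mulVec]
  congr 1
  ext i
  simp only [Pi.smul_apply, smul_eq_mul, dot, dotProduct, MulOpposite.smul_eq_mul_unop,
    MulOpposite.unop_op]
  ring

lemma det_dil (hd : 1 ≤ d) {k : Vec d} (hk : nsq k = 1) {a : ℝ} (ha : 0 < a) :
    LinearMap.det (dil k a) = a ^ (d - 1) := by
  unfold dil
  rw [LinearMap.det_toLin']
  have e : a • (1 : Matrix (Fin d) (Fin d) ℝ) + (1 - a) • Matrix.vecMulVec k k =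
      a • (1 + Matrix.replicateCol Unit (((1 - a) / a) • k) * Matrix.replicateRow Unit k) := by
    rw [smul_add]
    congr 1
    ext i j
    simp only [Matrix.smul_apply, Matrix.vecMulVec_apply, smul_eq_mul, Matrix.mul_apply,
      Matrix.replicateCol_apply, Matrix.replicateRow_apply, Finset.univ_unique,
      Finset.sum_singleton, Pi.smul_apply]
    field_simp
  rw [e, Matrix.det_smul, Matrix.det_one_add_replicateCol_mul_replicateRow, Fintype.card_fin]
  have h1 : k ⬝ᵥ (((1 - a) / a) • k) = (1 - a) / a := by
    rw [dotProduct_smul, smul_eq_mul]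
    have : k ⬝ᵥ k = 1 := by
      have := dot_self k
      rw [hk] at this
      exact this
    rw [this, mul_one]
  rw [h1]
  have : a ^ d = a ^ (d - 1) * a := by rw [← pow_succ]; congr 1; omega
  rw [this]
  field_simp
  ring

end Pool.Agent.H25.Kin
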