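import Pool.Agent.H25.Kin.BDefs

/-!
# Classical solutions of the Landau and non-cutoff Boltzmann equations
-/

set_option autoImplicit false

open Set

namespace Pool.Agent.H25.Kin

variable {d : ℕ}

/-- `f` is a classical solution on `[0,T)` of the inhomogeneous Landau equation with some exponent
`γ ∈ (-2, 0]`, or of the inhomogeneous non-cutoff Boltzmann equation with some `s ∈ (0,1)`, some `γ`
with `γ + 2s ∈ [0,2]` and some angular kernel `b`. -/
def IsKineticSol (T : ℝ) (f : ℝ → Vec d → Vec d → ℝ) : Prop :=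
  (∃ γ : ℝ, -2 < γ ∧ γ ≤ 0 ∧ IsLandauSol γ T f) ∨
    ∃ (s γ : ℝ) (b : ℝ → ℝ), s ∈ Ioo (0 : ℝ) 1 ∧ γ + 2 * s ∈ Icc (0 : ℝ) 2 ∧ IsKernel d s b ∧
      IsBoltzmannSol γ b T f

end Pool.Agent.H25.Kin
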