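import Pool.Agent.H25.Kin.Macro2
import Pool.Agent.H25.Kin.KSol
import Pool.Agent.H25.Kin.BMain

/-!
# Amplification of the hydrodynamic quantities at a prescribed time
-/

set_option autoImplicit false

open MeasureTheory Set Filter Topology

namespace Pool.Agent.H25.Kin

variable {d : ℕ}

/-- classical solutions have the collision invariants -/
lemma IsKineticSol.inv (hd : 2 ≤ d) {T : ℝ} {f : ℝ → Vec d → Vec d → ℝ} (hf : IsKineticSol T f) :
    ∃ Q, IsClassicalSol T Q f ∧ HasInvariants T Q := by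
  rcases hf with ⟨γ, h1, h2, h⟩ | ⟨s, γ, b, hs, hγ, hb, h⟩
  · refine ⟨_, h, fun t ht x => ?_⟩
    have hn := IsClassicalSol.nice h ht x
    exact ⟨landauQ_mass h1 h2 hn, landauQ_momentum h1 h2 hn, landauQ_energy h1 h2 hn⟩
  · obtain ⟨C, Ca, H⟩ := exists_hyp hd hs.1 hs.2 hγ.1 hγ.2 hb
    exact ⟨_, h, boltz_HasInvariants H h⟩

lemma zg_nonneg : 0 ≤ zg d := integral_nonneg fun _ => (Real.exp_pos _).le

/-- **Amplification theorem**, for all conservative collision terms -/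
theorem amplify (hd : 1 ≤ d) : ∃ C > 0, ∀ t > 0, ∃ H₁, ∀ H ≥ H₁, ∃ f₀ : Vec d → Vec d → ℝ,
    (∀ μ > 0, IsAdmissible μ f₀) ∧ (∀ x, HydroBounds 1 1 (d / (2 * t ^ 2)) H (f₀ x)) ∧
    ∀ T > t, ∀ Q f, IsClassicalSol T Q f → HasInvariants T Q → f 0 = f₀ →
      (∀ R ∈ Ioc (0 : ℝ) (1 / 4), 1 - C * t ^ 2 * Real.exp (-2 * H / d) / R ^ 2 ≤
        ∫ x in Metric.closedBall (fun _ => 1 / 2 : Vec d) R, ∫ v, f t x v) ∧
      (∃ x, Real.exp H / (C * t ^ d) ≤ ∫ v, f t x v) ∧
      (∃ x, ∫ v, f t x v ≤ C * t ^ 2 * Real.exp (-2 * H / d)) ∧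
      ∃ x, H * Real.exp H / (C * t ^ d) ≤ ∫ v, f t x v * Real.log (f t x v) := by
  have hd0 : (0 : ℝ) < d := by exact_mod_cast hd
  have hd1 : (1 : ℝ) ≤ d := by exact_mod_cast hd
  set C : ℝ := 160 * d * Real.exp (2 * hb d / d) + 2 * (10 * d) ^ d * Real.exp (hb d) with hC
  have hC1 : 0 < 160 * d * Real.exp (2 * hb d / d) := by positivity
  have hC2 : 0 < 2 * (10 * (d : ℝ)) ^ d * Real.exp (hb d) := by positivity
  have hC0 : 0 < C := by positivity
  refine ⟨C, hC0, fun t ht => ?_⟩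
  set E : ℝ := d / (2 * t ^ 2) with hE
  refine ⟨max (hb d + d * Real.log (20 * d * t))
    (max 0 (4 * (E + zg d) + 3 * (d * Real.log (10 * d * t) + hb d))), fun H hH => ?_⟩
  have hH1 : hb d + d * Real.log (20 * d * t) ≤ H := (le_max_left _ _).trans hH
  have hH2 : 0 ≤ H := ((le_max_left _ _).trans (le_max_right _ _)).trans hH
  have hH3 : 4 * (E + zg d) + 3 * (d * Real.log (10 * d * t) + hb d) ≤ H :=
    ((le_max_right _ _).trans (le_max_right _ _)).trans hH
  set δ : ℝ := Real.exp ((hb d - H) / d) with hδ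
  have hδ0 : 0 < δ := Real.exp_pos _
  set l : ℝ := δ * t with hl
  have hl0 : 0 < l := mul_pos hδ0 ht
  have hl1 : l ≤ 1 / (20 * d) := by
    rw [hl, ← Real.exp_log ht, hδ, ← Real.exp_add]
    have e1 : 1 / (20 * (d : ℝ)) = Real.exp (-Real.log (20 * d)) := by
      rw [Real.exp_neg, Real.exp_log (by positivity), one_div]
    rw [e1]
    refine Real.exp_le_exp.2 ?_
    have h1 : Real.log (20 * d * t) = Real.log (20 * d) + Real.log t :=
      Real.log_mul (by positivity) ht.ne'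
    rw [h1] at hH1
    have h2 : (hb d - H) / d ≤ -(Real.log (20 * d) + Real.log t) := by
      rw [div_le_iff₀ hd0]
      linarith
    linarith
  have hl2 : l ≤ 1 / 20 := by
    refine hl1.trans ?_
    rw [div_le_div_iff₀ (by positivity) (by norm_num)]
    linarith
  have hlsq : l ^ 2 = t ^ 2 * Real.exp (2 * hb d / d) * Real.exp (-2 * H / d) := by
    rw [hl, mul_pow, hδ, ← Real.exp_nat_mul, mul_assoc, ← Real.exp_add]
    have : ((2 : ℕ) : ℝ) * ((hb d - H) / d) = 2 * hb d / d + -2 * H / d := by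
      push_cast; ring
    rw [this]; ring
  have hldp : (10 * d * l) ^ d = (10 * d) ^ d * (t ^ d * (Real.exp (hb d) * Real.exp (-H))) := by
    rw [hl, mul_pow, mul_pow δ, hδ, ← Real.exp_nat_mul, ← Real.exp_add]
    have : (d : ℝ) * ((hb d - H) / d) = hb d + -H := by
      field_simp
      ring
    rw [this]; ring
  -- the parameters
  have hη1 : 2 * l ^ 2 ≤ 1 / 8 := by nlinarith
  have hδt : δ ^ 2 * t ^ 2 = l ^ 2 := by rw [hl]; ring
  have hfE : ∀ x : Vec d, ∫ v, nsq v * fd (2 * l ^ 2) t δ x v ≤ E := by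
    intro x
    rw [fd_energy _ t hδ0 x]
    have h1 := sq_le (uf (2 * l ^ 2) t x)
    have h2 := uf_norm_le (η := 2 * l ^ 2) ht x
    have h3 := sg_le (d := d)
    have h4 : ‖uf (2 * l ^ 2) t x‖ ^ 2 ≤ (1 / (2 * t)) ^ 2 :=
      pow_le_pow_left₀ (norm_nonneg _) h2 2
    have h5 : (4 * δ) ^ 2 ≤ (1 / t) ^ 2 := by
      refine pow_le_pow_left₀ (by positivity) ?_ 2
      rw [le_div_iff₀ ht]
      have : 4 * δ * t = 4 * l := by rw [hl]; ring
      rw [this]; linarith
    have h6 : (1 / (2 * t)) ^ 2 = 1 / 4 * (1 / t) ^ 2 := by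
      field_simp; norm_num
    have h7 : E = d * (1 / 2 * (1 / t) ^ 2) := by rw [hE]; field_simp
    rw [h6] at h4
    rw [h7]
    have h8 : δ ^ 2 * sg d ≤ δ ^ 2 * (4 * d) := by gcongr
    have h9 : (d : ℝ) * ‖uf (2 * l ^ 2) t x‖ ^ 2 ≤ d * (1 / 4 * (1 / t) ^ 2) := by gcongr
    have h10 : δ ^ 2 * (4 * d) ≤ d * (1 / 4 * (1 / t) ^ 2) := by
      have : δ ^ 2 * 4 ≤ 1 / 4 * (1 / t) ^ 2 := by linarith
      nlinarith
    linarith
  refine ⟨fd (2 * l ^ 2) t δ, fun μ hμ => fd_admissible ht hδ0 hμ, fun x => ⟨?_, ?_, ?_, ?_⟩, ?_⟩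
  · rw [fd_mass _ t hδ0]
  · rw [fd_mass _ t hδ0]
  · refine le_trans (le_of_eq ?_) (hfE x)
    refine integral_congr_ae (Eventually.of_forall fun v => ?_)
    exact mul_comm _ _
  · rw [fd_entropy _ t hδ0, hδ, Real.log_exp]
    apply le_of_eq
    field_simp
    ring
  intro T hT Q f hf hQ hf0
  have hall := macro_all (A := 5 * d * l ^ 2) (E := E) hd hf hQ ht hT hδ0 hf0 (by positivity) hη1
    (by
      have : 4 * (d : ℝ) * δ ^ 2 * t ^ 2 = 4 * d * l ^ 2 := by rw [← hδt]; ring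
      rw [this]
      apply le_of_eq; ring) hfE
  obtain ⟨c1, c2, c3⟩ := hall
  have hR : 5 * d * l ∈ Ioc (0 : ℝ) (1 / 4) := by
    refine ⟨by positivity, ?_⟩
    have := mul_le_mul_of_nonneg_left hl1 (by positivity : (0 : ℝ) ≤ 5 * d)
    refine this.trans (le_of_eq ?_)
    field_simp; norm_num
  have hAR : 5 * d * l ^ 2 / (5 * d * l) ^ 2 ≤ 1 / 4 := by
    have : 5 * d * l ^ 2 / (5 * d * l) ^ 2 = 1 / (5 * d) := by field_simp
    rw [this, div_le_div_iff₀ (by positivity) (by norm_num)]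
    linarith
  obtain ⟨c4, c5⟩ := c3 _ hR hAR
  have h2R : 2 * (5 * d * l) = 10 * d * l := by ring
  rw [h2R, hldp] at c4 c5
  have hA : 5 * d * l ^ 2 ≤ C * t ^ 2 * Real.exp (-2 * H / d) := by
    rw [hlsq]
    have e1 : 5 * (d : ℝ) * (t ^ 2 * Real.exp (2 * hb d / d) * Real.exp (-2 * H / d)) =
        (5 * d * Real.exp (2 * hb d / d)) * (t ^ 2 * Real.exp (-2 * H / d)) := by ring
    have e2 : C * t ^ 2 * Real.exp (-2 * H / d) = C * (t ^ 2 * Real.exp (-2 * H / d)) := by ring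
    rw [e1, e2]
    refine mul_le_mul_of_nonneg_right ?_ (by positivity)
    have : 0 < (d : ℝ) * Real.exp (2 * hb d / d) := by positivity
    nlinarith
  have hA32 : 32 * (5 * d * l ^ 2) ≤ C * t ^ 2 * Real.exp (-2 * H / d) := by
    rw [hlsq]
    have e1 : 32 * (5 * (d : ℝ) * (t ^ 2 * Real.exp (2 * hb d / d) * Real.exp (-2 * H / d))) =
        (160 * d * Real.exp (2 * hb d / d)) * (t ^ 2 * Real.exp (-2 * H / d)) := by ring
    have e2 : C * t ^ 2 * Real.exp (-2 * H / d) = C * (t ^ 2 * Real.exp (-2 * H / d)) := by ring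
    rw [e1, e2]
    refine mul_le_mul_of_nonneg_right ?_ (by positivity)
    linarith
  have hexp : Real.exp (-H) = (Real.exp H)⁻¹ := Real.exp_neg H
  have htd : 0 < t ^ d := by positivity
  have heH := Real.exp_pos H
  have hP : 0 < (10 * (d : ℝ)) ^ d * (t ^ d * (Real.exp (hb d) * Real.exp (-H))) := by positivity
  refine ⟨fun R hRR => ?_, ?_, ?_, ?_⟩
  · refine le_trans ?_ (c1 R hRR)
    have : 5 * d * l ^ 2 / R ^ 2 ≤ C * t ^ 2 * Real.exp (-2 * H / d) / R ^ 2 := by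
      gcongr
    linarith
  · obtain ⟨x, hx⟩ := c4
    refine ⟨x, le_trans ?_ hx⟩
    rw [div_le_div_iff₀ (by positivity) hP, hexp]
    have e1 : Real.exp H * ((10 * (d : ℝ)) ^ d * (t ^ d * (Real.exp (hb d) * (Real.exp H)⁻¹))) =
        (10 * (d : ℝ)) ^ d * Real.exp (hb d) * t ^ d := by field_simp
    rw [e1]
    nlinarith [mul_pos hC1 htd, mul_pos hC2 htd]
  · obtain ⟨x, hx⟩ := c2
    exact ⟨x, hx.trans hA32⟩
  · obtain ⟨x, hx⟩ := c5
    refine ⟨x, le_trans ?_ hx⟩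
    have hnum : H / 2 ≤ 3 / 4 * (1 - d * Real.log (10 * d * l)) - E - zg d := by
      have e1 : Real.log (10 * d * l) = Real.log (10 * d * t) + (hb d - H) / d := by
        rw [hl, show 10 * (d : ℝ) * (δ * t) = (10 * d * t) * δ by ring,
          Real.log_mul (by positivity) hδ0.ne', hδ, Real.log_exp]
      have e2 : (d : ℝ) * ((hb d - H) / d) = hb d - H := by field_simp
      rw [e1, mul_add, e2]
      linarith
    calc H * Real.exp H / (C * t ^ d) ≤
          (H / 2) / ((10 * (d : ℝ)) ^ d * (t ^ d * (Real.exp (hb d) * Real.exp (-H)))) := by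
          rw [div_le_div_iff₀ (by positivity) hP, hexp]
          have e1 : H * Real.exp H * ((10 * (d : ℝ)) ^ d * (t ^ d * (Real.exp (hb d) * (Real.exp H)⁻¹))) =
            H * ((10 * (d : ℝ)) ^ d * Real.exp (hb d)) * t ^ d := by field_simp
          rw [e1]
          have e3 : H * ((10 * (d : ℝ)) ^ d * Real.exp (hb d)) * t ^ d =
            H / 2 * ((2 * (10 * (d : ℝ)) ^ d * Real.exp (hb d)) * t ^ d) := by ring
          rw [e3]
          have e4 : (2 * (10 * (d : ℝ)) ^ d * Real.exp (hb d)) * t ^ d ≤ C * t ^ d := by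
            refine mul_le_mul_of_nonneg_right ?_ htd.le
            linarith
          exact mul_le_mul_of_nonneg_left e4 (by linarith)
      _ ≤ _ := by
          rw [div_eq_mul_inv, div_eq_mul_inv]
          exact mul_le_mul_of_nonneg_right hnum (inv_nonneg.2 hP.le)

end Pool.Agent.H25.Kin
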