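import Pool.Agent.H25.Kin.BGeo

/-!
# Second differences over the collision sphere
-/

set_option autoImplicit false

open MeasureTheory Set Filter Topology
open scoped ENNReal

namespace Pool.Agent.H25.Kin

variable {d : ℕ}

lemma taylor_1d {h h' h'' : ℝ → ℝ} (h1 : ∀ τ, HasDerivAt h (h' τ) τ)
    (h2 : ∀ τ, HasDerivAt h' (h'' τ) τ) {A : ℝ} (hA : ∀ τ ∈ Icc (0 : ℝ) 1, |h'' τ| ≤ A) :
    |h 1 - h 0 - h' 0| ≤ A := by
  have hA0 : 0 ≤ A := (abs_nonneg _).trans (hA 0 ⟨le_refl _, zero_le_one⟩)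
  have b1 : ∀ τ ∈ Icc (0 : ℝ) 1, |h' τ - h' 0| ≤ A := by
    intro τ hτ
    have := Convex.norm_image_sub_le_of_norm_hasDerivWithin_le (f := h') (f' := h'')
      (s := Icc (0 : ℝ) 1) (C := A) (fun x _ => (h2 x).hasDerivWithinAt) (fun x hx => hA x hx)
      (convex_Icc 0 1) (left_mem_Icc.2 zero_le_one) hτ
    rw [Real.norm_eq_abs, Real.norm_eq_abs, sub_zero, abs_of_nonneg hτ.1] at this
    exact this.trans (by nlinarith [hτ.2])
  have h3 : ∀ τ, HasDerivAt (fun τ => h τ - τ * h' 0) (h' τ - h' 0) τ := by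
    intro τ
    have := (h1 τ).fun_sub ((hasDerivAt_id' τ).mul_const (h' 0))
    rw [one_mul] at this
    exact this
  have := Convex.norm_image_sub_le_of_norm_hasDerivWithin_le (f := fun τ => h τ - τ * h' 0)
      (f' := fun τ => h' τ - h' 0)
      (s := Icc (0 : ℝ) 1) (C := A) (fun x _ => (h3 x).hasDerivWithinAt) (fun x hx => b1 x hx)
      (convex_Icc 0 1) (left_mem_Icc.2 zero_le_one) (right_mem_Icc.2 zero_le_one)
  simp only [one_mul, zero_mul, sub_zero, norm_one, mul_one] at this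
  have e : h 1 - h 0 - h' 0 = h 1 - h' 0 - h 0 := by ring
  rw [e]
  exact this

lemma path_hasDerivAt (v b : Vec d) (c τ : ℝ) :
    HasDerivAt (fun τ : ℝ => v + (c * τ) • b) (c • b) τ := by
  have h1 : HasDerivAt (fun τ : ℝ => c * τ) c τ := by
    simpa using (hasDerivAt_id τ).const_mul c
  exact (h1.smul_const b).const_add v

lemma path1 {g : Vec d → ℝ} (hg : Differentiable ℝ g) (v b : Vec d) (c τ : ℝ) :
    HasDerivAt (fun τ : ℝ => g (v + (c * τ) • b)) (c * fderiv ℝ g (v + (c * τ) • b) b) τ := by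
  have h1 := (hg (v + (c * τ) • b)).hasFDerivAt.comp_hasDerivAt τ (path_hasDerivAt v b c τ)
  rw [map_smul, smul_eq_mul] at h1
  exact h1

lemma path2 {g : Vec d → ℝ} (hg : Differentiable ℝ (fderiv ℝ g)) (v b : Vec d) (c τ : ℝ) :
    HasDerivAt (fun τ : ℝ => c * fderiv ℝ g (v + (c * τ) • b) b)
      (c ^ 2 * fderiv ℝ (fderiv ℝ g) (v + (c * τ) • b) b b) τ := by
  have h1 := (hg (v + (c * τ) • b)).hasFDerivAt.comp_hasDerivAt τ (path_hasDerivAt v b c τ)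
  have h2 := (h1.clm_apply (hasDerivAt_const τ b)).const_mul c
  simp only [Function.comp_def, map_zero, add_zero, map_smul, smul_apply,
    smul_eq_mul] at h2
  have e : c ^ 2 * fderiv ℝ (fderiv ℝ g) (v + (c * τ) • b) b b =
      c * (c * fderiv ℝ (fderiv ℝ g) (v + (c * τ) • b) b b) := by ring
  rw [e]
  exact h2

lemma apply_le {M : ℝ} {A : Vec d →L[ℝ] ℝ} (hA : ‖A‖ ≤ M) (b : Vec d) : |A b| ≤ M * ‖b‖ :=
  (A.le_opNorm b).trans (mul_le_mul_of_nonneg_right hA (norm_nonneg _))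

lemma apply2_le {M : ℝ} {A : Vec d →L[ℝ] Vec d →L[ℝ] ℝ} (hA : ‖A‖ ≤ M) (b : Vec d) :
    |A b b| ≤ M * ‖b‖ ^ 2 := by
  have h1 := (A b).le_opNorm b
  have h2 := (A.le_opNorm b).trans (mul_le_mul_of_nonneg_right hA (norm_nonneg b))
  calc |A b b| ≤ ‖A b‖ * ‖b‖ := h1
    _ ≤ (M * ‖b‖) * ‖b‖ := mul_le_mul_of_nonneg_right h2 (norm_nonneg _)
    _ = M * ‖b‖ ^ 2 := by ring

/-- first-order expansion of `φ(v+b) + φ(w-b)` -/
lemma taylor_sum {φ : Vec d → ℝ} {M : ℝ} (h : Test φ M) (v w b : Vec d) :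
    |φ (v + b) + φ (w - b) - φ v - φ w - (fderiv ℝ φ v b - fderiv ℝ φ w b)| ≤ 2 * M * ‖b‖ ^ 2 := by
  have hd : Differentiable ℝ φ := h.smooth.differentiable (by norm_num)
  have key := taylor_1d
    (h := fun τ => φ (v + (1 * τ) • b) + φ (w + (-1 * τ) • b))
    (h' := fun τ => 1 * fderiv ℝ φ (v + (1 * τ) • b) b + -1 * fderiv ℝ φ (w + (-1 * τ) • b) b)
    (h'' := fun τ => 1 ^ 2 * fderiv ℝ (fderiv ℝ φ) (v + (1 * τ) • b) b b +
      (-1) ^ 2 * fderiv ℝ (fderiv ℝ φ) (w + (-1 * τ) • b) b b)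
    (fun τ => (path1 hd v b 1 τ).add (path1 hd w b (-1) τ))
    (fun τ => (path2 h.diff1 v b 1 τ).add (path2 h.diff1 w b (-1) τ))
    (A := 2 * M * ‖b‖ ^ 2) (fun τ _ => by
      have a1 := apply2_le (h.le2 (v + (1 * τ) • b)) b
      have a2 := apply2_le (h.le2 (w + (-1 * τ) • b)) b
      refine (abs_add_le _ _).trans ?_
      rw [abs_mul, abs_mul]
      norm_num at a1 a2 ⊢
      linarith)
  simp only [mul_one, one_smul, mul_zero, zero_smul, add_zero, one_mul, neg_smul] at key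
  have e : φ (v + b) + φ (w - b) - φ v - φ w - (fderiv ℝ φ v b - fderiv ℝ φ w b) =
      φ (v + b) + φ (w + -b) - (φ v + φ w) - (fderiv ℝ φ v b + -1 * fderiv ℝ φ w b) := by
    rw [sub_eq_add_neg w b]; ring
  rw [e]
  exact key

lemma norm_sq_sub_dirk {v w σ : Vec d} (h : v ≠ w) (hσ : nsq σ = 1) :
    ‖σ - dirk v w‖ ^ 2 ≤ 2 * (1 - cosTh v w σ) := by
  rw [← nsq_sub_dirk h hσ]
  exact norm_sq_le_sq _

lemma norm_dirk_le {v w : Vec d} (h : v ≠ w) : ‖dirk v w‖ ≤ 1 := by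
  have h1 := norm_sq_le_sq (dirk v w)
  rw [nsq_dirk h] at h1
  nlinarith [norm_nonneg (dirk v w)]

lemma one_sub_cosTh_nonneg {v w σ : Vec d} (hσ : nsq σ = 1) : 0 ≤ 1 - cosTh v w σ := by
  have := (abs_le.1 (abs_cosTh_le (v := v) (w := w) hσ)).2
  linarith

/-- **second difference of a test function** -/
lemma second_diff_test {φ : Vec d → ℝ} {M : ℝ} (h : Test φ M) {v w σ : Vec d} (hvw : v ≠ w)
    (hσ : nsq σ = 1) :
    |(φ (post v w σ) + φ (post' v w σ) - φ v - φ w) +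
      (φ (post v w (refl (dirk v w) σ)) + φ (post' v w (refl (dirk v w) σ)) - φ v - φ w)| ≤
      8 * M * min (len (v - w) ^ 2 * (1 - cosTh v w σ)) 1 := by
  have hM := h.nonneg
  set ρ := len (v - w) / 2 with hρ
  have hl := len_nonneg (v - w)
  have hρ0 : 0 ≤ ρ := by positivity
  set R := refl (dirk v w) σ with hR
  have hRσ : nsq R = 1 := by rw [hR, nsq_refl (nsq_dirk hvw), hσ]
  have hx := one_sub_cosTh_nonneg (v := v) (w := w) hσ
  rw [mul_min_of_nonneg _ _ (by positivity : 0 ≤ 8 * M)]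
  refine le_min ?_ ?_
  · have t1 := taylor_sum h v w (ρ • (σ - dirk v w))
    have t2 := taylor_sum h v w (ρ • (R - dirk v w))
    have n1 := norm_sq_sub_dirk hvw hσ
    have n2 := norm_sq_sub_dirk hvw hRσ
    have ecos : cosTh v w R = cosTh v w σ := cosTh_refl hvw
    rw [ecos] at n2
    rw [norm_smul, mul_pow, Real.norm_eq_abs, sq_abs] at t1 t2
    have t3 : |fderiv ℝ φ v (ρ • (σ - dirk v w)) - fderiv ℝ φ w (ρ • (σ - dirk v w)) +
        (fderiv ℝ φ v (ρ • (R - dirk v w)) - fderiv ℝ φ w (ρ • (R - dirk v w)))| ≤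
        4 * M * ρ ^ 2 * (1 - cosTh v w σ) := by
      have e1 : fderiv ℝ φ v (ρ • (σ - dirk v w)) - fderiv ℝ φ w (ρ • (σ - dirk v w)) +
        (fderiv ℝ φ v (ρ • (R - dirk v w)) - fderiv ℝ φ w (ρ • (R - dirk v w))) =
          ρ * (fderiv ℝ φ v - fderiv ℝ φ w) ((σ - dirk v w) + (R - dirk v w)) := by
        simp only [map_smul, smul_eq_mul, map_add, _root_.sub_apply]; ring
      rw [e1, refl_sub_add, map_smul, smul_eq_mul, abs_mul, abs_mul, abs_neg,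
        abs_of_nonneg hρ0, abs_of_nonneg (by linarith : 0 ≤ 2 * (1 - cosTh v w σ))]
      have h1 : ‖fderiv ℝ φ v - fderiv ℝ φ w‖ ≤ M * ‖v - w‖ :=
        Convex.norm_image_sub_le_of_norm_fderiv_le (s := univ) (fun x _ => h.diff1 x)
          (fun x _ => h.le2 x) convex_univ (mem_univ w) (mem_univ v)
      have h2 := apply_le h1 (dirk v w)
      have h3 := norm_dirk_le hvw
      have h4 := norm_le_len (v - w)
      have h5 : M * ‖v - w‖ * ‖dirk v w‖ ≤ M * (2 * ρ) * 1 := by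
        gcongr
        rw [hρ]; linarith
      calc ρ * (2 * (1 - cosTh v w σ) * |(fderiv ℝ φ v - fderiv ℝ φ w) (dirk v w)|)
          ≤ ρ * (2 * (1 - cosTh v w σ) * (M * (2 * ρ) * 1)) := by
            gcongr
            exact h2.trans h5
        _ = 4 * M * ρ ^ 2 * (1 - cosTh v w σ) := by ring
    rw [post_eq, post'_eq, post_eq, post'_eq, ← hρ]
    have c1 : 2 * M * (ρ ^ 2 * ‖σ - dirk v w‖ ^ 2) ≤ 2 * M * (ρ ^ 2 * (2 * (1 - cosTh v w σ))) := by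
      gcongr
    have c2 : 2 * M * (ρ ^ 2 * ‖R - dirk v w‖ ^ 2) ≤ 2 * M * (ρ ^ 2 * (2 * (1 - cosTh v w σ))) := by
      gcongr
    have t1' := t1.trans c1
    have t2' := t2.trans c2
    have hfin : 12 * M * ρ ^ 2 * (1 - cosTh v w σ) ≤ 8 * M * (len (v - w) ^ 2 * (1 - cosTh v w σ)) := by
      have : len (v - w) ^ 2 = 4 * ρ ^ 2 := by rw [hρ]; ring
      rw [this]
      have : 0 ≤ M * ρ ^ 2 * (1 - cosTh v w σ) := by positivity
      linarith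
    refine le_trans ?_ hfin
    rw [abs_le] at t1' t2' t3 ⊢
    constructor
    · linarith [t1'.1, t2'.1, t3.1]
    · linarith [t1'.2, t2'.2, t3.2]
  · have b : ∀ u, -M ≤ φ u ∧ φ u ≤ M := fun u => abs_le.1 (h.le0 u)
    rw [mul_one, abs_le]
    constructor
    · linarith [(b (post v w σ)).1, (b (post' v w σ)).1, (b (post v w R)).1, (b (post' v w R)).1,
        (b v).2, (b w).2]
    · linarith [(b (post v w σ)).2, (b (post' v w σ)).2, (b (post v w R)).2, (b (post' v w R)).2,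
        (b v).1, (b w).1]

/-- comparison of weights -/
lemma weight_le {v w p q : Vec d} (h : nsq v + nsq w ≤ 2 * (nsq p + nsq q)) :
    (1 + ‖v‖) * (1 + ‖w‖) ≤ (2 * (2 * d + 1)) * ((1 + ‖p‖) * (1 + ‖q‖)) ^ 2 := by
  have hd : (0 : ℝ) ≤ d := Nat.cast_nonneg d
  have h1 : (1 + ‖v‖) * (1 + ‖w‖) ≤ 2 * (1 + (nsq v + nsq w)) := by
    have a1 := norm_sq_le_sq v
    have a2 := norm_sq_le_sq w
    nlinarith [sq_nonneg (‖v‖ - 1), sq_nonneg (‖w‖ - 1), sq_nonneg (‖v‖ - ‖w‖)]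
  have h2 : 1 + (nsq v + nsq w) ≤ (2 * d + 1) * (1 + ‖p‖ ^ 2 + ‖q‖ ^ 2) := by
    have a1 := sq_le p
    have a2 := sq_le q
    nlinarith [sq_nonneg ‖p‖, sq_nonneg ‖q‖]
  have h3 : 1 + ‖p‖ ^ 2 + ‖q‖ ^ 2 ≤ ((1 + ‖p‖) * (1 + ‖q‖)) ^ 2 := by
    have hp := norm_nonneg p
    have hq := norm_nonneg q
    have a1 : 1 + ‖p‖ ^ 2 ≤ (1 + ‖p‖) ^ 2 := by nlinarith
    have a2 : 1 + ‖q‖ ^ 2 ≤ (1 + ‖q‖) ^ 2 := by nlinarith
    calc 1 + ‖p‖ ^ 2 + ‖q‖ ^ 2 ≤ (1 + ‖p‖ ^ 2) * (1 + ‖q‖ ^ 2) := by nlinarith [mul_nonneg (sq_nonneg ‖p‖) (sq_nonneg ‖q‖)]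
      _ ≤ (1 + ‖p‖) ^ 2 * (1 + ‖q‖) ^ 2 := mul_le_mul a1 a2 (by positivity) (by positivity)
      _ = ((1 + ‖p‖) * (1 + ‖q‖)) ^ 2 := by ring
  calc (1 + ‖v‖) * (1 + ‖w‖) ≤ 2 * ((2 * d + 1) * (1 + ‖p‖ ^ 2 + ‖q‖ ^ 2)) := by linarith
    _ ≤ 2 * ((2 * d + 1) * ((1 + ‖p‖) * (1 + ‖q‖)) ^ 2) := by gcongr
    _ = _ := by ring

/-- the weight constant -/
noncomputable def cw (d N : ℕ) : ℝ := (2 * (2 * d + 1)) ^ N

lemma one_le_cw (N : ℕ) : 1 ≤ cw d N := by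
  unfold cw
  refine one_le_pow₀ ?_
  have hd : (0 : ℝ) ≤ d := Nat.cast_nonneg d
  linarith

lemma weight_pow {v w p q : Vec d} (h : nsq v + nsq w ≤ 2 * (nsq p + nsq q)) (N : ℕ) :
    (((1 + ‖p‖) * (1 + ‖q‖)) ^ (2 * N))⁻¹ ≤ cw d N * (((1 + ‖v‖) * (1 + ‖w‖)) ^ N)⁻¹ := by
  have h1 := pow_le_pow_left₀ (mul_pos (w_pos v) (w_pos w)).le (weight_le h) N
  have h2 : 0 < ((1 + ‖v‖) * (1 + ‖w‖)) ^ N := pow_pos (mul_pos (w_pos v) (w_pos w)) N
  have h3 : 0 < ((1 + ‖p‖) * (1 + ‖q‖)) ^ (2 * N) := pow_pos (mul_pos (w_pos p) (w_pos q)) _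
  rw [← div_eq_mul_inv, le_div_iff₀ h2, inv_mul_le_iff₀ h3]
  calc ((1 + ‖v‖) * (1 + ‖w‖)) ^ N ≤ ((2 * (2 * d + 1)) * ((1 + ‖p‖) * (1 + ‖q‖)) ^ 2) ^ N := h1
    _ = ((1 + ‖p‖) * (1 + ‖q‖)) ^ (2 * N) * cw d N := by unfold cw; rw [mul_pow, ← pow_mul]; ring

/-- the intermediate points -/
lemma path_weight {v w σ : Vec d} (hvw : v ≠ w) (hσ : nsq σ = 1) (hx : 0 ≤ cosTh v w σ) {τ : ℝ}
    (hτ : τ ∈ Icc (0 : ℝ) 1) :
    nsq v + nsq w ≤ 2 * (nsq (v + τ • ((len (v - w) / 2) • (σ - dirk v w))) +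
      nsq (w - τ • ((len (v - w) / 2) • (σ - dirk v w)))) := by
  set b := (len (v - w) / 2) • (σ - dirk v w) with hb
  have h1 := nsq_par (v + τ • b) (w - τ • b)
  have e1 : v + τ • b + (w - τ • b) = v + w := by abel
  have e2 : v + τ • b - (w - τ • b) = len (v - w) • (dirk v w + τ • (σ - dirk v w)) := by
    rw [smul_add, len_smul_dirk, hb]
    ext i; simp; ring
  rw [e1, e2, nsq_smul, len_sq] at h1
  have h2 := nsq_par v w
  have h3 : (1 / 2 : ℝ) ≤ nsq (dirk v w + τ • (σ - dirk v w)) := by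
    rw [nsq_add, nsq_smul, dot_smul, dot_sub, dot_self, nsq_dirk hvw, nsq_sub_dirk hvw hσ, cosTh_eq]
    rw [cosTh_eq] at hx
    have h4 : 0 ≤ τ * (1 - τ) := mul_nonneg hτ.1 (by linarith [hτ.2])
    nlinarith [mul_nonneg h4 hx, sq_nonneg (2 * τ - 1)]
  have h5 : nsq (v - w) * (1 / 2) ≤ nsq (v - w) * nsq (dirk v w + τ • (σ - dirk v w)) :=
    mul_le_mul_of_nonneg_left h3 (sq_nonneg' _)
  have h6 := sq_nonneg' (v + w)
  linarith

end Pool.Agent.H25.Kin
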