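import Pool.Agent.H25.Kin.BDiff

/-!
# Second differences of `g(v') g(w')`
-/

set_option autoImplicit false

open MeasureTheory Set Filter Topology
open scoped ENNReal

namespace Pool.Agent.H25.Kin

variable {d : ℕ} {g : Vec d → ℝ}

lemma Nice.size (hg : Nice g) (L : ℕ) : ∃ K, 0 ≤ K ∧ ∀ v, |g v| ≤ K * ((1 + ‖v‖) ^ L)⁻¹ ∧
    ‖fderiv ℝ g v‖ ≤ K * ((1 + ‖v‖) ^ L)⁻¹ ∧ ‖fderiv ℝ (fderiv ℝ g) v‖ ≤ K * ((1 + ‖v‖) ^ L)⁻¹ := by
  obtain ⟨A, hA0, hA⟩ := hg.rd.bound L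
  obtain ⟨B, hB0, hB⟩ := hg.rd1.bound L
  obtain ⟨C, hC0, hC⟩ := hg.rd2.bound L
  refine ⟨A + B + C, by positivity, fun v => ?_⟩
  have hw : 0 ≤ ((1 + ‖v‖) ^ L)⁻¹ := inv_nonneg.2 (pow_nonneg (w_pos v).le _)
  refine ⟨(hA v).trans ?_, (hB v).trans ?_, (hC v).trans ?_⟩ <;>
  · refine mul_le_mul_of_nonneg_right ?_ hw
    linarith

/-- first-order expansion of `g(v+b) g(w-b)` -/
lemma taylor_prod (hg : Nice g) {K : ℝ} {L : ℕ} (hK0 : 0 ≤ K)
    (hK : ∀ v, |g v| ≤ K * ((1 + ‖v‖) ^ L)⁻¹ ∧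
    ‖fderiv ℝ g v‖ ≤ K * ((1 + ‖v‖) ^ L)⁻¹ ∧ ‖fderiv ℝ (fderiv ℝ g) v‖ ≤ K * ((1 + ‖v‖) ^ L)⁻¹)
    (v w b : Vec d) {A : ℝ}
    (hA : ∀ τ ∈ Icc (0 : ℝ) 1, (((1 + ‖v + τ • b‖) * (1 + ‖w - τ • b‖)) ^ L)⁻¹ ≤ A) :
    |g (v + b) * g (w - b) - g v * g w - (fderiv ℝ g v b * g w - g v * fderiv ℝ g w b)| ≤
      4 * K ^ 2 * A * ‖b‖ ^ 2 := by
  have hd : Differentiable ℝ g := hg.diff
  have key := taylor_1d
    (h := fun τ => g (v + (1 * τ) • b) * g (w + (-1 * τ) • b))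
    (h' := fun τ => (1 * fderiv ℝ g (v + (1 * τ) • b) b) * g (w + (-1 * τ) • b) +
      g (v + (1 * τ) • b) * (-1 * fderiv ℝ g (w + (-1 * τ) • b) b))
    (h'' := fun τ =>
      ((1 ^ 2 * fderiv ℝ (fderiv ℝ g) (v + (1 * τ) • b) b b) * g (w + (-1 * τ) • b) +
      (1 * fderiv ℝ g (v + (1 * τ) • b) b) * (-1 * fderiv ℝ g (w + (-1 * τ) • b) b)) +
      ((1 * fderiv ℝ g (v + (1 * τ) • b) b) * (-1 * fderiv ℝ g (w + (-1 * τ) • b) b) +
      g (v + (1 * τ) • b) * ((-1) ^ 2 * fderiv ℝ (fderiv ℝ g) (w + (-1 * τ) • b) b b)))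
    (fun τ => (path1 hd v b 1 τ).fun_mul (path1 hd w b (-1) τ))
    (fun τ => ((path2 hg.diff1 v b 1 τ).fun_mul (path1 hd w b (-1) τ)).fun_add
      ((path1 hd v b 1 τ).fun_mul (path2 hg.diff1 w b (-1) τ)))
    (A := 4 * K ^ 2 * A * ‖b‖ ^ 2) (fun τ hτ => by
      set p := v + (1 * τ) • b with hp
      set q := w + (-1 * τ) • b with hq
      have ep : v + τ • b = p := by rw [hp, one_mul]
      have eq : w - τ • b = q := by rw [hq, neg_one_mul, neg_smul, sub_eq_add_neg]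
      have hA' := hA τ hτ
      rw [ep, eq, mul_pow, mul_inv] at hA'
      set a := ((1 + ‖p‖) ^ L)⁻¹ with ha
      set c := ((1 + ‖q‖) ^ L)⁻¹ with hc
      have ha0 : 0 ≤ a := inv_nonneg.2 (pow_nonneg (w_pos p).le _)
      have hc0 : 0 ≤ c := inv_nonneg.2 (pow_nonneg (w_pos q).le _)
      obtain ⟨p0, p1, p2⟩ := hK p
      obtain ⟨q0, q1, q2⟩ := hK q
      rw [← ha] at p0 p1 p2
      rw [← hc] at q0 q1 q2
      have p1' := apply_le p1 b
      have q1' := apply_le q1 b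
      have p2' := apply2_le p2 b
      have q2' := apply2_le q2 b
      have hb := norm_nonneg b
      have T1 : |(1 ^ 2 * fderiv ℝ (fderiv ℝ g) p b b) * g q| ≤ (K * a * ‖b‖ ^ 2) * (K * c) := by
        rw [abs_mul]
        norm_num
        exact mul_le_mul p2' q0 (abs_nonneg _) (by positivity)
      have T2 : |(1 * fderiv ℝ g p b) * (-1 * fderiv ℝ g q b)| ≤ (K * a * ‖b‖) * (K * c * ‖b‖) := by
        rw [abs_mul]
        norm_num
        exact mul_le_mul p1' q1' (abs_nonneg _) (by positivity)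
      have T3 : |g p * ((-1) ^ 2 * fderiv ℝ (fderiv ℝ g) q b b)| ≤ (K * a) * (K * c * ‖b‖ ^ 2) := by
        rw [abs_mul]
        norm_num
        exact mul_le_mul p0 q2' (abs_nonneg _) (by positivity)
      have hsum : 4 * K ^ 2 * (a * c) * ‖b‖ ^ 2 ≤ 4 * K ^ 2 * A * ‖b‖ ^ 2 := by gcongr
      refine le_trans ?_ hsum
      refine (abs_add_le _ _).trans ?_
      have s1 := abs_add_le ((1 ^ 2 * fderiv ℝ (fderiv ℝ g) p b b) * g q)
        ((1 * fderiv ℝ g p b) * (-1 * fderiv ℝ g q b))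
      have s2 := abs_add_le ((1 * fderiv ℝ g p b) * (-1 * fderiv ℝ g q b))
        (g p * ((-1) ^ 2 * fderiv ℝ (fderiv ℝ g) q b b))
      have e1 : (K * a * ‖b‖ ^ 2) * (K * c) = K ^ 2 * (a * c) * ‖b‖ ^ 2 := by ring
      have e2 : (K * a * ‖b‖) * (K * c * ‖b‖) = K ^ 2 * (a * c) * ‖b‖ ^ 2 := by ring
      have e3 : (K * a) * (K * c * ‖b‖ ^ 2) = K ^ 2 * (a * c) * ‖b‖ ^ 2 := by ring
      rw [e1] at T1
      rw [e2] at T2
      rw [e3] at T3
      linarith)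
  simp only [mul_one, one_smul, mul_zero, zero_smul, add_zero, one_mul, neg_smul] at key
  have e : g (v + b) * g (w - b) - g v * g w - (fderiv ℝ g v b * g w - g v * fderiv ℝ g w b) =
      g (v + b) * g (w + -b) - g v * g w - (fderiv ℝ g v b * g w + g v * (-1 * fderiv ℝ g w b)) := by
    rw [sub_eq_add_neg w b]; ring
  rw [e]
  exact key

/-- the weight of a pair of velocities -/
noncomputable def pw (N : ℕ) (v w : Vec d) : ℝ := (((1 + ‖v‖) * (1 + ‖w‖)) ^ N)⁻¹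

lemma pw_nonneg (N : ℕ) (v w : Vec d) : 0 ≤ pw N v w :=
  inv_nonneg.2 (pow_nonneg (mul_pos (w_pos v) (w_pos w)).le _)

lemma pw_mono {N M : ℕ} (h : N ≤ M) (v w : Vec d) : pw M v w ≤ pw N v w := by
  unfold pw
  have h1 : 1 ≤ (1 + ‖v‖) * (1 + ‖w‖) := one_le_mul_of_one_le_of_one_le (one_le_w v) (one_le_w w)
  exact inv_anti₀ (by positivity) (pow_le_pow_right₀ h1 h)

lemma weight_post {v w σ : Vec d} (hσ : nsq σ = 1) (N : ℕ) :
    (((1 + ‖post v w σ‖) * (1 + ‖post' v w σ‖)) ^ (2 * N))⁻¹ ≤ cw d N * pw N v w := by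
  refine weight_pow ?_ N
  have h1 := energy_post (v := v) (w := w) hσ
  have h2 := sq_nonneg' v
  have h3 := sq_nonneg' w
  linarith

lemma prod_le {K : ℝ} {L : ℕ} (hK0 : 0 ≤ K) (hK : ∀ v, |g v| ≤ K * ((1 + ‖v‖) ^ L)⁻¹)
    (p q : Vec d) : |g p * g q| ≤ K ^ 2 * (((1 + ‖p‖) * (1 + ‖q‖)) ^ L)⁻¹ := by
  rw [abs_mul, mul_pow, mul_inv]
  calc |g p| * |g q| ≤ (K * ((1 + ‖p‖) ^ L)⁻¹) * (K * ((1 + ‖q‖) ^ L)⁻¹) :=
        mul_le_mul (hK p) (hK q) (abs_nonneg _)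
          (mul_nonneg hK0 (inv_nonneg.2 (pow_nonneg (w_pos p).le _)))
    _ = _ := by ring

/-- decay of `g(v') g(w')` -/
lemma post_prod_le (hg : RD g) (N : ℕ) : ∃ C, 0 ≤ C ∧ ∀ v w σ : Vec d, nsq σ = 1 →
    |g (post v w σ) * g (post' v w σ)| ≤ C * pw N v w := by
  obtain ⟨K, hK0, hK⟩ := hg.bound (2 * N)
  refine ⟨K ^ 2 * cw d N, by have := one_le_cw (d := d) N; positivity, fun v w σ hσ => ?_⟩
  refine (prod_le hK0 hK _ _).trans ?_
  have := weight_post (v := v) (w := w) hσ N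
  calc K ^ 2 * (((1 + ‖post v w σ‖) * (1 + ‖post' v w σ‖)) ^ (2 * N))⁻¹
      ≤ K ^ 2 * (cw d N * pw N v w) := by gcongr
    _ = _ := by ring

lemma prod_le' (hg : RD g) (N : ℕ) : ∃ C, 0 ≤ C ∧ ∀ v w : Vec d, |g v * g w| ≤ C * pw N v w := by
  obtain ⟨K, hK0, hK⟩ := hg.bound N
  exact ⟨K ^ 2, by positivity, fun v w => prod_le hK0 hK v w⟩

/-- **second difference of `g(v') g(w')`** -/
lemma second_diff_prod (hg : Nice g) (N : ℕ) : ∃ C, 0 ≤ C ∧ ∀ v w σ : Vec d, v ≠ w → nsq σ = 1 →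
    |(g (post' v w σ) * g (post v w σ) - g w * g v) +
      (g (post' v w (refl (dirk v w) σ)) * g (post v w (refl (dirk v w) σ)) - g w * g v)| ≤
      C * (1 + nsq (v - w)) * pw N v w * min (1 - cosTh v w σ) 1 := by
  obtain ⟨K, hK0, hK⟩ := hg.size (2 * N)
  have hcw := one_le_cw (d := d) N
  refine ⟨K ^ 2 * (4 * cw d N + 2) + 4 * K ^ 2 * cw d N, by positivity,
    fun v w σ hvw hσ => ?_⟩
  set ρ := len (v - w) / 2 with hρ
  have hl := len_nonneg (v - w)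
  have hρ0 : 0 ≤ ρ := by positivity
  set R := refl (dirk v w) σ with hR
  have hRσ : nsq R = 1 := by rw [hR, nsq_refl (nsq_dirk hvw), hσ]
  have hx := one_sub_cosTh_nonneg (v := v) (w := w) hσ
  have hns : nsq (v - w) = 4 * ρ ^ 2 := by rw [← len_sq, hρ]; ring
  have hP := pw_nonneg N v w
  have hK' : ∀ v, |g v| ≤ K * ((1 + ‖v‖) ^ (2 * N))⁻¹ := fun v => (hK v).1
  have hpwmono : (((1 + ‖v‖) * (1 + ‖w‖)) ^ (2 * N))⁻¹ ≤ pw N v w := pw_mono (by omega) v w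
  rcases le_total 0 (cosTh v w σ) with hc | hc
  · -- small angles
    have hmin : min (1 - cosTh v w σ) 1 = 1 - cosTh v w σ := min_eq_left (by linarith)
    rw [hmin]
    have n1 := norm_sq_sub_dirk hvw hσ
    have n2 := norm_sq_sub_dirk hvw hRσ
    have ecos : cosTh v w R = cosTh v w σ := cosTh_refl hvw
    rw [ecos] at n2
    have t1 := taylor_prod hg hK0 hK v w (ρ • (σ - dirk v w)) (A := cw d N * pw N v w)
      (fun τ hτ => weight_pow (path_weight hvw hσ hc hτ) N)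
    have t2 := taylor_prod hg hK0 hK v w (ρ • (R - dirk v w)) (A := cw d N * pw N v w)
      (fun τ hτ => weight_pow (path_weight hvw hRσ (by rw [ecos]; exact hc) hτ) N)
    rw [norm_smul, mul_pow, Real.norm_eq_abs, sq_abs] at t1 t2
    have t3 : |(fderiv ℝ g v (ρ • (σ - dirk v w)) * g w - g v * fderiv ℝ g w (ρ • (σ - dirk v w))) +
        (fderiv ℝ g v (ρ • (R - dirk v w)) * g w - g v * fderiv ℝ g w (ρ • (R - dirk v w)))| ≤
        4 * ρ * K ^ 2 * pw N v w * (1 - cosTh v w σ) := by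
      have e1 : (fderiv ℝ g v (ρ • (σ - dirk v w)) * g w - g v * fderiv ℝ g w (ρ • (σ - dirk v w))) +
        (fderiv ℝ g v (ρ • (R - dirk v w)) * g w - g v * fderiv ℝ g w (ρ • (R - dirk v w))) =
          ρ * (fderiv ℝ g v ((σ - dirk v w) + (R - dirk v w)) * g w -
            g v * fderiv ℝ g w ((σ - dirk v w) + (R - dirk v w))) := by
        simp only [map_smul, smul_eq_mul, map_add]; ring
      rw [e1, refl_sub_add, map_smul, map_smul, smul_eq_mul, smul_eq_mul]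
      have e2 : ρ * (-(2 * (1 - cosTh v w σ)) * fderiv ℝ g v (dirk v w) * g w -
          g v * (-(2 * (1 - cosTh v w σ)) * fderiv ℝ g w (dirk v w))) =
          -(2 * ρ * (1 - cosTh v w σ) * (fderiv ℝ g v (dirk v w) * g w -
            g v * fderiv ℝ g w (dirk v w))) := by ring
      rw [e2, abs_neg, abs_mul, abs_of_nonneg (by positivity : 0 ≤ 2 * ρ * (1 - cosTh v w σ))]
      have hk := norm_dirk_le hvw
      have b1 := apply_le (hK v).2.1 (dirk v w)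
      have b2 := apply_le (hK w).2.1 (dirk v w)
      have hv0 : 0 ≤ ((1 + ‖v‖) ^ (2 * N))⁻¹ := inv_nonneg.2 (pow_nonneg (w_pos v).le _)
      have hw0 : 0 ≤ ((1 + ‖w‖) ^ (2 * N))⁻¹ := inv_nonneg.2 (pow_nonneg (w_pos w).le _)
      have c1 : |fderiv ℝ g v (dirk v w)| ≤ K * ((1 + ‖v‖) ^ (2 * N))⁻¹ :=
        b1.trans (mul_le_of_le_one_right (by positivity) hk)
      have c2 : |fderiv ℝ g w (dirk v w)| ≤ K * ((1 + ‖w‖) ^ (2 * N))⁻¹ :=
        b2.trans (mul_le_of_le_one_right (by positivity) hk)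
      have c3 : |fderiv ℝ g v (dirk v w) * g w - g v * fderiv ℝ g w (dirk v w)| ≤
          2 * K ^ 2 * pw N v w := by
        refine (abs_sub _ _).trans ?_
        rw [abs_mul, abs_mul]
        have d1 := mul_le_mul c1 (hK w).1 (abs_nonneg _) (by positivity)
        have d2 := mul_le_mul (hK v).1 c2 (abs_nonneg _) (by positivity)
        have e3 : K * ((1 + ‖v‖) ^ (2 * N))⁻¹ * (K * ((1 + ‖w‖) ^ (2 * N))⁻¹) =
            K ^ 2 * (((1 + ‖v‖) * (1 + ‖w‖)) ^ (2 * N))⁻¹ := by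
          rw [mul_pow (1 + ‖v‖), mul_inv]; ring
        rw [e3] at d1 d2
        have d3 : K ^ 2 * (((1 + ‖v‖) * (1 + ‖w‖)) ^ (2 * N))⁻¹ ≤ K ^ 2 * pw N v w := by gcongr
        linarith
      calc 2 * ρ * (1 - cosTh v w σ) * |fderiv ℝ g v (dirk v w) * g w - g v * fderiv ℝ g w (dirk v w)|
          ≤ 2 * ρ * (1 - cosTh v w σ) * (2 * K ^ 2 * pw N v w) := by gcongr
        _ = _ := by ring
    rw [post_eq, post'_eq, post_eq, post'_eq, ← hρ]
    have c1 : 4 * K ^ 2 * (cw d N * pw N v w) * (ρ ^ 2 * ‖σ - dirk v w‖ ^ 2) ≤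
        4 * K ^ 2 * (cw d N * pw N v w) * (ρ ^ 2 * (2 * (1 - cosTh v w σ))) := by
      gcongr
    have c2 : 4 * K ^ 2 * (cw d N * pw N v w) * (ρ ^ 2 * ‖R - dirk v w‖ ^ 2) ≤
        4 * K ^ 2 * (cw d N * pw N v w) * (ρ ^ 2 * (2 * (1 - cosTh v w σ))) := by
      gcongr
    have t1' := t1.trans c1
    have t2' := t2.trans c2
    have hfin : 16 * K ^ 2 * cw d N * ρ ^ 2 * pw N v w * (1 - cosTh v w σ) +
        4 * ρ * K ^ 2 * pw N v w * (1 - cosTh v w σ) ≤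
        (K ^ 2 * (4 * cw d N + 2) + 4 * K ^ 2 * cw d N) * (1 + nsq (v - w)) * pw N v w *
          (1 - cosTh v w σ) := by
      have hX : 0 ≤ K ^ 2 * pw N v w * (1 - cosTh v w σ) := by positivity
      have hin : 16 * cw d N * ρ ^ 2 + 4 * ρ ≤ ((4 * cw d N + 2) + 4 * cw d N) * (1 + 4 * ρ ^ 2) := by
        nlinarith [sq_nonneg (ρ - 1), sq_nonneg ρ, mul_nonneg (by linarith : 0 ≤ cw d N) (sq_nonneg ρ),
          sq_nonneg (2 * ρ - 1)]
      rw [hns]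
      calc 16 * K ^ 2 * cw d N * ρ ^ 2 * pw N v w * (1 - cosTh v w σ) +
          4 * ρ * K ^ 2 * pw N v w * (1 - cosTh v w σ) =
          (16 * cw d N * ρ ^ 2 + 4 * ρ) * (K ^ 2 * pw N v w * (1 - cosTh v w σ)) := by ring
        _ ≤ (((4 * cw d N + 2) + 4 * cw d N) * (1 + 4 * ρ ^ 2)) *
            (K ^ 2 * pw N v w * (1 - cosTh v w σ)) := mul_le_mul_of_nonneg_right hin hX
        _ = _ := by ring
    refine le_trans ?_ hfin
    rw [abs_le] at t1' t2' t3 ⊢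
    constructor
    · linarith [t1'.1, t2'.1, t3.1]
    · linarith [t1'.2, t2'.2, t3.2]
  · -- large angles
    have hmin : min (1 - cosTh v w σ) 1 = 1 := min_eq_right (by linarith)
    rw [hmin, mul_one]
    have b1 := (prod_le hK0 hK' (post v w σ) (post' v w σ)).trans
      (mul_le_mul_of_nonneg_left (weight_post (v := v) (w := w) hσ N) (sq_nonneg K))
    have b2 := (prod_le hK0 hK' (post v w R) (post' v w R)).trans
      (mul_le_mul_of_nonneg_left (weight_post (v := v) (w := w) hRσ N) (sq_nonneg K))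
    have b3 := (prod_le hK0 hK' v w).trans (mul_le_mul_of_nonneg_left hpwmono (sq_nonneg K))
    have e1 : (g (post' v w σ) * g (post v w σ) - g w * g v) +
      (g (post' v w R) * g (post v w R) - g w * g v) =
      g (post v w σ) * g (post' v w σ) + g (post v w R) * g (post' v w R) - 2 * (g v * g w) := by ring
    rw [e1]
    have hfin : 2 * (K ^ 2 * (cw d N * pw N v w)) + 2 * (K ^ 2 * pw N v w) ≤
        (K ^ 2 * (4 * cw d N + 2) + 4 * K ^ 2 * cw d N) * (1 + nsq (v - w)) * pw N v w := by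
      have hX : 0 ≤ K ^ 2 * pw N v w := by positivity
      have hin : 2 * cw d N + 2 ≤ ((4 * cw d N + 2) + 4 * cw d N) * (1 + nsq (v - w)) := by
        nlinarith [sq_nonneg' (v - w), mul_nonneg (by linarith : 0 ≤ cw d N) (sq_nonneg' (v - w))]
      calc 2 * (K ^ 2 * (cw d N * pw N v w)) + 2 * (K ^ 2 * pw N v w) =
          (2 * cw d N + 2) * (K ^ 2 * pw N v w) := by ring
        _ ≤ (((4 * cw d N + 2) + 4 * cw d N) * (1 + nsq (v - w))) * (K ^ 2 * pw N v w) :=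
            mul_le_mul_of_nonneg_right hin hX
        _ = _ := by ring
    refine le_trans ?_ hfin
    rw [abs_le] at b1 b2 b3 ⊢
    constructor
    · linarith [b1.1, b2.1, b3.2]
    · linarith [b1.2, b2.2, b3.1]

end Pool.Agent.H25.Kin
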