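import Pool.Agent.H25.Kin.BWeak

/-!
# The angular integral: bounds uniform in the cut-off, and the limit
-/

set_option autoImplicit false

open MeasureTheory Set Filter Topology
open scoped ENNReal

namespace Pool.Agent.H25.Kin

variable {d : ℕ} {γ β : ℝ} {b : ℝ → ℝ} {C ε : ℝ}

lemma measurable_cosTh' (v w : Vec d) : Measurable fun σ : Vec d => cosTh v w σ :=
  measurable_cosTh.comp (measurable_const.prodMk (measurable_const.prodMk measurable_id))

lemma measurable_kerB' (γ : ℝ) (hb : Measurable b) (ε : ℝ) (v w : Vec d) :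
    Measurable fun σ : Vec d => kerB γ b ε v w σ :=
  (measurable_kerB γ hb ε).comp (measurable_const.prodMk (measurable_const.prodMk measurable_id))

/-- the singular angular weight -/
noncomputable def aw (β r : ℝ) (v w σ : Vec d) : ℝ :=
  (1 - cosTh v w σ) ^ (-β) * min (r ^ 2 * (1 - cosTh v w σ)) 1

lemma aw_nonneg (β r : ℝ) {v w σ : Vec d} (hσ : nsq σ = 1) : 0 ≤ aw β r v w σ := by
  have h := one_sub_cosTh_nonneg (v := v) (w := w) hσ
  unfold aw
  exact mul_nonneg (Real.rpow_nonneg h _) (le_min (mul_nonneg (sq_nonneg _) h) zero_le_one)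

lemma aw_measurable (β r : ℝ) (v w : Vec d) : Measurable fun σ : Vec d => aw β r v w σ := by
  unfold aw
  have h : Measurable fun σ : Vec d => 1 - cosTh v w σ := measurable_const.sub (measurable_cosTh' v w)
  exact (h.pow_const _).mul ((measurable_const.mul h).min measurable_const)

/-- the angular integral bound -/
def AngInt (d : ℕ) (s Ca : ℝ) : Prop :=
  0 ≤ Ca ∧ ∀ v w : Vec d, v ≠ w → ∀ r : ℝ, 0 < r →
    Integrable (fun σ => aw (((d : ℝ) - 1) / 2 + s) r v w σ) (surf d) ∧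
      ∫ σ, aw (((d : ℝ) - 1) / 2 + s) r v w σ ∂(surf d) ≤ Ca * r ^ (2 * s)

lemma exists_angInt (hd : 1 ≤ d) {s : ℝ} (hs : 0 < s) (hs1 : s < 1) : ∃ Ca, AngInt d s Ca := by
  obtain ⟨Ca, hCa, h⟩ := angular hd hs hs1
  refine ⟨Ca, hCa, fun v w hvw r hr => ?_⟩
  have h1 := h (dirk v w) (nsq_dirk hvw) r hr
  simp_rw [← cosTh_eq] at h1
  have hnn : 0 ≤ᵐ[surf d] fun σ => aw (((d : ℝ) - 1) / 2 + s) r v w σ := by
    filter_upwards [surf_ae] with σ hσ
    exact aw_nonneg _ _ hσ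
  have hm := aw_measurable (((d : ℝ) - 1) / 2 + s) r v w
  have hi : Integrable (fun σ => aw (((d : ℝ) - 1) / 2 + s) r v w σ) (surf d) := by
    refine ⟨hm.aestronglyMeasurable, ?_⟩
    rw [hasFiniteIntegral_iff_ofReal hnn]
    exact lt_of_le_of_lt h1 ENNReal.ofReal_lt_top
  refine ⟨hi, ?_⟩
  have hr2 : 0 ≤ Ca * r ^ (2 * s) := mul_nonneg hCa (Real.rpow_nonneg hr.le _)
  rw [integral_eq_lintegral_of_nonneg_ae hnn hm.aestronglyMeasurable]
  calc (∫⁻ σ, ENNReal.ofReal (aw (((d : ℝ) - 1) / 2 + s) r v w σ) ∂(surf d)).toReal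
      ≤ (ENNReal.ofReal (Ca * r ^ (2 * s))).toReal := ENNReal.toReal_mono ENNReal.ofReal_ne_top h1
    _ = Ca * r ^ (2 * s) := ENNReal.toReal_ofReal hr2

variable {F : Vec d → ℝ} {F0 : ℝ} {v w : Vec d}

lemma inner_integrable (hbm : Measurable b) (hC : AngBound b C β) (hβ : 0 ≤ β) (hε : 0 < ε)
    (hF : Measurable F) (hF0 : ∀ σ, nsq σ = 1 → |F σ| ≤ F0) :
    Integrable (fun σ => kerB γ b ε v w σ * F σ) (surf d) := by
  have hC0 := hC.1
  have h3 := Real.rpow_nonneg hε.le (-β)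
  have h2 := Real.rpow_nonneg (len_nonneg (v - w)) γ
  refine (integrable_const (C * ε ^ (-β) * len (v - w) ^ γ * F0)).mono'
    ((measurable_kerB' γ hbm ε v w).mul hF).aestronglyMeasurable ?_
  filter_upwards [surf_ae] with σ hσ
  rw [norm_mul, Real.norm_eq_abs, Real.norm_eq_abs, abs_of_nonneg (kerB_nonneg hC hε hσ)]
  exact mul_le_mul (kerB_le_eps hC hβ hε hσ) (hF0 σ hσ) (abs_nonneg _) (by positivity)

lemma refl_meas (k : Vec d) : Measurable fun σ : Vec d => refl k σ :=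
  ((refl k).continuous_of_finiteDimensional).measurable

lemma inner_eq (hd : 1 ≤ d) (hbm : Measurable b) (hC : AngBound b C β) (hβ : 0 ≤ β) (hε : 0 < ε)
    (hvw : v ≠ w) (hF : Measurable F) (hF0 : ∀ σ, nsq σ = 1 → |F σ| ≤ F0) :
    ∫ σ, kerB γ b ε v w σ * F σ ∂(surf d) =
      ∫ σ, (1 / 2) * (kerB γ b ε v w σ * (F σ + F (refl (dirk v w) σ))) ∂(surf d) := by
  set R : Vec d → Vec d := fun σ => refl (dirk v w) σ with hR
  have hRm : Measurable R := refl_meas _
  have hRp : MeasurePreserving R (surf d) (surf d) := refl_preserving hd (nsq_dirk hvw)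
  have i1 := inner_integrable (γ := γ) (v := v) (w := w) hbm hC hβ hε hF hF0
  have i2 := inner_integrable (γ := γ) (v := v) (w := w) (F := fun σ => F (R σ)) hbm hC hβ hε
    (hF.comp hRm) (fun σ hσ => hF0 _ (by rw [hR, nsq_refl (nsq_dirk hvw), hσ]))
  have e1 : ∫ σ, kerB γ b ε v w σ * F (R σ) ∂(surf d) = ∫ σ, kerB γ b ε v w σ * F σ ∂(surf d) := by
    have h := integral_map (μ := surf d) (φ := R) hRm.aemeasurable
      (f := fun σ => kerB γ b ε v w σ * F σ)
      ((measurable_kerB' γ hbm ε v w).mul hF).aestronglyMeasurable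
    rw [hRp.map_eq] at h
    rw [h]
    refine integral_congr_ae (Eventually.of_forall fun σ => ?_)
    simp only [hR]
    rw [kerB_refl γ b ε hvw]
  calc ∫ σ, kerB γ b ε v w σ * F σ ∂(surf d) = (1 / 2) * ((∫ σ, kerB γ b ε v w σ * F σ ∂(surf d)) +
        ∫ σ, kerB γ b ε v w σ * F (R σ) ∂(surf d)) := by rw [e1]; ring
    _ = _ := by
        rw [← integral_add i1 i2, ← integral_const_mul]
        refine integral_congr_ae (Eventually.of_forall fun σ => ?_)
        simp only [hR]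
        ring

lemma inner_dom (hC : AngBound b C β) (hε : 0 < ε) {r D : ℝ}
    (hsd : ∀ σ, nsq σ = 1 → |F σ + F (refl (dirk v w) σ)| ≤
      D * min (r ^ 2 * (1 - cosTh v w σ)) 1) {σ : Vec d} (hσ : nsq σ = 1) :
    ‖(1 / 2) * (kerB γ b ε v w σ * (F σ + F (refl (dirk v w) σ)))‖ ≤
      (1 / 2 * C * len (v - w) ^ γ * D) * aw β r v w σ := by
  have hk := kerB_nonneg (γ := γ) hC hε (v := v) (w := w) hσ
  have hk2 := kerB_le_ang (γ := γ) hC hε (v := v) (w := w) hσ
  have h1 := hsd σ hσ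
  rw [norm_mul, norm_mul, Real.norm_eq_abs, Real.norm_eq_abs, Real.norm_eq_abs, abs_of_nonneg hk,
    abs_of_nonneg (by norm_num : (0 : ℝ) ≤ 1 / 2)]
  unfold aw
  calc 1 / 2 * (kerB γ b ε v w σ * |F σ + F (refl (dirk v w) σ)|)
      ≤ 1 / 2 * ((C * len (v - w) ^ γ * (1 - cosTh v w σ) ^ (-β)) *
        (D * min (r ^ 2 * (1 - cosTh v w σ)) 1)) := by
        refine mul_le_mul_of_nonneg_left (mul_le_mul hk2 h1 (abs_nonneg _) (hk.trans hk2))
          (by norm_num)
    _ = _ := by ring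

/-- uniform bound of the angular integral -/
lemma inner_bound (hd : 1 ≤ d) {s Ca : ℝ} (hA : AngInt d s Ca) (hbm : Measurable b)
    (hC : AngBound b C (((d : ℝ) - 1) / 2 + s)) (hβ : 0 ≤ ((d : ℝ) - 1) / 2 + s) (hε : 0 < ε)
    (hvw : v ≠ w) (hF : Measurable F) (hF0 : ∀ σ, nsq σ = 1 → |F σ| ≤ F0) {r D : ℝ} (hr : 0 < r)
    (hD : 0 ≤ D)
    (hsd : ∀ σ, nsq σ = 1 → |F σ + F (refl (dirk v w) σ)| ≤
      D * min (r ^ 2 * (1 - cosTh v w σ)) 1) :
    |∫ σ, kerB γ b ε v w σ * F σ ∂(surf d)| ≤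
      (1 / 2 * C * len (v - w) ^ γ * D) * (Ca * r ^ (2 * s)) := by
  obtain ⟨i1, i2⟩ := hA.2 v w hvw r hr
  have hC0 := hC.1
  have h2 := Real.rpow_nonneg (len_nonneg (v - w)) γ
  rw [inner_eq hd hbm hC hβ hε hvw hF hF0, ← Real.norm_eq_abs]
  calc ‖∫ σ, (1 / 2) * (kerB γ b ε v w σ * (F σ + F (refl (dirk v w) σ))) ∂(surf d)‖
      ≤ ∫ σ, (1 / 2 * C * len (v - w) ^ γ * D) * aw (((d : ℝ) - 1) / 2 + s) r v w σ ∂(surf d) := by
        refine norm_integral_le_of_norm_le (i1.const_mul _) ?_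
        filter_upwards [surf_ae] with σ hσ
        exact inner_dom hC hε hsd hσ
    _ ≤ _ := by
        rw [integral_const_mul]
        exact mul_le_mul_of_nonneg_left i2 (by positivity)

/-- the kernel without cut-off -/
noncomputable def ker0 (γ : ℝ) (b : ℝ → ℝ) (v w σ : Vec d) : ℝ :=
  if cosTh v w σ < 1 then len (v - w) ^ γ * b (cosTh v w σ) else 0

lemma kerB_tendsto (γ : ℝ) (b : ℝ → ℝ) (v w σ : Vec d) :
    Tendsto (fun ε => kerB γ b ε v w σ) (𝓝[>] 0) (𝓝 (ker0 γ b v w σ)) := by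
  unfold kerB ker0
  by_cases h : cosTh v w σ < 1
  · rw [if_pos h]
    have h1 : ∀ᶠ ε in 𝓝[>] (0 : ℝ), ε ∈ Ioo (0 : ℝ) (1 - cosTh v w σ) :=
      Ioo_mem_nhdsGT (by linarith)
    refine tendsto_const_nhds.congr' ?_
    filter_upwards [h1] with ε hε
    rw [if_pos (by linarith [hε.2])]
  · rw [if_neg h]
    refine tendsto_const_nhds.congr' ?_
    filter_upwards [self_mem_nhdsWithin] with ε hε
    have : (0 : ℝ) < ε := hε
    rw [if_neg (by push Not at h ⊢; linarith)]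

/-- the limit of the angular integral -/
lemma inner_tendsto (hd : 1 ≤ d) {s Ca : ℝ} (hA : AngInt d s Ca) (hbm : Measurable b)
    (hC : AngBound b C (((d : ℝ) - 1) / 2 + s)) (hβ : 0 ≤ ((d : ℝ) - 1) / 2 + s)
    (hvw : v ≠ w) (hF : Measurable F) (hF0 : ∀ σ, nsq σ = 1 → |F σ| ≤ F0) {r D : ℝ} (hr : 0 < r)
    (hsd : ∀ σ, nsq σ = 1 → |F σ + F (refl (dirk v w) σ)| ≤
      D * min (r ^ 2 * (1 - cosTh v w σ)) 1) :
    Tendsto (fun ε => ∫ σ, kerB γ b ε v w σ * F σ ∂(surf d)) (𝓝[>] 0)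
      (𝓝 (∫ σ, (1 / 2) * (ker0 γ b v w σ * (F σ + F (refl (dirk v w) σ))) ∂(surf d))) := by
  obtain ⟨i1, i2⟩ := hA.2 v w hvw r hr
  have h1 : Tendsto (fun ε => ∫ σ, (1 / 2) * (kerB γ b ε v w σ * (F σ + F (refl (dirk v w) σ)))
      ∂(surf d)) (𝓝[>] 0)
      (𝓝 (∫ σ, (1 / 2) * (ker0 γ b v w σ * (F σ + F (refl (dirk v w) σ))) ∂(surf d))) := by
    refine tendsto_integral_filter_of_dominated_convergence
      (fun σ => (1 / 2 * C * len (v - w) ^ γ * D) * aw (((d : ℝ) - 1) / 2 + s) r v w σ) ?_ ?_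
      (i1.const_mul _) ?_
    · refine Eventually.of_forall fun ε => ?_
      exact (((measurable_kerB' γ hbm ε v w).mul (hF.add (hF.comp (refl_meas _)))).const_mul
        (1 / 2)).aestronglyMeasurable
    · filter_upwards [self_mem_nhdsWithin] with ε hε
      filter_upwards [surf_ae] with σ hσ
      exact inner_dom hC hε hsd hσ
    · refine Eventually.of_forall fun σ => ?_
      exact ((kerB_tendsto γ b v w σ).mul_const _).const_mul _
  refine h1.congr' ?_
  filter_upwards [self_mem_nhdsWithin] with ε hε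
  exact (inner_eq hd hbm hC hβ hε hvw hF hF0).symm

end Pool.Agent.H25.Kin
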