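import Pool.Agent.H25.Kin.BMeas

/-!
# Integrability of the kernel `|v - w|^γ`
-/

set_option autoImplicit false

open MeasureTheory Set Filter Topology
open scoped ENNReal

namespace Pool.Agent.H25.Kin

variable {d : ℕ}

/-- comparison of `|z|^γ` with a power of the sup norm -/
lemma len_rpow_le {γ : ℝ} (h2 : γ ≤ 2) (z : Vec d) : len z ^ γ ≤ ‖z‖ ^ (min γ 0) + nsq z := by
  have hn := sq_nonneg' z
  by_cases hz : z = 0
  · rw [hz, len_zero, norm_zero]
    have h0 : nsq (0 : Vec d) = 0 := by simp [nsq]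
    rw [h0, add_zero]
    rcases le_total γ 0 with h | h
    · rw [min_eq_left h]
    · rw [min_eq_right h, Real.rpow_zero]
      exact Real.rpow_le_one (le_refl _) zero_le_one h
  have hl := len_pos hz
  have hp : 0 < ‖z‖ := norm_pos_iff.2 hz
  have hpow := Real.rpow_nonneg hp.le (min γ 0)
  rcases le_total (len z) 1 with h | h
  · have a1 : len z ^ γ ≤ len z ^ (min γ 0) :=
      Real.rpow_le_rpow_of_exponent_ge hl h (min_le_left _ _)
    have a2 : len z ^ (min γ 0) ≤ ‖z‖ ^ (min γ 0) :=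
      Real.rpow_le_rpow_of_nonpos hp (norm_le_len z) (min_le_right _ _)
    linarith
  · have a1 : len z ^ γ ≤ len z ^ (2 : ℝ) := Real.rpow_le_rpow_of_exponent_le h h2
    rw [Real.rpow_two, len_sq] at a1
    linarith

lemma int_norm_rpow (hd : 2 ≤ d) {a : ℝ} (ha : -2 < a) (ha0 : a ≤ 0) :
    Integrable (fun z : Vec d => ‖z‖ ^ a * ((1 + ‖z‖) ^ (d + 3))⁻¹) := by
  have hne : Nonempty (Fin d) := ⟨⟨0, by omega⟩⟩
  refine (integrable_fun_norm_addHaar (volume : Measure (Vec d))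
    (f := fun y : ℝ => y ^ a * ((1 + y) ^ (d + 3))⁻¹)).2 ?_
  have hfr : Module.finrank ℝ (Vec d) = d := Module.finrank_fin_fun ℝ
  rw [hfr]
  have hm : Measurable fun y : ℝ => y ^ (d - 1) • (y ^ a * ((1 + y) ^ (d + 3))⁻¹) := by
    have h1 : Measurable fun y : ℝ => y ^ a := measurable_id.pow_const a
    have h2 : Measurable fun y : ℝ => ((1 + y) ^ (d + 3))⁻¹ := by
      have : Continuous fun y : ℝ => (1 + y) ^ (d + 3) := by fun_prop
      exact this.measurable.inv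
    have h3 : Measurable fun y : ℝ => y ^ (d - 1) := measurable_id.pow_const (d - 1)
    exact h3.smul (h1.mul h2)
  rw [← Ioc_union_Ioi_eq_Ioi (zero_le_one (α := ℝ)), integrableOn_union]
  constructor
  · have i1 : IntegrableOn (fun y : ℝ => y ^ (1 + a)) (Ioc 0 1) := by
      have h := intervalIntegral.intervalIntegrable_rpow' (a := 0) (b := 1) (r := 1 + a) (by linarith)
      rwa [intervalIntegrable_iff_integrableOn_Ioc_of_le zero_le_one] at h
    refine i1.mono' hm.aestronglyMeasurable.restrict ?_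
    filter_upwards [ae_restrict_mem measurableSet_Ioc] with y hy
    have hy0 : 0 < y := hy.1
    have hya := Real.rpow_nonneg hy0.le a
    rw [Real.norm_eq_abs, smul_eq_mul, abs_of_nonneg (by positivity), Real.rpow_add hy0, Real.rpow_one]
    have e1 : y ^ (d - 1) ≤ y := by
      calc y ^ (d - 1) ≤ y ^ 1 := pow_le_pow_of_le_one hy0.le hy.2 (by omega)
        _ = y := pow_one y
    have e2 : ((1 + y) ^ (d + 3))⁻¹ ≤ 1 := inv_le_one_of_one_le₀ (one_le_pow₀ (by linarith))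
    calc y ^ (d - 1) * (y ^ a * ((1 + y) ^ (d + 3))⁻¹) ≤ y * (y ^ a * 1) := by gcongr
      _ = y * y ^ a := by ring
  · have i2 : IntegrableOn (fun y : ℝ => y ^ (-2 : ℝ)) (Ioi 1) :=
      integrableOn_Ioi_rpow_of_lt (by norm_num) one_pos
    refine i2.mono' hm.aestronglyMeasurable.restrict ?_
    filter_upwards [ae_restrict_mem measurableSet_Ioi] with y hy
    have hy1 : 1 < y := hy
    have hy0 : 0 < y := by linarith
    have hya := Real.rpow_nonneg hy0.le a
    rw [Real.norm_eq_abs, smul_eq_mul, abs_of_nonneg (by positivity)]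
    have e1 : y ^ a ≤ 1 := Real.rpow_le_one_of_one_le_of_nonpos hy1.le ha0
    have e2 : ((1 + y) ^ (d + 3))⁻¹ ≤ (y ^ (d + 3))⁻¹ := by
      refine inv_anti₀ (by positivity) (pow_le_pow_left₀ hy0.le (by linarith) _)
    have e3 : y ^ (-2 : ℝ) = (y ^ 2)⁻¹ := by
      rw [Real.rpow_neg hy0.le, Real.rpow_two]
    rw [e3]
    calc y ^ (d - 1) * (y ^ a * ((1 + y) ^ (d + 3))⁻¹) ≤ y ^ (d - 1) * (1 * (y ^ (d + 3))⁻¹) := by
          gcongr
      _ = (y ^ 4)⁻¹ := by
          have : y ^ (d + 3) = y ^ (d - 1) * y ^ 4 := by rw [← pow_add]; congr 1; omega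
          rw [this]; field_simp
      _ ≤ (y ^ 2)⁻¹ := inv_anti₀ (by positivity) (pow_le_pow_right₀ hy1.le (by norm_num))

/-- the integrable kernel -/
noncomputable def kg (γ : ℝ) (z : Vec d) : ℝ :=
  len z ^ γ * (1 + nsq z) * ((1 + ‖z‖) ^ (d + 5))⁻¹

lemma kg_nonneg (γ : ℝ) (z : Vec d) : 0 ≤ kg γ z := by
  unfold kg
  have h1 := Real.rpow_nonneg (len_nonneg z) γ
  have h2 := sq_nonneg' z
  have h3 := pow_pos (w_pos z) (d + 5)
  positivity

lemma kg_measurable (γ : ℝ) : Measurable (kg (d := d) γ) := by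
  unfold kg
  have h1 : Measurable fun z : Vec d => len z ^ γ := continuous_len.measurable.pow_const γ
  have h2 : Measurable fun z : Vec d => 1 + nsq z := (continuous_const.add continuous_sq).measurable
  have h3 : Measurable fun z : Vec d => ((1 + ‖z‖) ^ (d + 5))⁻¹ := by
    have : Continuous fun z : Vec d => (1 + ‖z‖) ^ (d + 5) := by fun_prop
    exact this.measurable.inv
  exact (h1.mul h2).mul h3

lemma kg_integrable (hd : 2 ≤ d) {γ : ℝ} (h1 : -2 < γ) (h2 : γ ≤ 2) :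
    Integrable (kg (d := d) γ) := by
  have i1 := (int_norm_rpow hd (a := min γ 0) (lt_min h1 (by norm_num)) (min_le_right _ _)).const_mul
    ((d : ℝ) + 1)
  have i2 := (integrable_wt (d := d)).const_mul (((d : ℝ) + 1) ^ 2)
  refine (i1.add i2).mono' (kg_measurable γ).aestronglyMeasurable (Eventually.of_forall fun z => ?_)
  rw [Real.norm_eq_abs, abs_of_nonneg (kg_nonneg γ z)]
  simp only [Pi.add_apply]
  unfold kg wt
  have a1 := len_rpow_le h2 z
  have a2 := one_add_sq_le z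
  have a3 := sq_nonneg' z
  have a4 := w_pos z
  have a5 := Real.rpow_nonneg (norm_nonneg z) (min γ 0)
  have hd0 : (0 : ℝ) ≤ d := Nat.cast_nonneg d
  calc len z ^ γ * (1 + nsq z) * ((1 + ‖z‖) ^ (d + 5))⁻¹
      ≤ (‖z‖ ^ (min γ 0) + nsq z) * (1 + nsq z) * ((1 + ‖z‖) ^ (d + 5))⁻¹ := by gcongr
    _ = (‖z‖ ^ (min γ 0) * (1 + nsq z) + nsq z * (1 + nsq z)) * ((1 + ‖z‖) ^ (d + 5))⁻¹ := by ring
    _ ≤ (‖z‖ ^ (min γ 0) * (((d : ℝ) + 1) * (1 + ‖z‖) ^ 2) +
        (((d : ℝ) + 1) * (1 + ‖z‖) ^ 2) * (((d : ℝ) + 1) * (1 + ‖z‖) ^ 2)) *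
          ((1 + ‖z‖) ^ (d + 5))⁻¹ := by
        gcongr
        linarith
    _ = ((d : ℝ) + 1) * (‖z‖ ^ (min γ 0) * ((1 + ‖z‖) ^ (d + 3))⁻¹) +
        ((d : ℝ) + 1) ^ 2 * ((1 + ‖z‖) ^ (d + 1))⁻¹ := by
        have e1 : (1 + ‖z‖) ^ (d + 5) = (1 + ‖z‖) ^ 2 * (1 + ‖z‖) ^ (d + 3) := by ring
        have e2 : (1 + ‖z‖) ^ (d + 3) = (1 + ‖z‖) ^ 2 * (1 + ‖z‖) ^ (d + 1) := by ring
        rw [e1, e2]
        field_simp

lemma kg_bound (γ : ℝ) (M : ℕ) (v w : Vec d) :
    len (v - w) ^ γ * (1 + nsq (v - w)) * pw (M + (d + 5)) v w ≤ ((1 + ‖v‖) ^ M)⁻¹ * kg γ (v - w) := by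
  unfold kg pw
  have h1 := Real.rpow_nonneg (len_nonneg (v - w)) γ
  have h2 := sq_nonneg' (v - w)
  have hv := w_pos v
  have hw := w_pos w
  have hvw := w_pos (v - w)
  have e1 : (1 + ‖v‖) ^ M ≤ ((1 + ‖v‖) * (1 + ‖w‖)) ^ M :=
    pow_le_pow_left₀ hv.le (le_mul_of_one_le_right hv.le (one_le_w w)) M
  have e2 : (1 + ‖v - w‖) ^ (d + 5) ≤ ((1 + ‖v‖) * (1 + ‖w‖)) ^ (d + 5) :=
    pow_le_pow_left₀ hvw.le (w_sub_le v w) _
  have e3 : (((1 + ‖v‖) * (1 + ‖w‖)) ^ (M + (d + 5)))⁻¹ ≤ ((1 + ‖v‖) ^ M)⁻¹ * ((1 + ‖v - w‖) ^ (d + 5))⁻¹ := by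
    rw [pow_add, mul_inv]
    exact mul_le_mul (inv_anti₀ (by positivity) e1) (inv_anti₀ (by positivity) e2)
      (by positivity) (by positivity)
  calc len (v - w) ^ γ * (1 + nsq (v - w)) * (((1 + ‖v‖) * (1 + ‖w‖)) ^ (M + (d + 5)))⁻¹
      ≤ len (v - w) ^ γ * (1 + nsq (v - w)) * (((1 + ‖v‖) ^ M)⁻¹ * ((1 + ‖v - w‖) ^ (d + 5))⁻¹) := by
        gcongr
    _ = _ := by ring

/-- integrability over `dv dw` -/
lemma kg_pair (hd : 2 ≤ d) {γ : ℝ} (h1 : -2 < γ) (h2 : γ ≤ 2) :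
    Integrable (fun q : Vec d × Vec d => wt d q.1 * kg γ (q.1 - q.2))
      ((volume : Measure (Vec d)).prod volume) := by
  have hm : Measurable fun q : Vec d × Vec d => wt d q.1 * kg γ (q.1 - q.2) := by
    have a1 : Measurable (wt d) := by
      unfold wt
      have : Continuous fun z : Vec d => (1 + ‖z‖) ^ (d + 1) := by fun_prop
      exact this.measurable.inv
    exact (a1.comp measurable_fst).mul ((kg_measurable γ).comp (measurable_fst.sub measurable_snd))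
  rw [integrable_prod_iff hm.aestronglyMeasurable]
  constructor
  · refine Eventually.of_forall fun v => ?_
    exact ((kg_integrable hd h1 h2).comp_sub_left v).const_mul (wt d v)
  · have e : (fun v : Vec d => ∫ w, ‖wt d v * kg γ (v - w)‖) = fun v => wt d v * ∫ z, kg (d := d) γ z := by
      funext v
      have e1 : ∀ w, ‖wt d v * kg γ (v - w)‖ = wt d v * kg γ (v - w) := fun w => by
        rw [Real.norm_eq_abs, abs_of_nonneg (mul_nonneg (wt_nonneg v) (kg_nonneg _ _))]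
      simp_rw [e1]
      rw [integral_const_mul, integral_sub_left_eq_self (fun z => kg (d := d) γ z)]
    rw [e]
    exact integrable_wt.mul_const _

end Pool.Agent.H25.Kin
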