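import Pool.Agent.H25.Kin.BDiff2

/-!
# The collision map preserves the measure `dv dw dσ`
-/

set_option autoImplicit false

open MeasureTheory Set Filter Topology
open scoped ENNReal

namespace Pool.Agent.H25.Kin

variable {d : ℕ}

/-- the measure `dv dw dσ` -/
noncomputable abbrev mu3 (d : ℕ) : Measure (Vec d × Vec d × Vec d) :=
  (volume : Measure (Vec d)).prod ((volume : Measure (Vec d)).prod (surf d))

lemma continuous_dot : Continuous fun p : Vec d × Vec d => dot p.1 p.2 := by
  unfold dot; fun_prop

lemma continuous_post : Continuous fun p : Vec d × Vec d × Vec d => post p.1 p.2.1 p.2.2 := by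
  unfold post
  have h : Continuous fun p : Vec d × Vec d × Vec d => len (p.1 - p.2.1) :=
    continuous_len.comp (by fun_prop)
  fun_prop

lemma continuous_post' : Continuous fun p : Vec d × Vec d × Vec d => post' p.1 p.2.1 p.2.2 := by
  unfold post'
  have h : Continuous fun p : Vec d × Vec d × Vec d => len (p.1 - p.2.1) :=
    continuous_len.comp (by fun_prop)
  fun_prop

lemma measurable_dirk : Measurable fun p : Vec d × Vec d => dirk p.1 p.2 := by
  unfold dirk
  have h : Measurable fun p : Vec d × Vec d => len (p.1 - p.2) :=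
    (continuous_len.comp (by fun_prop : Continuous fun p : Vec d × Vec d => p.1 - p.2)).measurable
  exact h.inv.smul (measurable_fst.sub measurable_snd)

lemma measurable_cosTh : Measurable fun p : Vec d × Vec d × Vec d => cosTh p.1 p.2.1 p.2.2 := by
  unfold cosTh
  have h : Measurable fun p : Vec d × Vec d × Vec d => len (p.1 - p.2.1) :=
    (continuous_len.comp (by fun_prop : Continuous fun p : Vec d × Vec d × Vec d =>
      p.1 - p.2.1)).measurable
  have h2 : Measurable fun p : Vec d × Vec d × Vec d => dot p.2.2 (p.1 - p.2.1) :=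
    (continuous_dot.comp (by fun_prop : Continuous fun p : Vec d × Vec d × Vec d =>
      ((p.2.2, p.1 - p.2.1) : Vec d × Vec d))).measurable
  exact h2.div h

lemma measurable_lenpow (γ : ℝ) : Measurable fun p : Vec d × Vec d × Vec d => len (p.1 - p.2.1) ^ γ := by
  have h : Measurable fun p : Vec d × Vec d × Vec d => len (p.1 - p.2.1) :=
    (continuous_len.comp (by fun_prop : Continuous fun p : Vec d × Vec d × Vec d =>
      p.1 - p.2.1)).measurable
  exact h.pow_const γ

lemma measurable_kerB (γ : ℝ) {b : ℝ → ℝ} (hb : Measurable b) (ε : ℝ) :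
    Measurable fun p : Vec d × Vec d × Vec d => kerB γ b ε p.1 p.2.1 p.2.2 := by
  unfold kerB
  refine Measurable.ite ?_ ?_ measurable_const
  · exact measurable_cosTh measurableSet_Iic
  · exact (measurable_lenpow γ).mul (hb.comp measurable_cosTh)

/-- the collision map `(v,w,σ) ↦ (v',w',k)` -/
noncomputable def coll (p : Vec d × Vec d × Vec d) : Vec d × Vec d × Vec d :=
  (post p.1 p.2.1 p.2.2, post' p.1 p.2.1 p.2.2, dirk p.1 p.2.1)

/-- the exchange map `(v,w,σ) ↦ (w,v,-σ)` -/
def exch (p : Vec d × Vec d × Vec d) : Vec d × Vec d × Vec d := (p.2.1, p.1, -p.2.2)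

/-- `(v,w,σ) ↦ (v, v - w, σ)` -/
lemma mp_A1 : MeasurePreserving (fun p : Vec d × Vec d × Vec d => (p.1, p.1 - p.2.1, p.2.2))
    (mu3 d) (mu3 d) := by
  refine (MeasurePreserving.id (volume : Measure (Vec d))).skew_product
    (g := fun v (q : Vec d × Vec d) => (v - q.1, q.2)) ?_ (Eventually.of_forall fun v => ?_)
  · exact ((measurable_fst.sub (measurable_fst.comp measurable_snd)).prodMk
      (measurable_snd.comp measurable_snd))
  · exact ((Measure.measurePreserving_sub_left (volume : Measure (Vec d)) v).prod
      (MeasurePreserving.id (surf d))).map_eq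

/-- `(v,z,σ) ↦ (v + c z, z, σ)` -/
lemma mp_A2 (c : ℝ) : MeasurePreserving (fun p : Vec d × Vec d × Vec d => (p.1 + c • p.2.1, p.2.1, p.2.2))
    (mu3 d) (mu3 d) := by
  have h1 : MeasurePreserving (fun p : (Vec d × Vec d) × Vec d => (p.1, p.2 + c • p.1.1))
      (((volume : Measure (Vec d)).prod (surf d)).prod volume)
      (((volume : Measure (Vec d)).prod (surf d)).prod volume) := by
    refine (MeasurePreserving.id ((volume : Measure (Vec d)).prod (surf d))).skew_product
      (g := fun (q : Vec d × Vec d) v => v + c • q.1) ?_ (Eventually.of_forall fun q => ?_)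
    · exact measurable_snd.add ((measurable_fst.comp measurable_fst).const_smul c)
    · exact (measurePreserving_add_right (volume : Measure (Vec d)) (c • q.1)).map_eq
  have h2 : MeasurePreserving Prod.swap (mu3 d) (((volume : Measure (Vec d)).prod (surf d)).prod volume) :=
    Measure.measurePreserving_swap
  have h3 : MeasurePreserving Prod.swap (((volume : Measure (Vec d)).prod (surf d)).prod volume) (mu3 d) :=
    Measure.measurePreserving_swap
  exact h3.comp (h1.comp h2)

/-- **the collision map preserves the measure** -/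
theorem coll_preserving (hd : 1 ≤ d) : MeasurePreserving (coll (d := d)) (mu3 d) (mu3 d) := by
  have h1 := (mp_A2 (d := d) (-(1 / 2))).comp mp_A1
  have h2 : MeasurePreserving (Prod.map id swapd) (mu3 d) (mu3 d) :=
    (MeasurePreserving.id (volume : Measure (Vec d))).prod (swapd_preserving hd)
  have h3 := (mp_A1 (d := d)).comp (mp_A2 (1 / 2))
  have h4 := h3.comp (h2.comp h1)
  have e : coll (d := d) = ((fun p : Vec d × Vec d × Vec d => (p.1, p.1 - p.2.1, p.2.2)) ∘
      fun p : Vec d × Vec d × Vec d => (p.1 + (1 / 2 : ℝ) • p.2.1, p.2.1, p.2.2)) ∘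
      (Prod.map id swapd ∘ ((fun p : Vec d × Vec d × Vec d => (p.1 + (-(1 / 2) : ℝ) • p.2.1, p.2.1, p.2.2)) ∘
        fun p : Vec d × Vec d × Vec d => (p.1, p.1 - p.2.1, p.2.2))) := by
    funext p
    obtain ⟨v, w, σ⟩ := p
    simp only [coll, Function.comp_apply, Prod.map_apply, id, swapd, post, post', dirk, Prod.mk.injEq]
    refine ⟨?_, ?_, trivial⟩
    · ext i; simp; ring
    · ext i; simp; ring
  rw [e]
  exact h4

theorem exch_preserving (hd : 1 ≤ d) : MeasurePreserving (exch (d := d)) (mu3 d) (mu3 d) := by
  have h1 : MeasurePreserving (MeasurableEquiv.prodAssoc (α := Vec d) (β := Vec d) (γ := Vec d))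
      (((volume : Measure (Vec d)).prod volume).prod (surf d)) (mu3 d) :=
    measurePreserving_prodAssoc _ _ _
  have h2 := h1.symm
  have h3 : MeasurePreserving (Prod.map (Prod.swap (α := Vec d) (β := Vec d)) (fun σ : Vec d => -σ))
      (((volume : Measure (Vec d)).prod volume).prod (surf d))
      (((volume : Measure (Vec d)).prod volume).prod (surf d)) :=
    Measure.measurePreserving_swap.prod (neg_preserving hd)
  exact h1.comp (h3.comp h2)

lemma integral_comp_mp {T : Vec d × Vec d × Vec d → Vec d × Vec d × Vec d}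
    (hT : MeasurePreserving T (mu3 d) (mu3 d)) {F : Vec d × Vec d × Vec d → ℝ} (hF : Measurable F) :
    ∫ p, F (T p) ∂(mu3 d) = ∫ p, F p ∂(mu3 d) := by
  have h := integral_map (μ := mu3 d) (φ := T) hT.measurable.aemeasurable (f := F)
    hF.aestronglyMeasurable
  rw [hT.map_eq] at h
  exact h.symm

/-- almost every `(v,w,σ)` has `v ≠ w` and `|σ| = 1` -/
lemma ae_good (hd : 1 ≤ d) : ∀ᵐ p ∂(mu3 d), p.1 ≠ p.2.1 ∧ nsq p.2.2 = 1 := by
  have hne : Nonempty (Fin d) := ⟨⟨0, by omega⟩⟩
  have hs : MeasurableSet {p : Vec d × Vec d × Vec d | p.1 ≠ p.2.1 ∧ nsq p.2.2 = 1} := by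
    refine MeasurableSet.inter ?_ ?_
    · exact (isClosed_eq (continuous_fst) (continuous_fst.comp continuous_snd)).measurableSet.compl
    · exact (isClosed_eq (continuous_sq.comp (continuous_snd.comp continuous_snd))
        continuous_const).measurableSet
  refine (Measure.ae_prod_iff_ae_ae hs).2 (Eventually.of_forall fun v => ?_)
  have hs2 : MeasurableSet {q : Vec d × Vec d | v ≠ q.1 ∧ nsq q.2 = 1} := by
    refine MeasurableSet.inter ?_ ?_
    · exact (isClosed_eq (continuous_const) (continuous_fst)).measurableSet.compl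
    · exact (isClosed_eq (continuous_sq.comp continuous_snd) continuous_const).measurableSet
  refine (Measure.ae_prod_iff_ae_ae hs2).2 ?_
  have h1 : ∀ᵐ w ∂(volume : Measure (Vec d)), v ≠ w := by
    have : (volume : Measure (Vec d)) {v} = 0 := measure_singleton v
    filter_upwards [compl_mem_ae_iff.2 this] with w hw h
    exact hw h.symm
  filter_upwards [h1] with w hw
  filter_upwards [surf_ae] with σ hσ
  exact ⟨hw, hσ⟩

end Pool.Agent.H25.Kin
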