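import Pool.Agent.H25.Kin.BInt

/-!
# Weak form of the Boltzmann operator with grazing collisions cut off
-/

set_option autoImplicit false

open MeasureTheory Set Filter Topology
open scoped ENNReal

namespace Pool.Agent.H25.Kin

variable {d : ℕ} {γ β : ℝ} {b : ℝ → ℝ} {C ε : ℝ}

/-- the bound of the angular kernel -/
def AngBound (b : ℝ → ℝ) (C β : ℝ) : Prop :=
  0 ≤ C ∧ ∀ x, -1 ≤ x → x < 1 → 0 ≤ b x ∧ b x ≤ C * (1 - x) ^ (-β)

lemma kerB_nonneg (hC : AngBound b C β) (hε : 0 < ε) {v w σ : Vec d} (hσ : nsq σ = 1) :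
    0 ≤ kerB γ b ε v w σ := by
  unfold kerB
  split_ifs with h
  · have h1 := (abs_le.1 (abs_cosTh_le (v := v) (w := w) hσ)).1
    exact mul_nonneg (Real.rpow_nonneg (len_nonneg _) _) (hC.2 _ h1 (by linarith)).1
  · exact le_refl _

lemma kerB_le_ang (hC : AngBound b C β) (hε : 0 < ε) {v w σ : Vec d} (hσ : nsq σ = 1) :
    kerB γ b ε v w σ ≤ C * len (v - w) ^ γ * (1 - cosTh v w σ) ^ (-β) := by
  have h0 := one_sub_cosTh_nonneg (v := v) (w := w) hσ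
  have h2 := Real.rpow_nonneg (len_nonneg (v - w)) γ
  have h3 := Real.rpow_nonneg h0 (-β)
  have hC0 := hC.1
  unfold kerB
  split_ifs with h
  · have h1 := (abs_le.1 (abs_cosTh_le (v := v) (w := w) hσ)).1
    have := (hC.2 _ h1 (by linarith)).2
    calc len (v - w) ^ γ * b (cosTh v w σ) ≤ len (v - w) ^ γ * (C * (1 - cosTh v w σ) ^ (-β)) := by
          gcongr
      _ = _ := by ring
  · positivity

lemma kerB_le_eps (hC : AngBound b C β) (hβ : 0 ≤ β) (hε : 0 < ε) {v w σ : Vec d} (hσ : nsq σ = 1) :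
    kerB γ b ε v w σ ≤ C * ε ^ (-β) * len (v - w) ^ γ := by
  have h2 := Real.rpow_nonneg (len_nonneg (v - w)) γ
  have h3 := Real.rpow_nonneg hε.le (-β)
  have hC0 := hC.1
  unfold kerB
  split_ifs with h
  · have h1 := (abs_le.1 (abs_cosTh_le (v := v) (w := w) hσ)).1
    have h4 := (hC.2 _ h1 (by linarith)).2
    have h5 : (1 - cosTh v w σ) ^ (-β) ≤ ε ^ (-β) :=
      Real.rpow_le_rpow_of_nonpos hε (by linarith) (by linarith)
    calc len (v - w) ^ γ * b (cosTh v w σ) ≤ len (v - w) ^ γ * (C * ε ^ (-β)) := by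
          gcongr
          exact h4.trans (by gcongr)
      _ = _ := by ring
  · positivity

/-- integrability on `dv dw dσ` -/
lemma int3 (hd : 2 ≤ d) (h1 : -2 < γ) (h2 : γ ≤ 2) {F : Vec d × Vec d × Vec d → ℝ}
    (hF : Measurable F) {A : ℝ} (hA : 0 ≤ A)
    (hb : ∀ v w σ, nsq σ = 1 → |F (v, w, σ)| ≤
      A * (len (v - w) ^ γ * (1 + nsq (v - w)) * pw (d + 1 + (d + 5)) v w)) :
    Integrable F (mu3 d) := by
  have i1 : Integrable (fun z : (Vec d × Vec d) × Vec d => (wt d z.1.1 * kg γ (z.1.1 - z.1.2)) * 1)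
      (((volume : Measure (Vec d)).prod volume).prod (surf d)) :=
    (kg_pair hd h1 h2).mul_prod (integrable_const (1 : ℝ))
  have h3 : MeasurePreserving (MeasurableEquiv.prodAssoc (α := Vec d) (β := Vec d) (γ := Vec d))
      (((volume : Measure (Vec d)).prod volume).prod (surf d)) (mu3 d) :=
    measurePreserving_prodAssoc _ _ _
  have i2 := (h3.symm).integrable_comp_of_integrable i1
  have i3 := i2.const_mul A
  refine i3.mono' hF.aestronglyMeasurable ?_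
  filter_upwards [ae_good (by omega : 1 ≤ d)] with p hp
  obtain ⟨v, w, σ⟩ := p
  have e : A * ((fun z : (Vec d × Vec d) × Vec d => (wt d z.1.1 * kg γ (z.1.1 - z.1.2)) * 1) ∘
      (MeasurableEquiv.prodAssoc (α := Vec d) (β := Vec d) (γ := Vec d)).symm) (v, w, σ) =
      A * (wt d v * kg γ (v - w)) := by
    change A * ((wt d v * kg γ (v - w)) * 1) = _
    rw [mul_one]
  rw [e, Real.norm_eq_abs]
  refine (hb v w σ hp.2).trans (mul_le_mul_of_nonneg_left ?_ hA)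
  exact kg_bound γ (d + 1) v w

lemma pw_mul (N K : ℕ) (v w : Vec d) : pw (N + K) v w * ((1 + ‖v‖) * (1 + ‖w‖)) ^ K = pw N v w := by
  unfold pw
  have : 0 < (1 + ‖v‖) * (1 + ‖w‖) := mul_pos (w_pos v) (w_pos w)
  rw [pow_add, mul_inv]
  field_simp

lemma norm_post_le {v w u : Vec d} (h : nsq u ≤ nsq v + nsq w) :
    1 + ‖u‖ ≤ (d + 1) * ((1 + ‖v‖) * (1 + ‖w‖)) := by
  have h1 := norm_sq_le_sq u
  have h2 := sq_le v
  have h3 := sq_le w
  have hv := norm_nonneg v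
  have hw := norm_nonneg w
  have hu := norm_nonneg u
  have hd : (0 : ℝ) ≤ d := Nat.cast_nonneg d
  have h4 : ‖u‖ ^ 2 ≤ (((d : ℝ) + 1) * (‖v‖ + ‖w‖)) ^ 2 := by
    have a1 : ‖u‖ ^ 2 ≤ d * ‖v‖ ^ 2 + d * ‖w‖ ^ 2 := by linarith
    have a2 : (d : ℝ) * ‖v‖ ^ 2 + d * ‖w‖ ^ 2 ≤ ((d : ℝ) + 1) ^ 2 * (‖v‖ + ‖w‖) ^ 2 := by
      have b1 : ‖v‖ ^ 2 + ‖w‖ ^ 2 ≤ (‖v‖ + ‖w‖) ^ 2 := by nlinarith [mul_nonneg hv hw]
      have b2 : (d : ℝ) ≤ ((d : ℝ) + 1) ^ 2 := by nlinarith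
      calc (d : ℝ) * ‖v‖ ^ 2 + d * ‖w‖ ^ 2 = d * (‖v‖ ^ 2 + ‖w‖ ^ 2) := by ring
        _ ≤ ((d : ℝ) + 1) ^ 2 * (‖v‖ + ‖w‖) ^ 2 := by gcongr
    calc ‖u‖ ^ 2 ≤ _ := a1
      _ ≤ _ := a2
      _ = _ := by ring
  have h5 : ‖u‖ ≤ ((d : ℝ) + 1) * (‖v‖ + ‖w‖) := by
    exact (pow_le_pow_iff_left₀ hu (by positivity) (by norm_num)).1 h4
  nlinarith [mul_nonneg hv hw, mul_nonneg hd (mul_nonneg hv hw)]

lemma pg_post_le {φ : Vec d → ℝ} (hφ : PG φ) : ∃ (K : ℕ) (B : ℝ), 0 ≤ B ∧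
    ∀ v w σ : Vec d, nsq σ = 1 → |φ v| ≤ B * ((1 + ‖v‖) * (1 + ‖w‖)) ^ K ∧
      |φ w| ≤ B * ((1 + ‖v‖) * (1 + ‖w‖)) ^ K ∧
      |φ (post v w σ)| ≤ B * ((1 + ‖v‖) * (1 + ‖w‖)) ^ K ∧
      |φ (post' v w σ)| ≤ B * ((1 + ‖v‖) * (1 + ‖w‖)) ^ K := by
  obtain ⟨K, D, hD0, hD⟩ := hφ.pos
  refine ⟨K, D * ((d : ℝ) + 1) ^ K, by positivity, fun v w σ hσ => ?_⟩
  have key : ∀ u : Vec d, nsq u ≤ nsq v + nsq w →
      |φ u| ≤ D * ((d : ℝ) + 1) ^ K * ((1 + ‖v‖) * (1 + ‖w‖)) ^ K := by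
    intro u hu
    have h1 := pow_le_pow_left₀ (w_pos u).le (norm_post_le hu) K
    rw [mul_pow] at h1
    calc |φ u| ≤ D * (1 + ‖u‖) ^ K := hD u
      _ ≤ D * (((d : ℝ) + 1) ^ K * ((1 + ‖v‖) * (1 + ‖w‖)) ^ K) := by gcongr
      _ = _ := by ring
  have e := energy_post (v := v) (w := w) hσ
  have h1 := sq_nonneg' v
  have h2 := sq_nonneg' w
  have h3 := sq_nonneg' (post v w σ)
  have h4 := sq_nonneg' (post' v w σ)
  exact ⟨key v (by linarith), key w (by linarith), key _ (by linarith), key _ (by linarith)⟩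

/-- integrability of `B_ε Π φ` with `Π` a product of values of `g` -/
lemma int_piece (hd : 2 ≤ d) (h1 : -2 < γ) (h2 : γ ≤ 2) (hbm : Measurable b) (hC : AngBound b C β)
    (hβ : 0 ≤ β) (hε : 0 < ε) {P Φ : Vec d × Vec d × Vec d → ℝ} (hP : Measurable P)
    (hΦ : Measurable Φ) {K : ℕ} {A B : ℝ} (hA : 0 ≤ A) (hB : 0 ≤ B)
    (hPb : ∀ v w σ, nsq σ = 1 → |P (v, w, σ)| ≤ A * pw (d + 1 + (d + 5) + K) v w)
    (hΦb : ∀ v w σ, nsq σ = 1 → |Φ (v, w, σ)| ≤ B * ((1 + ‖v‖) * (1 + ‖w‖)) ^ K) :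
    Integrable (fun p : Vec d × Vec d × Vec d => kerB γ b ε p.1 p.2.1 p.2.2 * P p * Φ p) (mu3 d) := by
  have hε' := Real.rpow_nonneg hε.le (-β)
  have hC0 := hC.1
  refine int3 hd h1 h2 (((measurable_kerB γ hbm ε).mul hP).mul hΦ)
    (A := C * ε ^ (-β) * A * B) (by positivity) fun v w σ hσ => ?_
  rw [abs_mul, abs_mul, abs_of_nonneg (kerB_nonneg hC hε hσ)]
  have a1 := kerB_le_eps (γ := γ) hC hβ hε (v := v) (w := w) hσ
  have a2 := hPb v w σ hσ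
  have a3 := hΦb v w σ hσ
  have hl := Real.rpow_nonneg (len_nonneg (v - w)) γ
  have hp := pw_nonneg (d + 1 + (d + 5)) v w
  have hpK := pw_nonneg (d + 1 + (d + 5) + K) v w
  have hs := sq_nonneg' (v - w)
  have hw : 0 ≤ ((1 + ‖v‖) * (1 + ‖w‖)) ^ K := pow_nonneg (mul_pos (w_pos v) (w_pos w)).le _
  calc kerB γ b ε v w σ * |P (v, w, σ)| * |Φ (v, w, σ)|
      ≤ (C * ε ^ (-β) * len (v - w) ^ γ) * (A * pw (d + 1 + (d + 5) + K) v w) *
        (B * ((1 + ‖v‖) * (1 + ‖w‖)) ^ K) := by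
        refine mul_le_mul (mul_le_mul a1 a2 (abs_nonneg _) (by positivity)) a3 (abs_nonneg _)
          (by positivity)
    _ = C * ε ^ (-β) * A * B * (len (v - w) ^ γ * 1 *
        (pw (d + 1 + (d + 5) + K) v w * ((1 + ‖v‖) * (1 + ‖w‖)) ^ K)) := by ring
    _ ≤ C * ε ^ (-β) * A * B * (len (v - w) ^ γ * (1 + nsq (v - w)) * pw (d + 1 + (d + 5)) v w) := by
        rw [pw_mul]
        gcongr
        linarith

lemma int_four {α : Type*} [MeasurableSpace α] {μ : Measure α} {A B C D : α → ℝ}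
    (hA : Integrable A μ) (hB : Integrable B μ) (hC : Integrable C μ) (hD : Integrable D μ) :
    ∫ x, (A x + B x - C x - D x) ∂μ = (∫ x, A x ∂μ) + (∫ x, B x ∂μ) - (∫ x, C x ∂μ) - ∫ x, D x ∂μ := by
  have h1 : Integrable (fun x => A x + B x) μ := hA.add hB
  have h2 : Integrable (fun x => A x + B x - C x) μ := h1.sub hC
  rw [integral_sub h2 hD, integral_sub h1 hC, integral_add hA hB]

/-- **weak form** of the cut-off operator -/
theorem weak_cut (hd : 2 ≤ d) (h1 : -2 < γ) (h2 : γ ≤ 2) (hbm : Measurable b)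
    (hC : AngBound b C β) (hβ : 0 ≤ β) (hε : 0 < ε) {g φ : Vec d → ℝ} (hg : RD g)
    (hgc : Continuous g) (hφ : PG φ) (hφm : Measurable φ) :
    ∫ v, boltzCut γ b ε g v * φ v = (1 / 2) * ∫ p : Vec d × Vec d × Vec d,
      kerB γ b ε p.1 p.2.1 p.2.2 * (g p.2.1 * g p.1) *
        (φ (post p.1 p.2.1 p.2.2) + φ (post' p.1 p.2.1 p.2.2) - φ p.1 - φ p.2.1) ∂(mu3 d) := by
  have hd1 : 1 ≤ d := by omega
  obtain ⟨K, B, hB0, hB⟩ := pg_post_le hφ
  obtain ⟨A1, hA1, hA1'⟩ := post_prod_le hg (d + 1 + (d + 5) + K)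
  obtain ⟨A2, hA2, hA2'⟩ := prod_le' hg (d + 1 + (d + 5) + K)
  have mpost := (continuous_post (d := d)).measurable
  have mpost' := (continuous_post' (d := d)).measurable
  have mv : Measurable fun p : Vec d × Vec d × Vec d => p.1 := measurable_fst
  have mw : Measurable fun p : Vec d × Vec d × Vec d => p.2.1 := measurable_fst.comp measurable_snd
  have mg := hgc.measurable
  set P1 : Vec d × Vec d × Vec d → ℝ := fun p => g (post' p.1 p.2.1 p.2.2) * g (post p.1 p.2.1 p.2.2)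
    with hP1
  set P2 : Vec d × Vec d × Vec d → ℝ := fun p => g p.2.1 * g p.1 with hP2
  have mP1 : Measurable P1 := (mg.comp mpost').mul (mg.comp mpost)
  have mP2 : Measurable P2 := (mg.comp mw).mul (mg.comp mv)
  have bP1 : ∀ v w σ, nsq σ = 1 → |P1 (v, w, σ)| ≤ A1 * pw (d + 1 + (d + 5) + K) v w := by
    intro v w σ hσ
    have := hA1' v w σ hσ
    rw [mul_comm] at this
    exact this
  have bP2 : ∀ v w σ, nsq σ = 1 → |P2 (v, w, σ)| ≤ A2 * pw (d + 1 + (d + 5) + K) v w := by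
    intro v w σ _
    have := hA2' v w
    rw [mul_comm] at this
    exact this
  have mk := measurable_kerB (d := d) γ hbm ε
  -- the pieces
  have iF1 : Integrable (fun p : Vec d × Vec d × Vec d =>
      kerB γ b ε p.1 p.2.1 p.2.2 * P1 p * φ p.1) (mu3 d) :=
    int_piece hd h1 h2 hbm hC hβ hε mP1 (hφm.comp mv) hA1 hB0 bP1
      (fun v w σ hσ => (hB v w σ hσ).1)
  have iF2 : Integrable (fun p : Vec d × Vec d × Vec d =>
      kerB γ b ε p.1 p.2.1 p.2.2 * P2 p * φ p.1) (mu3 d) :=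
    int_piece hd h1 h2 hbm hC hβ hε mP2 (hφm.comp mv) hA2 hB0 bP2
      (fun v w σ hσ => (hB v w σ hσ).1)
  have iF3 : Integrable (fun p : Vec d × Vec d × Vec d =>
      kerB γ b ε p.1 p.2.1 p.2.2 * P2 p * φ (post p.1 p.2.1 p.2.2)) (mu3 d) :=
    int_piece hd h1 h2 hbm hC hβ hε mP2 (hφm.comp mpost) hA2 hB0 bP2
      (fun v w σ hσ => (hB v w σ hσ).2.2.1)
  have iF4 : Integrable (fun p : Vec d × Vec d × Vec d =>
      kerB γ b ε p.1 p.2.1 p.2.2 * P2 p * φ (post' p.1 p.2.1 p.2.2)) (mu3 d) :=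
    int_piece hd h1 h2 hbm hC hβ hε mP2 (hφm.comp mpost') hA2 hB0 bP2
      (fun v w σ hσ => (hB v w σ hσ).2.2.2)
  have iF5 : Integrable (fun p : Vec d × Vec d × Vec d =>
      kerB γ b ε p.1 p.2.1 p.2.2 * P2 p * φ p.2.1) (mu3 d) :=
    int_piece hd h1 h2 hbm hC hβ hε mP2 (hφm.comp mw) hA2 hB0 bP2
      (fun v w σ hσ => (hB v w σ hσ).2.1)
  -- step 1
  have step1 : ∫ v, boltzCut γ b ε g v * φ v = ∫ p : Vec d × Vec d × Vec d,
      (kerB γ b ε p.1 p.2.1 p.2.2 * P1 p * φ p.1 - kerB γ b ε p.1 p.2.1 p.2.2 * P2 p * φ p.1)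
        ∂(mu3 d) := by
    have iX : Integrable (fun p : Vec d × Vec d × Vec d =>
      kerB γ b ε p.1 p.2.1 p.2.2 * P1 p * φ p.1 - kerB γ b ε p.1 p.2.1 p.2.2 * P2 p * φ p.1)
        (mu3 d) := iF1.sub iF2
    rw [integral_prod _ iX]
    refine integral_congr_ae ?_
    filter_upwards [iX.prod_right_ae] with v hv
    rw [integral_prod _ hv]
    unfold boltzCut
    rw [← integral_mul_const]
    refine integral_congr_ae (Eventually.of_forall fun w => ?_)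
    simp only
    rw [← integral_mul_const]
    refine integral_congr_ae (Eventually.of_forall fun σ => ?_)
    simp only [hP1, hP2, Pi.sub_apply]
    ring
  rw [step1, integral_sub iF1 iF2]
  have m3 : Measurable fun p : Vec d × Vec d × Vec d =>
      kerB γ b ε p.1 p.2.1 p.2.2 * P2 p * φ (post p.1 p.2.1 p.2.2) :=
    (mk.mul mP2).mul (hφm.comp mpost)
  have m2 : Measurable fun p : Vec d × Vec d × Vec d =>
      kerB γ b ε p.1 p.2.1 p.2.2 * P2 p * φ p.1 := (mk.mul mP2).mul (hφm.comp mv)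
  -- step 2 : collision map
  have step2 : ∫ p : Vec d × Vec d × Vec d, kerB γ b ε p.1 p.2.1 p.2.2 * P1 p * φ p.1 ∂(mu3 d) =
      ∫ p : Vec d × Vec d × Vec d, kerB γ b ε p.1 p.2.1 p.2.2 * P2 p *
        φ (post p.1 p.2.1 p.2.2) ∂(mu3 d) := by
    refine Eq.trans ?_ (integral_comp_mp (coll_preserving hd1) m3)
    refine integral_congr_ae ?_
    filter_upwards [ae_good hd1] with p hp
    obtain ⟨v, w, σ⟩ := p
    have hp1 : v ≠ w := hp.1
    have hp2 : nsq σ = 1 := hp.2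
    simp only [coll, hP1, hP2]
    rw [kerB_post γ b ε hp1 hp2, post_post hp1 hp2]
  -- step 3 : exchange
  have step3 : ∫ p : Vec d × Vec d × Vec d, kerB γ b ε p.1 p.2.1 p.2.2 * P2 p *
        φ (post' p.1 p.2.1 p.2.2) ∂(mu3 d) =
      ∫ p : Vec d × Vec d × Vec d, kerB γ b ε p.1 p.2.1 p.2.2 * P2 p *
        φ (post p.1 p.2.1 p.2.2) ∂(mu3 d) := by
    refine Eq.trans ?_ (integral_comp_mp (exch_preserving hd1) m3)
    refine integral_congr_ae (Eventually.of_forall fun p => ?_)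
    obtain ⟨v, w, σ⟩ := p
    simp only [exch, hP2]
    rw [kerB_swap, post_swap, mul_comm (g v) (g w)]
  have step4 : ∫ p : Vec d × Vec d × Vec d, kerB γ b ε p.1 p.2.1 p.2.2 * P2 p *
        φ p.2.1 ∂(mu3 d) =
      ∫ p : Vec d × Vec d × Vec d, kerB γ b ε p.1 p.2.1 p.2.2 * P2 p * φ p.1 ∂(mu3 d) := by
    refine Eq.trans ?_ (integral_comp_mp (exch_preserving hd1) m2)
    refine integral_congr_ae (Eventually.of_forall fun p => ?_)
    obtain ⟨v, w, σ⟩ := p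
    simp only [exch, hP2]
    rw [kerB_swap, mul_comm (g v) (g w)]
  have e : ∫ p : Vec d × Vec d × Vec d,
      kerB γ b ε p.1 p.2.1 p.2.2 * (g p.2.1 * g p.1) *
        (φ (post p.1 p.2.1 p.2.2) + φ (post' p.1 p.2.1 p.2.2) - φ p.1 - φ p.2.1) ∂(mu3 d) =
      (∫ p : Vec d × Vec d × Vec d, kerB γ b ε p.1 p.2.1 p.2.2 * P2 p *
        φ (post p.1 p.2.1 p.2.2) ∂(mu3 d)) +
      (∫ p : Vec d × Vec d × Vec d, kerB γ b ε p.1 p.2.1 p.2.2 * P2 p *
        φ (post' p.1 p.2.1 p.2.2) ∂(mu3 d)) -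
      (∫ p : Vec d × Vec d × Vec d, kerB γ b ε p.1 p.2.1 p.2.2 * P2 p * φ p.1 ∂(mu3 d)) -
      (∫ p : Vec d × Vec d × Vec d, kerB γ b ε p.1 p.2.1 p.2.2 * P2 p * φ p.2.1 ∂(mu3 d)) := by
    rw [← int_four iF3 iF4 iF2 iF5]
    refine integral_congr_ae (Eventually.of_forall fun p => ?_)
    simp only [hP2]
    ring
  rw [e, step2, step3, step4]
  ring

end Pool.Agent.H25.Kin
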