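import Pool.Agent.H25.Kin.Defs

/-!
# Rapidly decaying functions of the velocity
-/

set_option autoImplicit false

open MeasureTheory Set

namespace Pool.Agent.H25.Kin

variable {d : ℕ} {E F : Type*} [NormedAddCommGroup E] [NormedAddCommGroup F]

lemma sq_nonneg' (z : Vec d) : 0 ≤ nsq z := Finset.sum_nonneg fun i _ => sq_nonneg _

lemma sq_le (z : Vec d) : nsq z ≤ d * ‖z‖ ^ 2 := by
  unfold nsq
  calc ∑ i, z i ^ 2 ≤ ∑ _i : Fin d, ‖z‖ ^ 2 := by
        refine Finset.sum_le_sum fun i _ => ?_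
        rw [← sq_abs, ← Real.norm_eq_abs]
        exact pow_le_pow_left₀ (norm_nonneg _) (norm_le_pi_norm z i) 2
    _ = d * ‖z‖ ^ 2 := by simp

lemma continuous_sq : Continuous (nsq : Vec d → ℝ) := by
  unfold nsq; fun_prop

/-- rapid decay -/
def RD (h : Vec d → E) : Prop := ∀ N : ℕ, ∃ C, ∀ v, (1 + ‖v‖) ^ N * ‖h v‖ ≤ C

/-- polynomial growth -/
def PG (h : Vec d → E) : Prop := ∃ (N : ℕ) (C : ℝ), ∀ v, ‖h v‖ ≤ C * (1 + ‖v‖) ^ N

lemma one_le_w (v : Vec d) : 1 ≤ 1 + ‖v‖ := by linarith [norm_nonneg v]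

lemma w_pos (v : Vec d) : 0 < 1 + ‖v‖ := by linarith [norm_nonneg v]

lemma RD.bound {h : Vec d → E} (hh : RD h) (N : ℕ) : ∃ C, 0 ≤ C ∧ ∀ v, ‖h v‖ ≤ C * ((1 + ‖v‖) ^ N)⁻¹ := by
  obtain ⟨C, hC⟩ := hh N
  refine ⟨C, ?_, fun v => ?_⟩
  · exact le_trans (by positivity) (hC 0)
  · rw [← div_eq_mul_inv, le_div_iff₀ (pow_pos (w_pos v) N), mul_comm]
    exact hC v

lemma PG.const (c : E) : PG (fun _ : Vec d => c) := ⟨0, ‖c‖, fun v => by simp⟩

lemma PG.pos {h : Vec d → E} (hh : PG h) : ∃ (N : ℕ) (C : ℝ), 0 ≤ C ∧ ∀ v, ‖h v‖ ≤ C * (1 + ‖v‖) ^ N := by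
  obtain ⟨N, C, hC⟩ := hh
  exact ⟨N, C, by simpa using (norm_nonneg _).trans (hC 0), hC⟩

lemma RD.toPG {h : Vec d → E} (hh : RD h) : PG h := by
  obtain ⟨C, hC⟩ := hh 0
  exact ⟨0, C, fun v => by simpa using hC v⟩

lemma RD.mono {h : Vec d → E} {k : Vec d → F} (hh : RD h) (C : ℝ) (hk : ∀ v, ‖k v‖ ≤ C * ‖h v‖) :
    RD k := by
  intro N
  obtain ⟨D, hD⟩ := hh N
  by_cases hC : 0 ≤ C
  · refine ⟨C * D, fun v => ?_⟩
    calc (1 + ‖v‖) ^ N * ‖k v‖ ≤ (1 + ‖v‖) ^ N * (C * ‖h v‖) :=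
          mul_le_mul_of_nonneg_left (hk v) (pow_nonneg (w_pos v).le N)
      _ = C * ((1 + ‖v‖) ^ N * ‖h v‖) := by ring
      _ ≤ C * D := mul_le_mul_of_nonneg_left (hD v) hC
  · push Not at hC
    refine ⟨0, fun v => ?_⟩
    have : ‖k v‖ ≤ 0 := (hk v).trans (mul_nonpos_of_nonpos_of_nonneg hC.le (norm_nonneg _))
    have h2 : ‖k v‖ = 0 := le_antisymm this (norm_nonneg _)
    simp [h2]

lemma RD.mul_PG {h k : Vec d → ℝ} (hh : RD h) (hk : PG k) : RD (fun v => h v * k v) := by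
  intro N
  obtain ⟨M, C, hC0, hC⟩ := hk.pos
  obtain ⟨D, hD⟩ := hh (N + M)
  refine ⟨C * D, fun v => ?_⟩
  calc (1 + ‖v‖) ^ N * ‖h v * k v‖ = (1 + ‖v‖) ^ N * (‖h v‖ * ‖k v‖) := by rw [norm_mul]
    _ ≤ (1 + ‖v‖) ^ N * (‖h v‖ * (C * (1 + ‖v‖) ^ M)) := by
        gcongr
        exact hC v
    _ = C * ((1 + ‖v‖) ^ (N + M) * ‖h v‖) := by ring
    _ ≤ C * D := mul_le_mul_of_nonneg_left (hD v) hC0

lemma RD.add {h k : Vec d → E} (hh : RD h) (hk : RD k) : RD (fun v => h v + k v) := by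
  intro N
  obtain ⟨C, hC⟩ := hh N
  obtain ⟨D, hD⟩ := hk N
  refine ⟨C + D, fun v => ?_⟩
  calc (1 + ‖v‖) ^ N * ‖h v + k v‖ ≤ (1 + ‖v‖) ^ N * (‖h v‖ + ‖k v‖) := by
        gcongr
        exact norm_add_le _ _
    _ ≤ C + D := by rw [mul_add]; exact add_le_add (hC v) (hD v)

lemma RD.neg {h : Vec d → E} (hh : RD h) : RD (fun v => -h v) := by
  intro N
  obtain ⟨C, hC⟩ := hh N
  exact ⟨C, fun v => by simpa using hC v⟩

lemma RD.sum {ι : Type*} (s : Finset ι) {h : ι → Vec d → ℝ} (hh : ∀ i ∈ s, RD (h i)) :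
    RD (fun v => ∑ i ∈ s, h i v) := by
  classical
  induction s using Finset.induction_on with
  | empty => intro N; exact ⟨0, fun v => by simp⟩
  | insert a s ha ih =>
    have h1 : RD (fun v => h a v + ∑ i ∈ s, h i v) :=
      (hh a (Finset.mem_insert_self a s)).add (ih fun i hi => hh i (Finset.mem_insert_of_mem hi))
    simpa [Finset.sum_insert ha] using h1

lemma PG.add {h k : Vec d → E} (hh : PG h) (hk : PG k) : PG (fun v => h v + k v) := by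
  obtain ⟨N, C, hC0, hC⟩ := hh.pos
  obtain ⟨M, D, hD0, hD⟩ := hk.pos
  refine ⟨N + M, C + D, fun v => ?_⟩
  have h1 := one_le_w v
  calc ‖h v + k v‖ ≤ ‖h v‖ + ‖k v‖ := norm_add_le _ _
    _ ≤ C * (1 + ‖v‖) ^ N + D * (1 + ‖v‖) ^ M := add_le_add (hC v) (hD v)
    _ ≤ C * (1 + ‖v‖) ^ (N + M) + D * (1 + ‖v‖) ^ (N + M) := by
        gcongr <;> first | exact h1 | omega
    _ = (C + D) * (1 + ‖v‖) ^ (N + M) := by ring

lemma PG.mul {h k : Vec d → ℝ} (hh : PG h) (hk : PG k) : PG (fun v => h v * k v) := by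
  obtain ⟨N, C, hC0, hC⟩ := hh.pos
  obtain ⟨M, D, hD0, hD⟩ := hk.pos
  refine ⟨N + M, C * D, fun v => ?_⟩
  calc ‖h v * k v‖ = ‖h v‖ * ‖k v‖ := norm_mul _ _
    _ ≤ (C * (1 + ‖v‖) ^ N) * (D * (1 + ‖v‖) ^ M) := by
        gcongr
        · exact hC v
        · exact hD v
    _ = C * D * (1 + ‖v‖) ^ (N + M) := by ring

lemma PG.neg {h : Vec d → E} (hh : PG h) : PG (fun v => -h v) := by
  obtain ⟨N, C, hC⟩ := hh
  exact ⟨N, C, fun v => by simpa using hC v⟩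

lemma PG.sum {ι : Type*} (s : Finset ι) {h : ι → Vec d → ℝ} (hh : ∀ i ∈ s, PG (h i)) :
    PG (fun v => ∑ i ∈ s, h i v) := by
  classical
  induction s using Finset.induction_on with
  | empty => simpa using PG.const (d := d) (0 : ℝ)
  | insert a s ha ih =>
    have h1 : PG (fun v => h a v + ∑ i ∈ s, h i v) :=
      (hh a (Finset.mem_insert_self a s)).add (ih fun i hi => hh i (Finset.mem_insert_of_mem hi))
    simpa [Finset.sum_insert ha] using h1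

lemma PG.coord (i : Fin d) : PG (fun v : Vec d => v i) :=
  ⟨1, 1, fun v => by
    have := norm_le_pi_norm v i
    have h2 := norm_nonneg v
    simp only [one_mul, pow_one]
    linarith⟩

lemma PG.nsq : PG (fun v : Vec d => nsq v) := by
  unfold Pool.Agent.H25.Kin.nsq
  refine PG.sum _ fun i _ => ?_
  have := (PG.coord i).mul (PG.coord i)
  simpa [pow_two] using this

/-- the weight used to dominate -/
noncomputable def wt (d : ℕ) (v : Vec d) : ℝ := ((1 + ‖v‖) ^ (d + 1))⁻¹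

lemma wt_nonneg (v : Vec d) : 0 ≤ wt d v := inv_nonneg.2 (pow_nonneg (w_pos v).le _)

lemma integrable_wt : Integrable (wt d) := by
  have h := integrable_one_add_norm (E := Vec d) (μ := volume) (r := (d + 1 : ℕ)) (by simp)
  refine h.congr (Filter.Eventually.of_forall fun v => ?_)
  unfold wt
  simp only
  rw [Real.rpow_neg (w_pos v).le, Real.rpow_natCast]

lemma RD.integrable {h : Vec d → E} (hh : RD h) (hm : AEStronglyMeasurable h volume) :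
    Integrable h := by
  obtain ⟨C, hC0, hC⟩ := hh.bound (d + 1)
  refine (integrable_wt.const_mul C).mono' hm (Filter.Eventually.of_forall fun v => ?_)
  exact hC v

/-- Peetre-type inequality -/
lemma w_le (v z : Vec d) : 1 + ‖z‖ ≤ (1 + ‖v‖) * (1 + ‖v - z‖) := by
  have h1 : ‖z‖ ≤ ‖v‖ + ‖v - z‖ := by
    calc ‖z‖ = ‖v - (v - z)‖ := by rw [sub_sub_cancel]
      _ ≤ ‖v‖ + ‖v - z‖ := norm_sub_le _ _
  nlinarith [norm_nonneg v, norm_nonneg (v - z), mul_nonneg (norm_nonneg v) (norm_nonneg (v - z))]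

lemma w_sub_le (v w : Vec d) : 1 + ‖v - w‖ ≤ (1 + ‖v‖) * (1 + ‖w‖) := by
  have h1 : ‖v - w‖ ≤ ‖v‖ + ‖w‖ := norm_sub_le _ _
  nlinarith [norm_nonneg v, norm_nonneg w, mul_nonneg (norm_nonneg v) (norm_nonneg w)]

end Pool.Agent.H25.Kin
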