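import Pool.Agent.H25.Kin.Admis

/-!
# Data below a given datum
-/

set_option autoImplicit false

open MeasureTheory Set

namespace Pool.Agent.H25.Kin

variable {d : ℕ}

/-- `f₀ ≤ F₀`, and `f₀` is close to `F₀`: the hydrodynamic bounds of `F₀` hold for `f₀` up to `ε`
(with the same upper bounds for the mass and energy densities), and `F₀ - f₀` is at most `ε` in
weighted `L^∞_x L^p_v`, `1 ≤ p ≤ N`, and in weighted `W^{1,r}` on the unit cube, `1 ≤ r < d`. -/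
structure IsBelow (F₀ f₀ : Vec d → Vec d → ℝ) (ε : ℝ) (N : ℕ) : Prop where
  le : ∀ x v, f₀ x v ≤ F₀ x v
  hydro : ∀ m M E H x, HydroBounds m M E H (F₀ x) → HydroBounds (m - ε) M E (H + ε) (f₀ x)
  lebesgue : ∀ p ∈ Icc (1 : ℝ) N, ∀ x, ∫ v, (1 + ‖v‖) ^ N * |f₀ x v - F₀ x v| ^ p ≤ ε
  sobolev : ∀ r : ℕ, 1 ≤ r → r < d → ∫ x in Icc (0 : Vec d) 1, ∫ v, (1 + ‖v‖) ^ N *
    ‖fderiv ℝ (fun q : Vec d × Vec d => f₀ q.1 q.2 - F₀ q.1 q.2) (x, v)‖ ^ r ≤ ε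

end Pool.Agent.H25.Kin
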