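import Pool.Agent.H25.Kin.Cap

/-!
# Spherical caps and singular angular integrals
-/

set_option autoImplicit false

open MeasureTheory Set Filter Topology
open scoped ENNReal

namespace Pool.Agent.H25.Kin

variable {d : ℕ}

lemma measurableSet_cap (k : Vec d) (u : ℝ) : MeasurableSet {σ : Vec d | 1 - dot k σ ≤ u} :=
  (isClosed_le (continuous_const.sub (dot_cont k)) continuous_const).measurableSet

lemma cap_small (hd : 1 ≤ d) : ∃ C : ℝ, 0 ≤ C ∧ ∀ k : Vec d, nsq k = 1 → ∀ u : ℝ, 0 < u → u ≤ 1 →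
    surf d {σ | 1 - dot k σ ≤ u} ≤ ENNReal.ofReal (C * Real.sqrt (2 * u) ^ (d - 1)) := by
  set K : Set (Vec d) := {z | nsq z ≤ 2} with hK
  have hKb : (volume : Measure (Vec d)) K < ⊤ := by
    have hsub : K ⊆ Metric.closedBall 0 2 := by
      intro z hz
      rw [mem_closedBall_zero_iff]
      have h1 := norm_sq_le_sq z
      have h2 : nsq z ≤ 2 := hz
      nlinarith [norm_nonneg z]
    exact (measure_mono hsub).trans_lt (isCompact_closedBall _ _).measure_lt_top
  refine ⟨d * ((volume : Measure (Vec d)) K).toReal, by positivity, fun k hk u hu hu1 => ?_⟩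
  set a := Real.sqrt (2 * u) with ha
  have ha0 : 0 < a := Real.sqrt_pos.2 (by linarith)
  have ha2 : a ^ 2 = 2 * u := Real.sq_sqrt (by linarith)
  have hm := measurableSet_cap k u
  have h1 : surf d {σ | 1 - dot k σ ≤ u} =
      ∫⁻ σ, ({σ : Vec d | 1 - dot k σ ≤ u}).indicator (fun _ => (1 : ℝ≥0∞)) σ ∂(surf d) := by
    rw [lintegral_indicator_const hm, one_mul]
  have hmi : Measurable (({σ : Vec d | 1 - dot k σ ≤ u}).indicator (fun _ => (1 : ℝ≥0∞))) :=
    measurable_const.indicator hm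
  rw [h1, surf_formula hd hmi]
  have hbm : MeasurableSet {z : Vec d | nsq z < 1} :=
    (isOpen_lt continuous_sq continuous_const).measurableSet
  have hsubset : ∀ z : Vec d, nsq z < 1 → 1 - dot k ((len z)⁻¹ • z) ≤ u → z ∈ dil k a '' K := by
    intro z hz1 hz2
    refine ⟨a⁻¹ • z + ((1 - a⁻¹) * dot k z) • k, ?_, ?_⟩
    · -- the preimage lies in K
      have hl0 := len_nonneg z
      have hlsq := len_sq z
      by_cases hz0 : len z = 0
      · have hn : nsq z = 0 := by rw [← hlsq, hz0]; norm_num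
        have hdz : dot k z = 0 := by
          have := dot_sq_le k z
          rw [hn, mul_zero] at this
          exact pow_eq_zero_iff (two_ne_zero) |>.1 (le_antisymm this (sq_nonneg _))
        change nsq (a⁻¹ • z + ((1 - a⁻¹) * dot k z) • k) ≤ 2
        rw [hdz, mul_zero, zero_smul, add_zero, nsq_smul, hn, mul_zero]
        norm_num
      · have hlp : 0 < len z := lt_of_le_of_ne hl0 (Ne.symm hz0)
        rw [dot_smul] at hz2
        have h3 : (1 - u) * len z ≤ dot k z := by
          have h4 : 1 - u ≤ (len z)⁻¹ * dot k z := by linarith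
          calc (1 - u) * len z ≤ ((len z)⁻¹ * dot k z) * len z := by gcongr
            _ = dot k z := by field_simp
        have h5 : 0 ≤ dot k z := le_trans (mul_nonneg (by linarith) hl0) h3
        have h6 : dot k z ^ 2 ≤ 1 := by
          have := dot_sq_le k z
          rw [hk, one_mul] at this
          linarith
        have h7 : ((1 - u) * len z) ^ 2 ≤ dot k z ^ 2 :=
          pow_le_pow_left₀ (mul_nonneg (by linarith) hl0) h3 2
        have h8 : nsq z - dot k z ^ 2 ≤ 2 * u := by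
          have h70 : ((1 - u) * len z) ^ 2 = (1 - u) ^ 2 * nsq z := by rw [mul_pow, hlsq]
          rw [h70] at h7
          have h71 : 0 ≤ nsq z := by rw [← hlsq]; positivity
          have h72 : u ^ 2 * nsq z ≥ 0 := by positivity
          have h73 : u * nsq z ≤ u * 1 := by gcongr
          nlinarith
        change nsq (a⁻¹ • z + ((1 - a⁻¹) * dot k z) • k) ≤ 2
        rw [nsq_add, nsq_smul, nsq_smul, dot_smul, smul_dot, hk, dot_comm z k]
        have e : a⁻¹ ^ 2 * nsq z + 2 * ((1 - a⁻¹) * dot k z * (a⁻¹ * dot k z)) +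
            ((1 - a⁻¹) * dot k z) ^ 2 * 1 = a⁻¹ ^ 2 * (nsq z - dot k z ^ 2) + dot k z ^ 2 := by ring
        rw [e]
        have h9 : a⁻¹ ^ 2 * (nsq z - dot k z ^ 2) ≤ 1 := by
          rw [inv_pow, inv_mul_le_iff₀ (by positivity), ha2]
          linarith
        linarith
    · rw [dil_apply]
      have e1 : dot k (a⁻¹ • z + ((1 - a⁻¹) * dot k z) • k) = dot k z := by
        rw [dot_add, dot_smul, dot_smul, dot_self, hk]; ring
      rw [e1, smul_add, smul_smul, smul_smul, mul_inv_cancel₀ ha0.ne', one_smul, add_assoc, ← add_smul]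
      have e2 : a * ((1 - a⁻¹) * dot k z) + (1 - a) * dot k z = 0 := by
        field_simp; ring
      rw [e2, zero_smul, add_zero]
  have h2 : ∫⁻ z in {z : Vec d | nsq z < 1},
      ({σ : Vec d | 1 - dot k σ ≤ u}).indicator (fun _ => (1 : ℝ≥0∞)) ((len z)⁻¹ • z) ≤
      (volume : Measure (Vec d)) (dil k a '' K) := by
    have hKim : MeasurableSet (dil k a '' K) := by
      have hKc : IsCompact K := by
        refine Metric.isCompact_of_isClosed_isBounded
          (isClosed_le continuous_sq continuous_const) ?_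
        refine (Metric.isBounded_closedBall (x := (0 : Vec d)) (r := 2)).subset ?_
        intro z hz
        rw [mem_closedBall_zero_iff]
        have h1 := norm_sq_le_sq z
        have h2 : nsq z ≤ 2 := hz
        nlinarith [norm_nonneg z]
      exact (hKc.image (dil k a).continuous_of_finiteDimensional).measurableSet
    calc ∫⁻ z in {z : Vec d | nsq z < 1},
        ({σ : Vec d | 1 - dot k σ ≤ u}).indicator (fun _ => (1 : ℝ≥0∞)) ((len z)⁻¹ • z)
        ≤ ∫⁻ z in {z : Vec d | nsq z < 1}, (dil k a '' K).indicator (fun _ => (1 : ℝ≥0∞)) z := by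
          refine setLIntegral_mono' hbm fun z hz => ?_
          by_cases hc : 1 - dot k ((len z)⁻¹ • z) ≤ u
          · rw [indicator_of_mem (by exact hc), indicator_of_mem (hsubset z hz hc)]
          · rw [indicator_of_notMem (by exact hc)]; exact zero_le
      _ ≤ ∫⁻ z, (dil k a '' K).indicator (fun _ => (1 : ℝ≥0∞)) z := setLIntegral_le_lintegral _ _
      _ = (volume : Measure (Vec d)) (dil k a '' K) := by
          rw [lintegral_indicator_const hKim, one_mul]
  rw [Measure.addHaar_image_linearMap, det_dil hd hk ha0, abs_of_pos (pow_pos ha0 _)] at h2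
  calc (d : ℝ≥0∞) * ∫⁻ z in {z : Vec d | nsq z < 1},
      ({σ : Vec d | 1 - dot k σ ≤ u}).indicator (fun _ => (1 : ℝ≥0∞)) ((len z)⁻¹ • z)
      ≤ d * (ENNReal.ofReal (a ^ (d - 1)) * (volume : Measure (Vec d)) K) := by gcongr
    _ = ENNReal.ofReal (d * ((volume : Measure (Vec d)) K).toReal * a ^ (d - 1)) := by
        rw [ENNReal.ofReal_mul (by positivity), ENNReal.ofReal_mul (by positivity),
          ENNReal.ofReal_natCast, ENNReal.ofReal_toReal hKb.ne]
        ring

/-- **measure of caps** -/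
lemma cap_bound (hd : 1 ≤ d) : ∃ C : ℝ, 0 ≤ C ∧ ∀ k : Vec d, nsq k = 1 → ∀ u : ℝ, 0 < u →
    surf d {σ | 1 - dot k σ ≤ u} ≤ ENNReal.ofReal (C * u ^ (((d : ℝ) - 1) / 2)) := by
  obtain ⟨C, hC0, hC⟩ := cap_small hd
  have hd1 : (0 : ℝ) ≤ (d : ℝ) - 1 := by
    have : (1 : ℝ) ≤ d := by exact_mod_cast hd
    linarith
  refine ⟨C * Real.sqrt 2 ^ (d - 1) + (surf d univ).toReal, by positivity, fun k hk u hu => ?_⟩
  have hup : 0 < u ^ (((d : ℝ) - 1) / 2) := Real.rpow_pos_of_pos hu _
  rcases le_total u 1 with h | h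
  · refine (hC k hk u hu h).trans (ENNReal.ofReal_le_ofReal ?_)
    have e : Real.sqrt (2 * u) ^ (d - 1) = Real.sqrt 2 ^ (d - 1) * u ^ (((d : ℝ) - 1) / 2) := by
      rw [Real.sqrt_mul (by norm_num : (0 : ℝ) ≤ 2), mul_pow]
      congr 1
      rw [Real.sqrt_eq_rpow, ← Real.rpow_natCast, ← Real.rpow_mul hu.le]
      congr 1
      rw [Nat.cast_sub hd]
      push_cast; ring
    rw [e, add_mul]
    have : 0 ≤ (surf d univ).toReal * u ^ (((d : ℝ) - 1) / 2) := by positivity
    linarith
  · calc surf d {σ | 1 - dot k σ ≤ u} ≤ surf d univ := measure_mono (subset_univ _)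
      _ = ENNReal.ofReal (surf d univ).toReal := (ENNReal.ofReal_toReal (measure_ne_top _ _)).symm
      _ ≤ _ := by
          refine ENNReal.ofReal_le_ofReal ?_
          have h1 : 1 ≤ u ^ (((d : ℝ) - 1) / 2) := Real.one_le_rpow h (by linarith)
          have h2 : 0 ≤ C * Real.sqrt 2 ^ (d - 1) := by positivity
          have h3 : 0 ≤ (surf d univ).toReal := ENNReal.toReal_nonneg
          nlinarith

/-- one-dimensional integral -/
lemma one_dim {s r : ℝ} (hs : 0 < s) (hs1 : s < 1) (hr : 0 < r) :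
    ∫⁻ τ in Ioi (0 : ℝ), ENNReal.ofReal (τ ^ (-s - 1) * min (r ^ 2 * τ) 1) ≤
      ENNReal.ofReal ((1 / (1 - s) + 1 / s) * r ^ (2 * s)) := by
  set A : ℝ := (r ^ 2)⁻¹ with hA
  have hA0 : 0 < A := by positivity
  have hunion : Ioi (0 : ℝ) = Ioc 0 A ∪ Ioi A := (Ioc_union_Ioi_eq_Ioi hA0.le).symm
  rw [hunion, lintegral_union measurableSet_Ioi (Ioc_disjoint_Ioi le_rfl)]
  have i1 : IntegrableOn (fun τ : ℝ => r ^ 2 * τ ^ (-s)) (Ioc 0 A) := by
    have h := intervalIntegral.intervalIntegrable_rpow' (a := 0) (b := A) (r := -s) (by linarith)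
    rw [intervalIntegrable_iff_integrableOn_Ioc_of_le hA0.le] at h
    exact h.const_mul _
  have i2 : IntegrableOn (fun τ : ℝ => τ ^ (-s - 1)) (Ioi A) :=
    integrableOn_Ioi_rpow_of_lt (by linarith) hA0
  have p1 : ∫⁻ τ in Ioc 0 A, ENNReal.ofReal (τ ^ (-s - 1) * min (r ^ 2 * τ) 1) ≤
      ENNReal.ofReal (1 / (1 - s) * r ^ (2 * s)) := by
    calc ∫⁻ τ in Ioc 0 A, ENNReal.ofReal (τ ^ (-s - 1) * min (r ^ 2 * τ) 1)
        ≤ ∫⁻ τ in Ioc 0 A, ENNReal.ofReal (r ^ 2 * τ ^ (-s)) := by
          refine setLIntegral_mono' measurableSet_Ioc fun τ hτ => ENNReal.ofReal_le_ofReal ?_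
          have h1 : τ ^ (-s - 1) * (r ^ 2 * τ) = r ^ 2 * τ ^ (-s) := by
            have : τ ^ (-s) = τ ^ (-s - 1) * τ := by
              rw [← Real.rpow_add_one hτ.1.ne']; congr 1; ring
            rw [this]; ring
          rw [← h1]
          exact mul_le_mul_of_nonneg_left (min_le_left _ _) (Real.rpow_nonneg hτ.1.le _)
      _ = ENNReal.ofReal (∫ τ in Ioc 0 A, r ^ 2 * τ ^ (-s)) := by
          rw [ofReal_integral_eq_lintegral_ofReal i1]
          filter_upwards [ae_restrict_mem measurableSet_Ioc] with τ hτ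
          exact mul_nonneg (sq_nonneg _) (Real.rpow_nonneg hτ.1.le _)
      _ = ENNReal.ofReal (1 / (1 - s) * r ^ (2 * s)) := by
          congr 1
          rw [← intervalIntegral.integral_of_le hA0.le, intervalIntegral.integral_const_mul,
            integral_rpow (Or.inl (by linarith)), Real.zero_rpow (by linarith), sub_zero]
          have e1 : A ^ (-s + 1) = r ^ (2 * s) * (r ^ 2)⁻¹ := by
            rw [Real.rpow_add_one hA0.ne', hA, Real.inv_rpow (by positivity), Real.rpow_neg (by positivity),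
              inv_inv, ← Real.rpow_natCast, ← Real.rpow_mul hr.le]
            norm_num
          rw [e1]
          have : -s + 1 ≠ 0 := by linarith
          have h2 : (1 - s) ≠ 0 := by linarith
          have hr2 : r ^ 2 ≠ 0 := by positivity
          have h3 : -s + 1 = 1 - s := by ring
          rw [h3]
          field_simp
  have p2 : ∫⁻ τ in Ioi A, ENNReal.ofReal (τ ^ (-s - 1) * min (r ^ 2 * τ) 1) ≤
      ENNReal.ofReal (1 / s * r ^ (2 * s)) := by
    calc ∫⁻ τ in Ioi A, ENNReal.ofReal (τ ^ (-s - 1) * min (r ^ 2 * τ) 1)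
        ≤ ∫⁻ τ in Ioi A, ENNReal.ofReal (τ ^ (-s - 1)) := by
          refine setLIntegral_mono' measurableSet_Ioi fun τ hτ => ENNReal.ofReal_le_ofReal ?_
          have hτ0 : 0 < τ := hA0.trans hτ
          calc τ ^ (-s - 1) * min (r ^ 2 * τ) 1 ≤ τ ^ (-s - 1) * 1 :=
                mul_le_mul_of_nonneg_left (min_le_right _ _) (Real.rpow_nonneg hτ0.le _)
            _ = τ ^ (-s - 1) := mul_one _
      _ = ENNReal.ofReal (∫ τ in Ioi A, τ ^ (-s - 1)) := by
          rw [ofReal_integral_eq_lintegral_ofReal i2]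
          filter_upwards [ae_restrict_mem measurableSet_Ioi] with τ hτ
          exact Real.rpow_nonneg (hA0.trans hτ).le _
      _ = ENNReal.ofReal (1 / s * r ^ (2 * s)) := by
          congr 1
          rw [integral_Ioi_rpow_of_lt (by linarith) hA0]
          have e0 : -s - 1 + 1 = -s := by ring
          have e1 : A ^ (-s) = r ^ (2 * s) := by
            rw [hA, Real.inv_rpow (by positivity), Real.rpow_neg (by positivity), inv_inv,
              ← Real.rpow_natCast, ← Real.rpow_mul hr.le]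
            norm_num
          rw [e0, e1]
          field_simp
  have hsum : ENNReal.ofReal ((1 / (1 - s) + 1 / s) * r ^ (2 * s)) =
      ENNReal.ofReal (1 / (1 - s) * r ^ (2 * s)) + ENNReal.ofReal (1 / s * r ^ (2 * s)) := by
    have h1 : 0 < 1 - s := by linarith
    have h2 := Real.rpow_nonneg hr.le (2 * s)
    rw [← ENNReal.ofReal_add (by positivity) (by positivity)]
    congr 1; ring
  rw [hsum]
  exact add_le_add p1 p2

/-- **singular angular integral** -/
theorem angular (hd : 1 ≤ d) {s : ℝ} (hs : 0 < s) (hs1 : s < 1) : ∃ C : ℝ, 0 ≤ C ∧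
    ∀ k : Vec d, nsq k = 1 → ∀ r : ℝ, 0 < r →
    ∫⁻ σ, ENNReal.ofReal ((1 - dot k σ) ^ (-(((d : ℝ) - 1) / 2 + s)) * min (r ^ 2 * (1 - dot k σ)) 1)
      ∂(surf d) ≤ ENNReal.ofReal (C * r ^ (2 * s)) := by
  obtain ⟨C, hC0, hC⟩ := cap_bound hd
  have hd1 : (0 : ℝ) ≤ (d : ℝ) - 1 := by
    have : (1 : ℝ) ≤ d := by exact_mod_cast hd
    linarith
  set β : ℝ := ((d : ℝ) - 1) / 2 + s with hβ
  have hβ0 : 0 < β := by positivity
  refine ⟨2 ^ (β + 1) * C * (1 / (1 - s) + 1 / s), ?_, fun k hk r hr => ?_⟩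
  · have : 0 < 1 - s := by linarith
    positivity
  -- pointwise bound
  have key : ∀ u : ℝ, 0 ≤ u → ENNReal.ofReal (u ^ (-β) * min (r ^ 2 * u) 1) ≤
      ENNReal.ofReal (2 ^ (β + 1)) * ∫⁻ τ in Ioi (0 : ℝ), (if u ≤ τ then
        ENNReal.ofReal (τ ^ (-β - 1) * min (r ^ 2 * τ) 1) else 0) := by
    intro u hu
    rcases hu.eq_or_lt with h0 | h0
    · rw [← h0, Real.zero_rpow (by linarith), zero_mul, ENNReal.ofReal_zero]; exact zero_le
    have hm : 0 ≤ min (r ^ 2 * u) 1 := le_min (by positivity) zero_le_one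
    have hlow : ENNReal.ofReal ((2 * u) ^ (-β - 1) * min (r ^ 2 * u) 1) * ENNReal.ofReal u ≤
        ∫⁻ τ in Ioi (0 : ℝ), (if u ≤ τ then
          ENNReal.ofReal (τ ^ (-β - 1) * min (r ^ 2 * τ) 1) else 0) := by
      calc ENNReal.ofReal ((2 * u) ^ (-β - 1) * min (r ^ 2 * u) 1) * ENNReal.ofReal u
          = ∫⁻ _τ in Icc u (2 * u), ENNReal.ofReal ((2 * u) ^ (-β - 1) * min (r ^ 2 * u) 1) := by
            rw [setLIntegral_const, Real.volume_Icc]
            congr 2; ring
        _ ≤ ∫⁻ τ in Icc u (2 * u), (if u ≤ τ then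
          ENNReal.ofReal (τ ^ (-β - 1) * min (r ^ 2 * τ) 1) else 0) := by
            refine setLIntegral_mono' measurableSet_Icc fun τ hτ => ?_
            rw [if_pos hτ.1]
            refine ENNReal.ofReal_le_ofReal ?_
            have hτ0 : 0 < τ := h0.trans_le hτ.1
            refine mul_le_mul ?_ ?_ hm (Real.rpow_nonneg hτ0.le _)
            · exact Real.rpow_le_rpow_of_nonpos hτ0 hτ.2 (by linarith)
            · exact min_le_min_right _ (mul_le_mul_of_nonneg_left hτ.1 (sq_nonneg _))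
        _ ≤ _ := by
            refine lintegral_mono_set fun τ hτ => ?_
            exact h0.trans_le hτ.1
    refine le_trans ?_ (mul_le_mul_right hlow _)
    rw [← ENNReal.ofReal_mul (by positivity), ← ENNReal.ofReal_mul (by positivity)]
    refine ENNReal.ofReal_le_ofReal (le_of_eq ?_)
    rw [Real.mul_rpow (by norm_num) h0.le]
    have e1 : (2 : ℝ) ^ (β + 1) * 2 ^ (-β - 1) = 1 := by
      rw [← Real.rpow_add (by norm_num)]; simp
    have e2 : u ^ (-β) = u ^ (-β - 1) * u := by
      rw [← Real.rpow_add_one h0.ne']; congr 1; ring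
    calc u ^ (-β) * min (r ^ 2 * u) 1 = ((2 : ℝ) ^ (β + 1) * 2 ^ (-β - 1)) * (u ^ (-β - 1) * u * min (r ^ 2 * u) 1) := by
          rw [e1, e2]; ring
      _ = _ := by ring
  have hu0 : ∀ᵐ σ ∂(surf d), 0 ≤ 1 - dot k σ := by
    filter_upwards [surf_ae] with σ hσ
    have := (abs_le.1 (dot_le_one hk hσ)).2
    linarith
  calc ∫⁻ σ, ENNReal.ofReal ((1 - dot k σ) ^ (-β) * min (r ^ 2 * (1 - dot k σ)) 1) ∂(surf d)
      ≤ ∫⁻ (σ : Vec d), (ENNReal.ofReal (2 ^ (β + 1)) * ∫⁻ (τ : ℝ) in Ioi (0 : ℝ), (if 1 - dot k σ ≤ τ then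
        ENNReal.ofReal (τ ^ (-β - 1) * min (r ^ 2 * τ) 1) else 0)) ∂(surf d) := by
        refine lintegral_mono_ae ?_
        filter_upwards [hu0] with σ hσ
        exact key _ hσ
    _ = ENNReal.ofReal (2 ^ (β + 1)) * ∫⁻ (σ : Vec d), (∫⁻ (τ : ℝ) in Ioi (0 : ℝ), (if 1 - dot k σ ≤ τ then
        ENNReal.ofReal (τ ^ (-β - 1) * min (r ^ 2 * τ) 1) else 0)) ∂(surf d) := by
        rw [lintegral_const_mul' _ _ ENNReal.ofReal_ne_top]
    _ = ENNReal.ofReal (2 ^ (β + 1)) * ∫⁻ (τ : ℝ) in Ioi (0 : ℝ), (∫⁻ (σ : Vec d), (if 1 - dot k σ ≤ τ then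
        ENNReal.ofReal (τ ^ (-β - 1) * min (r ^ 2 * τ) 1) else 0) ∂(surf d)) := by
        congr 1
        refine lintegral_lintegral_swap ?_
        refine Measurable.aemeasurable ?_
        have hset : MeasurableSet {p : Vec d × ℝ | 1 - dot k p.1 ≤ p.2} :=
          (isClosed_le (continuous_const.sub ((dot_cont k).comp continuous_fst))
            continuous_snd).measurableSet
        refine Measurable.ite hset ?_ measurable_const
        refine Measurable.ennreal_ofReal ?_
        have hm1 : Measurable fun τ : ℝ => τ ^ (-β - 1) * min (r ^ 2 * τ) 1 := by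
          refine (measurable_id.pow_const _).mul ?_
          exact (measurable_const.mul measurable_id).min measurable_const
        exact hm1.comp measurable_snd
    _ ≤ ENNReal.ofReal (2 ^ (β + 1)) * ∫⁻ τ in Ioi (0 : ℝ), ENNReal.ofReal C *
          ENNReal.ofReal (τ ^ (-s - 1) * min (r ^ 2 * τ) 1) := by
        refine mul_le_mul_right ?_ _
        refine setLIntegral_mono' measurableSet_Ioi fun τ hτ => ?_
        have hτ0 : 0 < τ := hτ
        have e : ∀ σ : Vec d, (if 1 - dot k σ ≤ τ then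
            ENNReal.ofReal (τ ^ (-β - 1) * min (r ^ 2 * τ) 1) else 0) =
            ({σ : Vec d | 1 - dot k σ ≤ τ}).indicator
              (fun _ => ENNReal.ofReal (τ ^ (-β - 1) * min (r ^ 2 * τ) 1)) σ := by
          intro σ
          by_cases h : 1 - dot k σ ≤ τ
          · rw [if_pos h, indicator_of_mem (by exact h)]
          · rw [if_neg h, indicator_of_notMem (by exact h)]
        simp_rw [e]
        rw [lintegral_indicator_const (measurableSet_cap k τ)]
        have hmn : 0 ≤ min (r ^ 2 * τ) 1 := le_min (by positivity) zero_le_one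
        have hp := Real.rpow_nonneg hτ0.le (-β - 1)
        calc ENNReal.ofReal (τ ^ (-β - 1) * min (r ^ 2 * τ) 1) * surf d {σ | 1 - dot k σ ≤ τ}
            ≤ ENNReal.ofReal (τ ^ (-β - 1) * min (r ^ 2 * τ) 1) *
              ENNReal.ofReal (C * τ ^ (((d : ℝ) - 1) / 2)) := by
              gcongr
              exact hC k hk τ hτ0
          _ = ENNReal.ofReal C * ENNReal.ofReal (τ ^ (-s - 1) * min (r ^ 2 * τ) 1) := by
              rw [← ENNReal.ofReal_mul (by positivity), ← ENNReal.ofReal_mul hC0]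
              congr 1
              have : τ ^ (-s - 1) = τ ^ (-β - 1) * τ ^ (((d : ℝ) - 1) / 2) := by
                rw [← Real.rpow_add hτ0, hβ]; congr 1; ring
              rw [this]; ring
    _ = ENNReal.ofReal (2 ^ (β + 1)) * (ENNReal.ofReal C * ∫⁻ τ in Ioi (0 : ℝ),
          ENNReal.ofReal (τ ^ (-s - 1) * min (r ^ 2 * τ) 1)) := by
        rw [lintegral_const_mul' _ _ ENNReal.ofReal_ne_top]
    _ ≤ ENNReal.ofReal (2 ^ (β + 1)) * (ENNReal.ofReal C *
          ENNReal.ofReal ((1 / (1 - s) + 1 / s) * r ^ (2 * s))) := by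
        gcongr
        exact one_dim hs hs1 hr
    _ = ENNReal.ofReal (2 ^ (β + 1) * C * (1 / (1 - s) + 1 / s) * r ^ (2 * s)) := by
        rw [← ENNReal.ofReal_mul hC0, ← ENNReal.ofReal_mul (by positivity)]
        congr 1; ring

end Pool.Agent.H25.Kin
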