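import Pool.Agent.H25.Kin.Landau

/-!
# Convolutions of kernels of quadratic growth with rapidly decaying functions
-/

set_option autoImplicit false

open MeasureTheory Set Filter Topology

namespace Pool.Agent.H25.Kin

variable {d : ℕ} {E : Type*} [NormedAddCommGroup E] [NormedSpace ℝ E]

/-- the convolution -/
noncomputable def conv (k : Vec d → ℝ) (h : Vec d → E) (v : Vec d) : E := ∫ z, k z • h (v - z)

/-- kernels of quadratic growth -/
structure Kern (k : Vec d → ℝ) (A : ℝ) : Prop where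
  meas : Measurable k
  bound : ∀ z, |k z| ≤ A * (1 + ‖z‖) ^ 2

lemma Kern.nonneg {k : Vec d → ℝ} {A : ℝ} (hk : Kern k A) : 0 ≤ A := by
  have := (abs_nonneg _).trans (hk.bound 0)
  simpa using this

lemma kern_landauA {γ : ℝ} (h1 : -2 < γ) (h2 : γ ≤ 0) (i j : Fin d) :
    Kern (fun z => landauA γ z i j) (2 * (d + 1)) :=
  ⟨measurable_landauA γ i j, fun z => landauA_PG h1 h2 z i j⟩

lemma key_bound {A D : ℝ} (hA : 0 ≤ A) (hD : 0 ≤ D) (v z : Vec d) :
    A * (1 + ‖z‖) ^ 2 * (D * ((1 + ‖v - z‖) ^ (d + 3))⁻¹) ≤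
      A * D * (1 + ‖v‖) ^ (d + 3) * wt d z := by
  have h1 := w_le v z
  have hz := w_pos z
  have hv := w_pos v
  have hvz := w_pos (v - z)
  have h2 : (1 + ‖z‖) ^ (d + 3) ≤ (1 + ‖v‖) ^ (d + 3) * (1 + ‖v - z‖) ^ (d + 3) := by
    rw [← mul_pow]; exact pow_le_pow_left₀ hz.le h1 _
  have h3 : ((1 + ‖v - z‖) ^ (d + 3))⁻¹ ≤ (1 + ‖v‖) ^ (d + 3) * ((1 + ‖z‖) ^ (d + 3))⁻¹ := by
    rw [← div_eq_mul_inv, le_div_iff₀ (pow_pos hz _), inv_mul_le_iff₀ (pow_pos hvz _)]
    calc (1 + ‖z‖) ^ (d + 3) ≤ (1 + ‖v‖) ^ (d + 3) * (1 + ‖v - z‖) ^ (d + 3) := h2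
      _ = (1 + ‖v - z‖) ^ (d + 3) * (1 + ‖v‖) ^ (d + 3) := mul_comm _ _
  calc A * (1 + ‖z‖) ^ 2 * (D * ((1 + ‖v - z‖) ^ (d + 3))⁻¹)
      ≤ A * (1 + ‖z‖) ^ 2 * (D * ((1 + ‖v‖) ^ (d + 3) * ((1 + ‖z‖) ^ (d + 3))⁻¹)) := by gcongr
    _ = A * D * (1 + ‖v‖) ^ (d + 3) * wt d z := by
        unfold wt
        have : (1 + ‖z‖) ^ (d + 3) = (1 + ‖z‖) ^ 2 * (1 + ‖z‖) ^ (d + 1) := by ring
        rw [this]
        field_simp

variable {k : Vec d → ℝ} {A : ℝ} {h : Vec d → E}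

lemma Kern.le (hk : Kern k A) {D : ℝ} (hD : 0 ≤ D) (hb : ∀ v, ‖h v‖ ≤ D * ((1 + ‖v‖) ^ (d + 3))⁻¹)
    (v z : Vec d) : ‖k z • h (v - z)‖ ≤ A * D * (1 + ‖v‖) ^ (d + 3) * wt d z := by
  rw [norm_smul, Real.norm_eq_abs]
  refine le_trans ?_ (key_bound hk.nonneg hD v z)
  exact mul_le_mul (hk.bound z) (hb _) (norm_nonneg _)
    (mul_nonneg hk.nonneg (pow_nonneg (w_pos z).le _))

lemma Kern.aesm (hk : Kern k A) (hc : Continuous h) (v : Vec d) :
    AEStronglyMeasurable (fun z => k z • h (v - z)) volume :=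
  hk.meas.aestronglyMeasurable.smul (hc.comp (continuous_const.sub continuous_id)).aestronglyMeasurable

lemma Kern.integrable (hk : Kern k A) (hc : Continuous h) (hr : RD h) (v : Vec d) :
    Integrable (fun z => k z • h (v - z)) := by
  obtain ⟨D, hD0, hD⟩ := hr.bound (d + 3)
  exact (integrable_wt.const_mul _).mono' (hk.aesm hc v) (Eventually.of_forall fun z => hk.le hD0 hD v z)

lemma Kern.conv_PG (hk : Kern k A) (hr : RD h) : PG (conv k h) := by
  obtain ⟨D, hD0, hD⟩ := hr.bound (d + 3)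
  refine ⟨d + 3, A * D * ∫ z, wt d z, fun v => ?_⟩
  unfold conv
  calc ‖∫ z, k z • h (v - z)‖ ≤ ∫ z, A * D * (1 + ‖v‖) ^ (d + 3) * wt d z :=
        norm_integral_le_of_norm_le (integrable_wt.const_mul _)
          (Eventually.of_forall fun z => hk.le hD0 hD v z)
    _ = A * D * (∫ z, wt d z) * (1 + ‖v‖) ^ (d + 3) := by
        rw [integral_const_mul]; ring

lemma Kern.conv_hasFDerivAt (hk : Kern k A) (hs : ContDiff ℝ 1 h) (hr : RD h)
    (hr1 : RD (fderiv ℝ h)) (v : Vec d) : HasFDerivAt (conv k h) (conv k (fderiv ℝ h) v) v := by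
  obtain ⟨D, hD0, hD⟩ := hr1.bound (d + 3)
  unfold conv
  refine hasFDerivAt_integral_of_dominated_of_fderiv_le (F := fun v z => k z • h (v - z))
    (F' := fun v z => k z • fderiv ℝ h (v - z))
    (bound := fun z => A * D * (2 + ‖v‖) ^ (d + 3) * wt d z)
    (Metric.ball_mem_nhds v one_pos) ?_ ?_ ?_ ?_ ?_ ?_
  · exact Eventually.of_forall fun w => hk.aesm hs.continuous w
  · exact hk.integrable hs.continuous hr v
  · exact hk.aesm (hs.continuous_fderiv (by norm_num)) v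
  · refine Eventually.of_forall fun z w hw => ?_
    refine (hk.le hD0 hD w z).trans ?_
    have h1 : 1 + ‖w‖ ≤ 2 + ‖v‖ := by
      have h2 : ‖w‖ ≤ ‖w - v‖ + ‖v‖ := by simpa using norm_add_le (w - v) v
      have h3 : ‖w - v‖ < 1 := by simpa [dist_eq_norm] using hw
      linarith
    have h4 := pow_le_pow_left₀ (w_pos w).le h1 (d + 3)
    have h5 := wt_nonneg z
    have h6 := mul_nonneg hk.nonneg hD0
    gcongr
  · exact integrable_wt.const_mul _
  · refine Eventually.of_forall fun z w _ => ?_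
    have h1 : HasFDerivAt (fun x : Vec d => h (x - z)) (fderiv ℝ h (w - z)) w := by
      have h2 := ((hs.differentiable (by norm_num)) (w - z)).hasFDerivAt
      have h3 : HasFDerivAt (fun x : Vec d => x - z) (ContinuousLinearMap.id ℝ (Vec d)) w :=
        (hasFDerivAt_id w).sub_const z
      have h4 := h2.comp w h3
      simpa [Function.comp_def] using h4
    exact h1.const_smul (k z)

end Pool.Agent.H25.Kin
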