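import Pool.Agent.H25.Kin.Core

/-!
# The focusing perturbation of the initial datum
-/

set_option autoImplicit false

open MeasureTheory Set Filter Topology
open scoped ContDiff Real

namespace Pool.Agent.H25.Kin

variable {d : ℕ}

lemma int_le_ball' {G : Vec d → ℝ} {C R : ℝ} (c : Vec d) (hR : 0 ≤ R) (hG : ∀ x, |G x| ≤ C)
    (h0 : ∀ x, R < ‖x - c‖ → G x = 0) : |∫ x, G x| ≤ C * (2 * R) ^ d := by
  rw [← integral_add_right_eq_self G c]
  refine int_le_ball hR (fun x => hG _) fun x hx => h0 _ ?_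
  simpa using hx

/-- the periodic substitute of `x` -/
noncomputable def Sx (x : Vec d) : Vec d := fun i => Real.sin (2 * π * x i) / (2 * π)

lemma Sx_smooth : ContDiff ℝ ∞ (Sx (d := d)) := by
  unfold Sx
  rw [contDiff_pi]
  intro i
  have h1 : ContDiff ℝ ∞ fun x : Vec d => 2 * π * x i := contDiff_const.mul (contDiff_apply ℝ ℝ i)
  exact (Real.contDiff_sin.comp h1).div_const _

lemma Sx_periodic (x : Vec d) (i : Fin d) : Sx (x + Pi.single i 1) = Sx x := by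
  funext j
  unfold Sx
  by_cases h : j = i
  · subst h
    simp only [Pi.add_apply, Pi.single_eq_same]
    rw [mul_add, mul_one, Real.sin_add_two_pi]
  · simp [Pi.single_eq_of_ne h]

lemma abs_sin_sub_le {y : ℝ} (hy : |y| ≤ 1) : |Real.sin y - y| ≤ |y| ^ 3 / 4 := by
  have key : ∀ z : ℝ, 0 < z → z ≤ 1 → |Real.sin z - z| ≤ z ^ 3 / 4 := by
    intro z h0 h1
    have a := Real.sin_gt_sub_cube h0
    have b := Real.sin_lt h0
    rw [abs_le]
    constructor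
    · have := a; linarith
    · have : 0 < z ^ 3 := pow_pos h0 3
      linarith
  rcases lt_trichotomy y 0 with h | h | h
  · have := key (-y) (by linarith) (by rw [abs_of_neg h] at hy; exact hy)
    rw [Real.sin_neg] at this
    rw [abs_of_neg h]
    have e : |Real.sin y - y| = |-Real.sin y - -y| := by rw [← abs_neg]; congr 1; ring
    rw [e]; exact this
  · simp [h]
  · have := key y h (by rw [abs_of_pos h] at hy; exact hy)
    rw [abs_of_pos h]; exact this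

lemma Sx_sub_le {t : ℝ} (ht : 0 < t) (ht1 : t ≤ 1 / 4) {x : Vec d} (hx : ‖x‖ ≤ t / 2) :
    ‖Sx x - x‖ ≤ 2 * t ^ 3 := by
  refine (pi_norm_le_iff_of_nonneg (by positivity)).2 fun i => ?_
  rw [Pi.sub_apply, Real.norm_eq_abs]
  unfold Sx
  have hpi : 0 < π := Real.pi_pos
  have hpi4 : π < 4 := by linarith [Real.pi_lt_d2]
  have hxi : |x i| ≤ t / 2 := (norm_le_pi_norm x i).trans hx
  have hy : |2 * π * x i| ≤ π * t := by
    rw [abs_mul, abs_of_pos (by positivity : 0 < 2 * π)]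
    nlinarith
  have hy1 : |2 * π * x i| ≤ 1 := hy.trans (by nlinarith)
  have h := abs_sin_sub_le hy1
  have e : Real.sin (2 * π * x i) / (2 * π) - x i = (Real.sin (2 * π * x i) - 2 * π * x i) / (2 * π) := by
    field_simp
  rw [e, abs_div, abs_of_pos (by positivity : 0 < 2 * π), div_le_iff₀ (by positivity)]
  refine h.trans ?_
  have h3 : |2 * π * x i| ^ 3 ≤ (π * t) ^ 3 := pow_le_pow_left₀ (abs_nonneg _) hy 3
  have h4 : (π * t) ^ 3 / 4 ≤ 2 * t ^ 3 * (2 * π) := by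
    have e2 : (π * t) ^ 3 / 4 = (π ^ 2 / 4) * (π * t ^ 3) := by ring
    have e3 : 2 * t ^ 3 * (2 * π) = 4 * (π * t ^ 3) := by ring
    rw [e2, e3]
    have : π ^ 2 / 4 ≤ 4 := by nlinarith
    have h5 : 0 ≤ π * t ^ 3 := by positivity
    nlinarith
  linarith

lemma Sx_norm_le {t : ℝ} (x : Vec d) (hx : ‖x‖ ≤ t) : ‖Sx x‖ ≤ t := by
  refine (pi_norm_le_iff_of_nonneg ((norm_nonneg _).trans hx)).2 fun i => ?_
  rw [Real.norm_eq_abs]
  unfold Sx
  have hpi : 0 < 2 * π := by positivity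
  rw [abs_div, abs_of_pos hpi, div_le_iff₀ hpi]
  have h1 : |Real.sin (2 * π * x i)| ≤ |2 * π * x i| := Real.abs_sin_le_abs
  rw [abs_mul, abs_of_pos hpi] at h1
  have h2 : |x i| ≤ t := (norm_le_pi_norm x i).trans hx
  nlinarith

/-- the focusing perturbation -/
noncomputable def bump (δ t : ℝ) (x v : Vec d) : ℝ :=
  bp d (t⁻¹ • Sx x) * bp d (δ⁻¹ • (v + t⁻¹ • Sx x))

lemma bump_smooth (δ t : ℝ) : ContDiff ℝ ∞ (fun q : Vec d × Vec d => bump δ t q.1 q.2) := by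
  unfold bump
  have h1 : ContDiff ℝ ∞ fun q : Vec d × Vec d => t⁻¹ • Sx q.1 :=
    (Sx_smooth.comp contDiff_fst).const_smul _
  exact (bp_smooth.comp h1).mul (bp_smooth.comp ((contDiff_snd.add h1).const_smul _))

lemma bump_nonneg (δ t : ℝ) (x v : Vec d) : 0 ≤ bump δ t x v :=
  mul_nonneg (bp_nonneg _) (bp_nonneg _)

lemma bump_le_one (δ t : ℝ) (x v : Vec d) : bump δ t x v ≤ 1 :=
  mul_le_one₀ (bp_le_one _) (bp_nonneg _) (bp_le_one _)

lemma bump_periodic (δ t : ℝ) (x v : Vec d) (i : Fin d) :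
    bump δ t (x + Pi.single i 1) v = bump δ t x v := by
  unfold bump; rw [Sx_periodic]

lemma bump_supp {δ t : ℝ} (hδ : 0 < δ) (ht : 0 < t) {x v : Vec d}
    (h : bump δ t x v ≠ 0) : ‖Sx x‖ < 2 * t ∧ ‖v + t⁻¹ • Sx x‖ < 2 * δ := by
  have h1 : bp d (t⁻¹ • Sx x) ≠ 0 := fun h0 => h (by unfold bump; rw [h0, zero_mul])
  have h2 : bp d (δ⁻¹ • (v + t⁻¹ • Sx x)) ≠ 0 := fun h0 => h (by unfold bump; rw [h0, mul_zero])
  have a1 := bp_pos_iff h1
  have a2 := bp_pos_iff h2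
  rw [norm_smul, norm_inv, Real.norm_eq_abs, abs_of_pos ht, inv_mul_lt_iff₀ ht] at a1
  rw [norm_smul, norm_inv, Real.norm_eq_abs, abs_of_pos hδ, inv_mul_lt_iff₀ hδ] at a2
  exact ⟨by linarith, by linarith⟩

lemma bump_supp_v {δ t : ℝ} (hδ : 0 < δ) (hδ1 : δ ≤ 1) (ht : 0 < t) {x v : Vec d}
    (h : bump δ t x v ≠ 0) : ‖v‖ < 4 := by
  obtain ⟨h1, h2⟩ := bump_supp hδ ht h
  have e : v = (v + t⁻¹ • Sx x) - t⁻¹ • Sx x := by abel
  calc ‖v‖ = ‖(v + t⁻¹ • Sx x) - t⁻¹ • Sx x‖ := by rw [← e]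
    _ ≤ ‖v + t⁻¹ • Sx x‖ + ‖t⁻¹ • Sx x‖ := norm_sub_le _ _
    _ < 2 + 2 := by
        refine add_lt_add_of_lt_of_le (by linarith) ?_
        rw [norm_smul, norm_inv, Real.norm_eq_abs, abs_of_pos ht, inv_mul_le_iff₀ ht]
        linarith
    _ = 4 := by norm_num

lemma bump_eq_one {δ t : ℝ} (hδ : 0 < δ) (hδ1 : δ ≤ 1) (ht : 0 < t) (ht1 : t ≤ 1 / 4)
    (htδ : t ≤ δ / 2) {x v : Vec d} (hx : ‖x‖ ≤ t / 2) (hv : ‖v + t⁻¹ • x‖ ≤ δ / 2) :
    bump δ t x v = 1 := by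
  unfold bump
  have h1 : ‖t⁻¹ • Sx x‖ ≤ 1 := by
    rw [norm_smul, norm_inv, Real.norm_eq_abs, abs_of_pos ht, inv_mul_le_iff₀ ht]
    have := Sx_norm_le x hx
    linarith
  have h2 : ‖δ⁻¹ • (v + t⁻¹ • Sx x)‖ ≤ 1 := by
    rw [norm_smul, norm_inv, Real.norm_eq_abs, abs_of_pos hδ, inv_mul_le_iff₀ hδ, mul_one]
    have e : v + t⁻¹ • Sx x = (v + t⁻¹ • x) + t⁻¹ • (Sx x - x) := by
      rw [smul_sub]; abel
    have h3 := Sx_sub_le ht ht1 hx
    have h4 : ‖t⁻¹ • (Sx x - x)‖ ≤ 2 * t ^ 2 := by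
      rw [norm_smul, norm_inv, Real.norm_eq_abs, abs_of_pos ht, inv_mul_le_iff₀ ht]
      calc ‖Sx x - x‖ ≤ 2 * t ^ 3 := h3
        _ = t * (2 * t ^ 2) := by ring
    rw [e]
    refine (norm_add_le _ _).trans ?_
    have h5 : 2 * t ^ 2 ≤ δ / 2 := by nlinarith
    linarith
  rw [bp_one h1, bp_one h2, one_mul]

end Pool.Agent.H25.Kin
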