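import Mathlib

/-!
# A periodic profile: smoothing of `dist(s, ℤ + 1/2)²` with second derivative at most `2`
-/

set_option autoImplicit false

open MeasureTheory Set Filter Topology
open scoped ContDiff Real Interval

namespace Pool.Agent.H25.Kin

/-- bump on the line -/
noncomputable def b1 : ContDiffBump (0 : ℝ) := ⟨1, 2, one_pos, one_lt_two⟩

/-- periodic bump near the integers -/
noncomputable def ps (η s : ℝ) : ℝ := b1 (Real.sin (π * s) / η)

lemma ps_nonneg (η s : ℝ) : 0 ≤ ps η s := b1.nonneg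

lemma ps_smooth (η : ℝ) : ContDiff ℝ ∞ (ps η) := by
  unfold ps
  have h1 : ContDiff ℝ ∞ b1 := b1.contDiff
  have h2 : ContDiff ℝ ∞ fun s : ℝ => Real.sin (π * s) / η :=
    (Real.contDiff_sin.comp (contDiff_const.mul contDiff_id)).div_const _
  exact h1.comp h2

lemma ps_neg (η s : ℝ) : ps η (-s) = ps η s := by
  unfold ps
  rw [mul_neg, Real.sin_neg, neg_div, b1.neg]

lemma ps_add_one (η s : ℝ) : ps η (s + 1) = ps η s := by
  unfold ps
  rw [mul_add, mul_one, Real.sin_add_pi, neg_div, b1.neg]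

lemma ps_one_sub (η s : ℝ) : ps η (1 - s) = ps η s := by
  have : 1 - s = -s + 1 := by ring
  rw [this, ps_add_one, ps_neg]

lemma ps_zero {η : ℝ} (hη : 0 < η) {s : ℝ} (hs : s ∈ Icc η (1 - η)) : ps η s = 0 := by
  unfold ps
  refine b1.zero_of_le_dist ?_
  rw [dist_zero_right, Real.norm_eq_abs, abs_div, abs_of_pos hη]
  have hr : b1.rOut = 2 := rfl
  rw [hr, le_div_iff₀ hη]
  have key : ∀ y : ℝ, 0 ≤ y → y ≤ 1 / 2 → 2 * y ≤ Real.sin (π * y) := by
    intro y h0 h1
    have h2 : 0 ≤ π * y := mul_nonneg Real.pi_pos.le h0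
    have h3 : π * y ≤ π / 2 := by nlinarith [Real.pi_pos]
    have h4 := Real.mul_le_sin h2 h3
    have h5 : 2 / π * (π * y) = 2 * y := by
      have := Real.pi_pos.ne'
      field_simp
    linarith
  rcases le_total s (1 / 2) with h | h
  · have h1 := key s (by linarith [hs.1]) h
    rw [abs_of_nonneg (by linarith [hs.1])]
    linarith [hs.1]
  · have h1 := key (1 - s) (by linarith [hs.2]) (by linarith)
    have h2 : Real.sin (π * (1 - s)) = Real.sin (π * s) := by
      rw [mul_sub, mul_one, Real.sin_pi_sub]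
    rw [h2] at h1
    rw [abs_of_nonneg (by linarith [hs.2])]
    linarith [hs.2]

/-- total mass of the bump -/
noncomputable def Zp (η : ℝ) : ℝ := ∫ s in (0 : ℝ)..1, ps η s

lemma Zp_pos (η : ℝ) : 0 < Zp η := by
  unfold Zp
  refine intervalIntegral.integral_pos one_pos (ps_smooth η).continuous.continuousOn
    (fun s _ => ps_nonneg η s) ⟨0, ⟨le_refl _, zero_le_one⟩, ?_⟩
  unfold ps
  rw [mul_zero, Real.sin_zero, zero_div, b1.one_of_mem_closedBall]
  · exact one_pos
  · rw [Metric.mem_closedBall, dist_self]; exact b1.rIn_pos.le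

/-- normalised periodic bump -/
noncomputable def psi (η s : ℝ) : ℝ := ps η s / Zp η

lemma psi_nonneg (η s : ℝ) : 0 ≤ psi η s := div_nonneg (ps_nonneg η s) (Zp_pos η).le

lemma psi_smooth (η : ℝ) : ContDiff ℝ ∞ (psi η) := (ps_smooth η).div_const _

lemma psi_cont (η : ℝ) : Continuous (psi η) := (psi_smooth η).continuous

lemma psi_add_one (η s : ℝ) : psi η (s + 1) = psi η s := by unfold psi; rw [ps_add_one]

lemma psi_one_sub (η s : ℝ) : psi η (1 - s) = psi η s := by unfold psi; rw [ps_one_sub]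

lemma psi_zero {η : ℝ} (hη : 0 < η) {s : ℝ} (hs : s ∈ Icc η (1 - η)) : psi η s = 0 := by
  unfold psi; rw [ps_zero hη hs, zero_div]

lemma psi_int (η : ℝ) : ∫ s in (0 : ℝ)..1, psi η s = 1 := by
  unfold psi
  rw [intervalIntegral.integral_div]
  exact div_self (Zp_pos η).ne'

lemma hasDerivAt_prim {h : ℝ → ℝ} (hc : Continuous h) (a u : ℝ) :
    HasDerivAt (fun u => ∫ x in a..u, h x) (h u) u :=
  intervalIntegral.integral_hasDerivAt_right (hc.intervalIntegrable _ _)
    (hc.stronglyMeasurableAtFilter _ _) hc.continuousAt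

/-- smoothed step function -/
noncomputable def Gs (η s : ℝ) : ℝ := ∫ τ in (1 / 2 : ℝ)..s, psi η τ

lemma Gs_hasDerivAt (η s : ℝ) : HasDerivAt (Gs η) (psi η s) s := hasDerivAt_prim (psi_cont η) _ s

lemma Gs_cont (η : ℝ) : Continuous (Gs η) :=
  continuous_iff_continuousAt.2 fun s => (Gs_hasDerivAt η s).continuousAt

lemma Gs_add_one (η s : ℝ) : Gs η (s + 1) = Gs η s + 1 := by
  unfold Gs
  have hI : ∀ a b, IntervalIntegrable (psi η) volume a b := fun a b =>
    (psi_cont η).intervalIntegrable a b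
  have h1 : ∫ τ in s..s + 1, psi η τ = 1 := by
    have hp : Function.Periodic (psi η) 1 := fun s => psi_add_one η s
    rw [hp.intervalIntegral_add_eq s 0, zero_add, psi_int]
  have h2 := intervalIntegral.integral_add_adjacent_intervals (hI (1 / 2) s) (hI s (s + 1))
  rw [h1] at h2
  exact h2.symm

lemma Gs_one_sub (η s : ℝ) : Gs η (1 - s) = -Gs η s := by
  unfold Gs
  have h := intervalIntegral.integral_comp_sub_left (psi η) 1 (a := 1 / 2) (b := 1 - s)
  simp only [psi_one_sub] at h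
  rw [h]
  have e1 : (1 : ℝ) - (1 - s) = s := by ring
  have e2 : (1 : ℝ) - 1 / 2 = 1 / 2 := by norm_num
  rw [e1, e2, intervalIntegral.integral_symm]

lemma Gs_one (η : ℝ) : Gs η 1 = 1 / 2 := by
  have h1 := Gs_add_one η 0
  have h2 := Gs_one_sub η 0
  rw [zero_add] at h1
  rw [sub_zero] at h2
  linarith

lemma Gs_mono (η : ℝ) {a b : ℝ} (hab : a ≤ b) : Gs η a ≤ Gs η b := by
  have : Monotone (Gs η) := monotone_of_deriv_nonneg (fun s => (Gs_hasDerivAt η s).differentiableAt)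
    (fun s => by rw [(Gs_hasDerivAt η s).deriv]; exact psi_nonneg η s)
  exact this hab

lemma Gs_half (η : ℝ) : Gs η (1 / 2) = 0 := by unfold Gs; simp

lemma Gs_zero {η : ℝ} (hη : 0 < η) (hη1 : η ≤ 1 / 2) {s : ℝ} (hs : s ∈ Icc η (1 - η)) :
    Gs η s = 0 := by
  unfold Gs
  rw [← intervalIntegral.integral_zero (a := (1 / 2 : ℝ)) (b := s) (μ := volume) (E := ℝ)]
  refine intervalIntegral.integral_congr fun τ hτ => ?_
  refine psi_zero hη ?_
  have h2 : (1 / 2 : ℝ) ∈ Icc η (1 - η) := ⟨hη1, by linarith⟩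
  exact (Set.uIcc_subset_Icc h2 hs) hτ

/-- derivative of the profile -/
noncomputable def qd (η s : ℝ) : ℝ := 2 * (s - 1 / 2 - Gs η s)

lemma qd_hasDerivAt (η s : ℝ) : HasDerivAt (qd η) (2 - 2 * psi η s) s := by
  have := (((hasDerivAt_id s).sub_const (1 / 2)).sub (Gs_hasDerivAt η s)).const_mul 2
  refine this.congr_deriv ?_
  ring

lemma qd_cont (η : ℝ) : Continuous (qd η) :=
  continuous_iff_continuousAt.2 fun s => (qd_hasDerivAt η s).continuousAt

lemma qd_smooth (η : ℝ) : ContDiff ℝ ∞ (qd η) := by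
  have h : deriv (qd η) = fun s => 2 - 2 * psi η s := funext fun s => (qd_hasDerivAt η s).deriv
  rw [contDiff_infty_iff_deriv]
  refine ⟨fun s => (qd_hasDerivAt η s).differentiableAt, ?_⟩
  rw [h]
  exact contDiff_const.sub (contDiff_const.mul (psi_smooth η))

lemma qd_add_one (η s : ℝ) : qd η (s + 1) = qd η s := by
  unfold qd; rw [Gs_add_one]; ring

lemma qd_one_sub (η s : ℝ) : qd η (1 - s) = -qd η s := by
  unfold qd; rw [Gs_one_sub]; ring

lemma qd_eq {η : ℝ} (hη : 0 < η) (hη1 : η ≤ 1 / 2) {s : ℝ} (hs : s ∈ Icc η (1 - η)) :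
    qd η s = 2 * (s - 1 / 2) := by
  unfold qd; rw [Gs_zero hη hη1 hs]; ring

/-- on the right half -/
lemma qd_right {η s : ℝ} (hs : s ∈ Icc (1 / 2 : ℝ) 1) :
    2 * (s - 1) ≤ qd η s ∧ qd η s ≤ 2 * (s - 1 / 2) := by
  have h1 := Gs_mono η hs.1
  have h2 := Gs_mono η hs.2
  rw [Gs_half] at h1
  rw [Gs_one] at h2
  unfold qd
  constructor <;> linarith

lemma qd_abs_le (η s : ℝ) : |qd η s| ≤ 1 := by
  have hp : Function.Periodic (qd η) 1 := fun s => qd_add_one η s
  have key : ∀ s ∈ Ico (0 : ℝ) 1, |qd η s| ≤ 1 := by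
    intro s hs
    rcases le_total s (1 / 2) with h | h
    · have h1 := qd_right (η := η) (s := 1 - s) ⟨by linarith, by linarith [hs.1]⟩
      rw [qd_one_sub] at h1
      rw [abs_le]; constructor <;> linarith [h1.1, h1.2, hs.1]
    · have h1 := qd_right (η := η) (s := s) ⟨h, hs.2.le⟩
      rw [abs_le]; constructor <;> linarith [h1.1, h1.2, hs.2]
  obtain ⟨y, hy, he⟩ := hp.exists_mem_Ico₀ one_pos s
  rw [he]
  exact key y hy

/-- the profile -/
noncomputable def qf (η s : ℝ) : ℝ := ∫ τ in (1 / 2 : ℝ)..s, qd η τ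

lemma qf_hasDerivAt (η s : ℝ) : HasDerivAt (qf η) (qd η s) s := hasDerivAt_prim (qd_cont η) _ s

lemma qf_cont (η : ℝ) : Continuous (qf η) :=
  continuous_iff_continuousAt.2 fun s => (qf_hasDerivAt η s).continuousAt

lemma qf_smooth (η : ℝ) : ContDiff ℝ ∞ (qf η) := by
  have h : deriv (qf η) = qd η := funext fun s => (qf_hasDerivAt η s).deriv
  rw [contDiff_infty_iff_deriv]
  refine ⟨fun s => (qf_hasDerivAt η s).differentiableAt, ?_⟩
  rw [h]
  exact qd_smooth η

lemma qf_one_sub (η s : ℝ) : qf η (1 - s) = qf η s := by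
  unfold qf
  have h := intervalIntegral.integral_comp_sub_left (qd η) 1 (a := 1 / 2) (b := 1 - s)
  simp only [qd_one_sub] at h
  rw [intervalIntegral.integral_neg] at h
  have e1 : (1 : ℝ) - (1 - s) = s := by ring
  have e2 : (1 : ℝ) - 1 / 2 = 1 / 2 := by norm_num
  rw [e1, e2] at h
  rw [← neg_neg (∫ τ in (1 / 2 : ℝ)..(1 - s), qd η τ), h, intervalIntegral.integral_symm, neg_neg]

lemma qf_add_one (η s : ℝ) : qf η (s + 1) = qf η s := by
  have hI : ∀ a b, IntervalIntegrable (qd η) volume a b := fun a b =>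
    (qd_cont η).intervalIntegrable a b
  have hp : Function.Periodic (qd η) 1 := fun s => qd_add_one η s
  have h1 : qf η (s + 1) - qf η s = ∫ τ in s..s + 1, qd η τ := by
    unfold qf
    rw [intervalIntegral.integral_interval_sub_left (hI _ _) (hI _ _)]
  have h2 : qf η 1 - qf η 0 = ∫ τ in (0 : ℝ)..1, qd η τ := by
    unfold qf
    rw [intervalIntegral.integral_interval_sub_left (hI _ _) (hI _ _)]
  have h3 := qf_one_sub η 0
  rw [sub_zero] at h3
  rw [hp.intervalIntegral_add_eq s 0, zero_add, ← h2, h3, sub_self] at h1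
  linarith

lemma sqd (x : ℝ) : HasDerivAt (fun τ : ℝ => (τ - 1 / 2) ^ 2) (2 * (x - 1 / 2)) x := by
  have := ((hasDerivAt_id' x).sub_const (1 / 2)).fun_pow 2
  refine this.congr_deriv ?_
  norm_num

lemma qf_eq {η : ℝ} (hη : 0 < η) (hη1 : η ≤ 1 / 2) {s : ℝ} (hs : s ∈ Icc η (1 - η)) :
    qf η s = (s - 1 / 2) ^ 2 := by
  unfold qf
  have h2 : (1 / 2 : ℝ) ∈ Icc η (1 - η) := ⟨hη1, by linarith⟩
  have e : ∫ τ in (1 / 2 : ℝ)..s, qd η τ = ∫ τ in (1 / 2 : ℝ)..s, 2 * (τ - 1 / 2) :=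
    intervalIntegral.integral_congr fun τ hτ => qd_eq hη hη1 ((Set.uIcc_subset_Icc h2 hs) hτ)
  rw [e]
  have h3 : ∀ x ∈ uIcc (1 / 2 : ℝ) s, HasDerivAt (fun τ : ℝ => (τ - 1 / 2) ^ 2) (2 * (x - 1 / 2)) x :=
    fun x _ => sqd x
  rw [intervalIntegral.integral_eq_sub_of_hasDerivAt h3
    ((by fun_prop : Continuous fun τ : ℝ => 2 * (τ - 1 / 2)).intervalIntegrable _ _)]
  norm_num

/-- on the right half: `q ≤ (s-1/2)²` -/
lemma qf_right_le {η s : ℝ} (hs : s ∈ Icc (1 / 2 : ℝ) 1) : qf η s ≤ (s - 1 / 2) ^ 2 := by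
  have h3 : ∀ x ∈ uIcc (1 / 2 : ℝ) s, HasDerivAt (fun τ : ℝ => (τ - 1 / 2) ^ 2) (2 * (x - 1 / 2)) x :=
    fun x _ => sqd x
  have h4 := intervalIntegral.integral_eq_sub_of_hasDerivAt h3
    ((by fun_prop : Continuous fun τ : ℝ => 2 * (τ - 1 / 2)).intervalIntegrable _ _)
  have h5 : qf η s ≤ ∫ τ in (1 / 2 : ℝ)..s, 2 * (τ - 1 / 2) := by
    unfold qf
    refine intervalIntegral.integral_mono_on hs.1 ((qd_cont η).intervalIntegrable _ _)
      ((by fun_prop : Continuous fun τ : ℝ => 2 * (τ - 1 / 2)).intervalIntegrable _ _) fun τ hτ => ?_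
    exact (qd_right ⟨hτ.1, hτ.2.trans hs.2⟩).2
  rw [h4] at h5
  norm_num at h5 ⊢
  exact h5

lemma qf_le {η s : ℝ} (hs : s ∈ Icc (0 : ℝ) 1) : qf η s ≤ 1 / 4 := by
  rcases le_total s (1 / 2) with h | h
  · have h1 := qf_right_le (η := η) (s := 1 - s) ⟨by linarith, by linarith [hs.1]⟩
    rw [qf_one_sub] at h1
    nlinarith [hs.1]
  · have h1 := qf_right_le (η := η) (s := s) ⟨h, hs.2⟩
    nlinarith [hs.2]

/-- lower bound of the profile -/
lemma qf_ge {η : ℝ} (hη : 0 < η) (hη1 : η ≤ 1 / 8) {s R : ℝ} (hs : s ∈ Icc (0 : ℝ) 1) (hR : 0 ≤ R)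
    (hR1 : R ≤ 1 / 4) (hsR : R ≤ |s - 1 / 2|) : R ^ 2 ≤ qf η s := by
  -- right half suffices
  have key : ∀ s ∈ Icc (1 / 2 : ℝ) 1, R ≤ s - 1 / 2 → R ^ 2 ≤ qf η s := by
    intro s hs hsR
    rcases le_total s (1 - η) with h | h
    · rw [qf_eq hη (by linarith) ⟨by linarith [hs.1], h⟩]
      exact pow_le_pow_left₀ hR hsR 2
    · have h1 : qf η (1 - η) = (1 - η - 1 / 2) ^ 2 :=
        qf_eq hη (by linarith) ⟨by linarith, le_refl _⟩
      have hI : ∀ a b, IntervalIntegrable (qd η) volume a b := fun a b =>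
        (qd_cont η).intervalIntegrable a b
      have h2 : qf η s - qf η (1 - η) = ∫ τ in (1 - η)..s, qd η τ := by
        unfold qf
        rw [intervalIntegral.integral_interval_sub_left (hI _ _) (hI _ _)]
      have h3 : ∫ _τ in (1 - η)..s, (-(2 * η)) ≤ ∫ τ in (1 - η)..s, qd η τ := by
        refine intervalIntegral.integral_mono_on h (by simp) (hI _ _) fun τ hτ => ?_
        have := (qd_right (η := η) (s := τ) ⟨by linarith [hτ.1], hτ.2.trans hs.2⟩).1
        linarith [hτ.1]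
      rw [intervalIntegral.integral_const, smul_eq_mul] at h3
      have h4 : (s - (1 - η)) * -(2 * η) ≥ -(2 * η ^ 2) := by nlinarith [hs.2]
      nlinarith
  rcases le_total s (1 / 2) with h | h
  · rw [abs_of_nonpos (by linarith)] at hsR
    have := key (1 - s) ⟨by linarith, by linarith [hs.1]⟩ (by linarith)
    rwa [qf_one_sub] at this
  · rw [abs_of_nonneg (by linarith)] at hsR
    exact key s ⟨h, hs.2⟩ hsR

/-- the defect `q - q'²/4` has small integral -/
lemma defect {η : ℝ} (hη : 0 < η) (hη1 : η ≤ 1 / 8) :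
    ∫ s in (0 : ℝ)..1, (qf η s - (1 / 4) * qd η s ^ 2) ≤ η / 2 := by
  have hc : Continuous fun s => qf η s - (1 / 4) * qd η s ^ 2 :=
    (qf_cont η).sub (continuous_const.mul ((qd_cont η).pow 2))
  have hI : ∀ a b, IntervalIntegrable (fun s => qf η s - (1 / 4) * qd η s ^ 2) volume a b :=
    fun a b => hc.intervalIntegrable a b
  rw [← intervalIntegral.integral_add_adjacent_intervals (hI 0 η) (hI η 1),
    ← intervalIntegral.integral_add_adjacent_intervals (hI η (1 - η)) (hI (1 - η) 1)]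
  have up : ∀ s ∈ Icc (0 : ℝ) 1, qf η s - (1 / 4) * qd η s ^ 2 ≤ 1 / 4 := fun s hs => by
    have := qf_le (η := η) hs
    nlinarith [sq_nonneg (qd η s)]
  have h1 : ∫ s in (0 : ℝ)..η, (qf η s - (1 / 4) * qd η s ^ 2) ≤ η / 4 := by
    have := intervalIntegral.integral_mono_on (g := fun _ => (1 / 4 : ℝ)) hη.le (hI 0 η) (by simp)
      fun s hs => up s ⟨hs.1, by linarith [hs.2]⟩
    rw [intervalIntegral.integral_const, smul_eq_mul] at this
    linarith
  have h2 : ∫ s in η..(1 - η), (qf η s - (1 / 4) * qd η s ^ 2) = 0 := by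
    rw [← intervalIntegral.integral_zero (a := η) (b := 1 - η) (μ := volume) (E := ℝ)]
    refine intervalIntegral.integral_congr fun s hs => ?_
    rw [Set.uIcc_of_le (by linarith)] at hs
    rw [qf_eq hη (by linarith) hs, qd_eq hη (by linarith) hs]
    ring
  have h3 : ∫ s in (1 - η)..1, (qf η s - (1 / 4) * qd η s ^ 2) ≤ η / 4 := by
    have := intervalIntegral.integral_mono_on (g := fun _ => (1 / 4 : ℝ)) (by linarith : 1 - η ≤ 1)
      (hI (1 - η) 1) (by simp) fun s hs => up s ⟨by linarith [hs.1], hs.2⟩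
    rw [intervalIntegral.integral_const, smul_eq_mul] at this
    linarith
  rw [h2]
  linarith

end Pool.Agent.H25.Kin
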