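import Pool.Agent.H25.Kin.Close
import Pool.Agent.H25.Kin.Prof

/-!
# The focusing datum: unit density, bounded energy, velocity field `-q'(x_i)/(2t)`
-/

set_option autoImplicit false

open MeasureTheory Set Filter Topology
open scoped ContDiff Real

namespace Pool.Agent.H25.Kin

variable {d : ℕ}

/-- mass of the bump -/
noncomputable def Jb (d : ℕ) : ℝ := ∫ w : Vec d, bp d w

lemma Jb_pos (d : ℕ) : 0 < Jb d := (bp d).integral_pos

/-- the normalised bump -/
noncomputable def be (d : ℕ) (w : Vec d) : ℝ := bp d w / Jb d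

lemma be_nonneg (w : Vec d) : 0 ≤ be d w := div_nonneg (bp_nonneg w) (Jb_pos d).le

lemma be_le (w : Vec d) : be d w ≤ (Jb d)⁻¹ := by
  unfold be
  rw [div_eq_mul_inv]
  have h1 := bp_le_one w
  have h2 := inv_pos.2 (Jb_pos d)
  nlinarith

lemma be_smooth : ContDiff ℝ ∞ (be d) := bp_smooth.div_const _

lemma be_cont : Continuous (be d) := be_smooth.continuous

lemma be_neg (w : Vec d) : be d (-w) = be d w := by unfold be; rw [(bp d).neg]

lemma be_supp {w : Vec d} (hw : be d w ≠ 0) : ‖w‖ < 2 :=
  bp_pos_iff fun h => hw (by unfold be; rw [h, zero_div])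

lemma be_compact : HasCompactSupport (be d) := by
  refine HasCompactSupport.intro (isCompact_closedBall (0 : Vec d) 2) fun v hv => ?_
  by_contra h0
  exact hv (by rw [mem_closedBall_zero_iff]; exact (be_supp h0).le)

lemma be_int : ∫ w, be d w = 1 := by
  unfold be
  rw [integral_div]
  exact div_self (Jb_pos d).ne'

lemma be_integrable_mul {F : Vec d → ℝ} (hF : Continuous F) : Integrable fun w => F w * be d w :=
  (hF.mul be_cont).integrable_of_hasCompactSupport be_compact.mul_left

lemma be_coord (i : Fin d) : ∫ w : Vec d, w i * be d w = 0 := by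
  have h := integral_neg_eq_self (fun w : Vec d => w i * be d w) volume
  have h2 : ∫ w : Vec d, (-w) i * be d (-w) = -∫ w : Vec d, w i * be d w := by
    rw [← integral_neg]
    refine integral_congr_ae (Eventually.of_forall fun w => ?_)
    simp only [Pi.neg_apply, be_neg]
    ring
  rw [h2] at h
  linarith

/-- second moment of the bump -/
noncomputable def sg (d : ℕ) : ℝ := ∫ w : Vec d, nsq w * be d w

lemma sg_nonneg : 0 ≤ sg d := integral_nonneg fun w => mul_nonneg (sq_nonneg' w) (be_nonneg w)

lemma sg_le : sg d ≤ 4 * d := by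
  have h1 : sg d ≤ ∫ w : Vec d, (4 * d) * be d w := by
    refine integral_mono (be_integrable_mul continuous_sq) (be_integrable_mul continuous_const)
      fun w => ?_
    simp only
    by_cases h0 : be d w = 0
    · rw [h0]; simp
    · have h2 := be_supp h0
      have h3 := sq_le w
      have h4 := norm_nonneg w
      refine mul_le_mul_of_nonneg_right (h3.trans ?_) (be_nonneg w)
      have hd : (0 : ℝ) ≤ d := Nat.cast_nonneg d
      have : ‖w‖ ^ 2 ≤ 4 := by nlinarith
      nlinarith
  rw [integral_const_mul, be_int, mul_one] at h1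
  exact h1

/-- entropy of the bump -/
noncomputable def hb (d : ℕ) : ℝ := ∫ w : Vec d, be d w * Real.log (be d w)

/-- the velocity field -/
noncomputable def uf (η t : ℝ) (x : Vec d) : Vec d := fun i => -(qd η (x i)) / (2 * t)

lemma uf_smooth (η t : ℝ) : ContDiff ℝ ∞ (uf (d := d) η t) := by
  unfold uf
  rw [contDiff_pi]
  intro i
  exact (((qd_smooth η).comp (contDiff_apply ℝ ℝ i)).neg).div_const _

lemma uf_periodic (η t : ℝ) (x : Vec d) (i : Fin d) : uf η t (x + Pi.single i 1) = uf η t x := by
  funext j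
  unfold uf
  by_cases h : j = i
  · subst h
    simp only [Pi.add_apply, Pi.single_eq_same]
    rw [qd_add_one]
  · simp [Pi.single_eq_of_ne h]

lemma uf_norm_le {η t : ℝ} (ht : 0 < t) (x : Vec d) : ‖uf η t x‖ ≤ 1 / (2 * t) := by
  refine (pi_norm_le_iff_of_nonneg (by positivity)).2 fun i => ?_
  unfold uf
  rw [Real.norm_eq_abs, abs_div, abs_neg, abs_of_pos (by positivity : 0 < 2 * t)]
  gcongr
  exact qd_abs_le η _

/-- the focusing datum -/
noncomputable def fd (η t δ : ℝ) (x v : Vec d) : ℝ := (δ ^ d)⁻¹ * be d (δ⁻¹ • (v - uf η t x))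

/-- change of variables -/
lemma fd_integral (η t : ℝ) {δ : ℝ} (hδ : 0 < δ) (x : Vec d) (F : Vec d → ℝ) :
    ∫ v, F v * fd η t δ x v = ∫ w, F (uf η t x + δ • w) * be d w := by
  unfold fd
  rw [← integral_add_right_eq_self _ (uf η t x)]
  simp only [add_sub_cancel_right]
  have h := Measure.integral_comp_inv_smul (volume : Measure (Vec d))
    (fun w => F (δ • w + uf η t x) * ((δ ^ d)⁻¹ * be d w)) δ
  have hfin : Module.finrank ℝ (Vec d) = d := by simp [Vec]
  rw [hfin, abs_of_pos (pow_pos hδ d), smul_eq_mul] at h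
  simp only [smul_inv_smul₀ hδ.ne'] at h
  rw [h, ← integral_const_mul]
  refine integral_congr_ae (Eventually.of_forall fun w => ?_)
  simp only
  have hd : δ ^ d ≠ 0 := (pow_pos hδ d).ne'
  rw [add_comm (δ • w)]
  field_simp

lemma fd_mass (η t : ℝ) {δ : ℝ} (hδ : 0 < δ) (x : Vec d) : ∫ v, fd η t δ x v = 1 := by
  have := fd_integral η t hδ x (fun _ => 1)
  simp only [one_mul] at this
  rw [this, be_int]

lemma fd_momentum (η t : ℝ) {δ : ℝ} (hδ : 0 < δ) (x : Vec d) (i : Fin d) :
    ∫ v, v i * fd η t δ x v = uf η t x i := by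
  rw [fd_integral η t hδ x (fun v => v i)]
  have e : ∀ w : Vec d, (uf η t x + δ • w) i * be d w = uf η t x i * be d w + δ * (w i * be d w) := by
    intro w
    simp only [Pi.add_apply, Pi.smul_apply, smul_eq_mul]; ring
  simp_rw [e]
  rw [integral_add ((be_integrable_mul continuous_const)) ((be_integrable_mul (by fun_prop)).const_mul _),
    integral_const_mul, integral_const_mul, be_int, be_coord]
  ring

lemma fd_energy (η t : ℝ) {δ : ℝ} (hδ : 0 < δ) (x : Vec d) :
    ∫ v, nsq v * fd η t δ x v = nsq (uf η t x) + δ ^ 2 * sg d := by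
  rw [fd_integral η t hδ x nsq]
  have e : ∀ w : Vec d, nsq (uf η t x + δ • w) * be d w =
      (nsq (uf η t x) * be d w + ∑ i, (2 * δ * uf η t x i) * (w i * be d w)) +
        δ ^ 2 * (nsq w * be d w) := by
    intro w
    have e1 : nsq (uf η t x + δ • w) = nsq (uf η t x) + ∑ i, (2 * δ * uf η t x i) * w i +
        δ ^ 2 * nsq w := by
      unfold nsq
      rw [Finset.mul_sum, ← Finset.sum_add_distrib, ← Finset.sum_add_distrib]
      refine Finset.sum_congr rfl fun i _ => ?_
      simp only [Pi.add_apply, Pi.smul_apply, smul_eq_mul]; ring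
    rw [e1, add_mul, add_mul, Finset.sum_mul]
    have e2 : ∑ i, 2 * δ * uf η t x i * w i * be d w =
        ∑ i, (2 * δ * uf η t x i) * (w i * be d w) := Finset.sum_congr rfl fun i _ => by ring
    rw [e2]; ring
  simp_rw [e]
  have i1 : Integrable fun w : Vec d => nsq (uf η t x) * be d w := be_integrable_mul continuous_const
  have i2 : ∀ i : Fin d, Integrable fun w : Vec d => (2 * δ * uf η t x i) * (w i * be d w) :=
    fun i => (be_integrable_mul (by fun_prop)).const_mul _
  have i3 : Integrable fun w : Vec d => δ ^ 2 * (nsq w * be d w) :=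
    (be_integrable_mul continuous_sq).const_mul _
  have i2' : Integrable fun w : Vec d => ∑ i, (2 * δ * uf η t x i) * (w i * be d w) :=
    integrable_finsetSum _ fun i _ => i2 i
  have i12 : Integrable fun w : Vec d => nsq (uf η t x) * be d w +
      ∑ i, (2 * δ * uf η t x i) * (w i * be d w) := i1.add i2'
  rw [integral_add i12 i3, integral_add i1 i2', integral_finsetSum _ fun i _ => i2 i,
    integral_const_mul, integral_const_mul, be_int]
  have : ∑ i, ∫ w : Vec d, (2 * δ * uf η t x i) * (w i * be d w) = 0 := by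
    refine Finset.sum_eq_zero fun i _ => ?_
    rw [integral_const_mul, be_coord, mul_zero]
  rw [this]
  unfold sg
  ring

lemma fd_entropy (η t : ℝ) {δ : ℝ} (hδ : 0 < δ) (x : Vec d) :
    ∫ v, fd η t δ x v * Real.log (fd η t δ x v) = hb d - d * Real.log δ := by
  have h := fd_integral η t hδ x (fun v => Real.log (fd η t δ x v))
  have h' : ∫ v, fd η t δ x v * Real.log (fd η t δ x v) =
      ∫ v, Real.log (fd η t δ x v) * fd η t δ x v := by
    refine integral_congr_ae (Eventually.of_forall fun v => ?_)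
    exact mul_comm _ _
  rw [h', h]
  have e : ∀ w : Vec d, Real.log (fd η t δ x (uf η t x + δ • w)) * be d w =
      be d w * Real.log (be d w) - (d * Real.log δ) * be d w := by
    intro w
    have e1 : fd η t δ x (uf η t x + δ • w) = (δ ^ d)⁻¹ * be d w := by
      unfold fd
      rw [add_sub_cancel_left, inv_smul_smul₀ hδ.ne']
    rw [e1]
    by_cases h0 : be d w = 0
    · rw [h0]; ring
    · rw [Real.log_mul (inv_ne_zero (pow_pos hδ d).ne') h0, Real.log_inv, Real.log_pow]
      ring
  simp_rw [e]
  have i1 : Integrable fun w : Vec d => be d w * Real.log (be d w) := by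
    have hc : Continuous fun w : Vec d => be d w * Real.log (be d w) :=
      Real.continuous_mul_log.comp be_cont
    refine hc.integrable_of_hasCompactSupport ?_
    exact be_compact.mul_right
  rw [integral_sub i1 (be_integrable_mul continuous_const), integral_const_mul, be_int, mul_one]
  rfl

lemma fd_admissible {η t δ μ : ℝ} (ht : 0 < t) (hδ : 0 < δ) (hμ : 0 < μ) :
    IsAdmissible μ (fd (d := d) η t δ) := by
  refine ⟨?_, ?_, ?_, ?_, ?_⟩
  · unfold fd
    refine contDiff_const.mul (be_smooth.comp ?_)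
    exact (contDiff_snd.sub ((uf_smooth η t).comp contDiff_fst)).const_smul _
  · intro x v
    exact mul_nonneg (inv_nonneg.2 (pow_pos hδ d).le) (be_nonneg _)
  · intro x v i
    unfold fd; rw [uf_periodic]
  · set L := 2 * δ + 1 / (2 * t) with hL
    refine ⟨(δ ^ d)⁻¹ * (Jb d)⁻¹ * Real.exp (μ * (d * L ^ 2)), fun x v => ?_⟩
    have hJ := inv_pos.2 (Jb_pos d)
    have hδd := inv_pos.2 (pow_pos hδ d)
    by_cases h0 : be d (δ⁻¹ • (v - uf η t x)) = 0
    · unfold fd; rw [h0, mul_zero]; positivity
    · have h1 := be_supp h0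
      rw [norm_smul, norm_inv, Real.norm_eq_abs, abs_of_pos hδ, inv_mul_lt_iff₀ hδ] at h1
      have h2 : ‖v‖ ≤ L := by
        calc ‖v‖ = ‖(v - uf η t x) + uf η t x‖ := by rw [sub_add_cancel]
          _ ≤ ‖v - uf η t x‖ + ‖uf η t x‖ := norm_add_le _ _
          _ ≤ 2 * δ + 1 / (2 * t) := add_le_add (by linarith) (uf_norm_le ht x)
      have h3 : nsq v ≤ d * L ^ 2 := by
        refine (sq_le v).trans ?_
        have := pow_le_pow_left₀ (norm_nonneg v) h2 2
        gcongr
      have h4 : fd η t δ x v ≤ (δ ^ d)⁻¹ * (Jb d)⁻¹ := by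
        unfold fd
        exact mul_le_mul_of_nonneg_left (be_le _) hδd.le
      have h5 : 1 ≤ Real.exp (μ * (d * L ^ 2)) * Real.exp (-μ * nsq v) := by
        rw [← Real.exp_add]
        refine Real.one_le_exp ?_
        nlinarith
      calc fd η t δ x v ≤ (δ ^ d)⁻¹ * (Jb d)⁻¹ * 1 := by rw [mul_one]; exact h4
        _ ≤ (δ ^ d)⁻¹ * (Jb d)⁻¹ * (Real.exp (μ * (d * L ^ 2)) * Real.exp (-μ * nsq v)) := by gcongr
        _ = _ := by ring
  · exact ⟨1, one_pos, fun x => by rw [fd_mass η t hδ x]⟩

end Pool.Agent.H25.Kin
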