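import Pool.Agent.H25.Kin.Trans
import Pool.Agent.H25.Kin.FData

/-!
# The virial argument: macroscopic focusing for all conservative collision operators
-/

set_option autoImplicit false

open MeasureTheory Set Filter Topology
open scoped ContDiff Real

namespace Pool.Agent.H25.Kin

variable {d : ℕ} {T : ℝ} {Q f : ℝ → Vec d → Vec d → ℝ}

/-- functions of one coordinate -/
lemma pos_coord {g : ℝ → ℝ} (hg : ContDiff ℝ 1 g) (hp : ∀ s, g (s + 1) = g s) (i : Fin d) :
    ∃ A, Pos (fun x : Vec d => g (x i)) A := by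
  have hc := hg.continuous
  have hc1 : Continuous (deriv g) := hg.continuous_deriv (by norm_num)
  obtain ⟨A0, hA0⟩ := isCompact_Icc.exists_bound_of_continuousOn (s := Icc (0 : ℝ) 1) hc.continuousOn
  obtain ⟨A1, hA1⟩ := isCompact_Icc.exists_bound_of_continuousOn (s := Icc (0 : ℝ) 1) hc1.continuousOn
  have per0 : Function.Periodic g 1 := hp
  have per1 : Function.Periodic (deriv g) 1 := by
    intro s
    have e : (fun s => g (s + 1)) = g := funext hp
    have h2 := deriv_comp_add_const (f := g) 1 s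
    rw [e] at h2
    exact h2.symm
  have bd0 : ∀ s, |g s| ≤ A0 := by
    intro s
    obtain ⟨y, hy, he⟩ := per0.exists_mem_Ico₀ one_pos s
    rw [he]; exact hA0 y ⟨hy.1, hy.2.le⟩
  have bd1 : ∀ s, |deriv g s| ≤ A1 := by
    intro s
    obtain ⟨y, hy, he⟩ := per1.exists_mem_Ico₀ one_pos s
    rw [he]; exact hA1 y ⟨hy.1, hy.2.le⟩
  have hfd : ∀ x : Vec d, HasFDerivAt (fun x : Vec d => g (x i))
      (deriv g (x i) • ContinuousLinearMap.proj (R := ℝ) (φ := fun _ : Fin d => ℝ) i) x := by
    intro x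
    have h1 : HasFDerivAt (fun x : Vec d => x i) (ContinuousLinearMap.proj (R := ℝ) i) x :=
      (ContinuousLinearMap.proj (R := ℝ) (φ := fun _ : Fin d => ℝ) i).hasFDerivAt
    have h2 : HasDerivAt g (deriv g (x i)) (x i) := ((hg.differentiable (by norm_num)) (x i)).hasDerivAt
    exact h2.comp_hasFDerivAt x h1
  refine ⟨max A0 A1, ?_, ?_, ?_, ?_⟩
  · intro x j
    by_cases h : j = i
    · subst h; simp only [Pi.add_apply, Pi.single_eq_same, hp]
    · have : (x + (Pi.single j 1 : Vec d)) i = x i := by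
        simp [Pi.single_eq_of_ne (Ne.symm h)]
      simp only [this]
  · exact hg.comp (contDiff_apply ℝ ℝ i)
  · intro x; exact (bd0 _).trans (le_max_left _ _)
  · intro x
    rw [(hfd x).fderiv, norm_smul, Real.norm_eq_abs]
    have h3 := norm_proj_le (d := d) i
    calc |deriv g (x i)| * ‖ContinuousLinearMap.proj (R := ℝ) (φ := fun _ : Fin d => ℝ) i‖
        ≤ |deriv g (x i)| * 1 := by gcongr
      _ = |deriv g (x i)| := mul_one _
      _ ≤ max A0 A1 := (bd1 _).trans (le_max_right _ _)

lemma fderiv_coord_apply {g : ℝ → ℝ} (hg : ContDiff ℝ 1 g) (i : Fin d) (x v : Vec d) :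
    fderiv ℝ (fun x : Vec d => g (x i)) x v = deriv g (x i) * v i := by
  have h1 : HasFDerivAt (fun x : Vec d => x i) (ContinuousLinearMap.proj (R := ℝ) i) x :=
    (ContinuousLinearMap.proj (R := ℝ) (φ := fun _ : Fin d => ℝ) i).hasFDerivAt
  have h2 : HasDerivAt g (deriv g (x i)) (x i) := ((hg.differentiable (by norm_num)) (x i)).hasDerivAt
  have h3 : HasFDerivAt (fun x : Vec d => g (x i))
      (deriv g (x i) • ContinuousLinearMap.proj (R := ℝ) (φ := fun _ : Fin d => ℝ) i) x :=
    h2.comp_hasFDerivAt x h1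
  rw [h3.fderiv]
  rfl

/-- iterated form of the moments -/
lemma mom_iter {c p : Vec d → ℝ} {A : ℝ} (hc : ∀ x, |c x| ≤ A) (hcc : Continuous c) (hp : PG p)
    (hpc : Continuous p) (hf : IsClassicalSol T Q f) {t : ℝ} (ht : t ∈ Ico 0 T) :
    Integrable (fun q : Vec d × Vec d => c q.2 * p q.1 * f t q.2 q.1) (nu d) ∧
    mom c p f t = ∫ x in Icc (0 : Vec d) 1, c x * ∫ v, p v * f t x v := by
  obtain ⟨C, hC0, hC⟩ := mom_bound (T₁ := t) hc hp hf ht.2
  have hcont : Continuous fun q : Vec d × Vec d => c q.2 * p q.1 * f t q.2 q.1 := by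
    have h1 : Continuous fun q : Vec d × Vec d => f t q.2 q.1 :=
      (hf.cont_slice ht).comp (by fun_prop : Continuous fun q : Vec d × Vec d => (q.2, q.1))
    exact ((hcc.comp continuous_snd).mul (hpc.comp continuous_fst)).mul h1
  have hi : Integrable (fun q : Vec d × Vec d => c q.2 * p q.1 * f t q.2 q.1) (nu d) :=
    integrable_nu hcont.aestronglyMeasurable fun q => hC t ⟨ht.1, le_refl _⟩ _ _ _
  refine ⟨hi, ?_⟩
  unfold mom nu
  rw [integral_prod_symm _ (by exact hi)]
  unfold muD
  refine integral_congr_ae (Eventually.of_forall fun x => ?_)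
  simp only
  rw [← integral_const_mul]
  refine integral_congr_ae (Eventually.of_forall fun v => ?_)
  simp only; ring

/-- a real-variable lemma -/
lemma second_order {A B b : ℝ → ℝ} {E t : ℝ} (ht : 0 < t)
    (hAc : ContinuousOn A (Icc 0 t)) (hBc : ContinuousOn B (Icc 0 t))
    (hA : ∀ s ∈ Ioo 0 t, HasDerivAt A (B s) s) (hB : ∀ s ∈ Ioo 0 t, HasDerivAt B (b s) s)
    (hb : ∀ s ∈ Ioo 0 t, b s ≤ 2 * E) : A t ≤ A 0 + B 0 * t + E * t ^ 2 := by
  have h1 : ∀ s ∈ Icc 0 t, B s ≤ B 0 + 2 * E * s := by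
    have hanti : AntitoneOn (fun s => B s - 2 * E * s) (Icc 0 t) := by
      refine antitoneOn_of_deriv_nonpos (convex_Icc 0 t) (hBc.sub (by fun_prop)) ?_ ?_
      · intro s hs
        rw [interior_Icc] at hs
        exact ((hB s hs).differentiableAt.sub (by fun_prop)).differentiableWithinAt
      · intro s hs
        rw [interior_Icc] at hs
        have h2 : HasDerivAt (fun s => B s - 2 * E * s) (b s - 2 * E) s := by
          refine ((hB s hs).sub ((hasDerivAt_id' s).const_mul (2 * E))).congr_deriv ?_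
          ring
        rw [h2.deriv]
        linarith [hb s hs]
    intro s hs
    have := hanti ⟨le_refl _, ht.le⟩ hs hs.1
    simp only at this
    linarith
  have hanti : AntitoneOn (fun s => A s - B 0 * s - E * s ^ 2) (Icc 0 t) := by
    refine antitoneOn_of_deriv_nonpos (convex_Icc 0 t) ((hAc.sub (by fun_prop)).sub (by fun_prop)) ?_ ?_
    · intro s hs
      rw [interior_Icc] at hs
      exact (((hA s hs).differentiableAt.sub (by fun_prop)).sub (by fun_prop)).differentiableWithinAt
    · intro s hs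
      rw [interior_Icc] at hs
      have h2 : HasDerivAt (fun s => A s - B 0 * s - E * s ^ 2) (B s - B 0 - 2 * E * s) s := by
        have h3 := (((hA s hs).sub ((hasDerivAt_id' s).const_mul (B 0)))).sub
          (((hasDerivAt_id' s).fun_pow 2).const_mul E)
        refine h3.congr_deriv ?_
        simp; ring
      rw [h2.deriv]
      linarith [h1 s ⟨hs.1.le, hs.2.le⟩]
  have := hanti ⟨le_refl _, ht.le⟩ ⟨ht.le, le_refl _⟩ ht.le
  simp only at this
  nlinarith

lemma PG.one : PG (fun _ : Vec d => (1 : ℝ)) := PG.const 1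

lemma pos_one : Pos (fun _ : Vec d => (1 : ℝ)) 1 :=
  ⟨fun _ _ => rfl, contDiff_const, fun _ => by simp, fun x => by simp⟩

/-- sums of moments -/
lemma sum_hasDerivAt {F : Fin d → ℝ → ℝ} {F' : Fin d → ℝ} {s : ℝ}
    (h : ∀ i, HasDerivAt (F i) (F' i) s) : HasDerivAt (fun t => ∑ i, F i t) (∑ i, F' i) s :=
  HasDerivAt.fun_sum fun i _ => h i

/-- conservation of `∫∫ p f` for collision invariants `p` -/
lemma mom_const {p : Vec d → ℝ} (hp : PG p) (hpc : Continuous p) (hf : IsClassicalSol T Q f)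
    (hQ : ∀ t ∈ Ioo 0 T, ∀ x, ∫ v, Q t x v * p v = 0) {t : ℝ} (ht : t ∈ Ico 0 T) :
    mom (fun _ => 1) p f t = mom (fun _ => 1) p f 0 := by
  rcases ht.1.eq_or_lt with h | h
  · rw [← h]
  have hd : ∀ s ∈ Ioo 0 t, HasDerivAt (mom (fun _ : Vec d => 1) p f) 0 s := by
    intro s hs
    have hsT : s ∈ Ioo 0 T := ⟨hs.1, hs.2.trans ht.2⟩
    have := mom_hasDerivAt pos_one hp hpc hf hsT (hQ s hsT)
    simpa using this
  have hc := mom_cont pos_one hp hpc hf ht.2
  obtain ⟨s, hs, h2⟩ := exists_hasDerivAt_eq_slope (mom (fun _ : Vec d => 1) p f)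
    (fun _ => 0) h hc (fun s hs => hd s hs)
  have h3 : mom (fun _ : Vec d => 1) p f t - mom (fun _ : Vec d => 1) p f 0 = 0 := by
    rw [sub_zero] at h2
    have := h2.symm
    rw [div_eq_zero_iff] at this
    rcases this with h4 | h4
    · exact h4
    · exact absurd h4 h.ne'
  linarith

/-- **virial inequality** for all conservative collision terms -/
theorem virial (hf : IsClassicalSol T Q f) (hQ : HasInvariants T Q) (η : ℝ) {t : ℝ} (ht : 0 < t)
    (htT : t < T) :
    ∑ i, mom (fun x : Vec d => qf η (x i)) (fun _ => 1) f t ≤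
      ∑ i, mom (fun x : Vec d => qf η (x i)) (fun _ => 1) f 0 +
      (∑ i, mom (fun x : Vec d => qd η (x i)) (fun v => v i) f 0) * t +
      mom (fun _ => 1) nsq f 0 * t ^ 2 := by
  have sq1 : ContDiff ℝ 1 (qf η) := (qf_smooth η).of_le (by exact_mod_cast le_top)
  have sd1 : ContDiff ℝ 1 (qd η) := (qd_smooth η).of_le (by exact_mod_cast le_top)
  have hQ1 : ∀ s ∈ Ioo 0 T, ∀ x, ∫ v, Q s x v * (1 : ℝ) = 0 := fun s hs x => by
    simpa using (hQ s hs x).1
  have hQi : ∀ i, ∀ s ∈ Ioo 0 T, ∀ x, ∫ v, Q s x v * v i = 0 := fun i s hs x => (hQ s hs x).2.1 i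
  have hQe : ∀ s ∈ Ioo 0 T, ∀ x, ∫ v, Q s x v * nsq v = 0 := fun s hs x => (hQ s hs x).2.2
  have dq : deriv (qf η) = qd η := funext fun s => (qf_hasDerivAt η s).deriv
  have dd : deriv (qd η) = fun s => 2 - 2 * psi η s := funext fun s => (qd_hasDerivAt η s).deriv
  refine second_order (A := fun t => ∑ i, mom (fun x : Vec d => qf η (x i)) (fun _ => 1) f t)
    (B := fun t => ∑ i, mom (fun x : Vec d => qd η (x i)) (fun v => v i) f t)
    (b := fun t => ∑ i, mom (fun x : Vec d => 2 - 2 * psi η (x i)) (fun v => v i * v i) f t)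
    (E := mom (fun _ => 1) nsq f 0) ht ?_ ?_ ?_ ?_ ?_
  · refine continuousOn_finsetSum _ fun i _ => ?_
    obtain ⟨A, hA⟩ := pos_coord sq1 (qf_add_one η) i
    exact mom_cont hA PG.one continuous_const hf htT
  · refine continuousOn_finsetSum _ fun i _ => ?_
    obtain ⟨A, hA⟩ := pos_coord sd1 (qd_add_one η) i
    exact mom_cont hA (PG.coord i) (by fun_prop) hf htT
  · intro s hs
    refine sum_hasDerivAt fun i => ?_
    obtain ⟨A, hA⟩ := pos_coord sq1 (qf_add_one η) i
    have hsT : s ∈ Ioo 0 T := ⟨hs.1, hs.2.trans htT⟩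
    have h := mom_hasDerivAt hA PG.one continuous_const hf hsT (hQ1 s hsT)
    refine h.congr_deriv ?_
    unfold mom
    refine integral_congr_ae (Eventually.of_forall fun q => ?_)
    simp only
    rw [fderiv_coord_apply sq1, dq]; ring
  · intro s hs
    refine sum_hasDerivAt fun i => ?_
    obtain ⟨A, hA⟩ := pos_coord sd1 (qd_add_one η) i
    have hsT : s ∈ Ioo 0 T := ⟨hs.1, hs.2.trans htT⟩
    have h := mom_hasDerivAt hA (PG.coord i) (by fun_prop) hf hsT (hQi i s hsT)
    refine h.congr_deriv ?_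
    unfold mom
    refine integral_congr_ae (Eventually.of_forall fun q => ?_)
    simp only
    rw [fderiv_coord_apply sd1, dd]; ring
  · intro s hs
    have hsT : s ∈ Ico 0 T := ⟨hs.1.le, hs.2.trans htT⟩
    have hE := mom_const PG.nsq continuous_sq hf hQe hsT
    have hpgi : ∀ i : Fin d, PG (fun v : Vec d => v i * v i) := fun i => (PG.coord i).mul (PG.coord i)
    have hterm : ∀ i : Fin d, mom (fun x : Vec d => 2 - 2 * psi η (x i)) (fun v => v i * v i) f s ≤
        2 * mom (fun _ => 1) (fun v => v i * v i) f s := by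
      intro i
      have sp1 : ContDiff ℝ 1 (fun s => 2 - 2 * psi η s) :=
        contDiff_const.sub (contDiff_const.mul ((psi_smooth η).of_le (by exact_mod_cast le_top)))
      obtain ⟨A, hA⟩ := pos_coord (d := d) sp1 (fun s => by rw [psi_add_one]) i
      have i1 := (mom_iter hA.le0 hA.smooth.continuous (hpgi i) (by fun_prop) hf hsT).1
      have i2 := (mom_iter (d := d) pos_one.le0 continuous_const (hpgi i) (by fun_prop) hf hsT).1
      unfold mom
      rw [← integral_const_mul]
      refine integral_mono i1 (i2.const_mul 2) fun q => ?_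
      simp only
      have h1 := psi_nonneg η (q.2 i)
      have h2 := hf.nonneg s hsT q.2 q.1
      have h3 : 0 ≤ q.1 i * q.1 i * f s q.2 q.1 := mul_nonneg (mul_self_nonneg _) h2
      nlinarith
    have hsum : ∑ i, mom (fun _ : Vec d => 1) (fun v => v i * v i) f s = mom (fun _ => 1) nsq f s := by
      unfold mom
      rw [← integral_finsetSum]
      · refine integral_congr_ae (Eventually.of_forall fun q => ?_)
        simp only [nsq]
        rw [Finset.mul_sum, Finset.sum_mul]
        exact Finset.sum_congr rfl fun i _ => by ring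
      · intro i _
        exact (mom_iter pos_one.le0 continuous_const (hpgi i) (by fun_prop) hf hsT).1
    calc ∑ i, mom (fun x : Vec d => 2 - 2 * psi η (x i)) (fun v => v i * v i) f s
        ≤ ∑ i, 2 * mom (fun _ : Vec d => 1) (fun v => v i * v i) f s :=
          Finset.sum_le_sum fun i _ => hterm i
      _ = 2 * mom (fun _ => 1) nsq f 0 := by rw [← Finset.mul_sum, hsum, hE]

end Pool.Agent.H25.Kin
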