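import Pool.Agent.H25.Kin.Sobolev

/-!
# Inflation of the hydrodynamic quantities: abstract form
-/

set_option autoImplicit false

open MeasureTheory Set Filter Topology
open scoped ContDiff Real

namespace Pool.Agent.H25.Kin

variable {d : ℕ}

lemma IsAdmissible.bdd {μ : ℝ} (hμ : 0 < μ) {F : Vec d → Vec d → ℝ} (hF : IsAdmissible μ F) :
    ∃ C, 0 ≤ C ∧ ∀ x v, F x v ≤ C := by
  obtain ⟨C, hC0, hC⟩ := hF.gauss'
  refine ⟨C, hC0, fun x v => (hC x v).trans ?_⟩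
  have h1 : Real.exp (-μ * nsq v) ≤ 1 := Real.exp_le_one_iff.2 (by nlinarith [sq_nonneg' v])
  nlinarith

lemma int_bump_mul_le {δ t h : ℝ} (hδ : 0 < δ) (ht : 0 < t) (hh : 0 ≤ h) {P : Vec d → ℝ} {A : ℝ}
    (hA : 0 ≤ A) (hP : ∀ v : Vec d, ‖v‖ < 4 → |P v| ≤ A) (hδ1 : δ ≤ 1) (x : Vec d) :
    |∫ v, h * bump δ t x v * P v| ≤ h * A * (4 * δ) ^ d := by
  have e : (4 * δ) ^ d = (2 * (2 * δ)) ^ d := by congr 1; ring
  rw [e]
  refine int_le_ball' (G := fun v => h * bump δ t x v * P v) (C := h * A) (R := 2 * δ)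
    (-(t⁻¹ • Sx x)) (by positivity) (fun v => ?_) fun v hv => ?_
  · by_cases h0 : bump δ t x v = 0
    · rw [h0, mul_zero, zero_mul, abs_zero]; positivity
    · rw [abs_mul, abs_mul, abs_of_nonneg hh, abs_of_nonneg (bump_nonneg δ t x v)]
      have h1 := hP v (bump_supp_v hδ hδ1 ht h0)
      have h2 := bump_le_one δ t x v
      have h3 := bump_nonneg δ t x v
      calc h * bump δ t x v * |P v| ≤ h * 1 * A := by gcongr
        _ = h * A := by ring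
  · have h0 : bump δ t x v = 0 := by
      by_contra h0
      have := (bump_supp hδ ht h0).2
      rw [sub_neg_eq_add] at hv
      linarith
    rw [h0, mul_zero, zero_mul]

lemma pert_hydro {μ : ℝ} (hμ : 0 < μ) {F : Vec d → Vec d → ℝ} (hF : IsAdmissible μ F) {C : ℝ}
    (hC : ∀ x v, F x v ≤ C) {δ t h ε : ℝ} (hδ : 0 < δ) (hδ1 : δ ≤ 1) (ht : 0 < t) (hh : 0 ≤ h)
    (h1 : h * 1 * (4 * δ) ^ d ≤ ε) (h2 : h * (d * 16) * (4 * δ) ^ d ≤ ε)
    (h3 : (2 * (2 * Real.sqrt (C + h) + (C + h) ^ 2)) * (4 * δ) ^ d ≤ ε)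
    {m M E H : ℝ} {x : Vec d} (hx : HydroBounds m M E H (F x)) :
    HydroBounds m (M + ε) (E + ε) (H + ε) (fun v => F x v + h * bump δ t x v) := by
  obtain ⟨a1, a2, a3, a4⟩ := hx
  have hA := pert_admissible hμ hF hδ hδ1 ht hh
  have ib : Integrable (fun v => h * bump δ t x v) := (bump_integrable hδ hδ1 ht x).const_mul h
  have ibs : Integrable (fun v => h * bump δ t x v * nsq v) := by
    have := (hA.int_sq hμ x).sub (hF.int_sq hμ x)
    refine this.congr (Eventually.of_forall fun v => ?_)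
    simp only [Pi.sub_apply]; ring
  have e1 : ∫ v, (F x v + h * bump δ t x v) = (∫ v, F x v) + ∫ v, h * bump δ t x v :=
    integral_add (hF.int hμ x) ib
  have b1 : |∫ v, h * bump δ t x v * 1| ≤ h * 1 * (4 * δ) ^ d :=
    int_bump_mul_le hδ ht hh (P := fun _ => 1) zero_le_one (fun v _ => by simp) hδ1 x
  simp only [mul_one] at b1
  have b2 : |∫ v, h * bump δ t x v * nsq v| ≤ h * (d * 16) * (4 * δ) ^ d := by
    refine int_bump_mul_le hδ ht hh (P := nsq) (by positivity) (fun v hv => ?_) hδ1 x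
    rw [abs_of_nonneg (sq_nonneg' v)]
    refine (sq_le v).trans ?_
    have : ‖v‖ ^ 2 ≤ 16 := by nlinarith [norm_nonneg v]
    gcongr
  have b0 : 0 ≤ ∫ v, h * bump δ t x v := integral_nonneg fun v => mul_nonneg hh (bump_nonneg _ _ _ _)
  refine ⟨?_, ?_, ?_, ?_⟩
  · rw [e1]; linarith
  · rw [e1]
    have := le_abs_self (∫ v, h * bump δ t x v)
    rw [mul_one] at h1
    linarith
  · have e2 : ∫ v, (F x v + h * bump δ t x v) * nsq v =
        (∫ v, F x v * nsq v) + ∫ v, h * bump δ t x v * nsq v := by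
      rw [← integral_add (hF.int_sq hμ x) ibs]
      refine integral_congr_ae (Eventually.of_forall fun v => ?_)
      simp only; ring
    rw [e2]
    have := le_abs_self (∫ v, h * bump δ t x v * nsq v)
    linarith
  · have := pert_entropy hμ hF hC hδ hδ1 ht hh x
    have h5 := le_abs_self ((∫ v, (F x v + h * bump δ t x v) * Real.log (F x v + h * bump δ t x v)) -
      ∫ v, F x v * Real.log (F x v))
    linarith

/-- **Abstract inflation theorem** for collision terms satisfying the weak bound. -/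
theorem inflation {d : ℕ} (hd : 1 ≤ d) {μ : ℝ} (hμ : 0 < μ) {F₀ : Vec d → Vec d → ℝ}
    (hF : IsAdmissible μ F₀) {C₀ : ℝ} (hC₀ : 0 ≤ C₀) (K : ℝ) {ε τ : ℝ} (hε : 0 < ε) (hτ : 0 < τ)
    (N : ℕ) : ∃ t ∈ Ioo 0 τ, ∃ f₀ : Vec d → Vec d → ℝ, IsAdmissible μ f₀ ∧
      IsClose F₀ f₀ (4 ^ d * |K| + 1) ε N ∧
      ∀ T > t, ∀ Q f, IsClassicalSol T Q f → WeakBound T C₀ Q f → f 0 = f₀ →
        ∃ s ∈ Ioc 0 t, ∃ x, K < ∫ v, f s x v * (1 + nsq v) := by
  obtain ⟨B, hB1, hB⟩ := exists_bp_test d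
  obtain ⟨C, hC0, hC⟩ := hF.bdd hμ
  set h : ℝ := 4 ^ d * |K| + 1 with hh
  have hh1 : 1 ≤ h := by
    have : 0 ≤ 4 ^ d * |K| := by positivity
    linarith
  have hh0 : 0 ≤ h := by linarith
  set X : ℝ := 5 ^ N * h ^ N + 2 * (2 * Real.sqrt (C + h) + (C + h) ^ 2) + h * 1 + h * (d * 16)
    with hX
  have x1 : 0 ≤ 5 ^ N * h ^ N := by positivity
  have x2 : 0 ≤ 2 * (2 * Real.sqrt (C + h) + (C + h) ^ 2) := by positivity
  have x3 : 0 ≤ h * 1 := by positivity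
  have x4 : 0 ≤ h * (d * 16) := by positivity
  -- choice of δ
  obtain ⟨δ, hδ, hδ1, hδX⟩ : ∃ δ : ℝ, 0 < δ ∧ δ ≤ 1 ∧ X * (4 * δ) ^ d ≤ ε := by
    have hcont : Continuous fun δ : ℝ => X * (4 * δ) ^ d := by fun_prop
    have ht : Tendsto (fun δ : ℝ => X * (4 * δ) ^ d) (𝓝[>] 0) (𝓝 0) := by
      have := (hcont.tendsto 0).mono_left (nhdsWithin_le_nhds (s := Ioi 0))
      have e : X * (4 * 0) ^ d = 0 := by
        rw [mul_zero, zero_pow (by omega), mul_zero]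
      rwa [e] at this
    have h1 : ∀ᶠ δ in 𝓝[>] (0 : ℝ), X * (4 * δ) ^ d < ε := ht.eventually_lt_const hε
    have h2 : ∀ᶠ δ in 𝓝[>] (0 : ℝ), δ ∈ Ioo (0 : ℝ) 1 := Ioo_mem_nhdsGT one_pos
    obtain ⟨δ, a, b⟩ := (h1.and h2).exists
    exact ⟨δ, b.1, b.2.le, a.le⟩
  have hp : 0 ≤ (4 * δ) ^ d := by positivity
  have y1 : 5 ^ N * h ^ N * (4 * δ) ^ d ≤ ε :=
    (mul_le_mul_of_nonneg_right (by linarith) hp).trans hδX
  have y2 : 2 * (2 * Real.sqrt (C + h) + (C + h) ^ 2) * (4 * δ) ^ d ≤ ε :=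
    (mul_le_mul_of_nonneg_right (by linarith) hp).trans hδX
  have y3 : h * 1 * (4 * δ) ^ d ≤ ε :=
    (mul_le_mul_of_nonneg_right (by linarith) hp).trans hδX
  have y4 : h * (d * 16) * (4 * δ) ^ d ≤ ε :=
    (mul_le_mul_of_nonneg_right (by linarith) hp).trans hδX
  -- choice of t
  set Y : ℝ := 5 ^ N * (3 * h * B * δ⁻¹) ^ d * (4 * δ) ^ d * 24 ^ d with hY
  set Z : ℝ := C₀ * (4 * ((B * (1 + δ⁻¹) ^ 2) * B)) * |K| ^ 2 * 8 ^ d with hZ
  obtain ⟨t, ht, htτ, ht4, htδ, htY, htZ⟩ : ∃ t : ℝ, 0 < t ∧ t < τ ∧ t ≤ 1 / 4 ∧ t ≤ δ / 2 ∧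
      Y * t ≤ ε ∧ t * Z < δ ^ d := by
    have h1 : ∀ᶠ t in 𝓝[>] (0 : ℝ), t ∈ Ioo (0 : ℝ) τ := Ioo_mem_nhdsGT hτ
    have h2 : ∀ᶠ t in 𝓝[>] (0 : ℝ), t ∈ Ioo (0 : ℝ) (1 / 4) := Ioo_mem_nhdsGT (by norm_num)
    have h3 : ∀ᶠ t in 𝓝[>] (0 : ℝ), t ∈ Ioo (0 : ℝ) (δ / 2) := Ioo_mem_nhdsGT (by positivity)
    have h4 : ∀ᶠ t in 𝓝[>] (0 : ℝ), Y * t < ε := by
      have hc : Continuous fun t : ℝ => Y * t := by fun_prop
      have := (hc.tendsto 0).mono_left (nhdsWithin_le_nhds (s := Ioi 0))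
      rw [mul_zero] at this
      exact this.eventually_lt_const hε
    have h5 : ∀ᶠ t in 𝓝[>] (0 : ℝ), t * Z < δ ^ d := by
      have hc : Continuous fun t : ℝ => t * Z := by fun_prop
      have := (hc.tendsto 0).mono_left (nhdsWithin_le_nhds (s := Ioi 0))
      rw [zero_mul] at this
      exact this.eventually_lt_const (by positivity)
    obtain ⟨t, a, b, c, e, f⟩ := (h1.and (h2.and (h3.and (h4.and h5)))).exists
    exact ⟨t, a.1, a.2, b.2.le, c.2.le, e.le, f⟩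
  refine ⟨t, ⟨ht, htτ⟩, fun x v => F₀ x v + h * bump δ t x v,
    pert_admissible hμ hF hδ hδ1 ht hh0, ⟨?_, ?_, ?_, ?_, ?_⟩, ?_⟩
  · intro x v
    have a := bump_nonneg δ t x v
    have b := bump_le_one δ t x v
    constructor
    · nlinarith
    · nlinarith
  · intro x v hv
    have h0 : bump δ t x v = 0 := by
      by_contra h0
      linarith [bump_supp_v hδ hδ1 ht h0]
    rw [h0, mul_zero, add_zero]
  · intro m M E H x hx
    exact pert_hydro hμ hF hC hδ hδ1 ht hh0 y3 y4 y2 hx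
  · intro p hp x
    have e : ∀ v, F₀ x v + h * bump δ t x v - F₀ x v = h * bump δ t x v := fun v => by ring
    simp only [e]
    exact (pert_Lp hδ hδ1 ht hh1 N hp x).trans y1
  · intro r hr1 hr
    simp only [add_sub_cancel_left]
    exact (pert_sobolev hB1 hB hδ hδ1 ht (by linarith) hh1 N hr1 hr).trans htY
  · intro T hT Q f hf hw hf0
    by_contra hcon
    push Not at hcon
    have hK : ∀ s ∈ Ioc 0 t, ∀ x, ∫ v, f s x v * (1 + nsq v) ≤ |K| := fun s hs x =>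
      (hcon s hs x).trans (le_abs_self K)
    have hlow : ∀ x v : Vec d, ‖x‖ ≤ t / 2 → ‖v + t⁻¹ • x‖ ≤ δ / 2 → h ≤ f 0 x v := by
      intro x v hx hv
      rw [hf0]
      simp only
      rw [bump_eq_one hδ hδ1 ht ht4 htδ hx hv]
      have := hF.nonneg x v
      linarith
    have hcore := core hf hC₀ hw hB hδ hδ1 ht hT hh0 hlow hK
    rw [← hZ] at hcore
    have hδd : 0 < δ ^ d := pow_pos hδ d
    have : h * δ ^ d = 4 ^ d * |K| * δ ^ d + δ ^ d := by rw [hh]; ring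
    linarith

end Pool.Agent.H25.Kin
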