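import Pool.Agent.H25.Kin.Inflate
import Pool.Agent.H25.Kin.AdmisB

/-!
# Inflation of the hydrodynamic quantities for rapidly decaying data
-/

set_option autoImplicit false

open MeasureTheory Set Filter Topology
open scoped ContDiff Real

namespace Pool.Agent.H25.Kin

variable {d : ℕ} {F : Vec d → Vec d → ℝ}

lemma IsAdmissibleB.cont (hF : IsAdmissibleB F) (x : Vec d) : Continuous (F x) :=
  hF.smooth.continuous.comp (by fun_prop : Continuous fun v : Vec d => (x, v))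

lemma IsAdmissibleB.bdd (hF : IsAdmissibleB F) : ∃ C, 0 ≤ C ∧ ∀ x v, F x v ≤ C := by
  obtain ⟨C, hC⟩ := hF.decay 0
  refine ⟨|C|, abs_nonneg _, fun x v => ?_⟩
  have := hC x v
  rw [pow_zero, one_mul] at this
  exact this.trans (le_abs_self C)

lemma IsAdmissibleB.rd (hF : IsAdmissibleB F) (x : Vec d) : RD (F x) := by
  intro N
  obtain ⟨C, hC⟩ := hF.decay N
  refine ⟨C, fun v => ?_⟩
  rw [Real.norm_eq_abs, abs_of_nonneg (hF.nonneg x v)]
  exact hC x v

lemma IsAdmissibleB.rd_log (hF : IsAdmissibleB F) (x : Vec d) :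
    RD (fun v => F x v * Real.log (F x v)) := by
  have h1 : RD (fun v : Vec d => 2 * Real.sqrt (F x v)) := by
    intro N
    obtain ⟨C, hC⟩ := hF.decay (2 * N)
    refine ⟨2 * Real.sqrt C, fun v => ?_⟩
    rw [Real.norm_eq_abs, abs_of_nonneg (by positivity)]
    have e : (1 + ‖v‖) ^ N = Real.sqrt ((1 + ‖v‖) ^ (2 * N)) := by
      rw [mul_comm, pow_mul, Real.sqrt_sq (pow_nonneg (w_pos v).le N)]
    have h2 : (1 + ‖v‖) ^ N * Real.sqrt (F x v) ≤ Real.sqrt C := by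
      rw [e, ← Real.sqrt_mul (pow_nonneg (w_pos v).le _)]
      exact Real.sqrt_le_sqrt (hC x v)
    linarith
  have h2 : RD (fun v : Vec d => F x v * F x v) := (hF.rd x).mul_PG (hF.rd x).toPG
  refine (h1.add h2).mono 1 fun v => ?_
  rw [one_mul, Real.norm_eq_abs, Real.norm_eq_abs]
  refine (abs_mul_log_le (hF.nonneg x v)).trans ?_
  rw [abs_of_nonneg (by have := hF.nonneg x v; positivity), pow_two]

lemma IsAdmissibleB.int (hF : IsAdmissibleB F) (x : Vec d) : Integrable (F x) :=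
  (hF.rd x).integrable (hF.cont x).aestronglyMeasurable

lemma IsAdmissibleB.int_sq (hF : IsAdmissibleB F) (x : Vec d) :
    Integrable (fun v => F x v * nsq v) :=
  ((hF.rd x).mul_PG PG.nsq).integrable ((hF.cont x).mul continuous_sq).aestronglyMeasurable

lemma IsAdmissibleB.int_log (hF : IsAdmissibleB F) (x : Vec d) :
    Integrable (fun v => F x v * Real.log (F x v)) :=
  (hF.rd_log x).integrable ((Real.continuous_mul_log.comp (hF.cont x))).aestronglyMeasurable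

/-- the perturbed datum is admissible -/
lemma pertB_admissible (hF : IsAdmissibleB F) {δ t h : ℝ} (hδ : 0 < δ) (hδ1 : δ ≤ 1)
    (ht : 0 < t) (hh : 0 ≤ h) : IsAdmissibleB (fun x v => F x v + h * bump δ t x v) := by
  refine ⟨?_, ?_, ?_, ?_, ?_⟩
  · exact hF.smooth.add (contDiff_const.mul (bump_smooth δ t))
  · intro x v
    exact add_nonneg (hF.nonneg x v) (mul_nonneg hh (bump_nonneg _ _ _ _))
  · intro x v i
    rw [hF.periodic, bump_periodic]
  · intro N
    obtain ⟨C, hC⟩ := hF.decay N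
    refine ⟨C + 5 ^ N * h, fun x v => ?_⟩
    rw [mul_add]
    refine add_le_add (hC x v) ?_
    by_cases h0 : bump δ t x v = 0
    · rw [h0, mul_zero, mul_zero]; positivity
    · have h1 := bump_supp_v hδ hδ1 ht h0
      have h2 : (1 + ‖v‖) ^ N ≤ 5 ^ N := pow_le_pow_left₀ (w_pos v).le (by linarith) N
      have h3 : h * bump δ t x v ≤ h := by
        have := bump_le_one δ t x v
        nlinarith
      exact mul_le_mul h2 h3 (mul_nonneg hh (bump_nonneg _ _ _ _)) (by positivity)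
  · obtain ⟨m, hm, hm2⟩ := hF.mass_pos
    refine ⟨m, hm, fun x => (hm2 x).trans ?_⟩
    have hb : Integrable (fun v => h * bump δ t x v) := (bump_integrable hδ hδ1 ht x).const_mul h
    refine integral_mono (hF.int x) ((hF.int x).add hb) fun v => ?_
    have := mul_nonneg hh (bump_nonneg δ t x v)
    simp only [Pi.add_apply]
    linarith

/-- smallness in entropy -/
lemma pertB_entropy (hF : IsAdmissibleB F) {C : ℝ}
    (hC : ∀ x v, F x v ≤ C) {δ t h : ℝ} (hδ : 0 < δ) (hδ1 : δ ≤ 1) (ht : 0 < t) (hh : 0 ≤ h)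
    (x : Vec d) :
    |(∫ v, (F x v + h * bump δ t x v) * Real.log (F x v + h * bump δ t x v)) -
      ∫ v, F x v * Real.log (F x v)| ≤
      (2 * (2 * Real.sqrt (C + h) + (C + h) ^ 2)) * (4 * δ) ^ d := by
  have hA := pertB_admissible hF hδ hδ1 ht hh
  rw [← integral_sub (hA.int_log x) (hF.int_log x)]
  have e : (4 * δ) ^ d = (2 * (2 * δ)) ^ d := by congr 1; ring
  rw [e]
  have bd : ∀ s, 0 ≤ s → s ≤ C + h → |s * Real.log s| ≤ 2 * Real.sqrt (C + h) + (C + h) ^ 2 := by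
    intro s h0 h1
    refine (abs_mul_log_le h0).trans ?_
    have := Real.sqrt_le_sqrt h1
    have h2 := pow_le_pow_left₀ h0 h1 2
    linarith
  refine int_le_ball' (-(t⁻¹ • Sx x)) (by positivity) (fun v => ?_) fun v hv => ?_
  · refine (abs_sub _ _).trans ?_
    have h1 := bd (F x v + h * bump δ t x v) (hA.nonneg x v) (by
      have := bump_le_one δ t x v
      have := hC x v
      nlinarith)
    have h2 := bd (F x v) (hF.nonneg x v) (by linarith [hC x v])
    linarith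
  · have h0 : bump δ t x v = 0 := by
      by_contra h0
      have := (bump_supp hδ ht h0).2
      rw [sub_neg_eq_add] at hv
      linarith
    rw [h0, mul_zero, add_zero, sub_self]

lemma pertB_hydro (hF : IsAdmissibleB F) {C : ℝ}
    (hC : ∀ x v, F x v ≤ C) {δ t h ε : ℝ} (hδ : 0 < δ) (hδ1 : δ ≤ 1) (ht : 0 < t) (hh : 0 ≤ h)
    (h1 : h * 1 * (4 * δ) ^ d ≤ ε) (h2 : h * (d * 16) * (4 * δ) ^ d ≤ ε)
    (h3 : (2 * (2 * Real.sqrt (C + h) + (C + h) ^ 2)) * (4 * δ) ^ d ≤ ε)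
    {m M E H : ℝ} {x : Vec d} (hx : HydroBounds m M E H (F x)) :
    HydroBounds m (M + ε) (E + ε) (H + ε) (fun v => F x v + h * bump δ t x v) := by
  obtain ⟨a1, a2, a3, a4⟩ := hx
  have hA := pertB_admissible hF hδ hδ1 ht hh
  have ib : Integrable (fun v => h * bump δ t x v) := (bump_integrable hδ hδ1 ht x).const_mul h
  have ibs : Integrable (fun v => h * bump δ t x v * nsq v) := by
    have := (hA.int_sq x).sub (hF.int_sq x)
    refine this.congr (Eventually.of_forall fun v => ?_)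
    simp only [Pi.sub_apply]; ring
  have e1 : ∫ v, (F x v + h * bump δ t x v) = (∫ v, F x v) + ∫ v, h * bump δ t x v :=
    integral_add (hF.int x) ib
  have b1 : |∫ v, h * bump δ t x v * 1| ≤ h * 1 * (4 * δ) ^ d :=
    int_bump_mul_le hδ ht hh (P := fun _ => 1) zero_le_one (fun v _ => by simp) hδ1 x
  simp only [mul_one] at b1
  have b2 : |∫ v, h * bump δ t x v * nsq v| ≤ h * (d * 16) * (4 * δ) ^ d := by
    refine int_bump_mul_le hδ ht hh (P := nsq) (by positivity) (fun v hv => ?_) hδ1 x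
    rw [abs_of_nonneg (sq_nonneg' v)]
    refine (sq_le v).trans ?_
    have : ‖v‖ ^ 2 ≤ 16 := by nlinarith [norm_nonneg v]
    gcongr
  have b0 : 0 ≤ ∫ v, h * bump δ t x v := integral_nonneg fun v => mul_nonneg hh (bump_nonneg _ _ _ _)
  refine ⟨?_, ?_, ?_, ?_⟩
  · rw [e1]; linarith
  · rw [e1]
    have := le_abs_self (∫ v, h * bump δ t x v)
    rw [mul_one] at h1
    linarith
  · have e2 : ∫ v, (F x v + h * bump δ t x v) * nsq v =
        (∫ v, F x v * nsq v) + ∫ v, h * bump δ t x v * nsq v := by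
      rw [← integral_add (hF.int_sq x) ibs]
      refine integral_congr_ae (Eventually.of_forall fun v => ?_)
      simp only; ring
    rw [e2]
    have := le_abs_self (∫ v, h * bump δ t x v * nsq v)
    linarith
  · have := pertB_entropy hF hC hδ hδ1 ht hh x
    have h5 := le_abs_self ((∫ v, (F x v + h * bump δ t x v) * Real.log (F x v + h * bump δ t x v)) -
      ∫ v, F x v * Real.log (F x v))
    linarith

/-- **Abstract inflation theorem** for rapidly decaying data -/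
theorem inflationB {d : ℕ} (hd : 1 ≤ d) {F₀ : Vec d → Vec d → ℝ}
    (hF : IsAdmissibleB F₀) {C₀ : ℝ} (hC₀ : 0 ≤ C₀) (K : ℝ) {ε τ : ℝ} (hε : 0 < ε) (hτ : 0 < τ)
    (N : ℕ) : ∃ t ∈ Ioo 0 τ, ∃ f₀ : Vec d → Vec d → ℝ, IsAdmissibleB f₀ ∧
      IsClose F₀ f₀ (4 ^ d * |K| + 1) ε N ∧
      ∀ T > t, ∀ Q f, IsClassicalSol T Q f → WeakBound T C₀ Q f → f 0 = f₀ →
        ∃ s ∈ Ioc 0 t, ∃ x, K < ∫ v, f s x v * (1 + nsq v) := by
  obtain ⟨B, hB1, hB⟩ := exists_bp_test d
  obtain ⟨C, hC0, hC⟩ := hF.bdd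
  set h : ℝ := 4 ^ d * |K| + 1 with hh
  have hh1 : 1 ≤ h := by
    have : 0 ≤ 4 ^ d * |K| := by positivity
    linarith
  have hh0 : 0 ≤ h := by linarith
  set X : ℝ := 5 ^ N * h ^ N + 2 * (2 * Real.sqrt (C + h) + (C + h) ^ 2) + h * 1 + h * (d * 16)
    with hX
  have x1 : 0 ≤ 5 ^ N * h ^ N := by positivity
  have x2 : 0 ≤ 2 * (2 * Real.sqrt (C + h) + (C + h) ^ 2) := by positivity
  have x3 : 0 ≤ h * 1 := by positivity
  have x4 : 0 ≤ h * (d * 16) := by positivity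
  -- choice of δ
  obtain ⟨δ, hδ, hδ1, hδX⟩ : ∃ δ : ℝ, 0 < δ ∧ δ ≤ 1 ∧ X * (4 * δ) ^ d ≤ ε := by
    have hcont : Continuous fun δ : ℝ => X * (4 * δ) ^ d := by fun_prop
    have ht : Tendsto (fun δ : ℝ => X * (4 * δ) ^ d) (𝓝[>] 0) (𝓝 0) := by
      have := (hcont.tendsto 0).mono_left (nhdsWithin_le_nhds (s := Ioi 0))
      have e : X * (4 * 0) ^ d = 0 := by
        rw [mul_zero, zero_pow (by omega), mul_zero]
      rwa [e] at this
    have h1 : ∀ᶠ δ in 𝓝[>] (0 : ℝ), X * (4 * δ) ^ d < ε := ht.eventually_lt_const hε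
    have h2 : ∀ᶠ δ in 𝓝[>] (0 : ℝ), δ ∈ Ioo (0 : ℝ) 1 := Ioo_mem_nhdsGT one_pos
    obtain ⟨δ, a, b⟩ := (h1.and h2).exists
    exact ⟨δ, b.1, b.2.le, a.le⟩
  have hp : 0 ≤ (4 * δ) ^ d := by positivity
  have y1 : 5 ^ N * h ^ N * (4 * δ) ^ d ≤ ε :=
    (mul_le_mul_of_nonneg_right (by linarith) hp).trans hδX
  have y2 : 2 * (2 * Real.sqrt (C + h) + (C + h) ^ 2) * (4 * δ) ^ d ≤ ε :=
    (mul_le_mul_of_nonneg_right (by linarith) hp).trans hδX
  have y3 : h * 1 * (4 * δ) ^ d ≤ ε :=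
    (mul_le_mul_of_nonneg_right (by linarith) hp).trans hδX
  have y4 : h * (d * 16) * (4 * δ) ^ d ≤ ε :=
    (mul_le_mul_of_nonneg_right (by linarith) hp).trans hδX
  -- choice of t
  set Y : ℝ := 5 ^ N * (3 * h * B * δ⁻¹) ^ d * (4 * δ) ^ d * 24 ^ d with hY
  set Z : ℝ := C₀ * (4 * ((B * (1 + δ⁻¹) ^ 2) * B)) * |K| ^ 2 * 8 ^ d with hZ
  obtain ⟨t, ht, htτ, ht4, htδ, htY, htZ⟩ : ∃ t : ℝ, 0 < t ∧ t < τ ∧ t ≤ 1 / 4 ∧ t ≤ δ / 2 ∧
      Y * t ≤ ε ∧ t * Z < δ ^ d := by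
    have h1 : ∀ᶠ t in 𝓝[>] (0 : ℝ), t ∈ Ioo (0 : ℝ) τ := Ioo_mem_nhdsGT hτ
    have h2 : ∀ᶠ t in 𝓝[>] (0 : ℝ), t ∈ Ioo (0 : ℝ) (1 / 4) := Ioo_mem_nhdsGT (by norm_num)
    have h3 : ∀ᶠ t in 𝓝[>] (0 : ℝ), t ∈ Ioo (0 : ℝ) (δ / 2) := Ioo_mem_nhdsGT (by positivity)
    have h4 : ∀ᶠ t in 𝓝[>] (0 : ℝ), Y * t < ε := by
      have hc : Continuous fun t : ℝ => Y * t := by fun_prop
      have := (hc.tendsto 0).mono_left (nhdsWithin_le_nhds (s := Ioi 0))
      rw [mul_zero] at this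
      exact this.eventually_lt_const hε
    have h5 : ∀ᶠ t in 𝓝[>] (0 : ℝ), t * Z < δ ^ d := by
      have hc : Continuous fun t : ℝ => t * Z := by fun_prop
      have := (hc.tendsto 0).mono_left (nhdsWithin_le_nhds (s := Ioi 0))
      rw [zero_mul] at this
      exact this.eventually_lt_const (by positivity)
    obtain ⟨t, a, b, c, e, f⟩ := (h1.and (h2.and (h3.and (h4.and h5)))).exists
    exact ⟨t, a.1, a.2, b.2.le, c.2.le, e.le, f⟩
  refine ⟨t, ⟨ht, htτ⟩, fun x v => F₀ x v + h * bump δ t x v,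
    pertB_admissible hF hδ hδ1 ht hh0, ⟨?_, ?_, ?_, ?_, ?_⟩, ?_⟩
  · intro x v
    have a := bump_nonneg δ t x v
    have b := bump_le_one δ t x v
    constructor
    · nlinarith
    · nlinarith
  · intro x v hv
    have h0 : bump δ t x v = 0 := by
      by_contra h0
      linarith [bump_supp_v hδ hδ1 ht h0]
    rw [h0, mul_zero, add_zero]
  · intro m M E H x hx
    exact pertB_hydro hF hC hδ hδ1 ht hh0 y3 y4 y2 hx
  · intro p hp x
    have e : ∀ v, F₀ x v + h * bump δ t x v - F₀ x v = h * bump δ t x v := fun v => by ring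
    simp only [e]
    exact (pert_Lp hδ hδ1 ht hh1 N hp x).trans y1
  · intro r hr1 hr
    simp only [add_sub_cancel_left]
    exact (pert_sobolev hB1 hB hδ hδ1 ht (by linarith) hh1 N hr1 hr).trans htY
  · intro T hT Q f hf hw hf0
    by_contra hcon
    push Not at hcon
    have hK : ∀ s ∈ Ioc 0 t, ∀ x, ∫ v, f s x v * (1 + nsq v) ≤ |K| := fun s hs x =>
      (hcon s hs x).trans (le_abs_self K)
    have hlow : ∀ x v : Vec d, ‖x‖ ≤ t / 2 → ‖v + t⁻¹ • x‖ ≤ δ / 2 → h ≤ f 0 x v := by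
      intro x v hx hv
      rw [hf0]
      simp only
      rw [bump_eq_one hδ hδ1 ht ht4 htδ hx hv]
      have := hF.nonneg x v
      linarith
    have hcore := core hf hC₀ hw hB hδ hδ1 ht hT hh0 hlow hK
    rw [← hZ] at hcore
    have hδd : 0 < δ ^ d := pow_pos hδ d
    have : h * δ ^ d = 4 ^ d * |K| * δ ^ d + δ ^ d := by rw [hh]; ring
    linarith

end Pool.Agent.H25.Kin
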