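import Pool.Agent.H25.Kin.BDefs

/-!
# The two collision operators
-/

set_option autoImplicit false

open Set

namespace Pool.Agent.H25.Kin

variable {d : ℕ}

/-- `S` is the solution class of one kinetic equation with fixed parameters: `S T f` says that `f` is
a classical solution on `[0,T)` of the inhomogeneous Landau equation with exponent `γ ∈ (-2, 0]`, or
of the inhomogeneous non-cutoff Boltzmann equation with kernel `|v-w|^γ b(cos θ)`, `s ∈ (0,1)`,
`γ + 2s ∈ [0,2]`. -/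
def IsKineticEq (S : ℝ → (ℝ → Vec d → Vec d → ℝ) → Prop) : Prop :=
  (∃ γ : ℝ, -2 < γ ∧ γ ≤ 0 ∧ S = IsLandauSol γ) ∨
    ∃ (s γ : ℝ) (b : ℝ → ℝ), s ∈ Ioo (0 : ℝ) 1 ∧ γ + 2 * s ∈ Icc (0 : ℝ) 2 ∧ IsKernel d s b ∧
      S = IsBoltzmannSol γ b

end Pool.Agent.H25.Kin
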