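import Pool.Agent.H25.Kin.Basic

/-!
# The Landau flux of a rapidly decaying `C²` function
-/

set_option autoImplicit false

open MeasureTheory Set

namespace Pool.Agent.H25.Kin

variable {d : ℕ}

lemma sq_neg (z : Vec d) : nsq (-z) = nsq z := by simp [nsq]

lemma landauA_neg (γ : ℝ) (z : Vec d) (i j : Fin d) : landauA γ (-z) i j = landauA γ z i j := by
  simp [landauA, sq_neg]

lemma coord_mul_le (z : Vec d) (i j : Fin d) : |z i * z j| ≤ nsq z := by
  have h1 : z i ^ 2 ≤ nsq z := Finset.single_le_sum (f := fun i => z i ^ 2) (fun i _ => sq_nonneg _) (Finset.mem_univ i)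
  have h2 : z j ^ 2 ≤ nsq z := Finset.single_le_sum (f := fun i => z i ^ 2) (fun i _ => sq_nonneg _) (Finset.mem_univ j)
  rw [abs_mul]
  have h3 : |z i| * |z j| ≤ (|z i| ^ 2 + |z j| ^ 2) / 2 := by nlinarith [sq_nonneg (|z i| - |z j|)]
  rw [sq_abs, sq_abs] at h3
  linarith

/-- size of the Landau matrix: `|a_ij(z)| ≤ 2 |z|^(γ+2)` -/
lemma landauA_le (γ : ℝ) (z : Vec d) (i j : Fin d) :
    |landauA γ z i j| ≤ 2 * (nsq z * nsq z ^ (γ / 2)) := by
  unfold landauA
  rw [abs_mul, abs_of_nonneg (Real.rpow_nonneg (sq_nonneg' z) _)]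
  have h1 : |(if i = j then nsq z else 0) - z i * z j| ≤ 2 * nsq z := by
    have h2 := coord_mul_le z i j
    have h3 : |(if i = j then nsq z else 0)| ≤ nsq z := by
      split_ifs
      · rw [abs_of_nonneg (sq_nonneg' z)]
      · simpa using sq_nonneg' z
    calc |(if i = j then nsq z else 0) - z i * z j| ≤ |(if i = j then nsq z else 0)| + |z i * z j| :=
          abs_sub _ _
      _ ≤ 2 * nsq z := by linarith
  have := mul_le_mul_of_nonneg_right h1 (Real.rpow_nonneg (sq_nonneg' z) (γ / 2))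
  linarith

lemma sq_rpow_le {γ : ℝ} (h1 : -2 < γ) (h2 : γ ≤ 0) (z : Vec d) :
    nsq z * nsq z ^ (γ / 2) ≤ 1 + nsq z := by
  have h0 := sq_nonneg' z
  rcases h0.eq_or_lt with h | h
  · rw [← h]; simp
  · have e : nsq z * nsq z ^ (γ / 2) = nsq z ^ (1 + γ / 2) := by
      rw [Real.rpow_add h, Real.rpow_one]
    rw [e]
    rcases le_total (nsq z) 1 with h3 | h3
    · have := Real.rpow_le_one h0 h3 (by linarith : 0 ≤ 1 + γ / 2)
      linarith
    · have := Real.rpow_le_rpow_of_exponent_le h3 (by linarith : 1 + γ / 2 ≤ 1)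
      rw [Real.rpow_one] at this
      linarith

lemma landauA_le' {γ : ℝ} (h1 : -2 < γ) (h2 : γ ≤ 0) (z : Vec d) (i j : Fin d) :
    |landauA γ z i j| ≤ 2 * (1 + nsq z) :=
  (landauA_le γ z i j).trans (by have := sq_rpow_le h1 h2 z; linarith)

lemma one_add_sq_le (z : Vec d) : 1 + nsq z ≤ (d + 1) * (1 + ‖z‖) ^ 2 := by
  have := sq_le z
  have h := norm_nonneg z
  have hd : (0 : ℝ) ≤ d := Nat.cast_nonneg d
  nlinarith [mul_nonneg hd h]

lemma landauA_PG {γ : ℝ} (h1 : -2 < γ) (h2 : γ ≤ 0) (z : Vec d) (i j : Fin d) :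
    |landauA γ z i j| ≤ 2 * (d + 1) * (1 + ‖z‖) ^ 2 := by
  have h3 := landauA_le' h1 h2 z i j
  have h4 := one_add_sq_le z
  nlinarith

lemma measurable_landauA (γ : ℝ) (i j : Fin d) : Measurable fun z : Vec d => landauA γ z i j := by
  unfold landauA
  have h1 : Measurable (nsq : Vec d → ℝ) := continuous_sq.measurable
  have h2 : Measurable fun z : Vec d => nsq z ^ (γ / 2) := h1.pow_const _
  refine Measurable.mul (Measurable.sub ?_ ?_) h2
  · by_cases h : i = j
    · simpa [h] using h1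
    · simp [h]
  · fun_prop

/-- `∑_i z_i a_ij(z) = 0` -/
lemma landauA_contract (γ : ℝ) (z : Vec d) (j : Fin d) : ∑ i, z i * landauA γ z i j = 0 := by
  unfold landauA
  have h1 : ∀ i, z i * (((if i = j then nsq z else 0) - z i * z j) * nsq z ^ (γ / 2)) =
      ((if i = j then z i * nsq z else 0) - z i ^ 2 * z j) * nsq z ^ (γ / 2) := by
    intro i
    split_ifs <;> ring
  simp_rw [h1]
  rw [← Finset.sum_mul, Finset.sum_sub_distrib, Finset.sum_ite_eq', ← Finset.sum_mul]
  simp [nsq]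
  left
  ring

/-- the class of functions on which the operator is considered -/
structure Nice (g : Vec d → ℝ) : Prop where
  smooth : ContDiff ℝ 2 g
  rd : RD g
  rd1 : RD (fderiv ℝ g)
  rd2 : RD (fderiv ℝ (fderiv ℝ g))

variable {g : Vec d → ℝ}

lemma Nice.cont (hg : Nice g) : Continuous g := hg.smooth.continuous
lemma Nice.diff (hg : Nice g) : Differentiable ℝ g := hg.smooth.differentiable (by norm_num)
lemma Nice.smooth1 (hg : Nice g) : ContDiff ℝ 1 (fderiv ℝ g) :=
  hg.smooth.fderiv_right (m := 1) (by norm_num)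
lemma Nice.cont1 (hg : Nice g) : Continuous (fderiv ℝ g) := hg.smooth1.continuous
lemma Nice.diff1 (hg : Nice g) : Differentiable ℝ (fderiv ℝ g) :=
  hg.smooth1.differentiable (by norm_num)
lemma Nice.cont2 (hg : Nice g) : Continuous (fderiv ℝ (fderiv ℝ g)) :=
  hg.smooth1.continuous_fderiv (by norm_num)

lemma norm_single_one (i : Fin d) : ‖(Pi.single i 1 : Vec d)‖ = 1 := by
  simp [Pi.norm_single]

lemma pd_le (i : Fin d) (h : Vec d → ℝ) (v : Vec d) : |pd i h v| ≤ ‖fderiv ℝ h v‖ := by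
  unfold pd
  have := (fderiv ℝ h v).le_opNorm (Pi.single i 1)
  rwa [norm_single_one, mul_one] at this

lemma Nice.pd_RD (hg : Nice g) (i : Fin d) : RD (pd i g) :=
  hg.rd1.mono 1 fun v => by rw [one_mul]; exact pd_le i g v

lemma Nice.pd_cont (hg : Nice g) (i : Fin d) : Continuous (pd i g) :=
  hg.cont1.clm_apply continuous_const

lemma Nice.pd_hasFDerivAt (hg : Nice g) (i : Fin d) (v : Vec d) :
    HasFDerivAt (pd i g) ((ContinuousLinearMap.apply ℝ ℝ (Pi.single i 1 : Vec d)).comp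
      (fderiv ℝ (fderiv ℝ g) v)) v :=
  (ContinuousLinearMap.apply ℝ ℝ (Pi.single i 1 : Vec d)).hasFDerivAt.comp v
    (hg.diff1 v).hasFDerivAt

lemma Nice.pd_diff (hg : Nice g) (i : Fin d) : Differentiable ℝ (pd i g) := fun v =>
  (hg.pd_hasFDerivAt i v).differentiableAt

lemma Nice.fderiv_pd (hg : Nice g) (i : Fin d) (v : Vec d) : fderiv ℝ (pd i g) v =
    (ContinuousLinearMap.apply ℝ ℝ (Pi.single i 1 : Vec d)).comp (fderiv ℝ (fderiv ℝ g) v) :=
  (hg.pd_hasFDerivAt i v).fderiv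

lemma Nice.pd_rd1 (hg : Nice g) (i : Fin d) : RD (fderiv ℝ (pd i g)) := by
  refine hg.rd2.mono 1 fun v => ?_
  rw [hg.fderiv_pd, one_mul]
  refine ContinuousLinearMap.opNorm_le_bound _ (norm_nonneg (fderiv ℝ (fderiv ℝ g) v)) fun w => ?_
  simp only [ContinuousLinearMap.comp_apply, ContinuousLinearMap.apply_apply]
  have h1 := (fderiv ℝ (fderiv ℝ g) v w).le_opNorm (Pi.single i 1)
  rw [norm_single_one, mul_one] at h1
  exact h1.trans ((fderiv ℝ (fderiv ℝ g) v).le_opNorm w)

lemma Nice.pd_cont1 (hg : Nice g) (i : Fin d) : Continuous (fderiv ℝ (pd i g)) := by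
  have : fderiv ℝ (pd i g) = fun v =>
      (ContinuousLinearMap.apply ℝ ℝ (Pi.single i 1 : Vec d)).comp (fderiv ℝ (fderiv ℝ g) v) :=
    funext fun v => hg.fderiv_pd i v
  rw [this]
  exact continuous_const.clm_comp hg.cont2

end Pool.Agent.H25.Kin
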