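import Pool.Agent.H25.Kin.Focus

/-!
# Macroscopic focusing: concentration of the mass at a prescribed time
-/

set_option autoImplicit false

open MeasureTheory Set Filter Topology
open scoped ContDiff Real

namespace Pool.Agent.H25.Kin

variable {d : ℕ} {T : ℝ} {Q f : ℝ → Vec d → Vec d → ℝ}

/-- integral over the cube of a function of one coordinate -/
lemma coord_integral {g : ℝ → ℝ} (hg : Continuous g) (i : Fin d) :
    ∫ x in Icc (0 : Vec d) 1, g (x i) = ∫ s in (0 : ℝ)..1, g s := by
  have e1 : (volume : Measure (Vec d)).restrict (Icc (0 : Vec d) 1) =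
      Measure.pi fun _ : Fin d => (volume : Measure ℝ).restrict (Icc (0 : ℝ) 1) := by
    rw [← Measure.restrict_pi_pi]
    congr 1
    rw [← Set.pi_univ_Icc]
    rfl
  rw [e1]
  have hp : IsProbabilityMeasure ((volume : Measure ℝ).restrict (Icc (0 : ℝ) 1)) :=
    ⟨by rw [Measure.restrict_apply_univ, Real.volume_Icc]; simp⟩
  have hmp := measurePreserving_eval (fun _ : Fin d => (volume : Measure ℝ).restrict (Icc (0 : ℝ) 1)) i
  have h := integral_map (μ := Measure.pi fun _ : Fin d => (volume : Measure ℝ).restrict (Icc (0 : ℝ) 1))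
    hmp.measurable.aemeasurable (f := g) (hg.aestronglyMeasurable)
  rw [hmp.map_eq] at h
  rw [intervalIntegral.integral_of_le zero_le_one, ← integral_Icc_eq_integral_Ioc, h]

lemma coord_integrable {g : ℝ → ℝ} (hg : Continuous g) (i : Fin d) :
    IntegrableOn (fun x : Vec d => g (x i)) (Icc (0 : Vec d) 1) :=
  (hg.comp (continuous_apply i)).continuousOn.integrableOn_compact isCompact_Icc

/-- values of the moments at time `0` -/
lemma init (hf : IsClassicalSol T Q f) {η t δ : ℝ} (ht : 0 < t) (hδ : 0 < δ) (hT : 0 < T)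
    (hf0 : f 0 = fd η t δ) (hη : 0 < η) (hη1 : η ≤ 1 / 8) :
    ∑ i, mom (fun x : Vec d => qf η (x i)) (fun _ => 1) f 0 +
      (∑ i, mom (fun x : Vec d => qd η (x i)) (fun v => v i) f 0) * t +
      mom (fun _ => 1) nsq f 0 * t ^ 2 ≤ d * (η / 2) + sg d * δ ^ 2 * t ^ 2 := by
  have h0 : (0 : ℝ) ∈ Ico 0 T := ⟨le_refl _, hT⟩
  have sq1 : ContDiff ℝ 1 (qf η) := (qf_smooth η).of_le (by exact_mod_cast le_top)
  have sd1 : ContDiff ℝ 1 (qd η) := (qd_smooth η).of_le (by exact_mod_cast le_top)
  have cq := qf_cont η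
  have cd := qd_cont η
  have cd2 : Continuous fun s => qd η s ^ 2 := (qd_cont η).pow 2
  have m1 : ∀ i : Fin d, mom (fun x : Vec d => qf η (x i)) (fun _ => 1) f 0 =
      ∫ s in (0 : ℝ)..1, qf η s := by
    intro i
    obtain ⟨A, hA⟩ := pos_coord sq1 (qf_add_one η) i
    rw [(mom_iter hA.le0 hA.smooth.continuous PG.one continuous_const hf h0).2, hf0,
      ← coord_integral cq i]
    refine integral_congr_ae (Eventually.of_forall fun x => ?_)
    simp only [one_mul]
    rw [fd_mass η t hδ x, mul_one]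
  have m2 : ∀ i : Fin d, mom (fun x : Vec d => qd η (x i)) (fun v => v i) f 0 =
      -(∫ s in (0 : ℝ)..1, qd η s ^ 2) / (2 * t) := by
    intro i
    obtain ⟨A, hA⟩ := pos_coord sd1 (qd_add_one η) i
    rw [(mom_iter hA.le0 hA.smooth.continuous (PG.coord i) (by fun_prop) hf h0).2, hf0,
      ← coord_integral cd2 i, ← integral_neg, ← integral_div]
    refine integral_congr_ae (Eventually.of_forall fun x => ?_)
    simp only
    rw [fd_momentum η t hδ x i]
    unfold uf
    ring
  have m3 : mom (fun _ : Vec d => 1) nsq f 0 =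
      ∑ _i : Fin d, (∫ s in (0 : ℝ)..1, qd η s ^ 2) / (4 * t ^ 2) + δ ^ 2 * sg d := by
    rw [(mom_iter pos_one.le0 continuous_const PG.nsq continuous_sq hf h0).2, hf0]
    have e : ∀ x : Vec d, (1 : ℝ) * ∫ v, nsq v * fd η t δ x v =
        ∑ i, (1 / (4 * t ^ 2)) * qd η (x i) ^ 2 + δ ^ 2 * sg d := by
      intro x
      rw [fd_energy η t hδ x, one_mul]
      congr 1
      unfold nsq uf
      refine Finset.sum_congr rfl fun i _ => ?_
      field_simp; ring
    simp_rw [e]
    have hi : ∀ i : Fin d, IntegrableOn (fun x : Vec d => (1 / (4 * t ^ 2)) * qd η (x i) ^ 2)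
        (Icc (0 : Vec d) 1) := fun i => (coord_integrable cd2 i).const_mul _
    have hi' : IntegrableOn (fun x : Vec d => ∑ i, (1 / (4 * t ^ 2)) * qd η (x i) ^ 2)
        (Icc (0 : Vec d) 1) := integrable_finsetSum _ fun i _ => hi i
    have hi2 : IntegrableOn (fun _ : Vec d => δ ^ 2 * sg d) (Icc (0 : Vec d) 1) :=
      (continuous_const.continuousOn).integrableOn_compact isCompact_Icc
    rw [integral_add hi' hi2, integral_finsetSum _ fun i _ => hi i]
    congr 1
    · refine Finset.sum_congr rfl fun i _ => ?_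
      rw [integral_const_mul, coord_integral cd2 i]
      ring
    · rw [setIntegral_const, Measure.real, Real.volume_Icc_pi]
      simp
  rw [Finset.sum_congr rfl fun i _ => m1 i, Finset.sum_congr rfl fun i _ => m2 i, m3]
  simp only [Finset.sum_const, Finset.card_univ, Fintype.card_fin, nsmul_eq_mul]
  have hdef := defect hη hη1
  have hsplit : ∫ s in (0 : ℝ)..1, (qf η s - (1 / 4) * qd η s ^ 2) =
      (∫ s in (0 : ℝ)..1, qf η s) - (1 / 4) * ∫ s in (0 : ℝ)..1, qd η s ^ 2 := by
    have hI2 : IntervalIntegrable (fun s => (1 / 4 : ℝ) * qd η s ^ 2) volume 0 1 :=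
      (continuous_const.mul cd2).intervalIntegrable _ _
    rw [intervalIntegral.integral_sub (cq.intervalIntegrable _ _) hI2,
      intervalIntegral.integral_const_mul]
  rw [hsplit] at hdef
  have hdn : (0 : ℝ) ≤ d := Nat.cast_nonneg d
  set a := ∫ s in (0 : ℝ)..1, qf η s
  set b := ∫ s in (0 : ℝ)..1, qd η s ^ 2
  have e : (d : ℝ) * a + (d * (-b / (2 * t))) * t + (d * (b / (4 * t ^ 2)) + δ ^ 2 * sg d) * t ^ 2 =
      d * (a - (1 / 4) * b) + sg d * δ ^ 2 * t ^ 2 := by
    field_simp; ring
  rw [e]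
  nlinarith [mul_le_mul_of_nonneg_left hdef hdn]

/-- **Macroscopic focusing.** -/
theorem macro_focus (hd : 1 ≤ d) (hf : IsClassicalSol T Q f) (hQ : HasInvariants T Q) {η t δ R : ℝ}
    (ht : 0 < t) (htT : t < T) (hδ : 0 < δ) (hf0 : f 0 = fd η t δ) (hη : 0 < η) (hη1 : η ≤ 1 / 8)
    (hR : 0 < R) (hR1 : R ≤ 1 / 4) (hsmall : d * (η / 2) + 4 * d * δ ^ 2 * t ^ 2 ≤ R ^ 2 / 4) :
    (3 / 4 ≤ ∫ x in Metric.closedBall (fun _ => 1 / 2 : Vec d) R, ∫ v, f t x v) ∧
      ∃ x, (3 / 4) / (2 * R) ^ d ≤ ∫ v, f t x v := by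
  have hT : 0 < T := ht.trans htT
  have htT' : t ∈ Ico 0 T := ⟨ht.le, htT⟩
  have h1 := virial hf hQ η ht htT
  have h2 := init hf ht hδ hT hf0 hη hη1
  have h3 := sg_le (d := d)
  have hA : ∑ i, mom (fun x : Vec d => qf η (x i)) (fun _ => 1) f t ≤ R ^ 2 / 4 := by
    have : sg d * δ ^ 2 * t ^ 2 ≤ 4 * d * δ ^ 2 * t ^ 2 := by
      have : 0 ≤ δ ^ 2 * t ^ 2 := by positivity
      nlinarith
    linarith
  have sq1 : ContDiff ℝ 1 (qf η) := (qf_smooth η).of_le (by exact_mod_cast le_top)
  set ρ : Vec d → ℝ := fun x => ∫ v, f t x v with hρ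
  have hρ0 : ∀ x, 0 ≤ ρ x := fun x => integral_nonneg fun v => hf.nonneg t htT' x v
  -- integrability of ρ
  have hρi : IntegrableOn ρ (Icc (0 : Vec d) 1) := by
    have h4 := (mom_iter (d := d) pos_one.le0 continuous_const PG.one continuous_const hf htT').1
    unfold nu at h4
    have h5 := h4.integral_prod_right
    unfold muD at h5
    refine h5.congr (Eventually.of_forall fun x => ?_)
    simp [hρ]
  have hρqi : ∀ i : Fin d, IntegrableOn (fun x => qf η (x i) * ρ x) (Icc (0 : Vec d) 1) := by
    intro i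
    obtain ⟨A, hA⟩ := pos_coord sq1 (qf_add_one η) i
    refine hρi.bdd_mul (c := A) ?_ ?_
    · exact ((qf_cont η).comp (continuous_apply i)).aestronglyMeasurable
    · exact Eventually.of_forall fun x => hA.le0 x
  -- total mass
  have hmass : ∫ x in Icc (0 : Vec d) 1, ρ x = 1 := by
    have hQ1 : ∀ s ∈ Ioo 0 T, ∀ x, ∫ v, Q s x v * (1 : ℝ) = 0 := fun s hs x => by
      simpa using (hQ s hs x).1
    have h4 := mom_const PG.one continuous_const hf hQ1 htT'
    rw [(mom_iter (d := d) pos_one.le0 continuous_const PG.one continuous_const hf htT').2,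
      (mom_iter (d := d) pos_one.le0 continuous_const PG.one continuous_const hf ⟨le_refl _, hT⟩).2,
      hf0] at h4
    simp only [one_mul] at h4
    rw [hρ]
    simp only
    rw [h4]
    have e : ∀ x : Vec d, ∫ v, fd η t δ x v = 1 := fun x => fd_mass η t hδ x
    simp_rw [e]
    rw [setIntegral_const, Measure.real, Real.volume_Icc_pi]
    simp
  -- the potential
  have hpot : ∫ x in Icc (0 : Vec d) 1, ∑ i, qf η (x i) * ρ x ≤ R ^ 2 / 4 := by
    rw [integral_finsetSum _ fun i _ => hρqi i]
    refine le_trans (le_of_eq ?_) hA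
    refine Finset.sum_congr rfl fun i _ => ?_
    obtain ⟨A, hA⟩ := pos_coord sq1 (qf_add_one η) i
    rw [(mom_iter hA.le0 hA.smooth.continuous PG.one continuous_const hf htT').2]
    simp only [one_mul]
    rfl
  set B := Metric.closedBall (fun _ => 1 / 2 : Vec d) R with hB
  have hBsub : B ⊆ Icc (0 : Vec d) 1 := by
    intro x hx
    rw [hB, Metric.mem_closedBall, dist_pi_le_iff hR.le] at hx
    constructor
    · intro i
      have := hx i
      rw [Real.dist_eq, abs_le] at this
      simp only [Pi.zero_apply]; linarith [this.1]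
    · intro i
      have := hx i
      rw [Real.dist_eq, abs_le] at this
      simp only [Pi.one_apply]; linarith [this.2]
  have hBm : MeasurableSet B := Metric.isClosed_closedBall.measurableSet
  have hDm : MeasurableSet (Icc (0 : Vec d) 1) := measurableSet_Icc
  have hout : R ^ 2 * ∫ x in Icc (0 : Vec d) 1 \ B, ρ x ≤ R ^ 2 / 4 := by
    have hsumi : IntegrableOn (fun x : Vec d => ∑ i, qf η (x i) * ρ x) (Icc (0 : Vec d) 1) :=
      integrable_finsetSum _ fun i _ => hρqi i
    have hge0 : ∀ x ∈ Icc (0 : Vec d) 1, ∀ i, 0 ≤ qf η (x i) := by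
      intro x hx i
      have := qf_ge hη hη1 (s := x i) (R := 0) ⟨hx.1 i, hx.2 i⟩ (le_refl _) (by norm_num)
        (abs_nonneg _)
      simpa using this
    calc R ^ 2 * ∫ x in Icc (0 : Vec d) 1 \ B, ρ x = ∫ x in Icc (0 : Vec d) 1 \ B, R ^ 2 * ρ x := by
          rw [integral_const_mul]
      _ ≤ ∫ x in Icc (0 : Vec d) 1 \ B, ∑ i, qf η (x i) * ρ x := by
          refine setIntegral_mono_on ((hρi.mono_set sdiff_subset).const_mul _)
            (hsumi.mono_set sdiff_subset) (hDm.diff hBm) fun x hx => ?_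
          obtain ⟨hxD, hxB⟩ := hx
          have hex : ∃ i, R < |x i - 1 / 2| := by
            by_contra hcon
            push Not at hcon
            apply hxB
            rw [hB, Metric.mem_closedBall, dist_pi_le_iff hR.le]
            intro i
            rw [Real.dist_eq]; exact hcon i
          obtain ⟨i, hi⟩ := hex
          have h5 := qf_ge hη hη1 (s := x i) ⟨hxD.1 i, hxD.2 i⟩ hR.le hR1 hi.le
          calc R ^ 2 * ρ x ≤ qf η (x i) * ρ x := mul_le_mul_of_nonneg_right h5 (hρ0 x)
            _ ≤ ∑ i, qf η (x i) * ρ x :=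
                Finset.single_le_sum (f := fun i => qf η (x i) * ρ x)
                  (fun j _ => mul_nonneg (hge0 x hxD j) (hρ0 x)) (Finset.mem_univ i)
      _ ≤ ∫ x in Icc (0 : Vec d) 1, ∑ i, qf η (x i) * ρ x := by
          refine setIntegral_mono_set hsumi ?_ (Eventually.of_forall sdiff_subset)
          filter_upwards [ae_restrict_mem hDm] with x hx
          exact Finset.sum_nonneg fun i _ => mul_nonneg (hge0 x hx i) (hρ0 x)
      _ ≤ R ^ 2 / 4 := hpot
  have hout2 : ∫ x in Icc (0 : Vec d) 1 \ B, ρ x ≤ 1 / 4 := by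
    have : 0 < R ^ 2 := by positivity
    nlinarith
  have hin : 3 / 4 ≤ ∫ x in B, ρ x := by
    have h5 := setIntegral_union (μ := (volume : Measure (Vec d))) (f := ρ)
      (disjoint_sdiff_right (s := B) (t := Icc (0 : Vec d) 1)) (hDm.diff hBm)
      (hρi.mono_set hBsub) (hρi.mono_set sdiff_subset)
    rw [union_sdiff_cancel hBsub, hmass] at h5
    linarith
  refine ⟨hin, ?_⟩
  by_contra hcon
  push Not at hcon
  have hvol : (volume : Measure (Vec d)).real B = (2 * R) ^ d := vol_ball hR.le _
  have h2R : 0 < (2 * R) ^ d := by positivity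
  have hBfin : (volume : Measure (Vec d)) B ≠ ⊤ := (isCompact_closedBall _ _).measure_lt_top.ne
  have hlt : ∫ x in B, ρ x < ∫ _x in B, (3 / 4) / (2 * R) ^ d := by
    have hpos : 0 < ∫ x in B, ((3 / 4) / (2 * R) ^ d - ρ x) := by
      have hii : IntegrableOn (fun x => (3 / 4) / (2 * R) ^ d - ρ x) B :=
        (integrableOn_const hBfin).sub (hρi.mono_set hBsub)
      rw [setIntegral_pos_iff_support_of_nonneg_ae]
      · have : Function.support (fun x => (3 / 4) / (2 * R) ^ d - ρ x) = univ := by
          ext x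
          simp only [Function.mem_support, mem_univ, iff_true]
          have := hcon x
          simp only [hρ]
          linarith
        rw [this, univ_inter]
        have : (volume : Measure (Vec d)).real B ≠ 0 := by rw [hvol]; exact h2R.ne'
        refine pos_iff_ne_zero.2 fun h0 => this ?_
        rw [Measure.real, h0]; rfl
      · exact Eventually.of_forall fun x => by
          have := hcon x
          simp only [Pi.zero_apply, hρ]
          linarith
      · exact hii
    have hci : Integrable (fun _ : Vec d => (3 / 4) / (2 * R) ^ d) (volume.restrict B) :=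
      integrableOn_const hBfin
    rw [integral_sub hci (hρi.mono_set hBsub)] at hpos
    linarith
  rw [setIntegral_const, hvol, smul_eq_mul, mul_div_cancel₀ _ h2R.ne'] at hlt
  linarith

end Pool.Agent.H25.Kin
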