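import Pool.Agent.H25.Kin.Sym

/-!
# Slices of classical solutions; derivatives along characteristics
-/

set_option autoImplicit false

open MeasureTheory Set Filter Topology

namespace Pool.Agent.H25.Kin

variable {d : ℕ} {T : ℝ} {Q f : ℝ → Vec d → Vec d → ℝ}

lemma IsClassicalSol.smooth (hf : IsClassicalSol T Q f) :
    ContDiffOn ℝ 2 (unc f) (Ioo 0 T ×ˢ univ) := hf.isC2

lemma IsClassicalSol.cont (hf : IsClassicalSol T Q f) :
    ContinuousOn (unc f) (Ico 0 T ×ˢ univ) := hf.isCont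

lemma IsClassicalSol.decay_deriv (hf : IsClassicalSol T Q f) : ∀ T₀ > 0, ∀ T₁ < T, ∀ N : ℕ, ∃ C,
    ∀ t ∈ Icc T₀ T₁, ∀ x v,
    (1 + ‖v‖) ^ N * (‖fderiv ℝ (unc f) (t, x, v)‖ + ‖fderiv ℝ (fderiv ℝ (unc f)) (t, x, v)‖) ≤ C :=
  hf.decay12

lemma IsClassicalSol.eqn (hf : IsClassicalSol T Q f) : ∀ t ∈ Ioo 0 T, ∀ x v,
    fderiv ℝ (unc f) (t, x, v) (1, v, 0) = Q t x v := hf.solves

/-- inclusion of velocities into phase space-time -/
noncomputable def iv (d : ℕ) : Vec d →L[ℝ] ℝ × Vec d × Vec d :=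
  (ContinuousLinearMap.inr ℝ ℝ (Vec d × Vec d)).comp (ContinuousLinearMap.inr ℝ (Vec d) (Vec d))

lemma iv_apply (v : Vec d) : iv d v = (0, 0, v) := rfl

lemma norm_iv_le : ‖iv d‖ ≤ 1 := by
  refine ContinuousLinearMap.opNorm_le_bound _ zero_le_one fun v => ?_
  rw [iv_apply, one_mul, Prod.norm_def, Prod.norm_def]
  simp

lemma IsClassicalSol.cda (hf : IsClassicalSol T Q f) {t : ℝ} (ht : t ∈ Ioo 0 T) (x v : Vec d) :
    ContDiffAt ℝ 2 (unc f) (t, x, v) :=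
  hf.smooth.contDiffAt ((isOpen_Ioo.prod isOpen_univ).mem_nhds ⟨ht, mem_univ _⟩)

lemma slice_eq (t : ℝ) (x : Vec d) : f t x = unc f ∘ fun v => (t, x, (0 : Vec d)) + iv d v := by
  funext v
  simp [unc, iv_apply]

lemma aff_hasFDerivAt (t : ℝ) (x v : Vec d) :
    HasFDerivAt (fun v => (t, x, (0 : Vec d)) + iv d v) (iv d) v :=
  ((iv d).hasFDerivAt).const_add _

lemma IsClassicalSol.slice_fderiv (hf : IsClassicalSol T Q f) {t : ℝ} (ht : t ∈ Ioo 0 T)
    (x v : Vec d) : fderiv ℝ (f t x) v = (fderiv ℝ (unc f) (t, x, v)).comp (iv d) := by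
  have h1 : HasFDerivAt (unc f) (fderiv ℝ (unc f) (t, x, v)) (t, x, v) :=
    ((hf.cda ht x v).differentiableAt (by norm_num)).hasFDerivAt
  have e : (t, x, (0 : Vec d)) + iv d v = (t, x, v) := by simp [iv_apply]
  have h2 : HasFDerivAt (unc f) (fderiv ℝ (unc f) (t, x, v)) ((t, x, (0 : Vec d)) + iv d v) := by
    rw [e]; exact h1
  have h3 := h2.comp v (aff_hasFDerivAt t x v)
  rw [← slice_eq] at h3
  exact h3.fderiv

lemma IsClassicalSol.slice_fderiv2 (hf : IsClassicalSol T Q f) {t : ℝ} (ht : t ∈ Ioo 0 T)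
    (x v : Vec d) : ‖fderiv ℝ (fderiv ℝ (f t x)) v‖ ≤ ‖fderiv ℝ (fderiv ℝ (unc f)) (t, x, v)‖ := by
  have e0 : fderiv ℝ (f t x) = fun v => ((ContinuousLinearMap.compL ℝ (Vec d)
      (ℝ × Vec d × Vec d) ℝ).flip (iv d)) (fderiv ℝ (unc f) ((t, x, (0 : Vec d)) + iv d v)) := by
    funext w
    rw [hf.slice_fderiv ht x w]
    have e : (t, x, (0 : Vec d)) + iv d w = (t, x, w) := by simp [iv_apply]
    rw [e]
    rfl
  have h1 : HasFDerivAt (fderiv ℝ (unc f)) (fderiv ℝ (fderiv ℝ (unc f)) (t, x, v)) (t, x, v) :=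
    (((hf.cda ht x v).fderiv_right (m := 1) (by norm_num)).differentiableAt
      (by norm_num)).hasFDerivAt
  have e : (t, x, (0 : Vec d)) + iv d v = (t, x, v) := by simp [iv_apply]
  have h2 : HasFDerivAt (fderiv ℝ (unc f)) (fderiv ℝ (fderiv ℝ (unc f)) (t, x, v))
      ((t, x, (0 : Vec d)) + iv d v) := by
    rw [e]; exact h1
  have h3 := h2.comp v (aff_hasFDerivAt t x v)
  have h4 := (((ContinuousLinearMap.compL ℝ (Vec d)
      (ℝ × Vec d × Vec d) ℝ).flip (iv d)).hasFDerivAt).comp v h3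
  rw [e0]
  have h5 := h4.fderiv
  simp only [Function.comp_def] at h5
  rw [h5]
  refine ContinuousLinearMap.opNorm_le_bound _
    (norm_nonneg (fderiv ℝ (fderiv ℝ (unc f)) (t, x, v))) fun w => ?_
  simp only [ContinuousLinearMap.comp_apply, ContinuousLinearMap.flip_apply,
    ContinuousLinearMap.compL_apply]
  refine (ContinuousLinearMap.opNorm_comp_le _ _).trans ?_
  have a1 := (fderiv ℝ (fderiv ℝ (unc f)) (t, x, v)).le_opNorm (iv d w)
  have a2 : ‖iv d w‖ ≤ ‖w‖ := by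
    have := (iv d).le_opNorm w
    exact this.trans (by
      calc ‖iv d‖ * ‖w‖ ≤ 1 * ‖w‖ := by gcongr; exact norm_iv_le
        _ = ‖w‖ := one_mul _)
  calc ‖fderiv ℝ (fderiv ℝ (unc f)) (t, x, v) (iv d w)‖ * ‖iv d‖
      ≤ (‖fderiv ℝ (fderiv ℝ (unc f)) (t, x, v)‖ * ‖w‖) * 1 := by
        gcongr
        · exact a1.trans (by gcongr)
        · exact norm_iv_le
    _ = _ := mul_one _

/-- time slices of classical solutions are nice functions of the velocity -/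
lemma IsClassicalSol.nice (hf : IsClassicalSol T Q f) {t : ℝ} (ht : t ∈ Ioo 0 T) (x : Vec d) :
    Nice (f t x) := by
  have hd := hf.decay_deriv t ht.1 t ht.2
  have ht' : t ∈ Icc t t := ⟨le_refl _, le_refl _⟩
  refine ⟨?_, ?_, ?_, ?_⟩
  · rw [contDiff_iff_contDiffAt]
    intro v
    rw [slice_eq (f := f)]
    have e : (t, x, (0 : Vec d)) + iv d v = (t, x, v) := by simp [iv_apply]
    have h1 : ContDiffAt ℝ 2 (unc f) ((t, x, (0 : Vec d)) + iv d v) := by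
      rw [e]; exact hf.cda ht x v
    exact h1.comp v (contDiffAt_const.add (iv d).contDiff.contDiffAt)
  · intro N
    obtain ⟨C, hC⟩ := hf.decay t ht.2 N
    refine ⟨C, fun v => ?_⟩
    rw [Real.norm_eq_abs, abs_of_nonneg (hf.nonneg t ⟨ht.1.le, ht.2⟩ x v)]
    exact hC t ⟨ht.1.le, le_refl _⟩ x v
  · intro N
    obtain ⟨C, hC⟩ := hd N
    refine ⟨C, fun v => le_trans ?_ (hC t ht' x v)⟩
    rw [hf.slice_fderiv ht x v]
    gcongr
    have h1 := ContinuousLinearMap.opNorm_comp_le (fderiv ℝ (unc f) (t, x, v)) (iv d)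
    have h2 : ‖fderiv ℝ (unc f) (t, x, v)‖ * ‖iv d‖ ≤ ‖fderiv ℝ (unc f) (t, x, v)‖ * 1 := by
      gcongr; exact norm_iv_le
    have h3 := norm_nonneg (fderiv ℝ (fderiv ℝ (unc f)) (t, x, v))
    linarith
  · intro N
    obtain ⟨C, hC⟩ := hd N
    refine ⟨C, fun v => le_trans ?_ (hC t ht' x v)⟩
    have h1 := hf.slice_fderiv2 ht x v
    have h3 := norm_nonneg (fderiv ℝ (unc f) (t, x, v))
    gcongr
    linarith

/-- derivative along characteristics -/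
lemma IsClassicalSol.hasDerivAt_char (hf : IsClassicalSol T Q f) {t : ℝ} (ht : t ∈ Ioo 0 T)
    (x v : Vec d) : HasDerivAt (fun s => f s (x + s • v) v) (Q t (x + t • v) v) t := by
  have h1 : HasFDerivAt (unc f) (fderiv ℝ (unc f) (t, x + t • v, v)) (t, x + t • v, v) :=
    ((hf.cda ht (x + t • v) v).differentiableAt (by norm_num)).hasFDerivAt
  have h2 : HasDerivAt (fun s : ℝ => (s, x + s • v, v)) (1, v, 0) t := by
    refine (hasDerivAt_id t).prodMk (HasDerivAt.prodMk ?_ (hasDerivAt_const t v))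
    have := ((hasDerivAt_id t).smul_const v).const_add x
    simpa using this
  have h3 := h1.comp_hasDerivAt t h2
  rw [hf.eqn t ht (x + t • v) v] at h3
  exact h3

lemma IsClassicalSol.Q_le (hf : IsClassicalSol T Q f) {T₀ T₁ : ℝ} (h0 : 0 < T₀) (h1 : T₁ < T)
    (N : ℕ) : ∃ C, 0 ≤ C ∧ ∀ t ∈ Icc T₀ T₁, ∀ x v, |Q t x v| ≤ C * ((1 + ‖v‖) ^ N)⁻¹ := by
  obtain ⟨C, hC⟩ := hf.decay_deriv T₀ h0 T₁ h1 (N + 1)
  refine ⟨|C|, abs_nonneg _, fun t ht x v => ?_⟩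
  have ht' : t ∈ Ioo 0 T := ⟨h0.trans_le ht.1, ht.2.trans_lt h1⟩
  rw [← hf.eqn t ht' x v, ← Real.norm_eq_abs]
  have a1 := (fderiv ℝ (unc f) (t, x, v)).le_opNorm ((1 : ℝ), v, (0 : Vec d))
  have a2 : ‖((1 : ℝ), v, (0 : Vec d))‖ ≤ 1 + ‖v‖ := by
    rw [Prod.norm_def, Prod.norm_def]
    simp only [norm_one, norm_zero]
    have := norm_nonneg v
    refine max_le (by linarith) (max_le (by linarith) (by linarith))
  have a3 := hC t ht x v
  have a4 := norm_nonneg (fderiv ℝ (fderiv ℝ (unc f)) (t, x, v))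
  have a5 := norm_nonneg (fderiv ℝ (unc f) (t, x, v))
  have hw := w_pos v
  have a6 : (1 + ‖v‖) ^ (N + 1) * ‖fderiv ℝ (unc f) (t, x, v)‖ ≤ |C| := by
    refine le_trans ?_ (a3.trans (le_abs_self C))
    gcongr
    linarith
  rw [← div_eq_mul_inv, le_div_iff₀ (pow_pos hw _)]
  calc ‖fderiv ℝ (unc f) (t, x, v) (1, v, 0)‖ * (1 + ‖v‖) ^ N
      ≤ (‖fderiv ℝ (unc f) (t, x, v)‖ * (1 + ‖v‖)) * (1 + ‖v‖) ^ N := by
        gcongr
        exact a1.trans (by gcongr)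
    _ = (1 + ‖v‖) ^ (N + 1) * ‖fderiv ℝ (unc f) (t, x, v)‖ := by ring
    _ ≤ |C| := a6

end Pool.Agent.H25.Kin
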