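import Pool.Agent.H25.Kin.Close

/-!
# Smallness of the perturbation in `W^{1,r}`, `r < d`
-/

set_option autoImplicit false

open MeasureTheory Set Filter Topology
open scoped ContDiff Real

namespace Pool.Agent.H25.Kin

variable {d : ℕ}

lemma Sx_lip (x y : Vec d) : ‖Sx x - Sx y‖ ≤ ‖x - y‖ := by
  refine (pi_norm_le_iff_of_nonneg (norm_nonneg _)).2 fun i => ?_
  rw [Pi.sub_apply, Real.norm_eq_abs]
  unfold Sx
  have hpi : 0 < 2 * π := by positivity
  have h1 : |Real.sin (2 * π * x i) - Real.sin (2 * π * y i)| ≤ |2 * π * x i - 2 * π * y i| := by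
    have h := Convex.norm_image_sub_le_of_norm_hasDerivWithin_le (f := Real.sin) (f' := Real.cos)
      (s := univ) (C := 1) (x := 2 * π * y i) (y := 2 * π * x i)
      (fun z _ => (Real.hasDerivAt_sin z).hasDerivWithinAt)
      (fun z _ => by rw [Real.norm_eq_abs]; exact Real.abs_cos_le_one z) convex_univ
      (mem_univ _) (mem_univ _)
    simpa using h
  rw [← sub_div, abs_div, abs_of_pos hpi, div_le_iff₀ hpi]
  refine h1.trans ?_
  rw [← mul_sub, abs_mul, abs_of_pos hpi, mul_comm]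
  have := norm_le_pi_norm (x - y) i
  rw [Pi.sub_apply, Real.norm_eq_abs] at this
  gcongr

lemma bp_lip {B : ℝ} (hB : Test (bp d) B) (x y : Vec d) : |bp d x - bp d y| ≤ B * ‖x - y‖ := by
  have h := Convex.norm_image_sub_le_of_norm_fderiv_le (𝕜 := ℝ) (f := bp d) (s := univ) (C := B)
    (x := y) (y := x) (fun z _ => (hB.smooth.differentiable (by norm_num)) z)
    (fun z _ => hB.le1 z) convex_univ (mem_univ _) (mem_univ _)
  exact h

lemma bump_lip {B : ℝ} (hB : Test (bp d) B) {δ t : ℝ} (hδ : 0 < δ) (hδ1 : δ ≤ 1)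
    (ht : 0 < t) (ht1 : t ≤ 1) (q q' : Vec d × Vec d) :
    |bump δ t q.1 q.2 - bump δ t q'.1 q'.2| ≤ 3 * B * (δ⁻¹ * t⁻¹) * ‖q - q'‖ := by
  have hB0 := hB.nonneg
  have e1 : 1 ≤ δ⁻¹ := (one_le_inv₀ hδ).2 hδ1
  have e2 : 1 ≤ t⁻¹ := (one_le_inv₀ ht).2 ht1
  have hti : 0 < t⁻¹ := inv_pos.2 ht
  have hδi : 0 < δ⁻¹ := inv_pos.2 hδ
  have hx : ‖q.1 - q'.1‖ ≤ ‖q - q'‖ := norm_fst_le (q - q')
  have hv : ‖q.2 - q'.2‖ ≤ ‖q - q'‖ := norm_snd_le (q - q')
  have hS := (Sx_lip q.1 q'.1).trans hx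
  have hn := norm_nonneg (q - q')
  have nu : ‖t⁻¹ • Sx q.1 - t⁻¹ • Sx q'.1‖ ≤ t⁻¹ * ‖q - q'‖ := by
    rw [← smul_sub, norm_smul, Real.norm_eq_abs, abs_of_pos hti]
    gcongr
  have nw : ‖δ⁻¹ • (q.2 + t⁻¹ • Sx q.1) - δ⁻¹ • (q'.2 + t⁻¹ • Sx q'.1)‖ ≤
      δ⁻¹ * (‖q - q'‖ + t⁻¹ * ‖q - q'‖) := by
    rw [← smul_sub, norm_smul, Real.norm_eq_abs, abs_of_pos hδi]
    have e : q.2 + t⁻¹ • Sx q.1 - (q'.2 + t⁻¹ • Sx q'.1) =
        (q.2 - q'.2) + (t⁻¹ • Sx q.1 - t⁻¹ • Sx q'.1) := by abel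
    rw [e]
    refine mul_le_mul_of_nonneg_left ?_ hδi.le
    exact (norm_add_le _ _).trans (add_le_add hv nu)
  have h1 := (bp_lip hB (t⁻¹ • Sx q.1) (t⁻¹ • Sx q'.1)).trans (mul_le_mul_of_nonneg_left nu hB0)
  have h2 := (bp_lip hB (δ⁻¹ • (q.2 + t⁻¹ • Sx q.1)) (δ⁻¹ • (q'.2 + t⁻¹ • Sx q'.1))).trans
    (mul_le_mul_of_nonneg_left nw hB0)
  unfold bump
  set a := bp d (t⁻¹ • Sx q.1)
  set a' := bp d (t⁻¹ • Sx q'.1)
  set b := bp d (δ⁻¹ • (q.2 + t⁻¹ • Sx q.1))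
  set b' := bp d (δ⁻¹ • (q'.2 + t⁻¹ • Sx q'.1))
  have ha0 : 0 ≤ a' := bp_nonneg _
  have ha1 : a' ≤ 1 := bp_le_one _
  have hb0 : 0 ≤ b := bp_nonneg _
  have hb1 : b ≤ 1 := bp_le_one _
  have e3 : a * b - a' * b' = (a - a') * b + a' * (b - b') := by ring
  rw [e3]
  have h3 : |(a - a') * b + a' * (b - b')| ≤ |a - a'| + |b - b'| := by
    refine (abs_add_le _ _).trans ?_
    rw [abs_mul, abs_mul, abs_of_nonneg hb0, abs_of_nonneg ha0]
    have := abs_nonneg (a - a')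
    have := abs_nonneg (b - b')
    nlinarith
  refine h3.trans ((add_le_add h1 h2).trans ?_)
  have a1 : t⁻¹ ≤ δ⁻¹ * t⁻¹ := by nlinarith
  have a2 : δ⁻¹ ≤ δ⁻¹ * t⁻¹ := by nlinarith
  have e4 : B * (t⁻¹ * ‖q - q'‖) + B * (δ⁻¹ * (‖q - q'‖ + t⁻¹ * ‖q - q'‖)) =
      B * (t⁻¹ + δ⁻¹ + δ⁻¹ * t⁻¹) * ‖q - q'‖ := by ring
  have e5 : 3 * B * (δ⁻¹ * t⁻¹) * ‖q - q'‖ = B * (3 * (δ⁻¹ * t⁻¹)) * ‖q - q'‖ := by ring
  rw [e4, e5]
  have a3 : t⁻¹ + δ⁻¹ + δ⁻¹ * t⁻¹ ≤ 3 * (δ⁻¹ * t⁻¹) := by linarith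
  gcongr

/-- the closed set carrying the perturbation -/
def Zs (δ t : ℝ) : Set (Vec d × Vec d) :=
  {q | ‖Sx q.1‖ ≤ 2 * t ∧ ‖q.2 + t⁻¹ • Sx q.1‖ ≤ 2 * δ}

lemma Sx_cont : Continuous (Sx (d := d)) := Sx_smooth.continuous

lemma isClosed_Zs (δ t : ℝ) : IsClosed (Zs (d := d) δ t) := by
  have hS := Sx_cont (d := d)
  have c1 : Continuous fun q : Vec d × Vec d => ‖Sx q.1‖ := by fun_prop
  have c2 : Continuous fun q : Vec d × Vec d => ‖q.2 + t⁻¹ • Sx q.1‖ := by fun_prop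
  exact (isClosed_le c1 continuous_const).inter (isClosed_le c2 continuous_const)

lemma fderiv_pert_zero {δ t h : ℝ} (hδ : 0 < δ) (ht : 0 < t) {q : Vec d × Vec d}
    (hq : q ∉ Zs (d := d) δ t) :
    fderiv ℝ (fun q : Vec d × Vec d => h * bump δ t q.1 q.2) q = 0 := by
  have h1 : tsupport (fun q : Vec d × Vec d => h * bump δ t q.1 q.2) ⊆ Zs (d := d) δ t := by
    refine closure_minimal ?_ (isClosed_Zs δ t)
    intro q hq
    have h2 : bump δ t q.1 q.2 ≠ 0 := fun h0 => hq (by simp only; rw [h0, mul_zero])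
    have h3 := bump_supp hδ ht h2
    exact ⟨h3.1.le, h3.2.le⟩
  have h2 := support_fderiv_subset ℝ (f := fun q : Vec d × Vec d => h * bump δ t q.1 q.2)
  by_contra h0
  exact hq (h1 (h2 h0))

lemma zero_set_1d {t : ℝ} (ht : 0 < t) : (volume : Measure ℝ)
    {s | s ∈ Icc (0 : ℝ) 1 ∧ |Real.sin (2 * π * s) / (2 * π)| ≤ 2 * t} ≤ ENNReal.ofReal (24 * t) := by
  have hpi : 0 < π := Real.pi_pos
  have hsub : {s | s ∈ Icc (0 : ℝ) 1 ∧ |Real.sin (2 * π * s) / (2 * π)| ≤ 2 * t} ⊆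
      (Metric.closedBall 0 (π * t) ∪ Metric.closedBall (1 / 2) (π * t)) ∪
        Metric.closedBall 1 (π * t) := by
    rintro s ⟨⟨h0, h1⟩, h2⟩
    rw [abs_div, abs_of_pos (by positivity : 0 < 2 * π), div_le_iff₀ (by positivity)] at h2
    have jord : ∀ y : ℝ, |y| ≤ 1 / 4 → 4 * |y| ≤ |Real.sin (2 * π * y)| := by
      intro y hy
      have h3 : |2 * π * y| ≤ π / 2 := by
        rw [abs_mul, abs_of_pos (by positivity : 0 < 2 * π)]
        nlinarith
      have h4 := Real.mul_abs_le_abs_sin h3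
      have h5 : 2 / π * |2 * π * y| = 4 * |y| := by
        rw [abs_mul, abs_of_pos (by positivity : 0 < 2 * π)]
        field_simp; ring
      linarith
    rcases le_total s (1 / 4) with h3 | h3
    · left; left
      rw [Metric.mem_closedBall, Real.dist_eq, sub_zero]
      have := jord s (by rw [abs_of_nonneg h0]; exact h3)
      nlinarith
    rcases le_total s (3 / 4) with h4 | h4
    · left; right
      rw [Metric.mem_closedBall, Real.dist_eq]
      have h5 := jord (s - 1 / 2) (by rw [abs_le]; constructor <;> linarith)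
      have h6 : Real.sin (2 * π * (s - 1 / 2)) = -Real.sin (2 * π * s) := by
        have : 2 * π * (s - 1 / 2) = 2 * π * s - π := by ring
        rw [this, Real.sin_sub_pi]
      rw [h6, abs_neg] at h5
      nlinarith
    · right
      rw [Metric.mem_closedBall, Real.dist_eq]
      have h5 := jord (s - 1) (by rw [abs_le]; constructor <;> linarith)
      have h6 : Real.sin (2 * π * (s - 1)) = Real.sin (2 * π * s) := by
        have : 2 * π * (s - 1) = 2 * π * s - 2 * π := by ring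
        rw [this, Real.sin_sub_two_pi]
      rw [h6] at h5
      nlinarith
  refine (measure_mono hsub).trans ?_
  refine (measure_union_le _ _).trans ?_
  refine (add_le_add (measure_union_le _ _) (le_refl _)).trans ?_
  rw [Real.volume_closedBall, Real.volume_closedBall, Real.volume_closedBall,
    ← ENNReal.ofReal_add (by positivity) (by positivity),
    ← ENNReal.ofReal_add (by positivity) (by positivity)]
  refine ENNReal.ofReal_le_ofReal ?_
  have : π < 4 := by linarith [Real.pi_lt_d2]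
  nlinarith

lemma zero_set {t : ℝ} (ht : 0 < t) : (volume : Measure (Vec d)).real
    {x | x ∈ Icc (0 : Vec d) 1 ∧ ‖Sx x‖ ≤ 2 * t} ≤ (24 * t) ^ d := by
  have hsub : {x : Vec d | x ∈ Icc (0 : Vec d) 1 ∧ ‖Sx x‖ ≤ 2 * t} ⊆
      Set.pi univ (fun _ : Fin d =>
        {s | s ∈ Icc (0 : ℝ) 1 ∧ |Real.sin (2 * π * s) / (2 * π)| ≤ 2 * t}) := by
    rintro x ⟨h0, h1⟩ i _
    refine ⟨⟨h0.1 i, h0.2 i⟩, ?_⟩
    have := (norm_le_pi_norm (Sx x) i).trans h1
    exact this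
  have h1 := measure_mono (μ := (volume : Measure (Vec d))) hsub
  rw [volume_pi_pi] at h1
  have h2 : ∏ _i : Fin d, (volume : Measure ℝ)
      {s | s ∈ Icc (0 : ℝ) 1 ∧ |Real.sin (2 * π * s) / (2 * π)| ≤ 2 * t} ≤
      ∏ _i : Fin d, ENNReal.ofReal (24 * t) :=
    Finset.prod_le_prod' fun i _ => zero_set_1d ht
  have h3 := h1.trans h2
  rw [Finset.prod_const, Finset.card_univ, Fintype.card_fin, ← ENNReal.ofReal_pow (by positivity)] at h3
  rw [Measure.real]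
  exact ENNReal.toReal_le_of_le_ofReal (by positivity) h3

/-- `W^{1,r}` smallness of the perturbation, `r < d` -/
lemma pert_sobolev {B : ℝ} (hB1 : 1 ≤ B) (hB : Test (bp d) B) {δ t h : ℝ} (hδ : 0 < δ)
    (hδ1 : δ ≤ 1) (ht : 0 < t) (ht1 : t ≤ 1) (hh : 1 ≤ h) (N : ℕ) {r : ℕ} (hr1 : 1 ≤ r)
    (hr : r < d) :
    ∫ x in Icc (0 : Vec d) 1, ∫ v, (1 + ‖v‖) ^ N *
      ‖fderiv ℝ (fun q : Vec d × Vec d => h * bump δ t q.1 q.2) (x, v)‖ ^ r ≤
      (5 ^ N * (3 * h * B * δ⁻¹) ^ d * (4 * δ) ^ d * 24 ^ d) * t := by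
  set G : Vec d × Vec d → ℝ := fun q => h * bump δ t q.1 q.2 with hG
  have hBr : ∀ q, ‖fderiv ℝ G q‖ ≤ h * (3 * B * (δ⁻¹ * t⁻¹)) := by
    intro q
    have hL0 : 0 ≤ h * (3 * B * (δ⁻¹ * t⁻¹)) := by positivity
    have hlip : LipschitzWith (Real.toNNReal (h * (3 * B * (δ⁻¹ * t⁻¹)))) G := by
      refine LipschitzWith.of_dist_le_mul fun p p' => ?_
      rw [Real.dist_eq, dist_eq_norm, hG, Real.coe_toNNReal _ hL0]
      simp only
      rw [← mul_sub, abs_mul, abs_of_nonneg (by linarith : 0 ≤ h), mul_assoc]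
      exact mul_le_mul_of_nonneg_left (bump_lip hB hδ hδ1 ht ht1 p p') (by linarith)
    have := norm_fderiv_le_of_lipschitz ℝ hlip (x₀ := q)
    rwa [Real.coe_toNNReal _ hL0] at this
  have hti : 0 < t⁻¹ := inv_pos.2 ht
  have hδi : 0 < δ⁻¹ := inv_pos.2 hδ
  set L := h * (3 * B * (δ⁻¹ * t⁻¹)) with hL
  have hL0 : 0 ≤ L := by positivity
  have hr0 : r ≠ 0 := by omega
  -- inner integral
  have inner : ∀ x, ‖∫ v, (1 + ‖v‖) ^ N * ‖fderiv ℝ G (x, v)‖ ^ r‖ ≤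
      ({x : Vec d | ‖Sx x‖ ≤ 2 * t}).indicator (fun _ => 5 ^ N * L ^ r * (4 * δ) ^ d) x := by
    intro x
    by_cases hx : ‖Sx x‖ ≤ 2 * t
    · rw [indicator_of_mem (by exact hx)]
      have e : (4 * δ) ^ d = (2 * (2 * δ)) ^ d := by congr 1; ring
      rw [e, Real.norm_eq_abs]
      refine int_le_ball' (G := fun v => (1 + ‖v‖) ^ N * ‖fderiv ℝ G (x, v)‖ ^ r)
        (C := 5 ^ N * L ^ r) (R := 2 * δ) (-(t⁻¹ • Sx x)) (by positivity) (fun v => ?_)
        fun v hv => ?_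
      · have hw := w_pos v
        rw [abs_of_nonneg (by positivity)]
        by_cases h0 : (x, v) ∈ Zs (d := d) δ t
        · have h1 : ‖v‖ ≤ 4 := by
            have e : v = (v + t⁻¹ • Sx x) - t⁻¹ • Sx x := by abel
            calc ‖v‖ = ‖(v + t⁻¹ • Sx x) - t⁻¹ • Sx x‖ := by rw [← e]
              _ ≤ ‖v + t⁻¹ • Sx x‖ + ‖t⁻¹ • Sx x‖ := norm_sub_le _ _
              _ ≤ 2 + 2 := by
                  refine add_le_add (h0.2.trans (by linarith)) ?_
                  rw [norm_smul, norm_inv, Real.norm_eq_abs, abs_of_pos ht, inv_mul_le_iff₀ ht]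
                  linarith
              _ = 4 := by norm_num
          have h4 : (1 + ‖v‖) ^ N ≤ 5 ^ N := pow_le_pow_left₀ hw.le (by linarith) N
          have h5 : ‖fderiv ℝ G (x, v)‖ ^ r ≤ L ^ r := pow_le_pow_left₀ (norm_nonneg _) (hBr _) r
          exact mul_le_mul h4 h5 (by positivity) (by positivity)
        · rw [hG, fderiv_pert_zero hδ ht h0, norm_zero, zero_pow hr0, mul_zero]
          positivity
      · have h0 : (x, v) ∉ Zs (d := d) δ t := by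
          intro h0
          have h1 := h0.2
          simp only at h1
          rw [sub_neg_eq_add] at hv
          linarith
        rw [hG, fderiv_pert_zero hδ ht h0, norm_zero, zero_pow hr0, mul_zero]
    · rw [indicator_of_notMem (by exact hx)]
      have : ∀ v, (1 + ‖v‖) ^ N * ‖fderiv ℝ G (x, v)‖ ^ r = 0 := by
        intro v
        have h0 : (x, v) ∉ Zs (d := d) δ t := fun h0 => hx h0.1
        rw [hG, fderiv_pert_zero hδ ht h0, norm_zero, zero_pow hr0, mul_zero]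
      simp [this]
  have hSm : MeasurableSet {x : Vec d | ‖Sx x‖ ≤ 2 * t} :=
    (isClosed_le (Sx_cont.norm) continuous_const).measurableSet
  have hcube : (volume : Measure (Vec d)) (Icc (0 : Vec d) 1) ≠ ⊤ := isCompact_Icc.measure_lt_top.ne
  have hint : Integrable (({x : Vec d | ‖Sx x‖ ≤ 2 * t}).indicator
      (fun _ => 5 ^ N * L ^ r * (4 * δ) ^ d)) (volume.restrict (Icc (0 : Vec d) 1)) := by
    have : IsFiniteMeasure (volume.restrict (Icc (0 : Vec d) 1)) :=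
      ⟨by rw [Measure.restrict_apply_univ]; exact isCompact_Icc.measure_lt_top⟩
    exact (integrable_const _).indicator hSm
  have h1 := norm_integral_le_of_norm_le (μ := volume.restrict (Icc (0 : Vec d) 1)) hint
    (Eventually.of_forall inner)
  rw [integral_indicator hSm, Measure.restrict_restrict hSm, setIntegral_const, smul_eq_mul] at h1
  refine (le_abs_self _).trans (h1.trans ?_)
  have h2 := zero_set (d := d) ht
  have e1 : {x : Vec d | ‖Sx x‖ ≤ 2 * t} ∩ Icc (0 : Vec d) 1 =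
      {x : Vec d | x ∈ Icc (0 : Vec d) 1 ∧ ‖Sx x‖ ≤ 2 * t} := by
    ext x; exact and_comm
  rw [e1]
  calc (volume : Measure (Vec d)).real {x : Vec d | x ∈ Icc (0 : Vec d) 1 ∧ ‖Sx x‖ ≤ 2 * t} *
        (5 ^ N * L ^ r * (4 * δ) ^ d)
      ≤ (24 * t) ^ d * (5 ^ N * L ^ r * (4 * δ) ^ d) := by gcongr
    _ = (5 ^ N * (4 * δ) ^ d * 24 ^ d) * (L ^ r * t ^ d) := by rw [mul_pow 24 t d]; ring
    _ ≤ (5 ^ N * (4 * δ) ^ d * 24 ^ d) * ((3 * h * B * δ⁻¹) ^ d * t) := by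
        refine mul_le_mul_of_nonneg_left ?_ (by positivity)
        have e2 : L = (3 * h * B * δ⁻¹) * t⁻¹ := by rw [hL]; ring
        have e3 : t ^ d = t ^ r * t ^ (d - r) := by rw [← pow_add]; congr 1; omega
        have hδi1 : 1 ≤ δ⁻¹ := (one_le_inv₀ hδ).2 hδ1
        have h5 : 1 ≤ 3 * h * B * δ⁻¹ := by
          have : 1 ≤ 3 * h := by linarith
          have : 1 ≤ 3 * h * B := one_le_mul_of_one_le_of_one_le this hB1
          exact one_le_mul_of_one_le_of_one_le this hδi1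
        have h6 : (3 * h * B * δ⁻¹) ^ r ≤ (3 * h * B * δ⁻¹) ^ d := pow_le_pow_right₀ h5 hr.le
        have h7 : t ^ (d - r) ≤ t := by
          calc t ^ (d - r) ≤ t ^ 1 := pow_le_pow_of_le_one ht.le ht1 (by omega)
            _ = t := pow_one t
        calc L ^ r * t ^ d = (3 * h * B * δ⁻¹) ^ r * ((t⁻¹) ^ r * t ^ r) * t ^ (d - r) := by
              rw [e2, e3, mul_pow]; ring
          _ = (3 * h * B * δ⁻¹) ^ r * t ^ (d - r) := by
              rw [← mul_pow, inv_mul_cancel₀ ht.ne', one_pow, mul_one]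
          _ ≤ (3 * h * B * δ⁻¹) ^ d * t := by gcongr
    _ = (5 ^ N * (3 * h * B * δ⁻¹) ^ d * (4 * δ) ^ d * 24 ^ d) * t := by ring

end Pool.Agent.H25.Kin
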