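import Pool.Agent.H25.Kin.Basic
import Pool.Agent.H25.Kin.BDefs

/-!
# The surface measure of the unit sphere in `Vec d`
-/

set_option autoImplicit false

open MeasureTheory Set Filter Topology
open scoped ENNReal

namespace Pool.Agent.H25.Kin

variable {d : ℕ}

lemma surf_meas : Measurable fun σ : Metric.sphere (0 : EuclideanSpace ℝ (Fin d)) 1 =>
    (WithLp.ofLp σ.1 : Vec d) := by
  have : Continuous fun σ : Metric.sphere (0 : EuclideanSpace ℝ (Fin d)) 1 =>
    (WithLp.ofLp σ.1 : Vec d) := (PiLp.continuous_ofLp 2 _).comp continuous_subtype_val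
  exact this.measurable

instance : IsFiniteMeasure (surf d) := by unfold surf; infer_instance

lemma nsq_ofLp (z : EuclideanSpace ℝ (Fin d)) : nsq (WithLp.ofLp z) = ‖z‖ ^ 2 := by
  rw [EuclideanSpace.real_norm_sq_eq]; rfl

lemma len_ofLp (z : EuclideanSpace ℝ (Fin d)) : len (WithLp.ofLp z) = ‖z‖ := by
  unfold len; rw [nsq_ofLp, Real.sqrt_sq (norm_nonneg _)]

lemma nsq_smul (a : ℝ) (z : Vec d) : nsq (a • z) = a ^ 2 * nsq z := by
  unfold nsq
  rw [Finset.mul_sum]
  exact Finset.sum_congr rfl fun i _ => by simp [mul_pow]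

lemma len_nonneg (z : Vec d) : 0 ≤ len z := Real.sqrt_nonneg _

lemma len_sq (z : Vec d) : len z ^ 2 = nsq z := Real.sq_sqrt (sq_nonneg' z)

lemma len_smul {a : ℝ} (ha : 0 ≤ a) (z : Vec d) : len (a • z) = a * len z := by
  unfold len
  rw [nsq_smul, Real.sqrt_mul (sq_nonneg a), Real.sqrt_sq ha]

lemma continuous_len : Continuous (len : Vec d → ℝ) := continuous_sq.sqrt

lemma surf_ae : ∀ᵐ σ ∂(surf d), nsq σ = 1 := by
  unfold surf
  have hm : MeasurableSet {σ : Vec d | nsq σ = 1} :=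
    (isClosed_eq continuous_sq continuous_const).measurableSet
  rw [ae_map_iff surf_meas.aemeasurable hm]
  refine Eventually.of_forall fun σ => ?_
  rw [nsq_ofLp]
  have : ‖(σ : EuclideanSpace ℝ (Fin d))‖ = 1 := by simp
  rw [this]; norm_num

/-- radial measure -/
noncomputable abbrev rad (d : ℕ) : Measure (Ioi (0 : ℝ)) := Measure.volumeIoiPow (d - 1)

/-- **polar coordinates** -/
lemma polar (hd : 1 ≤ d) {G : Vec d → ℝ≥0∞} (hG : Measurable G) :
    ∫⁻ z, G z = ∫⁻ σ, ∫⁻ ρ, G (ρ.1 • σ) ∂(rad d) ∂(surf d) := by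
  have hne : Nonempty (Fin d) := ⟨⟨0, by omega⟩⟩
  have hm : Measurable fun z : EuclideanSpace ℝ (Fin d) => (WithLp.ofLp z : Vec d) :=
    (PiLp.continuous_ofLp 2 _).measurable
  have hGo : Measurable fun z : EuclideanSpace ℝ (Fin d) => G (WithLp.ofLp z) := hG.comp hm
  have h1 : ∫⁻ z, G z = ∫⁻ z : EuclideanSpace ℝ (Fin d), G (WithLp.ofLp z) :=
    ((PiLp.volume_preserving_ofLp (Fin d)).lintegral_comp hG).symm
  have hnt : Nontrivial (EuclideanSpace ℝ (Fin d)) := inferInstance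
  have h2 : ∫⁻ z : EuclideanSpace ℝ (Fin d), G (WithLp.ofLp z) =
      ∫⁻ z in ({0}ᶜ : Set (EuclideanSpace ℝ (Fin d))), G (WithLp.ofLp z) := by
    rw [← setLIntegral_univ]
    refine setLIntegral_congr ?_
    have : (univ : Set (EuclideanSpace ℝ (Fin d))) =ᵐ[volume] ({0}ᶜ : Set _) :=
      (ae_eq_univ.2 (by simp)).symm
    exact this
  have h3 : ∫⁻ z in ({0}ᶜ : Set (EuclideanSpace ℝ (Fin d))), G (WithLp.ofLp z) =
      ∫⁻ z : ({0}ᶜ : Set (EuclideanSpace ℝ (Fin d))), G (WithLp.ofLp z.1)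
        ∂(Measure.comap Subtype.val volume) :=
    (lintegral_subtype_comap (measurableSet_singleton _).compl _).symm
  set F : Metric.sphere (0 : EuclideanSpace ℝ (Fin d)) 1 × Ioi (0 : ℝ) → ℝ≥0∞ :=
    fun p => G (p.2.1 • WithLp.ofLp p.1.1) with hF
  have hFm : Measurable F := by
    refine hG.comp ?_
    have : Continuous fun p : Metric.sphere (0 : EuclideanSpace ℝ (Fin d)) 1 × Ioi (0 : ℝ) =>
      (p.2.1 • WithLp.ofLp p.1.1 : Vec d) := by fun_prop
    exact this.measurable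
  have h4 := (Measure.measurePreserving_homeomorphUnitSphereProd
    (volume : Measure (EuclideanSpace ℝ (Fin d)))).lintegral_comp_emb
    (homeomorphUnitSphereProd (EuclideanSpace ℝ (Fin d))).measurableEmbedding F
  have h5 : ∀ z : ({0}ᶜ : Set (EuclideanSpace ℝ (Fin d))),
      F (homeomorphUnitSphereProd (EuclideanSpace ℝ (Fin d)) z) = G (WithLp.ofLp z.1) := by
    intro z
    have e := homeomorphUnitSphereProd_symm_apply_coe (EuclideanSpace ℝ (Fin d))
      (homeomorphUnitSphereProd (EuclideanSpace ℝ (Fin d)) z)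
    rw [Homeomorph.symm_apply_apply] at e
    simp only [hF]
    rw [← WithLp.ofLp_smul, ← e]
  simp only [h5] at h4
  have hfr : Module.finrank ℝ (EuclideanSpace ℝ (Fin d)) = d := finrank_euclideanSpace_fin
  rw [hfr] at h4
  rw [h1, h2, h3, h4, lintegral_prod _ hFm.aemeasurable]
  unfold surf
  rw [lintegral_map _ surf_meas]
  have : Measurable fun p : Vec d × Ioi (0 : ℝ) => G (p.2.1 • p.1) := by
    refine hG.comp ?_
    have : Continuous fun p : Vec d × Ioi (0 : ℝ) => (p.2.1 • p.1 : Vec d) := by fun_prop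
    exact this.measurable
  exact this.lintegral_prod_right'

lemma rad_Iio (hd : 1 ≤ d) : rad d {ρ | ρ.1 < 1} = ENNReal.ofReal (1 / d) := by
  have h := Measure.volumeIoiPow_apply_Iio (d - 1) (⟨1, by simp⟩ : Ioi (0 : ℝ))
  have e : {ρ : Ioi (0 : ℝ) | ρ.1 < 1} = Iio (⟨1, by simp⟩ : Ioi (0 : ℝ)) := by
    ext ρ; simp only [mem_Iio, ← Subtype.coe_lt_coe]; rfl
  rw [e, h]
  congr 1
  have : ((d - 1 : ℕ) : ℝ) + 1 = d := by
    have : (d - 1 : ℕ) + 1 = d := by omega
    exact_mod_cast this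
  simp [this]

/-- **ball formula** -/
lemma ball_formula (hd : 1 ≤ d) {F : Vec d → ℝ≥0∞} (hF : Measurable F) :
    ∫⁻ z in {z : Vec d | nsq z < 1}, F ((len z)⁻¹ • z) =
      ENNReal.ofReal (1 / d) * ∫⁻ σ, F σ ∂(surf d) := by
  have hbm : MeasurableSet {z : Vec d | nsq z < 1} :=
    (isOpen_lt continuous_sq continuous_const).measurableSet
  have hum : Measurable fun z : Vec d => (len z)⁻¹ • z :=
    (continuous_len.measurable.inv).smul measurable_id
  have hFu : Measurable fun z : Vec d => F ((len z)⁻¹ • z) := hF.comp hum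
  rw [← lintegral_indicator hbm, polar hd (hFu.indicator hbm)]
  rw [← lintegral_const_mul _ hF]
  refine lintegral_congr_ae ?_
  filter_upwards [surf_ae] with σ hσ
  have hmem : MeasurableSet {ρ : Ioi (0 : ℝ) | ρ.1 < 1} :=
    measurable_subtype_coe measurableSet_Iio
  have e : ∀ ρ : Ioi (0 : ℝ), ({z : Vec d | nsq z < 1}.indicator (fun z => F ((len z)⁻¹ • z))) (ρ.1 • σ) =
      ({ρ : Ioi (0 : ℝ) | ρ.1 < 1}).indicator (fun _ => F σ) ρ := by
    intro ρ
    have hρ : 0 < ρ.1 := ρ.2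
    have h1 : nsq (ρ.1 • σ) = ρ.1 ^ 2 := by rw [nsq_smul, hσ, mul_one]
    have h2 : len (ρ.1 • σ) = ρ.1 := by unfold len; rw [h1, Real.sqrt_sq hρ.le]
    have h3 : nsq (ρ.1 • σ) < 1 ↔ ρ.1 < 1 := by
      rw [h1]
      constructor
      · intro h; nlinarith
      · intro h; nlinarith
    by_cases hlt : ρ.1 < 1
    · rw [indicator_of_mem (by exact h3.2 hlt), indicator_of_mem (by exact hlt)]
      rw [h2, inv_smul_smul₀ hρ.ne']
    · rw [indicator_of_notMem (by exact fun h => hlt (h3.1 h)), indicator_of_notMem (by exact hlt)]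
  simp_rw [e]
  rw [lintegral_indicator hmem, lintegral_const, Measure.restrict_apply MeasurableSet.univ,
    univ_inter, rad_Iio hd, mul_comm]

lemma surf_formula (hd : 1 ≤ d) {F : Vec d → ℝ≥0∞} (hF : Measurable F) :
    ∫⁻ σ, F σ ∂(surf d) = d * ∫⁻ z in {z : Vec d | nsq z < 1}, F ((len z)⁻¹ • z) := by
  rw [ball_formula hd hF, ← mul_assoc]
  have hd0 : (0 : ℝ) < d := by exact_mod_cast hd
  have : (d : ℝ≥0∞) * ENNReal.ofReal (1 / d) = 1 := by
    rw [← ENNReal.ofReal_natCast, ← ENNReal.ofReal_mul hd0.le, mul_one_div_cancel hd0.ne',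
      ENNReal.ofReal_one]
  rw [this, one_mul]

/-- the exchange of directions `(z,σ) ↦ (|z| σ, z/|z|)` -/
noncomputable def swapd (p : Vec d × Vec d) : Vec d × Vec d := (len p.1 • p.2, (len p.1)⁻¹ • p.1)

lemma swapd_meas : Measurable (swapd : Vec d × Vec d → Vec d × Vec d) := by
  unfold swapd
  have h := (continuous_len (d := d)).measurable
  exact ((h.comp measurable_fst).smul measurable_snd).prodMk
    (((h.comp measurable_fst).inv).smul measurable_fst)

/-- **the exchange of directions preserves the measure** -/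
theorem swapd_preserving (hd : 1 ≤ d) : MeasurePreserving (swapd : Vec d × Vec d → Vec d × Vec d)
    ((volume : Measure (Vec d)).prod (surf d)) ((volume : Measure (Vec d)).prod (surf d)) := by
  refine ⟨swapd_meas, ?_⟩
  refine Measure.ext_of_lintegral _ fun X hX => ?_
  rw [lintegral_map hX swapd_meas]
  have hXs : Measurable fun p : Vec d × Vec d => X (swapd p) := hX.comp swapd_meas
  rw [lintegral_prod_symm _ hXs.aemeasurable, lintegral_prod_symm _ hX.aemeasurable]
  have hm1 : ∀ σ : Vec d, Measurable fun z : Vec d => X (swapd (z, σ)) := fun σ =>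
    hXs.comp (measurable_id.prodMk measurable_const)
  have hm2 : ∀ σ : Vec d, Measurable fun z : Vec d => X (z, σ) := fun σ =>
    hX.comp (measurable_id.prodMk measurable_const)
  have e1 : ∫⁻ σ, ∫⁻ z, X (swapd (z, σ)) ∂volume ∂(surf d) =
      ∫⁻ σ, ∫⁻ k, ∫⁻ ρ, X (ρ.1 • σ, k) ∂(rad d) ∂(surf d) ∂(surf d) := by
    refine lintegral_congr fun σ => ?_
    rw [polar hd (hm1 σ)]
    refine lintegral_congr_ae ?_
    filter_upwards [surf_ae] with k hk
    refine lintegral_congr fun ρ => ?_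
    have hρ : 0 < ρ.1 := ρ.2
    have h1 : nsq (ρ.1 • k) = ρ.1 ^ 2 := by rw [nsq_smul, hk, mul_one]
    have h2 : len (ρ.1 • k) = ρ.1 := by unfold len; rw [h1, Real.sqrt_sq hρ.le]
    unfold swapd
    simp only
    rw [h2, inv_smul_smul₀ hρ.ne']
  have e2 : ∫⁻ σ, ∫⁻ z, X (z, σ) ∂volume ∂(surf d) =
      ∫⁻ σ, ∫⁻ k, ∫⁻ ρ, X (ρ.1 • k, σ) ∂(rad d) ∂(surf d) ∂(surf d) := by
    refine lintegral_congr fun σ => ?_
    rw [polar hd (hm2 σ)]
  rw [e1, e2]
  have hmeas : Measurable fun q : Vec d × Vec d => ∫⁻ ρ : Ioi (0 : ℝ), X (ρ.1 • q.1, q.2) ∂(rad d) := by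
    have : Measurable fun r : (Vec d × Vec d) × Ioi (0 : ℝ) => X (r.2.1 • r.1.1, r.1.2) := by
      refine hX.comp ?_
      have : Continuous fun r : (Vec d × Vec d) × Ioi (0 : ℝ) => ((r.2.1 • r.1.1, r.1.2) : Vec d × Vec d) := by
        fun_prop
      exact this.measurable
    exact this.lintegral_prod_right'
  exact lintegral_lintegral_swap hmeas.aemeasurable

end Pool.Agent.H25.Kin
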