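import Pool.Agent.H25.Kin.Bound
import Pool.Agent.H25.Kin.Char

/-!
# Test functions
-/

set_option autoImplicit false

open MeasureTheory Set Filter Topology
open scoped ContDiff

namespace Pool.Agent.H25.Kin

variable {d : ℕ}

lemma Test.mono {φ : Vec d → ℝ} {M N : ℝ} (h : Test φ M) (hMN : M ≤ N) : Test φ N :=
  ⟨h.smooth, fun v => (h.le0 v).trans hMN, fun v => (h.le1 v).trans hMN,
    fun v => (h.le2 v).trans hMN⟩

lemma Test.comp_affine {φ : Vec d → ℝ} {M : ℝ} (h : Test φ M) (a : Vec d) (c : ℝ) :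
    Test (fun v => φ (a + c • v)) (M * (1 + |c|) ^ 2) := by
  have hM := h.nonneg
  have hc := abs_nonneg c
  have haff : ∀ v : Vec d, HasFDerivAt (fun v : Vec d => a + c • v)
      (c • ContinuousLinearMap.id ℝ (Vec d)) v := fun v =>
    ((hasFDerivAt_id v).const_smul c).const_add a
  have e1 : fderiv ℝ (fun v => φ (a + c • v)) = fun v => c • fderiv ℝ φ (a + c • v) := by
    funext v
    have h1 := ((h.smooth.differentiable (by norm_num)) (a + c • v)).hasFDerivAt
    have h2 := h1.comp v (haff v)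
    simp only [Function.comp_def] at h2
    rw [h2.fderiv]
    ext w; simp
  have e2 : ∀ v, ‖fderiv ℝ (fun v => c • fderiv ℝ φ (a + c • v)) v‖ ≤ |c| * (|c| * M) := by
    intro v
    have h1 := (h.diff1 (a + c • v)).hasFDerivAt
    have h2 := (h1.comp v (haff v)).const_smul c
    simp only [Function.comp_def] at h2
    have h3 : fderiv ℝ (fun v => c • fderiv ℝ φ (a + c • v)) v =
        c • ((fderiv ℝ (fderiv ℝ φ) (a + c • v)).comp (c • ContinuousLinearMap.id ℝ (Vec d))) :=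
      h2.fderiv
    rw [h3]
    refine ContinuousLinearMap.opNorm_le_bound _ (by positivity) fun w => ?_
    have h4 : (c • ((fderiv ℝ (fderiv ℝ φ) (a + c • v)).comp
        (c • ContinuousLinearMap.id ℝ (Vec d)))) w =
        c • c • (fderiv ℝ (fderiv ℝ φ) (a + c • v) w) := by
      simp
    rw [h4, norm_smul, norm_smul, Real.norm_eq_abs]
    have h5 := (fderiv ℝ (fderiv ℝ φ) (a + c • v)).le_opNorm w
    have h6 : ‖fderiv ℝ (fderiv ℝ φ) (a + c • v) w‖ ≤ M * ‖w‖ :=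
      h5.trans (mul_le_mul_of_nonneg_right (h.le2 _) (norm_nonneg _))
    calc |c| * (|c| * ‖fderiv ℝ (fderiv ℝ φ) (a + c • v) w‖) ≤ |c| * (|c| * (M * ‖w‖)) := by gcongr
      _ = |c| * (|c| * M) * ‖w‖ := by ring
  refine ⟨?_, ?_, ?_, ?_⟩
  · exact h.smooth.comp (contDiff_const.add (contDiff_id.const_smul c))
  · intro v
    refine (h.le0 _).trans ?_
    nlinarith [mul_nonneg hM hc, mul_nonneg hM (mul_nonneg hc hc)]
  · intro v
    rw [e1]
    simp only [norm_smul, Real.norm_eq_abs]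
    have := mul_le_mul_of_nonneg_left (h.le1 (a + c • v)) hc
    nlinarith [mul_nonneg hM hc, mul_nonneg hM (mul_nonneg hc hc)]
  · intro v
    rw [e1]
    refine (e2 v).trans ?_
    nlinarith [mul_nonneg hM hc, mul_nonneg hM (mul_nonneg hc hc)]

lemma Test.mul {φ χ : Vec d → ℝ} {M N : ℝ} (h : Test φ M) (k : Test χ N) :
    Test (fun v => φ v * χ v) (4 * (M * N)) := by
  have hM := h.nonneg
  have hN := k.nonneg
  have dφ : ∀ v, HasFDerivAt φ (fderiv ℝ φ v) v := fun v =>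
    ((h.smooth.differentiable (by norm_num)) v).hasFDerivAt
  have dχ : ∀ v, HasFDerivAt χ (fderiv ℝ χ v) v := fun v =>
    ((k.smooth.differentiable (by norm_num)) v).hasFDerivAt
  have e1 : fderiv ℝ (fun v => φ v * χ v) = fun v => φ v • fderiv ℝ χ v + χ v • fderiv ℝ φ v := by
    funext v
    exact ((dφ v).mul (dχ v)).fderiv
  have hMN := mul_nonneg hM hN
  refine ⟨h.smooth.mul k.smooth, ?_, ?_, ?_⟩
  · intro v
    rw [abs_mul]
    have := mul_le_mul (h.le0 v) (k.le0 v) (abs_nonneg _) hM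
    linarith
  · intro v
    rw [e1]
    refine (norm_add_le _ _).trans ?_
    rw [norm_smul, norm_smul]
    have a1 := mul_le_mul (h.le0 v) (k.le1 v) (norm_nonneg _) hM
    have a2 := mul_le_mul (k.le0 v) (h.le1 v) (norm_nonneg _) hN
    rw [← Real.norm_eq_abs] at a1 a2
    linarith
  · intro v
    rw [e1]
    have h1 := (dφ v).smul (k.diff1 v).hasFDerivAt
    have h2 := (dχ v).smul (h.diff1 v).hasFDerivAt
    have h3 := (h1.add h2).fderiv
    have h4 : fderiv ℝ (fun v => φ v • fderiv ℝ χ v + χ v • fderiv ℝ φ v) v =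
      φ v • fderiv ℝ (fderiv ℝ χ) v + (fderiv ℝ φ v).smulRight (fderiv ℝ χ v) +
        (χ v • fderiv ℝ (fderiv ℝ φ) v + (fderiv ℝ χ v).smulRight (fderiv ℝ φ v)) := h3
    rw [h4]
    refine ContinuousLinearMap.opNorm_le_bound _ (by positivity) fun w => ?_
    have h5 : (φ v • fderiv ℝ (fderiv ℝ χ) v + (fderiv ℝ φ v).smulRight (fderiv ℝ χ v) +
        (χ v • fderiv ℝ (fderiv ℝ φ) v + (fderiv ℝ χ v).smulRight (fderiv ℝ φ v))) w =
        (φ v • (fderiv ℝ (fderiv ℝ χ) v w) + (fderiv ℝ φ v w) • fderiv ℝ χ v) +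
        (χ v • (fderiv ℝ (fderiv ℝ φ) v w) + (fderiv ℝ χ v w) • fderiv ℝ φ v) := by
      rfl
    rw [h5]
    have hw := norm_nonneg w
    have n1 : ‖φ v • (fderiv ℝ (fderiv ℝ χ) v w)‖ ≤ M * (N * ‖w‖) := by
      rw [norm_smul]
      exact mul_le_mul (h.le0 v) (((fderiv ℝ (fderiv ℝ χ) v).le_opNorm w).trans
        (mul_le_mul_of_nonneg_right (k.le2 v) hw)) (norm_nonneg _) hM
    have n2 : ‖(fderiv ℝ φ v w) • fderiv ℝ χ v‖ ≤ (M * ‖w‖) * N := by
      rw [norm_smul]
      exact mul_le_mul (((fderiv ℝ φ v).le_opNorm w).trans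
        (mul_le_mul_of_nonneg_right (h.le1 v) hw)) (k.le1 v) (norm_nonneg _) (by positivity)
    have n3 : ‖χ v • (fderiv ℝ (fderiv ℝ φ) v w)‖ ≤ N * (M * ‖w‖) := by
      rw [norm_smul]
      exact mul_le_mul (k.le0 v) (((fderiv ℝ (fderiv ℝ φ) v).le_opNorm w).trans
        (mul_le_mul_of_nonneg_right (h.le2 v) hw)) (norm_nonneg _) hN
    have n4 : ‖(fderiv ℝ χ v w) • fderiv ℝ φ v‖ ≤ (N * ‖w‖) * M := by
      rw [norm_smul]
      exact mul_le_mul (((fderiv ℝ χ v).le_opNorm w).trans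
        (mul_le_mul_of_nonneg_right (k.le1 v) hw)) (h.le1 v) (norm_nonneg _) (by positivity)
    refine (norm_add_le _ _).trans ?_
    have b1 := norm_add_le (φ v • (fderiv ℝ (fderiv ℝ χ) v w)) ((fderiv ℝ φ v w) • fderiv ℝ χ v)
    have b2 := norm_add_le (χ v • (fderiv ℝ (fderiv ℝ φ) v w)) ((fderiv ℝ χ v w) • fderiv ℝ φ v)
    linarith

/-- the standard bump: `1` on `‖v‖ ≤ 1`, `0` for `‖v‖ ≥ 2` -/
noncomputable def bp (d : ℕ) : ContDiffBump (0 : Vec d) := ⟨1, 2, one_pos, one_lt_two⟩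

lemma bp_smooth : ContDiff ℝ ∞ (bp d) := (bp d).contDiff

lemma bp_nonneg (v : Vec d) : 0 ≤ bp d v := (bp d).nonneg

lemma bp_le_one (v : Vec d) : bp d v ≤ 1 := (bp d).le_one

lemma bp_one {v : Vec d} (hv : ‖v‖ ≤ 1) : bp d v = 1 :=
  (bp d).one_of_mem_closedBall (by simpa [bp] using hv)

lemma bp_zero {v : Vec d} (hv : 2 ≤ ‖v‖) : bp d v = 0 :=
  (bp d).zero_of_le_dist (by simpa [bp] using hv)

lemma bp_pos_iff {v : Vec d} (hv : bp d v ≠ 0) : ‖v‖ < 2 := by
  by_contra h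
  exact hv (bp_zero (not_lt.1 h))

lemma exists_bp_test (d : ℕ) : ∃ B : ℝ, 1 ≤ B ∧ Test (bp d) B := by
  have hc : HasCompactSupport (bp d) := (bp d).hasCompactSupport
  have hs : ContDiff ℝ 2 (bp d) := (bp d).contDiff
  have h1 : ContDiff ℝ 1 (fderiv ℝ (bp d)) := hs.fderiv_right (m := 1) (by norm_num)
  obtain ⟨B1, hB1⟩ := (h1.continuous).bounded_above_of_compact_support (hc.fderiv ℝ)
  obtain ⟨B2, hB2⟩ := (h1.continuous_fderiv (by norm_num)).bounded_above_of_compact_support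
    ((hc.fderiv ℝ).fderiv ℝ)
  refine ⟨max 1 (max B1 B2), le_max_left _ _, hs, ?_, ?_, ?_⟩
  · intro v
    rw [abs_of_nonneg (bp_nonneg v)]
    exact (bp_le_one v).trans (le_max_left _ _)
  · intro v
    exact (hB1 v).trans ((le_max_left _ _).trans (le_max_right _ _))
  · intro v
    exact (hB2 v).trans ((le_max_right _ _).trans (le_max_right _ _))

end Pool.Agent.H25.Kin
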