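import Pool.Agent.H25.Kin.Data

/-!
# Formation of near vacuum: the core inequality
-/

set_option autoImplicit false

open MeasureTheory Set Filter Topology
open scoped ContDiff

namespace Pool.Agent.H25.Kin

variable {d : ℕ} {T : ℝ} {Q f : ℝ → Vec d → Vec d → ℝ}

/-- the test function, in the variables `(v,x)` -/
noncomputable def fo2 (a t V : ℝ) (q : Vec d × Vec d) : ℝ :=
  bp d ((a * t)⁻¹ • (q.2 + t • q.1)) * bp d (V⁻¹ • q.1)

lemma fo2_cont (a t V : ℝ) : Continuous (fo2 (d := d) a t V) := by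
  unfold fo2
  have := (bp d).continuous
  fun_prop

lemma fo2_nonneg (a t V : ℝ) (q : Vec d × Vec d) : 0 ≤ fo2 a t V q :=
  mul_nonneg (bp_nonneg _) (bp_nonneg _)

lemma fo2_shift (a t V s : ℝ) (v x : Vec d) : fo2 a t V (v, x - s • v) =
    bp d ((a * t)⁻¹ • x + ((t - s) / (a * t)) • v) * bp d (0 + V⁻¹ • v) := by
  unfold fo2
  simp only [zero_add]
  congr 2
  rw [div_eq_inv_mul, mul_smul, ← smul_add]
  congr 1
  rw [sub_smul]
  abel

lemma fo2_supp {a t V s : ℝ} (ha : 0 < a) (ht : 0 < t) (hV : 0 < V) {v x : Vec d}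
    (h : fo2 a t V (v, x - s • v) ≠ 0) : ‖v‖ < 2 * V ∧ ‖x + (t - s) • v‖ < 2 * a * t := by
  have h1 : bp d (V⁻¹ • v) ≠ 0 := fun h0 => h (by unfold fo2; simp only; rw [h0, mul_zero])
  have h2 : bp d ((a * t)⁻¹ • (x - s • v + t • v)) ≠ 0 := fun h0 => h (by
    unfold fo2; simp only; rw [h0, zero_mul])
  have hv := bp_pos_iff h1
  have hx := bp_pos_iff h2
  have hpos : 0 < a * t := mul_pos ha ht
  rw [norm_smul, norm_inv, Real.norm_eq_abs, abs_of_pos hV, inv_mul_lt_iff₀ hV] at hv
  rw [norm_smul, norm_inv, Real.norm_eq_abs, abs_of_pos hpos, inv_mul_lt_iff₀ hpos] at hx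
  have e : x + (t - s) • v = x - s • v + t • v := by rw [sub_smul]; abel
  rw [e]
  exact ⟨by linarith, by linarith⟩

lemma fo2_supp_x {a t V s : ℝ} (ha : 0 < a) (ha1 : a ≤ 1) (ht : 0 < t) (hV : 1 ≤ V)
    (hs : s ∈ Icc 0 t) {v x : Vec d} (h : fo2 a t V (v, x - s • v) ≠ 0) : ‖x‖ ≤ 4 * V * t := by
  obtain ⟨h1, h2⟩ := fo2_supp ha ht (by linarith) h
  have e : x = (x + (t - s) • v) - (t - s) • v := by abel
  have hts : 0 ≤ t - s := sub_nonneg.2 hs.2
  calc ‖x‖ = ‖(x + (t - s) • v) - (t - s) • v‖ := by rw [← e]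
    _ ≤ ‖x + (t - s) • v‖ + ‖(t - s) • v‖ := norm_sub_le _ _
    _ ≤ 2 * a * t + (t - s) * (2 * V) := by
        rw [norm_smul, Real.norm_eq_abs, abs_of_nonneg hts]
        gcongr
    _ ≤ 4 * V * t := by
        have e1 := mul_nonneg (by linarith : 0 ≤ V) hs.1
        have e2 := mul_nonneg (by linarith : 0 ≤ 1 - a) ht.le
        have e3 := mul_nonneg (by linarith : 0 ≤ V - 1) ht.le
        nlinarith

lemma fo2_compact {a t V : ℝ} (ha : 0 < a) (ha1 : a ≤ 1) (ht : 0 < t) (hV : 1 ≤ V) :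
    HasCompactSupport (fo2 (d := d) a t V) := by
  refine HasCompactSupport.intro (isCompact_closedBall (0 : Vec d × Vec d) (2 * V + 4 * V * t))
    fun q hq => ?_
  by_contra h
  apply hq
  obtain ⟨v, x⟩ := q
  have h' : fo2 a t V (v, x - (0 : ℝ) • v) ≠ 0 := by simpa using h
  have h1 := (fo2_supp ha ht (by linarith) h').1
  have h2 := fo2_supp_x ha ha1 ht hV ⟨le_refl _, ht.le⟩ h'
  have h3 : 0 ≤ 4 * V * t := by positivity
  rw [mem_closedBall_zero_iff, Prod.norm_def]
  refine max_le ?_ ?_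
  · simp only; linarith
  · simp only; linarith

lemma fo2_test {B : ℝ} (hB : Test (bp d) B) {a t V s : ℝ} (ha : 0 < a) (ht : 0 < t) (hV : 1 ≤ V)
    (hs : s ∈ Icc 0 t) (x : Vec d) :
    Test (fun v => fo2 a t V (v, x - s • v)) (4 * ((B * (1 + a⁻¹) ^ 2) * (B * 4))) := by
  have e : (fun v => fo2 a t V (v, x - s • v)) = fun v =>
      bp d ((a * t)⁻¹ • x + ((t - s) / (a * t)) • v) * bp d (0 + V⁻¹ • v) := by
    funext v; exact fo2_shift a t V s v x
  have hB0 := hB.nonneg
  rw [e]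
  refine Test.mul ((hB.comp_affine _ _).mono ?_) ((hB.comp_affine _ _).mono ?_)
  · have h1 : |(t - s) / (a * t)| ≤ a⁻¹ := by
      rw [abs_of_nonneg (div_nonneg (sub_nonneg.2 hs.2) (by positivity)), div_le_iff₀ (by positivity)]
      have : a⁻¹ * (a * t) = t := by field_simp
      rw [this]; linarith [hs.1]
    gcongr
  · have h1 : |V⁻¹| ≤ 1 := by
      rw [abs_of_nonneg (inv_nonneg.2 (by linarith))]
      exact inv_le_one_of_one_le₀ hV
    have h2 : (1 + |V⁻¹|) ^ 2 ≤ 4 := by
      have := abs_nonneg V⁻¹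
      nlinarith
    gcongr

lemma integrable_fo2_mul {a t V s : ℝ} (ha : 0 < a) (ha1 : a ≤ 1) (ht : 0 < t) (hV : 1 ≤ V)
    {G : Vec d × Vec d → ℝ} (hG : Continuous G) : Integrable
      (fun q : Vec d × Vec d => fo2 a t V (q.1, q.2 - s • q.1) * G (q.2, q.1))
      (volume.prod volume) := by
  have h1 : Continuous fun q : Vec d × Vec d => fo2 a t V (q.1, q.2 - s • q.1) :=
    (fo2_cont a t V).comp (by fun_prop)
  have h2 : Continuous fun q : Vec d × Vec d => G (q.2, q.1) := hG.comp (by fun_prop)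
  let e : (Vec d × Vec d) ≃ₜ (Vec d × Vec d) :=
      { toFun := fun q => (q.1, q.2 - s • q.1)
        invFun := fun q => (q.1, q.2 + s • q.1)
        left_inv := fun q => by simp
        right_inv := fun q => by simp
        continuous_toFun := by fun_prop
        continuous_invFun := by fun_prop }
  have h3 : HasCompactSupport fun q : Vec d × Vec d => fo2 a t V (q.1, q.2 - s • q.1) :=
    (fo2_compact ha ha1 ht hV).comp_homeomorph e
  exact (h1.mul h2).integrable_of_hasCompactSupport h3.mul_right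

/-- the collision contribution -/
lemma middle2 (hf : IsClassicalSol T Q f) {C₀ : ℝ} (hC₀ : 0 ≤ C₀) (hw : WeakBound T C₀ Q f)
    {B : ℝ} (hB : Test (bp d) B) {a t V s K : ℝ} (ha : 0 < a) (ha1 : a ≤ 1) (ht : 0 < t)
    (hV : 1 ≤ V) (hs : s ∈ Ioo 0 t) (htT : t < T) (hK : ∀ x, ∫ v, f s x v * (1 + nsq v) ≤ K) :
    |∫ q : Vec d × Vec d, fo2 a t V (q.1, q.2 - s • q.1) * Q s q.2 q.1 ∂(volume.prod volume)| ≤
      C₀ * (4 * ((B * (1 + a⁻¹) ^ 2) * (B * 4))) * K ^ 2 * (8 * V * t) ^ d := by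
  have hsT : s ∈ Ioo 0 T := ⟨hs.1, hs.2.trans htT⟩
  have hsT' : s ∈ Ico 0 T := ⟨hs.1.le, hs.2.trans htT⟩
  have hB0 := hB.nonneg
  rw [integral_prod_symm]
  swap
  · exact integrable_fo2_mul (G := fun q => Q s q.1 q.2) ha ha1 ht hV (hf.cont_Q hsT)
  have e : (8 * V * t) ^ d = (2 * (4 * V * t)) ^ d := by congr 1; ring
  rw [e]
  have key : ∀ x v : Vec d, 4 * V * t < ‖x‖ → fo2 a t V (v, x - s • v) = 0 := by
    intro x v hx
    by_contra h0
    have := fo2_supp_x ha ha1 ht hV ⟨hs.1.le, hs.2.le⟩ h0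
    linarith
  refine int_le_ball (by positivity) (fun x => ?_) fun x hx => ?_
  · simp only
    have h1 : HasCompactSupport fun v => fo2 a t V (v, x - s • v) := by
      refine HasCompactSupport.intro (isCompact_closedBall (0 : Vec d) (2 * V)) fun v hv => ?_
      by_contra h0
      apply hv
      have := (fo2_supp ha ht (by linarith) h0).1
      simpa using this.le
    have h2 := hw s hsT x _ _ (fo2_test hB ha ht hV ⟨hs.1.le, hs.2.le⟩ x) h1
    simp_rw [mul_comm (Q s x _)] at h2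
    refine h2.trans ?_
    have h3 : 0 ≤ ∫ v, f s x v * (1 + nsq v) := integral_nonneg fun v =>
      mul_nonneg (hf.nonneg s hsT' x v) (by linarith [sq_nonneg' v])
    have h4 := hK x
    gcongr
  · simp [key x _ hx]

/-- **Formation of near vacuum.** If the initial datum vanishes on the characteristics focusing at the
origin at time `t`, and mass plus energy density stay below `K`, then the mass density is small
somewhere at time `t`. -/
theorem vac_core (hf : IsClassicalSol T Q f) {C₀ : ℝ} (hC₀ : 0 ≤ C₀) (hw : WeakBound T C₀ Q f)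
    {B : ℝ} (hB : Test (bp d) B) {a t V K : ℝ} (ha : 0 < a) (ha1 : a ≤ 1) (ht : 0 < t)
    (hV : 1 ≤ V) (htT : t < T)
    (h0 : ∀ x v : Vec d, ‖x + t • v‖ < 2 * a * t → ‖v‖ < 2 * V → f 0 x v = 0)
    (hK : ∀ s ∈ Ioc 0 t, ∀ x, ∫ v, f s x v * (1 + nsq v) ≤ K) :
    ∃ x, ∫ v, f t x v ≤
      K / V ^ 2 + t * (C₀ * (4 * ((B * (1 + a⁻¹) ^ 2) * (B * 4))) * K ^ 2 * (4 * V / a) ^ d) := by
  obtain ⟨s, hs, hmvt⟩ := hf.testA_mvt (fo2_cont a t V) (fo2_compact ha ha1 ht hV) ht htT
  have htT' : t ∈ Ico 0 T := ⟨ht.le, htT⟩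
  have hV0 : 0 < V := by linarith
  -- the initial value vanishes
  have hI0 : testA f (fo2 (d := d) a t V) 0 = 0 := by
    rw [testA_eq]
    refine integral_eq_zero_of_ae (Eventually.of_forall fun q => ?_)
    obtain ⟨v, x⟩ := q
    simp only [Pi.zero_apply]
    by_cases h1 : fo2 a t V (v, x - (0 : ℝ) • v) = 0
    · rw [h1, zero_mul]
    · obtain ⟨h2, h3⟩ := fo2_supp ha ht hV0 h1
      rw [sub_zero] at h3
      rw [h0 x v h3 h2, mul_zero]
  have h3 := middle2 hf hC₀ hw hB ha ha1 ht hV hs htT (hK s ⟨hs.1, hs.2.le⟩)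
  have hI : testA f (fo2 (d := d) a t V) t ≤
      t * (C₀ * (4 * ((B * (1 + a⁻¹) ^ 2) * (B * 4))) * K ^ 2 * (8 * V * t) ^ d) := by
    have h4 := le_abs_self (∫ q : Vec d × Vec d, fo2 a t V (q.1, q.2 - s • q.1) * Q s q.2 q.1
      ∂(volume.prod volume))
    rw [hI0, sub_zero] at hmvt
    rw [hmvt]
    exact mul_le_mul_of_nonneg_left (h4.trans h3) ht.le
  -- value at the focusing time
  set J : Vec d → ℝ := fun x => ∫ v, fo2 a t V (v, x - t • v) * f t x v with hJ
  have hint := integrable_fo2_mul (s := t) (G := fun q => f t q.1 q.2) ha ha1 ht hV (hf.cont_slice htT')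
  have hJi : Integrable J := hint.integral_prod_right
  have hJ0 : ∀ x, 0 ≤ J x := fun x => integral_nonneg fun v =>
    mul_nonneg (fo2_nonneg _ _ _ _) (hf.nonneg t htT' x v)
  have hIJ : testA f (fo2 (d := d) a t V) t = ∫ x, J x := by
    rw [testA_eq, integral_prod_symm _ hint]
  have hat : 0 < a * t := mul_pos ha ht
  set S := Metric.closedBall (0 : Vec d) (a * t) with hS
  have hSv : (volume : Measure (Vec d)).real S = (2 * (a * t)) ^ d := vol_ball hat.le _
  have hSfin : (volume : Measure (Vec d)) S ≠ ⊤ := (isCompact_closedBall _ _).measure_lt_top.ne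
  have hp : 0 < (2 * (a * t)) ^ d := by positivity
  have hSne : (volume : Measure (Vec d)) S ≠ 0 := by
    intro h0
    rw [Measure.real, h0] at hSv
    simp only [ENNReal.toReal_zero] at hSv
    linarith
  obtain ⟨x, hxS, hx⟩ := exists_le_setAverage hSne hSfin hJi.integrableOn
  refine ⟨x, ?_⟩
  have hKx := hK t ⟨ht, le_refl _⟩ x
  -- lower bound of J
  have hlow : (∫ v, f t x v) - K / V ^ 2 ≤ J x := by
    have i1 := hf.integrable_slice0 htT' x
    have i2 := hf.integrable_slice htT' x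
    have i3 : Integrable (fun v => f t x v - (V ^ 2)⁻¹ * (f t x v * (1 + nsq v))) :=
      i1.sub (i2.const_mul _)
    have hcs : Continuous (f t x) :=
      (hf.cont_slice htT').comp (by fun_prop : Continuous fun v : Vec d => (x, v))
    have i4 : Integrable (fun v => fo2 a t V (v, x - t • v) * f t x v) := by
      have c1 : Continuous fun v : Vec d => fo2 a t V (v, x - t • v) :=
        (fo2_cont a t V).comp (by fun_prop)
      refine i1.mono' (c1.mul hcs).aestronglyMeasurable (Eventually.of_forall fun v => ?_)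
      rw [norm_mul, Real.norm_eq_abs, Real.norm_eq_abs, abs_of_nonneg (fo2_nonneg _ _ _ _),
        abs_of_nonneg (hf.nonneg t htT' x v)]
      refine mul_le_of_le_one_left (hf.nonneg t htT' x v) ?_
      exact mul_le_one₀ (bp_le_one _) (bp_nonneg _) (bp_le_one _)
    have h5 : ∫ v, (f t x v - (V ^ 2)⁻¹ * (f t x v * (1 + nsq v))) ≤ J x := by
      refine integral_mono i3 i4 fun v => ?_
      simp only
      have hfv := hf.nonneg t htT' x v
      have hone : bp d ((a * t)⁻¹ • (x - t • v + t • v)) = 1 := by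
        refine bp_one ?_
        rw [sub_add_cancel, norm_smul, norm_inv, Real.norm_eq_abs, abs_of_pos hat,
          inv_mul_le_iff₀ hat, mul_one]
        simpa [hS] using hxS
      have hb : 1 - (V ^ 2)⁻¹ * (1 + nsq v) ≤ fo2 a t V (v, x - t • v) := by
        unfold fo2
        simp only
        rw [hone, one_mul]
        rcases le_total ‖v‖ V with h | h
        · rw [bp_one (by
            rw [norm_smul, norm_inv, Real.norm_eq_abs, abs_of_pos hV0, inv_mul_le_iff₀ hV0, mul_one]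
            exact h)]
          have : 0 ≤ (V ^ 2)⁻¹ * (1 + nsq v) := by
            have := sq_nonneg' v
            positivity
          linarith
        · have h1 := norm_sq_le_sq v
          have h2 : V ^ 2 ≤ ‖v‖ ^ 2 := pow_le_pow_left₀ hV0.le h 2
          have h6 : 1 ≤ (V ^ 2)⁻¹ * (1 + nsq v) := by
            rw [← div_eq_inv_mul, le_div_iff₀ (by positivity)]
            linarith
          have := bp_nonneg (V⁻¹ • v)
          linarith
      have := mul_le_mul_of_nonneg_right hb hfv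
      linarith
    rw [integral_sub i1 (i2.const_mul _), integral_const_mul] at h5
    have h6 : (V ^ 2)⁻¹ * ∫ v, f t x v * (1 + nsq v) ≤ K / V ^ 2 := by
      rw [div_eq_inv_mul]
      gcongr
    linarith
  have havg : ⨍ x in S, J x ≤
      t * (C₀ * (4 * ((B * (1 + a⁻¹) ^ 2) * (B * 4))) * K ^ 2 * (4 * V / a) ^ d) := by
    rw [setAverage_eq, smul_eq_mul, hSv, inv_mul_le_iff₀ hp]
    have h7 : ∫ x in S, J x ≤ ∫ x, J x := setIntegral_le_integral hJi (Eventually.of_forall hJ0)
    rw [← hIJ] at h7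
    refine (h7.trans hI).trans (le_of_eq ?_)
    have h8 : (8 * V * t) ^ d = (2 * (a * t)) ^ d * (4 * V / a) ^ d := by
      rw [← mul_pow]; congr 1; field_simp; norm_num
    rw [h8]; ring
  linarith

end Pool.Agent.H25.Kin
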