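import Pool.Agent.H25.Kin.Vac
import Pool.Agent.H25.Kin.InflateB
import Pool.Agent.H25.Kin.Below

/-!
# Data vanishing on the focusing characteristics
-/

set_option autoImplicit false

open MeasureTheory Set Filter Topology
open scoped ContDiff Real

namespace Pool.Agent.H25.Kin

variable {d : ℕ}

lemma Sx_sub_le' {u : ℝ} (hu : 0 < u) (hu1 : u ≤ 1 / 8) {x : Vec d} (hx : ‖x‖ ≤ u) :
    ‖Sx x - x‖ ≤ 16 * u ^ 3 := by
  refine (pi_norm_le_iff_of_nonneg (by positivity)).2 fun i => ?_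
  rw [Pi.sub_apply, Real.norm_eq_abs]
  unfold Sx
  have hpi : 0 < π := Real.pi_pos
  have hpi4 : π < 4 := by linarith [Real.pi_lt_d2]
  have hxi : |x i| ≤ u := (norm_le_pi_norm x i).trans hx
  have hy : |2 * π * x i| ≤ 2 * π * u := by
    rw [abs_mul, abs_of_pos (by positivity : 0 < 2 * π)]
    gcongr
  have hy1 : |2 * π * x i| ≤ 1 := hy.trans (by nlinarith)
  have h := abs_sin_sub_le hy1
  have e : Real.sin (2 * π * x i) / (2 * π) - x i = (Real.sin (2 * π * x i) - 2 * π * x i) / (2 * π) := by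
    field_simp
  rw [e, abs_div, abs_of_pos (by positivity : 0 < 2 * π), div_le_iff₀ (by positivity)]
  refine h.trans ?_
  have h3 : |2 * π * x i| ^ 3 ≤ (2 * π * u) ^ 3 := pow_le_pow_left₀ (abs_nonneg _) hy 3
  have h4 : (2 * π * u) ^ 3 / 4 ≤ 16 * u ^ 3 * (2 * π) := by
    have e2 : (2 * π * u) ^ 3 / 4 = (2 * π ^ 2) * (π * u ^ 3) := by ring
    have e3 : 16 * u ^ 3 * (2 * π) = 32 * (π * u ^ 3) := by ring
    rw [e2, e3]
    have : 2 * π ^ 2 ≤ 32 := by nlinarith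
    have h5 : 0 ≤ π * u ^ 3 := by positivity
    nlinarith
  linarith

/-- cut-off near the focusing characteristics with velocities up to `W` -/
noncomputable def bu (W δ t : ℝ) (x v : Vec d) : ℝ :=
  bp d ((W * t)⁻¹ • Sx x) * bp d (δ⁻¹ • (v + t⁻¹ • Sx x))

lemma bu_smooth (W δ t : ℝ) : ContDiff ℝ ∞ (fun q : Vec d × Vec d => bu W δ t q.1 q.2) := by
  unfold bu
  have h1 : ContDiff ℝ ∞ fun q : Vec d × Vec d => t⁻¹ • Sx q.1 :=
    (Sx_smooth.comp contDiff_fst).const_smul _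
  have h2 : ContDiff ℝ ∞ fun q : Vec d × Vec d => (W * t)⁻¹ • Sx q.1 :=
    (Sx_smooth.comp contDiff_fst).const_smul _
  exact (bp_smooth.comp h2).mul (bp_smooth.comp ((contDiff_snd.add h1).const_smul _))

lemma bu_nonneg (W δ t : ℝ) (x v : Vec d) : 0 ≤ bu W δ t x v :=
  mul_nonneg (bp_nonneg _) (bp_nonneg _)

lemma bu_le_one (W δ t : ℝ) (x v : Vec d) : bu W δ t x v ≤ 1 :=
  mul_le_one₀ (bp_le_one _) (bp_nonneg _) (bp_le_one _)

lemma bu_periodic (W δ t : ℝ) (x v : Vec d) (i : Fin d) :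
    bu W δ t (x + Pi.single i 1) v = bu W δ t x v := by
  unfold bu; rw [Sx_periodic]

lemma bu_supp {W δ t : ℝ} (hW : 0 < W) (hδ : 0 < δ) (ht : 0 < t) {x v : Vec d}
    (h : bu W δ t x v ≠ 0) : ‖Sx x‖ < 2 * (W * t) ∧ ‖v + t⁻¹ • Sx x‖ < 2 * δ := by
  have h1 : bp d ((W * t)⁻¹ • Sx x) ≠ 0 := fun h0 => h (by unfold bu; rw [h0, zero_mul])
  have h2 : bp d (δ⁻¹ • (v + t⁻¹ • Sx x)) ≠ 0 := fun h0 => h (by unfold bu; rw [h0, mul_zero])
  have a1 := bp_pos_iff h1
  have a2 := bp_pos_iff h2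
  have hWt : 0 < W * t := mul_pos hW ht
  rw [norm_smul, norm_inv, Real.norm_eq_abs, abs_of_pos hWt, inv_mul_lt_iff₀ hWt] at a1
  rw [norm_smul, norm_inv, Real.norm_eq_abs, abs_of_pos hδ, inv_mul_lt_iff₀ hδ] at a2
  exact ⟨by linarith, by linarith⟩

/-- the cut-off is `1` on the focusing characteristics -/
lemma bu_eq_one {W δ t V : ℝ} (hδ : 0 < δ) (hδ1 : δ ≤ 1) (ht : 0 < t) (hV : 1 ≤ V)
    (hW : W = 3 * V) (hWt : W * t ≤ 1 / 8) (htδ : 16 * W ^ 3 * t ^ 2 ≤ δ / 2) {x v : Vec d}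
    (hx : ‖x + t • v‖ < 2 * (δ / 4) * t) (hv : ‖v‖ < 2 * V) : bu W δ t x v = 1 := by
  have hW0 : 0 < W := by linarith
  have hWt0 : 0 < W * t := mul_pos hW0 ht
  have hxn : ‖x‖ ≤ W * t := by
    have e : x = (x + t • v) - t • v := by abel
    calc ‖x‖ = ‖(x + t • v) - t • v‖ := by rw [← e]
      _ ≤ ‖x + t • v‖ + ‖t • v‖ := norm_sub_le _ _
      _ ≤ 2 * (δ / 4) * t + t * (2 * V) := by
          rw [norm_smul, Real.norm_eq_abs, abs_of_pos ht]
          gcongr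
      _ ≤ W * t := by
          rw [hW]
          have e1 := mul_nonneg (by linarith : 0 ≤ V - 1) ht.le
          have e2 := mul_nonneg (by linarith : 0 ≤ 1 - δ) ht.le
          nlinarith
  unfold bu
  have h1 : ‖(W * t)⁻¹ • Sx x‖ ≤ 1 := by
    rw [norm_smul, norm_inv, Real.norm_eq_abs, abs_of_pos hWt0, inv_mul_le_iff₀ hWt0, mul_one]
    exact Sx_norm_le x hxn
  have h2 : ‖δ⁻¹ • (v + t⁻¹ • Sx x)‖ ≤ 1 := by
    rw [norm_smul, norm_inv, Real.norm_eq_abs, abs_of_pos hδ, inv_mul_le_iff₀ hδ, mul_one]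
    have e : v + t⁻¹ • Sx x = t⁻¹ • (x + t • v) + t⁻¹ • (Sx x - x) := by
      rw [smul_sub, smul_add, smul_smul, inv_mul_cancel₀ ht.ne', one_smul]; abel
    have h3 := Sx_sub_le' hWt0 hWt hxn
    have h4 : ‖t⁻¹ • (Sx x - x)‖ ≤ 16 * W ^ 3 * t ^ 2 := by
      rw [norm_smul, norm_inv, Real.norm_eq_abs, abs_of_pos ht, inv_mul_le_iff₀ ht]
      calc ‖Sx x - x‖ ≤ 16 * (W * t) ^ 3 := h3
        _ = t * (16 * W ^ 3 * t ^ 2) := by ring
    have h5 : ‖t⁻¹ • (x + t • v)‖ ≤ δ / 2 := by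
      rw [norm_smul, norm_inv, Real.norm_eq_abs, abs_of_pos ht, inv_mul_le_iff₀ ht]
      have : 2 * (δ / 4) * t = t * (δ / 2) := by ring
      linarith
    rw [e]
    refine (norm_add_le _ _).trans ?_
    linarith
  rw [bp_one h1, bp_one h2, one_mul]

variable {F : Vec d → Vec d → ℝ}

/-- the removed part -/
noncomputable def rem (F : Vec d → Vec d → ℝ) (W δ t : ℝ) (x v : Vec d) : ℝ := F x v * bu W δ t x v

/-- the datum with the focusing characteristics removed -/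
noncomputable def cutd (F : Vec d → Vec d → ℝ) (W δ t : ℝ) (x v : Vec d) : ℝ :=
  F x v * (1 - bu W δ t x v)

lemma cutd_eq (W δ t : ℝ) (x v : Vec d) : cutd F W δ t x v = F x v - rem F W δ t x v := by
  unfold cutd rem; ring

lemma rem_cont (hF : IsAdmissibleB F) (W δ t : ℝ) (x : Vec d) : Continuous (rem F W δ t x) := by
  unfold rem
  have h : Continuous (fun q : Vec d × Vec d => bu W δ t q.1 q.2) := (bu_smooth W δ t).continuous
  have h2 : Continuous fun v : Vec d => (x, v) := by fun_prop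
  have h3 := h.comp h2
  simp only [Function.comp_def] at h3
  exact (hF.cont x).mul h3

lemma rem_nonneg (hF : IsAdmissibleB F) (W δ t : ℝ) (x v : Vec d) : 0 ≤ rem F W δ t x v :=
  mul_nonneg (hF.nonneg x v) (bu_nonneg _ _ _ _ _)

lemma rem_le (hF : IsAdmissibleB F) (W δ t : ℝ) (x v : Vec d) : rem F W δ t x v ≤ F x v :=
  mul_le_of_le_one_right (hF.nonneg x v) (bu_le_one _ _ _ _ _)

lemma rem_int (hF : IsAdmissibleB F) (W δ t : ℝ) (x : Vec d) : Integrable (rem F W δ t x) := by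
  refine (hF.int x).mono' (rem_cont hF W δ t x).aestronglyMeasurable (Eventually.of_forall fun v => ?_)
  rw [Real.norm_eq_abs, abs_of_nonneg (rem_nonneg hF _ _ _ _ _)]
  exact rem_le hF _ _ _ _ _

lemma int_rem_le (hF : IsAdmissibleB F) {C : ℝ} (hC : ∀ x v, F x v ≤ C) {W δ t : ℝ} (hW : 0 < W)
    (hδ : 0 < δ) (ht : 0 < t) (x : Vec d) : ∫ v, rem F W δ t x v ≤ C * (4 * δ) ^ d := by
  have e : (4 * δ) ^ d = (2 * (2 * δ)) ^ d := by congr 1; ring
  rw [e]
  refine (le_abs_self _).trans (int_le_ball' (G := fun v => rem F W δ t x v) (C := C) (R := 2 * δ)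
    (-(t⁻¹ • Sx x)) (by positivity) (fun v => ?_) fun v hv => ?_)
  · rw [abs_of_nonneg (rem_nonneg hF _ _ _ _ _)]
    exact (rem_le hF _ _ _ _ _).trans (hC x v)
  · have h0 : bu W δ t x v = 0 := by
      by_contra h0
      have := (bu_supp hW hδ ht h0).2
      rw [sub_neg_eq_add] at hv
      linarith
    unfold rem
    rw [h0, mul_zero]

lemma cutd_nonneg (hF : IsAdmissibleB F) (W δ t : ℝ) (x v : Vec d) : 0 ≤ cutd F W δ t x v :=
  mul_nonneg (hF.nonneg x v) (by linarith [bu_le_one W δ t x v])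

lemma cutd_le (hF : IsAdmissibleB F) (W δ t : ℝ) (x v : Vec d) : cutd F W δ t x v ≤ F x v :=
  mul_le_of_le_one_right (hF.nonneg x v) (by linarith [bu_nonneg W δ t x v])

lemma cutd_mass (hF : IsAdmissibleB F) {C : ℝ} (hC : ∀ x v, F x v ≤ C) {W δ t : ℝ} (hW : 0 < W)
    (hδ : 0 < δ) (ht : 0 < t) (x : Vec d) :
    (∫ v, F x v) - C * (4 * δ) ^ d ≤ ∫ v, cutd F W δ t x v := by
  simp_rw [cutd_eq]
  rw [integral_sub (hF.int x) (rem_int hF W δ t x)]
  linarith [int_rem_le hF hC hW hδ ht x]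

/-- the new datum is admissible -/
lemma cutd_admissible (hF : IsAdmissibleB F) {C m : ℝ} (hC : ∀ x v, F x v ≤ C) (hm : 0 < m)
    (hmF : ∀ x, m ≤ ∫ v, F x v) {W δ t : ℝ} (hW : 0 < W)
    (hδ : 0 < δ) (ht : 0 < t) (hsm : C * (4 * δ) ^ d ≤ m / 2) : IsAdmissibleB (cutd F W δ t) := by
  refine ⟨?_, cutd_nonneg hF W δ t, ?_, ?_, ?_⟩
  · unfold cutd
    exact hF.smooth.mul (contDiff_const.sub (bu_smooth W δ t))
  · intro x v i
    unfold cutd
    rw [hF.periodic, bu_periodic]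
  · intro N
    obtain ⟨A, hA⟩ := hF.decay N
    refine ⟨A, fun x v => le_trans ?_ (hA x v)⟩
    exact mul_le_mul_of_nonneg_left (cutd_le hF W δ t x v) (pow_nonneg (w_pos v).le N)
  · exact ⟨m / 2, by linarith, fun x => by linarith [cutd_mass hF hC hW hδ ht x, hmF x]⟩

lemma cutd_entropy {C m : ℝ} (hF : IsAdmissibleB F) (hC : ∀ x v, F x v ≤ C) {W δ t : ℝ} (hW : 0 < W)
    (hδ : 0 < δ) (ht : 0 < t) (hA : IsAdmissibleB (cutd F W δ t)) (x : Vec d) :
    |(∫ v, cutd F W δ t x v * Real.log (cutd F W δ t x v)) -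
      ∫ v, F x v * Real.log (F x v)| ≤ (2 * (2 * Real.sqrt C + C ^ 2)) * (4 * δ) ^ d := by
  rw [← integral_sub (hA.int_log x) (hF.int_log x)]
  have e : (4 * δ) ^ d = (2 * (2 * δ)) ^ d := by congr 1; ring
  rw [e]
  have bd : ∀ s, 0 ≤ s → s ≤ C → |s * Real.log s| ≤ 2 * Real.sqrt C + C ^ 2 := by
    intro s h0 h1
    refine (abs_mul_log_le h0).trans ?_
    have := Real.sqrt_le_sqrt h1
    have h2 := pow_le_pow_left₀ h0 h1 2
    linarith
  refine int_le_ball' (-(t⁻¹ • Sx x)) (by positivity) (fun v => ?_) fun v hv => ?_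
  · refine (abs_sub _ _).trans ?_
    have h1 := bd (cutd F W δ t x v) (hA.nonneg x v) ((cutd_le hF W δ t x v).trans (hC x v))
    have h2 := bd (F x v) (hF.nonneg x v) (hC x v)
    linarith
  · have h0 : bu W δ t x v = 0 := by
      by_contra h0
      have := (bu_supp hW hδ ht h0).2
      rw [sub_neg_eq_add] at hv
      linarith
    unfold cutd
    rw [h0, sub_zero, mul_one, sub_self]

lemma cutd_hydro (hF : IsAdmissibleB F) {C : ℝ} (hC : ∀ x v, F x v ≤ C) {W δ t ε : ℝ} (hW : 0 < W)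
    (hδ : 0 < δ) (ht : 0 < t) (hA : IsAdmissibleB (cutd F W δ t))
    (h1 : C * (4 * δ) ^ d ≤ ε) (h3 : (2 * (2 * Real.sqrt C + C ^ 2)) * (4 * δ) ^ d ≤ ε)
    {m M E H : ℝ} {x : Vec d} (hx : HydroBounds m M E H (F x)) :
    HydroBounds (m - ε) M E (H + ε) (cutd F W δ t x) := by
  obtain ⟨a1, a2, a3, a4⟩ := hx
  refine ⟨?_, ?_, ?_, ?_⟩
  · have := cutd_mass hF hC hW hδ ht x
    linarith
  · exact (integral_mono (hA.int x) (hF.int x) fun v => cutd_le hF W δ t x v).trans a2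
  · refine (integral_mono (hA.int_sq x) (hF.int_sq x) fun v => ?_).trans a3
    exact mul_le_mul_of_nonneg_right (cutd_le hF W δ t x v) (sq_nonneg' v)
  · have := cutd_entropy (m := m) hF hC hW hδ ht hA x
    have h5 := le_abs_self ((∫ v, cutd F W δ t x v * Real.log (cutd F W δ t x v)) -
      ∫ v, F x v * Real.log (F x v))
    linarith

/-- weighted `L^p` smallness -/
lemma cutd_Lp (hF : IsAdmissibleB F) {C A : ℝ} (hC1 : 1 ≤ C) (hC : ∀ x v, F x v ≤ C) {N : ℕ}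
    (hA : ∀ x v, (1 + ‖v‖) ^ N * F x v ≤ A) {W δ t : ℝ} (hW : 0 < W)
    (hδ : 0 < δ) (ht : 0 < t) {p : ℝ} (hp : p ∈ Icc (1 : ℝ) N) (x : Vec d) :
    ∫ v, (1 + ‖v‖) ^ N * |cutd F W δ t x v - F x v| ^ p ≤ A * C ^ N * (4 * δ) ^ d := by
  have e : (4 * δ) ^ d = (2 * (2 * δ)) ^ d := by congr 1; ring
  have ev : ∀ v, |cutd F W δ t x v - F x v| = rem F W δ t x v := by
    intro v
    rw [cutd_eq, sub_sub_cancel_left, abs_neg, abs_of_nonneg (rem_nonneg hF _ _ _ _ _)]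
  simp_rw [ev]
  have hA0 : 0 ≤ A := le_trans (mul_nonneg (pow_nonneg (w_pos 0).le _) (hF.nonneg x 0)) (hA x 0)
  rw [e]
  refine (le_abs_self _).trans (int_le_ball'
    (G := fun v => (1 + ‖v‖) ^ N * rem F W δ t x v ^ p) (C := A * C ^ N) (R := 2 * δ)
    (-(t⁻¹ • Sx x)) (by positivity) (fun v => ?_) fun v hv => ?_)
  · have hw := w_pos v
    have hr := rem_nonneg hF W δ t x v
    rw [abs_of_nonneg (mul_nonneg (pow_nonneg hw.le _) (Real.rpow_nonneg hr _))]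
    rcases hr.eq_or_lt with h0 | h0
    · rw [← h0, Real.zero_rpow (by linarith [hp.1]), mul_zero]
      positivity
    · have h1 : rem F W δ t x v ^ p = rem F W δ t x v * rem F W δ t x v ^ (p - 1) := by
        rw [mul_comm, ← Real.rpow_add_one h0.ne']; congr 1; ring
      have h2 : rem F W δ t x v ^ (p - 1) ≤ C ^ N := by
        calc rem F W δ t x v ^ (p - 1) ≤ C ^ (p - 1) :=
              Real.rpow_le_rpow hr ((rem_le hF _ _ _ _ _).trans (hC x v)) (by linarith [hp.1])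
          _ ≤ C ^ (N : ℝ) := Real.rpow_le_rpow_of_exponent_le hC1 (by linarith [hp.2])
          _ = C ^ N := Real.rpow_natCast _ _
      rw [h1, ← mul_assoc]
      refine mul_le_mul ?_ h2 (Real.rpow_nonneg hr _) hA0
      exact (mul_le_mul_of_nonneg_left (rem_le hF _ _ _ _ _) (pow_nonneg hw.le _)).trans (hA x v)
  · have h0 : bu W δ t x v = 0 := by
      by_contra h0
      have := (bu_supp hW hδ ht h0).2
      rw [sub_neg_eq_add] at hv
      linarith
    unfold rem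
    rw [h0, mul_zero, Real.zero_rpow (by linarith [hp.1]), mul_zero]

end Pool.Agent.H25.Kin
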