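import Pool.Agent.H25.Kin.VacData

/-!
# `W^{1,r}` smallness of the removed part, `r < d`
-/

set_option autoImplicit false

open MeasureTheory Set Filter Topology
open scoped ContDiff Real

namespace Pool.Agent.H25.Kin

variable {d : ℕ} {F : Vec d → Vec d → ℝ}

lemma bu_lip {B : ℝ} (hB : Test (bp d) B) {W δ t : ℝ} (hW : 1 ≤ W) (hδ : 0 < δ) (hδ1 : δ ≤ 1)
    (ht : 0 < t) (ht1 : t ≤ 1) (q q' : Vec d × Vec d) :
    |bu W δ t q.1 q.2 - bu W δ t q'.1 q'.2| ≤ 3 * B * (δ⁻¹ * t⁻¹) * ‖q - q'‖ := by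
  have hB0 := hB.nonneg
  have hW0 : 0 < W := by linarith
  have e1 : 1 ≤ δ⁻¹ := (one_le_inv₀ hδ).2 hδ1
  have e2 : 1 ≤ t⁻¹ := (one_le_inv₀ ht).2 ht1
  have hti : 0 < t⁻¹ := inv_pos.2 ht
  have hδi : 0 < δ⁻¹ := inv_pos.2 hδ
  have hWt : 0 < (W * t)⁻¹ := inv_pos.2 (mul_pos hW0 ht)
  have hWt1 : (W * t)⁻¹ ≤ t⁻¹ := inv_anti₀ ht (by nlinarith)
  have hx : ‖q.1 - q'.1‖ ≤ ‖q - q'‖ := norm_fst_le (q - q')
  have hv : ‖q.2 - q'.2‖ ≤ ‖q - q'‖ := norm_snd_le (q - q')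
  have hS := (Sx_lip q.1 q'.1).trans hx
  have hn := norm_nonneg (q - q')
  have nu : ‖t⁻¹ • Sx q.1 - t⁻¹ • Sx q'.1‖ ≤ t⁻¹ * ‖q - q'‖ := by
    rw [← smul_sub, norm_smul, Real.norm_eq_abs, abs_of_pos hti]
    gcongr
  have nu' : ‖(W * t)⁻¹ • Sx q.1 - (W * t)⁻¹ • Sx q'.1‖ ≤ t⁻¹ * ‖q - q'‖ := by
    rw [← smul_sub, norm_smul, Real.norm_eq_abs, abs_of_pos hWt]
    gcongr
  have nw : ‖δ⁻¹ • (q.2 + t⁻¹ • Sx q.1) - δ⁻¹ • (q'.2 + t⁻¹ • Sx q'.1)‖ ≤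
      δ⁻¹ * (‖q - q'‖ + t⁻¹ * ‖q - q'‖) := by
    rw [← smul_sub, norm_smul, Real.norm_eq_abs, abs_of_pos hδi]
    have e : q.2 + t⁻¹ • Sx q.1 - (q'.2 + t⁻¹ • Sx q'.1) =
        (q.2 - q'.2) + (t⁻¹ • Sx q.1 - t⁻¹ • Sx q'.1) := by abel
    rw [e]
    refine mul_le_mul_of_nonneg_left ?_ hδi.le
    exact (norm_add_le _ _).trans (add_le_add hv nu)
  have h1 := (bp_lip hB ((W * t)⁻¹ • Sx q.1) ((W * t)⁻¹ • Sx q'.1)).trans
    (mul_le_mul_of_nonneg_left nu' hB0)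
  have h2 := (bp_lip hB (δ⁻¹ • (q.2 + t⁻¹ • Sx q.1)) (δ⁻¹ • (q'.2 + t⁻¹ • Sx q'.1))).trans
    (mul_le_mul_of_nonneg_left nw hB0)
  unfold bu
  set a := bp d ((W * t)⁻¹ • Sx q.1)
  set a' := bp d ((W * t)⁻¹ • Sx q'.1)
  set b := bp d (δ⁻¹ • (q.2 + t⁻¹ • Sx q.1))
  set b' := bp d (δ⁻¹ • (q'.2 + t⁻¹ • Sx q'.1))
  have ha0 : 0 ≤ a' := bp_nonneg _
  have ha1 : a' ≤ 1 := bp_le_one _
  have hb0 : 0 ≤ b := bp_nonneg _
  have hb1 : b ≤ 1 := bp_le_one _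
  have e3 : a * b - a' * b' = (a - a') * b + a' * (b - b') := by ring
  rw [e3]
  have h3 : |(a - a') * b + a' * (b - b')| ≤ |a - a'| + |b - b'| := by
    refine (abs_add_le _ _).trans ?_
    rw [abs_mul, abs_mul, abs_of_nonneg hb0, abs_of_nonneg ha0]
    have := abs_nonneg (a - a')
    have := abs_nonneg (b - b')
    nlinarith
  refine h3.trans ((add_le_add h1 h2).trans ?_)
  have a1 : t⁻¹ ≤ δ⁻¹ * t⁻¹ := by nlinarith
  have a2 : δ⁻¹ ≤ δ⁻¹ * t⁻¹ := by nlinarith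
  have e4 : B * (t⁻¹ * ‖q - q'‖) + B * (δ⁻¹ * (‖q - q'‖ + t⁻¹ * ‖q - q'‖)) =
      B * (t⁻¹ + δ⁻¹ + δ⁻¹ * t⁻¹) * ‖q - q'‖ := by ring
  have e5 : 3 * B * (δ⁻¹ * t⁻¹) * ‖q - q'‖ = B * (3 * (δ⁻¹ * t⁻¹)) * ‖q - q'‖ := by ring
  rw [e4, e5]
  have a3 : t⁻¹ + δ⁻¹ + δ⁻¹ * t⁻¹ ≤ 3 * (δ⁻¹ * t⁻¹) := by linarith
  gcongr

/-- the closed set carrying the removed part -/
def Zw (W δ t : ℝ) : Set (Vec d × Vec d) :=
  {q | ‖Sx q.1‖ ≤ 2 * (W * t) ∧ ‖q.2 + t⁻¹ • Sx q.1‖ ≤ 2 * δ}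

lemma isClosed_Zw (W δ t : ℝ) : IsClosed (Zw (d := d) W δ t) := by
  have hS := Sx_cont (d := d)
  have c1 : Continuous fun q : Vec d × Vec d => ‖Sx q.1‖ := by fun_prop
  have c2 : Continuous fun q : Vec d × Vec d => ‖q.2 + t⁻¹ • Sx q.1‖ := by fun_prop
  exact (isClosed_le c1 continuous_const).inter (isClosed_le c2 continuous_const)

lemma Zw_norm {W δ t : ℝ} (hW : 1 ≤ W) (hδ1 : δ ≤ 1) (ht : 0 < t) {x v : Vec d}
    (h : (x, v) ∈ Zw (d := d) W δ t) : ‖v‖ ≤ 4 * W := by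
  have e : v = (v + t⁻¹ • Sx x) - t⁻¹ • Sx x := by abel
  calc ‖v‖ = ‖(v + t⁻¹ • Sx x) - t⁻¹ • Sx x‖ := by rw [← e]
    _ ≤ ‖v + t⁻¹ • Sx x‖ + ‖t⁻¹ • Sx x‖ := norm_sub_le _ _
    _ ≤ 2 * W + 2 * W := by
        refine add_le_add (h.2.trans (by linarith)) ?_
        rw [norm_smul, norm_inv, Real.norm_eq_abs, abs_of_pos ht, inv_mul_le_iff₀ ht]
        have := h.1
        simp only at this
        linarith
    _ = 4 * W := by ring

lemma fderiv_rem_zero {W δ t : ℝ} (hW : 0 < W) (hδ : 0 < δ) (ht : 0 < t) {q : Vec d × Vec d}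
    (hq : q ∉ Zw (d := d) W δ t) :
    fderiv ℝ (fun q : Vec d × Vec d => rem F W δ t q.1 q.2) q = 0 := by
  have h1 : tsupport (fun q : Vec d × Vec d => rem F W δ t q.1 q.2) ⊆ Zw (d := d) W δ t := by
    refine closure_minimal ?_ (isClosed_Zw W δ t)
    intro q hq
    have h2 : bu W δ t q.1 q.2 ≠ 0 := fun h0 => hq (by unfold rem; simp only; rw [h0, mul_zero])
    have h3 := bu_supp hW hδ ht h2
    exact ⟨h3.1.le, h3.2.le⟩
  have h2 := support_fderiv_subset ℝ (f := fun q : Vec d × Vec d => rem F W δ t q.1 q.2)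
  by_contra h0
  exact hq (h1 (h2 h0))

/-- local bound for the derivative of the datum -/
lemma exists_dbound (hF : IsAdmissibleB F) (R : ℝ) : ∃ C₁, 0 ≤ C₁ ∧
    ∀ x ∈ Icc (0 : Vec d) 1, ∀ v : Vec d, ‖v‖ ≤ R →
      ‖fderiv ℝ (fun q : Vec d × Vec d => F q.1 q.2) (x, v)‖ ≤ C₁ := by
  have hc : Continuous (fderiv ℝ (fun q : Vec d × Vec d => F q.1 q.2)) :=
    hF.smooth.continuous_fderiv (by simp)
  have hK : IsCompact (Icc (0 : Vec d) 1 ×ˢ Metric.closedBall (0 : Vec d) R) :=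
    isCompact_Icc.prod (isCompact_closedBall _ _)
  obtain ⟨C₁, hC₁⟩ := hK.exists_bound_of_continuousOn hc.continuousOn
  refine ⟨|C₁|, abs_nonneg _, fun x hx v hv => ?_⟩
  exact (hC₁ (x, v) ⟨hx, by simpa using hv⟩).trans (le_abs_self _)

/-- `W^{1,r}` smallness, `r < d` -/
lemma cutd_sobolev (hF : IsAdmissibleB F) {B C C₁ : ℝ} (hB1 : 1 ≤ B) (hB : Test (bp d) B)
    (hC1 : 1 ≤ C) (hC : ∀ x v, F x v ≤ C) {W δ t : ℝ} (hW : 1 ≤ W) (hC₁ : 0 ≤ C₁)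
    (hC₁' : ∀ x ∈ Icc (0 : Vec d) 1, ∀ v : Vec d, ‖v‖ ≤ 4 * W →
      ‖fderiv ℝ (fun q : Vec d × Vec d => F q.1 q.2) (x, v)‖ ≤ C₁) (hδ : 0 < δ)
    (hδ1 : δ ≤ 1) (ht : 0 < t) (ht1 : t ≤ 1) (N : ℕ) {r : ℕ} (hr1 : 1 ≤ r) (hr : r < d) :
    ∫ x in Icc (0 : Vec d) 1, ∫ v, (1 + ‖v‖) ^ N *
      ‖fderiv ℝ (fun q : Vec d × Vec d => cutd F W δ t q.1 q.2 - F q.1 q.2) (x, v)‖ ^ r ≤
      ((1 + 4 * W) ^ N * (4 * δ) ^ d * (24 * W) ^ d * ((3 * C * B + C₁) * δ⁻¹) ^ d) * t := by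
  have hW0 : 0 < W := by linarith
  set G : Vec d × Vec d → ℝ := fun q => rem F W δ t q.1 q.2 with hG
  have hGf : ∀ q, ‖fderiv ℝ (fun q : Vec d × Vec d => cutd F W δ t q.1 q.2 - F q.1 q.2) q‖ =
      ‖fderiv ℝ G q‖ := by
    intro q
    have e : (fun q : Vec d × Vec d => cutd F W δ t q.1 q.2 - F q.1 q.2) = fun q => -G q := by
      funext q
      rw [cutd_eq, hG]; ring
    rw [e, fderiv_fun_neg, norm_neg]
  simp_rw [hGf]
  have hti : 0 < t⁻¹ := inv_pos.2 ht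
  have hδi : 0 < δ⁻¹ := inv_pos.2 hδ
  have hδi1 : 1 ≤ δ⁻¹ := (one_le_inv₀ hδ).2 hδ1
  have hti1 : 1 ≤ t⁻¹ := (one_le_inv₀ ht).2 ht1
  have hbu : ∀ q : Vec d × Vec d, ‖fderiv ℝ (fun q : Vec d × Vec d => bu W δ t q.1 q.2) q‖ ≤
      3 * B * (δ⁻¹ * t⁻¹) := by
    intro q
    have hL0 : 0 ≤ 3 * B * (δ⁻¹ * t⁻¹) := by positivity
    have hlip : LipschitzWith (Real.toNNReal (3 * B * (δ⁻¹ * t⁻¹)))
        (fun q : Vec d × Vec d => bu W δ t q.1 q.2) := by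
      refine LipschitzWith.of_dist_le_mul fun p p' => ?_
      rw [Real.dist_eq, dist_eq_norm, Real.coe_toNNReal _ hL0]
      exact bu_lip hB hW hδ hδ1 ht ht1 p p'
    have := norm_fderiv_le_of_lipschitz ℝ hlip (x₀ := q)
    rwa [Real.coe_toNNReal _ hL0] at this
  set L := (3 * C * B + C₁) * (δ⁻¹ * t⁻¹) with hL
  have hL0 : 0 ≤ L := by positivity
  have hGd : ∀ x ∈ Icc (0 : Vec d) 1, ∀ v : Vec d, ‖v‖ ≤ 4 * W → ‖fderiv ℝ G (x, v)‖ ≤ L := by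
    intro x hx v hv
    have d1 : HasFDerivAt (fun q : Vec d × Vec d => F q.1 q.2)
        (fderiv ℝ (fun q : Vec d × Vec d => F q.1 q.2) (x, v)) (x, v) :=
      ((hF.smooth.differentiable (by simp)) (x, v)).hasFDerivAt
    have d2 : HasFDerivAt (fun q : Vec d × Vec d => bu W δ t q.1 q.2)
        (fderiv ℝ (fun q : Vec d × Vec d => bu W δ t q.1 q.2) (x, v)) (x, v) :=
      (((bu_smooth W δ t).differentiable (by simp)) (x, v)).hasFDerivAt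
    have d3 := (d1.mul d2).fderiv
    have d4 : fderiv ℝ G (x, v) =
        F x v • fderiv ℝ (fun q : Vec d × Vec d => bu W δ t q.1 q.2) (x, v) +
          bu W δ t x v • fderiv ℝ (fun q : Vec d × Vec d => F q.1 q.2) (x, v) := d3
    rw [d4]
    refine (norm_add_le _ _).trans ?_
    rw [norm_smul, norm_smul, Real.norm_eq_abs, Real.norm_eq_abs, abs_of_nonneg (hF.nonneg x v),
      abs_of_nonneg (bu_nonneg _ _ _ _ _)]
    have a1 : F x v * ‖fderiv ℝ (fun q : Vec d × Vec d => bu W δ t q.1 q.2) (x, v)‖ ≤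
        C * (3 * B * (δ⁻¹ * t⁻¹)) :=
      mul_le_mul (hC x v) (hbu _) (norm_nonneg _) (by linarith)
    have a2 : bu W δ t x v * ‖fderiv ℝ (fun q : Vec d × Vec d => F q.1 q.2) (x, v)‖ ≤ 1 * C₁ :=
      mul_le_mul (bu_le_one _ _ _ _ _) (hC₁' x hx v hv) (norm_nonneg _) zero_le_one
    have a3 : C₁ ≤ C₁ * (δ⁻¹ * t⁻¹) :=
      le_mul_of_one_le_right hC₁ (one_le_mul_of_one_le_of_one_le hδi1 hti1)
    rw [hL]
    linarith
  have hr0 : r ≠ 0 := by omega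
  -- inner integral
  have inner : ∀ x ∈ Icc (0 : Vec d) 1, ‖∫ v, (1 + ‖v‖) ^ N * ‖fderiv ℝ G (x, v)‖ ^ r‖ ≤
      ({x : Vec d | ‖Sx x‖ ≤ 2 * (W * t)}).indicator
        (fun _ => (1 + 4 * W) ^ N * L ^ r * (4 * δ) ^ d) x := by
    intro x hxD
    by_cases hx : ‖Sx x‖ ≤ 2 * (W * t)
    · rw [indicator_of_mem (by exact hx)]
      have e : (4 * δ) ^ d = (2 * (2 * δ)) ^ d := by congr 1; ring
      rw [e, Real.norm_eq_abs]
      refine int_le_ball' (G := fun v => (1 + ‖v‖) ^ N * ‖fderiv ℝ G (x, v)‖ ^ r)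
        (C := (1 + 4 * W) ^ N * L ^ r) (R := 2 * δ) (-(t⁻¹ • Sx x)) (by positivity) (fun v => ?_)
        fun v hv => ?_
      · have hw := w_pos v
        rw [abs_of_nonneg (by positivity)]
        by_cases h0 : (x, v) ∈ Zw (d := d) W δ t
        · have h1 := Zw_norm hW hδ1 ht h0
          have h4 : (1 + ‖v‖) ^ N ≤ (1 + 4 * W) ^ N := pow_le_pow_left₀ hw.le (by linarith) N
          have h5 : ‖fderiv ℝ G (x, v)‖ ^ r ≤ L ^ r :=
            pow_le_pow_left₀ (norm_nonneg _) (hGd x hxD v h1) r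
          exact mul_le_mul h4 h5 (by positivity) (by positivity)
        · rw [hG, fderiv_rem_zero hW0 hδ ht h0, norm_zero, zero_pow hr0, mul_zero]
          positivity
      · have h0 : (x, v) ∉ Zw (d := d) W δ t := by
          intro h0
          have h1 := h0.2
          simp only at h1
          rw [sub_neg_eq_add] at hv
          linarith
        rw [hG, fderiv_rem_zero hW0 hδ ht h0, norm_zero, zero_pow hr0, mul_zero]
    · rw [indicator_of_notMem (by exact hx)]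
      have : ∀ v, (1 + ‖v‖) ^ N * ‖fderiv ℝ G (x, v)‖ ^ r = 0 := by
        intro v
        have h0 : (x, v) ∉ Zw (d := d) W δ t := fun h0 => hx h0.1
        rw [hG, fderiv_rem_zero hW0 hδ ht h0, norm_zero, zero_pow hr0, mul_zero]
      simp [this]
  have hSm : MeasurableSet {x : Vec d | ‖Sx x‖ ≤ 2 * (W * t)} :=
    (isClosed_le (Sx_cont.norm) continuous_const).measurableSet
  have hint : Integrable (({x : Vec d | ‖Sx x‖ ≤ 2 * (W * t)}).indicator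
      (fun _ => (1 + 4 * W) ^ N * L ^ r * (4 * δ) ^ d)) (volume.restrict (Icc (0 : Vec d) 1)) := by
    have : IsFiniteMeasure (volume.restrict (Icc (0 : Vec d) 1)) :=
      ⟨by rw [Measure.restrict_apply_univ]; exact isCompact_Icc.measure_lt_top⟩
    exact (integrable_const _).indicator hSm
  have h1 := norm_integral_le_of_norm_le (μ := volume.restrict (Icc (0 : Vec d) 1))
    (f := fun x => ∫ v, (1 + ‖v‖) ^ N * ‖fderiv ℝ G (x, v)‖ ^ r) hint (by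
      filter_upwards [ae_restrict_mem measurableSet_Icc] with x hx
      exact inner x hx)
  rw [integral_indicator hSm, Measure.restrict_restrict hSm, setIntegral_const, smul_eq_mul] at h1
  refine (le_abs_self _).trans (h1.trans ?_)
  have h2 := zero_set (d := d) (mul_pos hW0 ht)
  have e1 : {x : Vec d | ‖Sx x‖ ≤ 2 * (W * t)} ∩ Icc (0 : Vec d) 1 =
      {x : Vec d | x ∈ Icc (0 : Vec d) 1 ∧ ‖Sx x‖ ≤ 2 * (W * t)} := by
    ext x; exact and_comm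
  rw [e1]
  calc (volume : Measure (Vec d)).real {x : Vec d | x ∈ Icc (0 : Vec d) 1 ∧ ‖Sx x‖ ≤ 2 * (W * t)} *
        ((1 + 4 * W) ^ N * L ^ r * (4 * δ) ^ d)
      ≤ (24 * (W * t)) ^ d * ((1 + 4 * W) ^ N * L ^ r * (4 * δ) ^ d) := by gcongr
    _ = ((1 + 4 * W) ^ N * (4 * δ) ^ d * (24 * W) ^ d) * (L ^ r * t ^ d) := by
        rw [mul_pow 24 (W * t) d, mul_pow W t d, mul_pow 24 W d]; ring
    _ ≤ ((1 + 4 * W) ^ N * (4 * δ) ^ d * (24 * W) ^ d) * (((3 * C * B + C₁) * δ⁻¹) ^ d * t) := by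
        refine mul_le_mul_of_nonneg_left ?_ (by positivity)
        have e2 : L = ((3 * C * B + C₁) * δ⁻¹) * t⁻¹ := by rw [hL]; ring
        have e3 : t ^ d = t ^ r * t ^ (d - r) := by rw [← pow_add]; congr 1; omega
        have h5 : 1 ≤ (3 * C * B + C₁) * δ⁻¹ := by
          have : 1 ≤ C * B := one_le_mul_of_one_le_of_one_le hC1 hB1
          exact one_le_mul_of_one_le_of_one_le (by linarith) hδi1
        have h6 : ((3 * C * B + C₁) * δ⁻¹) ^ r ≤ ((3 * C * B + C₁) * δ⁻¹) ^ d :=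
          pow_le_pow_right₀ h5 hr.le
        have h7 : t ^ (d - r) ≤ t := by
          calc t ^ (d - r) ≤ t ^ 1 := pow_le_pow_of_le_one ht.le ht1 (by omega)
            _ = t := pow_one t
        calc L ^ r * t ^ d = ((3 * C * B + C₁) * δ⁻¹) ^ r * ((t⁻¹) ^ r * t ^ r) * t ^ (d - r) := by
              rw [e2, e3, mul_pow]; ring
          _ = ((3 * C * B + C₁) * δ⁻¹) ^ r * t ^ (d - r) := by
              rw [← mul_pow, inv_mul_cancel₀ ht.ne', one_pow, mul_one]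
          _ ≤ ((3 * C * B + C₁) * δ⁻¹) ^ d * t := by gcongr
    _ = ((1 + 4 * W) ^ N * (4 * δ) ^ d * (24 * W) ^ d * ((3 * C * B + C₁) * δ⁻¹) ^ d) * t := by ring

end Pool.Agent.H25.Kin
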