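import Pool.Agent.H25.Kin.VacSob

/-!
# Loss of the lower mass bound: abstract form
-/

set_option autoImplicit false

open MeasureTheory Set Filter Topology
open scoped ContDiff Real

namespace Pool.Agent.H25.Kin

/-- **Abstract theorem** for collision terms satisfying the weak bound. -/
theorem vacuum {d : ℕ} (hd : 1 ≤ d) {F₀ : Vec d → Vec d → ℝ}
    (hF : IsAdmissibleB F₀) {C₀ : ℝ} (hC₀ : 0 ≤ C₀) (K : ℝ) {κ ε τ : ℝ} (hκ : 0 < κ) (hε : 0 < ε)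
    (hτ : 0 < τ) (N : ℕ) : ∃ t ∈ Ioo 0 τ, ∃ f₀ : Vec d → Vec d → ℝ, IsAdmissibleB f₀ ∧
      IsBelow F₀ f₀ ε N ∧
      ∀ T > t, ∀ Q f, IsClassicalSol T Q f → WeakBound T C₀ Q f → f 0 = f₀ →
        (∃ u ∈ Ioc 0 t, ∃ x, K < ∫ v, f u x v * (1 + nsq v)) ∨ ∃ x, ∫ v, f t x v < κ := by
  obtain ⟨B, hB1, hB⟩ := exists_bp_test d
  obtain ⟨C', hC0', hC'⟩ := hF.bdd
  obtain ⟨m, hm, hmF⟩ := hF.mass_pos
  obtain ⟨A, hA⟩ := hF.decay N
  have hA0 : 0 ≤ A := le_trans (mul_nonneg (pow_nonneg (w_pos 0).le _) (hF.nonneg 0 0)) (hA 0 0)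
  set C : ℝ := max C' 1 with hCd
  have hC1 : 1 ≤ C := le_max_right _ _
  have hC : ∀ x v, F₀ x v ≤ C := fun x v => (hC' x v).trans (le_max_left _ _)
  set K' : ℝ := max K 0 with hK'
  have hK0 : 0 ≤ K' := le_max_right _ _
  set V : ℝ := 1 + 4 * K' / κ with hV
  have hKκ : 0 ≤ 4 * K' / κ := by positivity
  have hV1 : 1 ≤ V := by linarith
  have hKV : K' / V ^ 2 ≤ κ / 4 := by
    rw [div_le_iff₀ (by positivity)]
    have h1 : 4 * K' / κ ≤ V := by linarith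
    rw [div_le_iff₀ hκ] at h1
    have h2 : V ≤ V ^ 2 := by nlinarith
    have h3 : V * κ ≤ V ^ 2 * κ := by gcongr
    linarith
  set W : ℝ := 3 * V with hW
  have hW1 : 1 ≤ W := by linarith
  have hW0 : 0 < W := by linarith
  obtain ⟨C₁, hC₁, hC₁'⟩ := exists_dbound hF (4 * W)
  -- choice of δ
  set X : ℝ := C + 2 * (2 * Real.sqrt C + C ^ 2) + A * C ^ N with hX
  have x1 : 0 ≤ C := by linarith
  have x2 : 0 ≤ 2 * (2 * Real.sqrt C + C ^ 2) := by positivity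
  have x3 : 0 ≤ A * C ^ N := by positivity
  obtain ⟨δ, hδ, hδ1, hδX, hδm⟩ : ∃ δ : ℝ, 0 < δ ∧ δ ≤ 1 ∧ X * (4 * δ) ^ d ≤ ε ∧
      X * (4 * δ) ^ d ≤ m / 2 := by
    have hcont : Continuous fun δ : ℝ => X * (4 * δ) ^ d := by fun_prop
    have ht : Tendsto (fun δ : ℝ => X * (4 * δ) ^ d) (𝓝[>] 0) (𝓝 0) := by
      have := (hcont.tendsto 0).mono_left (nhdsWithin_le_nhds (s := Ioi 0))
      have e : X * (4 * 0) ^ d = 0 := by
        rw [mul_zero, zero_pow (by omega), mul_zero]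
      rwa [e] at this
    have h1 : ∀ᶠ δ in 𝓝[>] (0 : ℝ), X * (4 * δ) ^ d < ε := ht.eventually_lt_const hε
    have h1' : ∀ᶠ δ in 𝓝[>] (0 : ℝ), X * (4 * δ) ^ d < m / 2 :=
      ht.eventually_lt_const (by linarith)
    have h2 : ∀ᶠ δ in 𝓝[>] (0 : ℝ), δ ∈ Ioo (0 : ℝ) 1 := Ioo_mem_nhdsGT one_pos
    obtain ⟨δ, a, b, c⟩ := (h1.and (h1'.and h2)).exists
    exact ⟨δ, c.1, c.2.le, a.le, b.le⟩
  have hp : 0 ≤ (4 * δ) ^ d := by positivity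
  have y1 : C * (4 * δ) ^ d ≤ ε := (mul_le_mul_of_nonneg_right (by linarith) hp).trans hδX
  have y1m : C * (4 * δ) ^ d ≤ m / 2 := (mul_le_mul_of_nonneg_right (by linarith) hp).trans hδm
  have y2 : 2 * (2 * Real.sqrt C + C ^ 2) * (4 * δ) ^ d ≤ ε :=
    (mul_le_mul_of_nonneg_right (by linarith) hp).trans hδX
  have y3 : A * C ^ N * (4 * δ) ^ d ≤ ε :=
    (mul_le_mul_of_nonneg_right (by linarith) hp).trans hδX
  -- choice of t
  set Y : ℝ := (1 + 4 * W) ^ N * (4 * δ) ^ d * (24 * W) ^ d * ((3 * C * B + C₁) * δ⁻¹) ^ d with hY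
  set Z : ℝ := C₀ * (4 * ((B * (1 + (δ / 4)⁻¹) ^ 2) * (B * 4))) * K' ^ 2 * (4 * V / (δ / 4)) ^ d
    with hZ
  obtain ⟨t, ht, htτ, ht1, htW, htδ, htY, htZ⟩ : ∃ t : ℝ, 0 < t ∧ t < τ ∧ t ≤ 1 ∧
      W * t ≤ 1 / 8 ∧ 16 * W ^ 3 * t ^ 2 ≤ δ / 2 ∧ Y * t ≤ ε ∧ t * Z ≤ κ / 4 := by
    have h1 : ∀ᶠ t in 𝓝[>] (0 : ℝ), t ∈ Ioo (0 : ℝ) τ := Ioo_mem_nhdsGT hτ
    have h2 : ∀ᶠ t in 𝓝[>] (0 : ℝ), t ∈ Ioo (0 : ℝ) 1 := Ioo_mem_nhdsGT one_pos
    have hlim : ∀ {g : ℝ → ℝ} (_ : Continuous g) (_ : g 0 = 0) {c : ℝ} (_ : 0 < c),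
        ∀ᶠ t in 𝓝[>] (0 : ℝ), g t < c := by
      intro g hg h0 c hc
      have := (hg.tendsto 0).mono_left (nhdsWithin_le_nhds (s := Ioi 0))
      rw [h0] at this
      exact this.eventually_lt_const hc
    have h3 := hlim (g := fun t => W * t) (by fun_prop) (by simp) (c := 1 / 8) (by norm_num)
    have h4 := hlim (g := fun t => 16 * W ^ 3 * t ^ 2) (by fun_prop) (by simp) (c := δ / 2)
      (by positivity)
    have h5 := hlim (g := fun t => Y * t) (by fun_prop) (by simp) hε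
    have h6 := hlim (g := fun t => t * Z) (by fun_prop) (by simp) (c := κ / 4) (by positivity)
    obtain ⟨t, a, b, c, e, f, g⟩ := (h1.and (h2.and (h3.and (h4.and (h5.and h6))))).exists
    exact ⟨t, a.1, a.2, b.2.le, c.le, e.le, f.le, g.le⟩
  have hadm := cutd_admissible hF hC hm hmF hW0 hδ ht y1m
  refine ⟨t, ⟨ht, htτ⟩, cutd F₀ W δ t, hadm, ⟨cutd_le hF W δ t, ?_, ?_, ?_⟩, ?_⟩
  · intro m M E H x hx
    exact cutd_hydro hF hC hW0 hδ ht hadm y1 y2 hx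
  · intro p hp x
    exact (cutd_Lp hF hC1 hC hA hW0 hδ ht hp x).trans y3
  · intro r hr1 hr
    exact (cutd_sobolev hF hB1 hB hC1 hC hW1 hC₁ hC₁' hδ hδ1 ht ht1 N hr1 hr).trans htY
  · intro T hT Q f hf hw hf0
    by_contra hcon
    push Not at hcon
    obtain ⟨hcon1, hcon2⟩ := hcon
    have hKs : ∀ s ∈ Ioc 0 t, ∀ x, ∫ v, f s x v * (1 + nsq v) ≤ K' := fun s hs x =>
      (hcon1 s hs x).trans (le_max_left _ _)
    have h0 : ∀ x v : Vec d, ‖x + t • v‖ < 2 * (δ / 4) * t → ‖v‖ < 2 * V → f 0 x v = 0 := by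
      intro x v hx hv
      rw [hf0]
      unfold cutd
      rw [bu_eq_one hδ hδ1 ht hV1 hW htW htδ hx hv, sub_self, mul_zero]
    obtain ⟨x, hx⟩ := vac_core hf hC₀ hw hB (a := δ / 4) (by positivity) (by linarith) ht hV1 hT h0 hKs
    rw [← hZ] at hx
    have := hcon2 x
    linarith

end Pool.Agent.H25.Kin
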